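import Pool.Agent.Lib.MP_60ec62_ag.DF.Stm2

/-!
The statement about realisations: a vector space with a Frobenius, cycle classes and an action of
correspondences.
-/

noncomputable section

namespace Pool.Agent.Lib.MP_60ec62_ag.DL.Stm

/-- The image of a subvariety under the map that raises all coordinates to the power `p`. -/
def tw {K σ : Type} [Field K] (p : ℕ) (P : PrimeSpectrum (MvPolynomial σ K)) :
    PrimeSpectrum (MvPolynomial σ K) :=
  PrimeSpectrum.comap (MvPolynomial.expand p).toRingHom P

/-- The classes of the integral cycles with support in `S` that are invariant under `τ`. -/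
def InvCl {α V : Type} [AddCommGroup V] (S : Set α) (τ : α → α) (cl : α → V) : Set V :=
  {v | ∃ c : α →₀ ℤ, ↑c.support ⊆ S ∧ c.mapDomain τ = c ∧ v = c.sum fun P r => r • cl P}

/-- The Frobenius pull-back of the class of the image of `P` is `p ^ cd P` times the class of
`P`. -/
def Compat {α E V : Type} [Field E] [AddCommGroup V] [Module E V] (p : ℕ) (S : Set α) (τ : α → α)
    (Fr : Module.End E V) (cl : α → V) (cd : α → ℕ) : Prop :=
  ∀ P ∈ S, cd (τ P) = cd P ∧ Fr (cl (τ P)) = (p : E) ^ cd P • cl P

/-- The generalised eigenvectors of `Fr ^ m` for the eigenvalue `p ^ (m i)` are combinations of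
classes of cycles of codimension `i` that are invariant under `τ ^ m`. -/
def Alg {α E V : Type} [Field E] [AddCommGroup V] [Module E V] (p : ℕ) (S : Set α) (τ : α → α)
    (Fr : Module.End E V) (cl : α → V) (cd : α → ℕ) : Prop :=
  ∀ m i k : ℕ, 0 < m → ∀ x, ((Fr ^ m - (p : E) ^ (m * i) • 1) ^ k) x = 0 →
    x ∈ Submodule.span E (InvCl {P ∈ S | cd P = i} τ^[m] cl)

/-- Let `S` be the subvarieties of `X`, `τ` the action of the Frobenius on them, `W` the cycles on
`X × X` rationally equivalent to zero, `T` the product subvarieties of `X × X`, `fst` the first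
projection and `gr j P` the graph of the `j`-th power of the Frobenius on `P`. For every vector
space with an endomorphism `Fr`, cycle classes and a compatible action of correspondences, the Tate
classes are algebraic. -/
def Tate {R R₂ : Type} [CommRing R] [CommRing R₂] (p : ℕ) (S : Set (PrimeSpectrum R))
    (τ : PrimeSpectrum R → PrimeSpectrum R)
    (W : Submodule ℚ (PrimeSpectrum R₂ → ℚ)) (T : Set (PrimeSpectrum R₂))
    (fst : PrimeSpectrum R₂ → PrimeSpectrum R) (gr : ℕ → PrimeSpectrum R → PrimeSpectrum R₂) :
    Prop :=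
  ∀ (E V : Type) [Field E] [CharZero E] [AddCommGroup V] [Module E V] (Fr : Module.End E V)
    (cl : PrimeSpectrum R → V) (cd : PrimeSpectrum R → ℕ)
    (act : PrimeSpectrum R₂ → Module.End E V), Kills W act →
    (∀ Q ∈ T, ∀ x, ∃ c : E, act Q x = c • cl (fst Q)) →
    (∀ j, ∑ᶠ P ∈ {P | Minimal (· ∈ S) P}, act (gr j P) = Fr ^ j) →
    Compat p S τ Fr cl cd → Alg p S τ Fr cl cd

end Pool.Agent.Lib.MP_60ec62_ag.DL.Stm
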