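import Pool.Agent.Lib.MP_60ec62_ag.DF.Frob
import Pool.Agent.Lib.MP_60ec62_ag.DL.IsoG
import Pool.Agent.Lib.MP_60ec62_ag.DL.Prod
import Pool.Agent.Lib.MP_60ec62_ag.DL.EG

/-!
Product subvarieties.
-/

set_option linter.unusedSectionVars false
set_option linter.unusedVariables false

noncomputable section

namespace Pool.Agent.Lib.MP_60ec62_ag.DL

open MvPolynomial

variable {K : Type} [Field K] [IsAlgClosed K] {p q : ℕ} [Fact p.Prime] [CharP K p]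
  {ι κ ι' τ : Type} [Finite ι] [Finite κ] [Finite ι'] [Finite τ]

variable {M : Set ι} {M' : Set κ} {Y : Set (ι → K)} {Y' : Set (κ → K)} {Γ : Set (Au K ι)}
  {Γ' : Set (Au K κ)} {P : Pr K ι} {Q : Pr K κ} {c : Cy K ι}

namespace RectA

open Classical in
/-- Substitution of the marked coordinates of a point. -/
def sb (M : Set ι) (y : ι → K) : MvPolynomial ι K →ₐ[K] MvPolynomial ι K :=
  aeval fun i => if i ∈ M then C (y i) else X i

lemma eval_alg (φ : MvPolynomial ι K →ₐ[K] MvPolynomial κ K) (x : κ → K) (f : MvPolynomial ι K) :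
    eval (fun i => eval x (φ (X i))) f = eval x (φ f) := by
  induction f using MvPolynomial.induction_on with
  | C a =>
    have : φ (C a) = C a := φ.commutes a
    rw [this, eval_C, eval_C]
  | add f g hf hg => rw [map_add, map_add, map_add, hf, hg]
  | mul_X f i hf => rw [map_mul, map_mul, map_mul, hf, eval_X]

lemma eval_sb (M : Set ι) (x y : ι → K) (f : MvPolynomial ι K) :
    eval x (sb M y f) = eval (mix M x y) f := by
  rw [← eval_alg]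
  congr 2
  funext i
  by_cases h : i ∈ M
  · rw [mix_of_mem h, sb, aeval_X, if_pos h, eval_C]
  · rw [mix_of_not_mem h, sb, aeval_X, if_neg h, eval_X]

lemma eval_sb' (M : Set ι) (x y : ι → K) (f : MvPolynomial ι K) :
    eval y (sb Mᶜ x f) = eval (mix M x y) f := by
  rw [eval_sb, mix_compl]

lemma mix_self (M : Set ι) (x : ι → K) : mix M x x = x := by
  funext i
  by_cases h : i ∈ M
  · rw [mix_of_mem h]
  · rw [mix_of_not_mem h]

lemma mem_of_vanish {f : MvPolynomial ι K} (h : ∀ x ∈ Vp P, eval x f = 0) : f ∈ P.asIdeal :=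
  mem_hat_univ P f fun x _ hx => h x hx

/-- Vanishing on mixed points passes to the closure. -/
lemma vanish_mix {Z : Set (ι → K)} (hZ : Hat.vI Z ≤ P.asIdeal) {f : MvPolynomial ι K}
    (hf : ∀ x ∈ Z, ∀ y ∈ Z, eval (mix M x y) f = 0) {x y : ι → K} (hx : x ∈ Vp P)
    (hy : y ∈ Vp P) : eval (mix M x y) f = 0 := by
  rw [← eval_sb']
  refine hy _ (hZ (Hat.mem_vI.2 fun y' hy' => ?_))
  rw [eval_sb', ← eval_sb]
  refine hx _ (hZ (Hat.mem_vI.2 fun x' hx' => ?_))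
  rw [eval_sb]
  exact hf x' hx' y' hy'

/-- The set of mixed points of a subvariety. -/
def mxs (M : Set ι) (P : Pr K ι) : Set (ι → K) := {z | ∃ x ∈ Vp P, ∃ y ∈ Vp P, z = mix M x y}

lemma mem_vI_mxs {f : MvPolynomial ι K} :
    f ∈ Hat.vI (mxs M P) ↔ ∀ x ∈ Vp P, ∀ y ∈ Vp P, eval (mix M x y) f = 0 := by
  rw [Hat.mem_vI]
  constructor
  · exact fun h x hx y hy => h _ ⟨x, hx, y, hy, rfl⟩
  · rintro h _ ⟨x, hx, y, hy, rfl⟩
    exact h x hx y hy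

lemma vI_mxs_le : Hat.vI (mxs M P) ≤ P.asIdeal := fun f hf =>
  mem_of_vanish fun x hx => by
    have := mem_vI_mxs.1 hf x hx x hx
    rwa [mix_self] at this

lemma vI_mxs_prime : (Hat.vI (mxs M P)).IsPrime := by
  refine ⟨fun h => P.isPrime.ne_top (top_le_iff.1 (h ▸ vI_mxs_le)), fun {f g} hfg => ?_⟩
  by_contra H
  obtain ⟨hf, hg⟩ := not_or.1 H
  rw [mem_vI_mxs] at hf hg hfg
  push Not at hf hg
  obtain ⟨x₁, hx₁, y₁, hy₁, hf⟩ := hf
  obtain ⟨x₂, hx₂, y₂, hy₂, hg⟩ := hg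
  have h1 : sb M y₁ f * sb M y₂ g ∈ P.asIdeal := by
    refine mem_of_vanish fun x hx => ?_
    have h2 : sb Mᶜ x f * sb Mᶜ x g ∈ P.asIdeal := by
      refine mem_of_vanish fun y hy => ?_
      rw [map_mul, eval_sb', eval_sb', ← map_mul]
      exact hfg x hx y hy
    rw [map_mul, eval_sb, eval_sb, ← eval_sb', ← eval_sb']
    rcases P.isPrime.mem_or_mem h2 with h3 | h3
    · rw [hy₁ _ h3, zero_mul]
    · rw [hy₂ _ h3, mul_zero]
  rcases P.isPrime.mem_or_mem h1 with h3 | h3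
  · exact hf (by rw [← eval_sb]; exact hx₁ _ h3)
  · exact hg (by rw [← eval_sb]; exact hx₂ _ h3)

end RectA

lemma rect_compl : Rect Mᶜ P ↔ Rect M P := by
  refine ⟨fun h x hx y hy => ?_, fun h x hx y hy => ?_⟩
  · rw [← mix_compl]
    exact h y hy x hx
  · rw [mix_compl]
    exact h y hy x hx

lemma SmR_compl : SmR Mᶜ Γ Y = SmR M Γ Y := by
  simp only [SmR, rect_compl]

lemma rect_of_dense (hP : P ∈ hat Y)
    (h : ∀ x ∈ Y, x ∈ Vp P → ∀ y ∈ Y, y ∈ Vp P → mix M x y ∈ Vp P) : Rect M P := by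
  intro x hx y hy f hf
  refine RectA.vanish_mix (Z := Y ∩ Vp P) (fun g hg => hP g fun z hz hzP => ?_)
    (fun x' hx' y' hy' => h x' hx'.1 hx'.2 y' hy'.1 hy'.2 f hf) hx hy
  exact Hat.mem_vI.1 hg z ⟨hz, hzP⟩

lemma rect_of_minimal {Z : Set (ι → K)} (hZ : ∀ x ∈ Z, ∀ y ∈ Z, mix M x y ∈ Z)
    (hP : P.asIdeal ∈ (Hat.vI Z).minimalPrimes) : Rect M P := by
  have h1 : Hat.vI Z ≤ Hat.vI (RectA.mxs M P) := fun f hf =>
    RectA.mem_vI_mxs.2 fun x hx y hy =>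
      RectA.vanish_mix hP.1.2 (fun x' hx' y' hy' => Hat.mem_vI.1 hf _ (hZ x' hx' y' hy')) hx hy
  have h2 := hP.2 ⟨RectA.vI_mxs_prime, h1⟩ RectA.vI_mxs_le
  exact fun x hx y hy f hf => RectA.mem_vI_mxs.1 (h2 hf) x hx y hy

lemma Rect.dv {w z : Pr K ι} {t : MvPolynomial ι K} (h : Rect M w) (ht : Unm M t)
    (hz : dv K w t z ≠ 0) : Rect M z := by
  obtain ⟨h1, h2, h3, h4⟩ := dv_supp hz
  refine rect_of_minimal (Z := {x ∈ Vp w | eval x t = 0}) (fun x hx y hy => ⟨h x hx.1 y hy.1, ?_⟩)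
    ⟨⟨z.isPrime, fun f hf => RectA.mem_of_vanish fun x hx => ?_⟩, fun u hu huz => ?_⟩
  · rw [ht _ x fun i hi => mix_of_not_mem hi x y]
    exact hx.2
  · exact Hat.mem_vI.1 hf x ⟨Vp_anti h1.le hx, hx t h2⟩
  · have h5 : w < ⟨u, hu.1⟩ := by
      refine lt_of_le_of_ne (fun f hf => hu.2 (Hat.mem_vI.2 fun x hx => hx.1 f hf)) fun e => h3 ?_
      rw [e]
      exact hu.2 (Hat.mem_vI.2 fun x hx => hx.2)
    have h6 := dm_lt (K := K) h5
    have h7 : (⟨u, hu.1⟩ : Pr K ι) = z := eq_of_le_of_dm_le (K := K) huz (by omega)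
    rw [← h7]

lemma Rect.extZ (h : Rect M P) (s : Set κ) : Rect (mL M κ) (extZ κ s P) := by
  intro x hx y hy
  rw [mem_Vp_extZ] at hx hy ⊢
  refine ⟨?_, fun j hj => ?_⟩
  · have e : mix (mL M κ) x y ∘ Sum.inl = mix M (x ∘ Sum.inl) (y ∘ Sum.inl) := by
      funext i
      by_cases hi : i ∈ M
      · rw [mix_of_mem hi, Function.comp_apply, mix_of_mem (inl_mem_mL.2 hi), Function.comp_apply]
      · rw [mix_of_not_mem hi, Function.comp_apply, mix_of_not_mem (mt inl_mem_mL.1 hi),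
          Function.comp_apply]
    rw [e]
    exact h _ hx.1 _ hy.1
  · rw [mix_of_not_mem inr_not_mem_mL]
    exact hx.2 j hj

lemma Rect.cm {φ : MvPolynomial ι K →ₐ[K] MvPolynomial κ K}
    (hφ : ∀ x y : κ → K, (fun i => eval (mix M' x y) (φ (X i))) =
      mix M (fun i => eval x (φ (X i))) fun i => eval y (φ (X i))) (h : Rect M' Q) :
    Rect M (cm φ Q) := by
  have h1 : ∀ x ∈ Vp Q, (fun i => eval x (φ (X i))) ∈ Vp (DL.cm φ Q) := fun x hx f hf => by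
    rw [RectA.eval_alg]
    exact hx _ hf
  refine rect_of_dense (Y := (fun x i => eval x (φ (X i))) '' Vp Q) (fun f hf => ?_) ?_
  · refine RectA.mem_of_vanish (P := Q) (f := φ f) fun x hx => ?_
    rw [← RectA.eval_alg]
    exact hf _ ⟨x, hx, rfl⟩ (h1 x hx)
  · rintro _ ⟨x, hx, rfl⟩ - _ ⟨y, hy, rfl⟩ -
    rw [← hφ]
    exact h1 _ (h x hx y hy)

lemma Rect.down {Q : Pr K (ι ⊕ κ)} (h : Rect (mL M κ) Q) : Rect M (down Q) := by
  refine Rect.cm (fun x y => ?_) h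
  funext i
  by_cases hi : i ∈ M
  · rw [mix_of_mem hi, rename_X, eval_X, eval_X, mix_of_mem (inl_mem_mL.2 hi)]
  · rw [mix_of_not_mem hi, rename_X, eval_X, eval_X, mix_of_not_mem (mt inl_mem_mL.1 hi)]

lemma rect_of_pts {π : (κ → K) → ι → K} (hQ : Q ∈ hat Y')
    (hY' : ∀ x ∈ Y', ∀ y ∈ Y', mix M' x y ∈ Y')
    (hπ : ∀ x ∈ Y', ∀ y ∈ Y', π (mix M' x y) = mix M (π x) (π y))
    (hp : ∀ x ∈ Y', x ∈ Vp Q ↔ π x ∈ Vp P) (h : Rect M P) : Rect M' Q := by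
  refine rect_of_dense hQ fun x hx hxQ y hy hyQ => (hp _ (hY' x hx y hy)).2 ?_
  rw [hπ x hx y hy]
  exact h _ ((hp x hx).1 hxQ) _ ((hp y hy).1 hyQ)

lemma single_mem_SmR (h1 : P ∈ hat Y) (h2 : Stable Γ P) (h3 : Rect M P) :
    Finsupp.single P 1 ∈ SmR M Γ Y :=
  Finsupp.single_mem_supported ℚ 1 ⟨h1, h2, h3⟩

lemma SmR_supp (hc : c ∈ SmR M Γ Y) (h : c P ≠ 0) : P ∈ hat Y ∧ Stable Γ P ∧ Rect M P := by
  by_contra H
  exact h ((Finsupp.mem_supported' ℚ c).1 hc P H)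

lemma SmR_mono {Y₁ : Set (ι → K)} (h : Y ⊆ Y₁) : SmR M Γ Y ≤ SmR M Γ Y₁ :=
  Finsupp.supported_mono fun _ hP => ⟨hat_mono h hP.1, hP.2⟩

lemma rs_SmR (W : Set (ι → K)) (hc : c ∈ SmR M Γ Y) : rs W c ∈ SmR M Γ W := by
  refine mem_of_singles fun P hP => ?_
  by_cases h : P ∈ hat W
  · rw [flt_apply_of_mem h] at hP
    exact single_mem_SmR h (SmR_supp hc hP).2.1 (SmR_supp hc hP).2.2
  · exact absurd (flt_apply_of_not_mem h c) hP

lemma flt_SmR (S : Set (Pr K ι)) (hc : c ∈ SmR M Γ Y) : flt S c ∈ SmR M Γ Y := by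
  refine mem_of_singles fun P hP => ?_
  by_cases h : P ∈ S
  · rw [flt_apply_of_mem h] at hP
    exact single_mem_SmR (SmR_supp hc hP).1 (SmR_supp hc hP).2.1 (SmR_supp hc hP).2.2
  · exact absurd (flt_apply_of_not_mem h c) hP

/-- Transport along a map of primes. -/
lemma map_SmR {e : Pr K ι → Pr K κ}
    (h : ∀ P ∈ hat Y, Stable Γ P → Rect M P → e P ∈ hat Y' ∧ Stable Γ' (e P) ∧ Rect M' (e P))
    (hc : c ∈ SmR M Γ Y) : Finsupp.mapDomain e c ∈ SmR M' Γ' Y' := by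
  classical
  refine mem_of_singles fun Q hQ => ?_
  obtain ⟨P, hP, rfl⟩ :=
    Finset.mem_image.1 (Finsupp.mapDomain_support (Finsupp.mem_support_iff.2 hQ))
  obtain ⟨h1, h2, h3⟩ := SmR_supp hc (Finsupp.mem_support_iff.1 hP)
  obtain ⟨k1, k2, k3⟩ := h P h1 h2 h3
  exact single_mem_SmR k1 k2 k3

variable {Φ : (ι → K) → κ → K} {Ψ : (κ → K) → ι → K} {e : Pr K ι → Pr K κ}

lemma IsoData.rect (he : IsoData Y Y' Φ e) (h : RegIso Y Y' Φ Ψ) (hM : MSet p M Y)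
    (hΦ : MMap M M' Y Φ) (hP : P ∈ hat Y) (hr : Rect M P) : Rect M' (e P) := by
  refine rect_of_dense (he.mem P hP) fun x hx hxP y hy hyP => ?_
  have hx' := h.maps' hx
  have hy' := h.maps' hy
  rw [← h.right x hx] at hxP ⊢
  rw [← h.right y hy] at hyP ⊢
  rw [← hΦ.mix hM hx' hy', he.pts P hP _ (hM.mix _ hx' _ hy')]
  exact hr _ ((he.pts P hP _ hx').1 hxP) _ ((he.pts P hP _ hy').1 hyP)

lemma IsoData.map_SmR (he : IsoData Y Y' Φ e) (h : RegIso Y Y' Φ Ψ) (hM : MSet p M Y)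
    (hΦ : MMap M M' Y Φ) (hY' : StSet Γ' Y') (hm : Moves Γ Γ' Y Φ) (hc : c ∈ SmR M Γ Y) :
    Finsupp.mapDomain e c ∈ SmR M' Γ' Y' :=
  DL.map_SmR (fun P h1 h2 h3 => ⟨he.mem P h1, he.stable h hY' hm h1 h2, he.rect h hM hΦ h1 h3⟩) hc

theorem eg_rect (hY : LC Y) (hΓ : Conn Γ) (t : MvPolynomial ι K) (n d : Pr K ι → MvPolynomial ι K)
    (ht : Unm M t)
    (hnd : ∀ z ∈ hat Y, Stable Γ z → t ∈ z.asIdeal →
      n z ∉ z.asIdeal ∧ d z ∉ z.asIdeal ∧ Unm M (n z) ∧ Unm M (d z))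
    (hχ : ∀ γ ∈ Γ, ∃ c ≠ 0, γ t = C c * t ∧
      ∀ z ∈ hat Y, Stable Γ z → t ∈ z.asIdeal → SemiInv γ c z (n z) (d z))
    (hc : c ∈ SmR M Γ Y) : rs Y (GE t n d c) ∈ SmR M Γ {x ∈ Y | eval x t = 0} := by
  refine (show SmR M Γ Y ≤ (SmR M Γ {x ∈ Y | eval x t = 0}).comap (rs Y ∘ₗ GE t n d) from ?_) hc
  intro c hc
  refine mem_of_singles fun P hP0 => ?_
  obtain ⟨hPY, hP, hsm⟩ := SmR_supp hc hP0
  rw [Submodule.mem_comap, LinearMap.comp_apply]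
  refine mem_of_singles fun Q hQ => ?_
  have hQY : Q ∈ hat Y := by
    by_contra h
    exact hQ (flt_apply_of_not_mem h _)
  rw [flt_apply_of_mem hQY] at hQ
  by_cases ht' : t ∈ P.asIdeal
  · rw [GE_single _ _ _ P ht'] at hQ
    obtain ⟨hn, hd, un, ud⟩ := hnd P hPY hP ht'
    refine single_mem_SmR ((mem_hat_zero hY).2 ⟨hQY, (EG.lt_of_sub_ne hQ).le ht'⟩)
      (hΓ.dv_stable hP hn hd (fun γ hγ => ?_) hQ) ?_
    · obtain ⟨c, hc, -, h⟩ := hχ γ hγ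
      exact ⟨c, hc, h P hPY hP ht'⟩
    · by_cases h1 : dv K P (n P) Q = 0
      · refine hsm.dv ud fun h2 => hQ ?_
        rw [Finsupp.sub_apply, h1, h2, sub_zero]
      · exact hsm.dv un h1
  · rw [GE_single' _ _ _ P ht'] at hQ
    refine single_mem_SmR ((mem_hat_zero hY).2 ⟨hQY, (dv_supp hQ).2.1⟩)
      (hΓ.dv_stable hP ht' (EG.one_notMem P) (fun γ hγ => ?_) (by rwa [dv_one, sub_zero]))
      (hsm.dv ht hQ)
    obtain ⟨c, hc, h, -⟩ := hχ γ hγ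
    exact ⟨c, hc, EG.semiInv_one h P⟩

end Pool.Agent.Lib.MP_60ec62_ag.DL
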