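import Pool.Agent.Lib.MP_60ec62_ag.DF.Two

/-!
Graphs of Frobenius.
-/

noncomputable section

namespace Pool.Agent.Lib.MP_60ec62_ag.DL

open MvPolynomial

namespace Diag

variable {K : Type} [Field K] {n l q : ℕ} {α : Type} {D : Type} [CommRing D]

/-- The generic upper triangular matrix. -/
def gb (D : Type) [CommRing D] (a : α) :
    Matrix (Fin n) (Fin n) (MvPolynomial (α × (Fin n × Fin n)) D) :=
  Matrix.of fun b c => if b ≤ c then X (a, (b, c)) else 0

lemma gb_tri (a : α) : (gb (n := n) D a).BlockTriangular id := fun _ _ h =>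
  if_neg (not_le.2 h)

lemma gb_det [IsDomain D] (a : α) : (gb (n := n) D a).det ≠ 0 := by
  rw [Matrix.det_of_isUpperTriangular (gb_tri a)]
  exact Finset.prod_ne_zero_iff.2 fun i _ => by simp [gb]

lemma gr_C (Q : ℕ) (x : Stm.Rg K n α →+* D) (c : K) : Stm.grHom Q x (C c) = C (x (C c)) := by
  simp [Stm.grHom]

lemma gr_inl (Q : ℕ) (x : Stm.Rg K n α →+* D) (a : α) :
    (Stm.g K n (Sum.inl a : α ⊕ α)).map (Stm.grHom Q x) = (Stm.g K n a).map (C.comp x) := by
  refine Matrix.ext fun r c => ?_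
  simp [Stm.grHom, Stm.g]

lemma gr_inr {Q : ℕ} {F : Stm.Rg K n α →+* Stm.Rg K n α} (hF : ∀ t, F t = t ^ Q)
    (x : Stm.Rg K n α →+* D) (a : α) :
    (Stm.g K n (Sum.inr a : α ⊕ α)).map (Stm.grHom Q x) =
      (Stm.g K n a).map (C.comp (x.comp F)) * gb D a := by
  refine Matrix.ext fun r c => ?_
  simp only [Stm.grHom, Stm.g, Matrix.map_apply, Matrix.of_apply, eval₂Hom_X', Sum.elim_inr,
    Matrix.mul_apply, gb, RingHom.comp_apply, hF, map_pow, mul_ite, mul_zero]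
  rw [← Finset.sum_filter]
  exact Finset.sum_congr (by ext b; simp) fun _ _ => rfl

lemma g_mv (β : α → Matrix (Fin n) (Fin n) K) (a : α) :
    (Stm.g K n a).map (Stm.mv β) = Stm.g K n a * (β a).map C := by
  refine Matrix.ext fun r c => ?_
  simp [Stm.g, StmB.mv_X, Matrix.mul_apply]

lemma hom_ext {φ ψ : Stm.Rg K n α →+* D} (h1 : ∀ c, φ (C c) = ψ (C c))
    (h2 : ∀ a, (Stm.g K n a).map φ = (Stm.g K n a).map ψ) : φ = ψ :=
  MvPolynomial.ringHom_ext h1 fun v => congrFun (congrFun (h2 v.1) v.2.1) v.2.2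

lemma map_comp' {R S T : Type} [CommRing R] [CommRing S] [CommRing T] (φ : R →+* S) (ψ : S →+* T)
    (M : Matrix (Fin n) (Fin n) R) : M.map (ψ.comp φ) = (M.map φ).map ψ := rfl

lemma stab_gen {Q : ℕ} {F : Stm.Rg K n α →+* Stm.Rg K n α} (hF : ∀ t, F t = t ^ Q) {FK : K →+* K}
    (hK : ∀ t, FK t = t ^ Q) {β : α ⊕ α → Matrix (Fin n) (Fin n) K}
    (hβ : ∀ a, (β a).BlockTriangular id ∧ (β a).det ≠ 0) (x : Stm.Rg K n α →+* D) (x' : D →+* D)
    (hx : ∀ t, x' (x t) = x (Stm.mv (fun a => β (Sum.inl a)) t)) {f : Stm.Rg K n (α ⊕ α)}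
    (hf : Stm.grHom Q x f = 0) : Stm.grHom Q x (Stm.mv β f) = 0 := by
  let cst : K →+* MvPolynomial (α × (Fin n × Fin n)) D := C.comp (x.comp C)
  let σ : MvPolynomial (α × (Fin n × Fin n)) D →+* MvPolynomial (α × (Fin n × Fin n)) D :=
    eval₂Hom (C.comp x') fun v => ((((β (Sum.inl v.1)).map FK)⁻¹.map cst * gb _ v.1 *
      (β (Sum.inr v.1)).map cst : Matrix _ _ _) v.2.1 v.2.2)
  have h1 : ∀ t, σ (C (x t)) = C (x (Stm.mv (fun a => β (Sum.inl a)) t)) := fun t => by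
    simp only [σ, eval₂Hom_C, RingHom.comp_apply, hx]
  have hU : ∀ a, ((β (Sum.inl a)).map FK).det ≠ 0 := fun a => by
    rw [← RingHom.mapMatrix_apply, ← RingHom.map_det]
    exact (map_ne_zero FK).2 (hβ _).2
  have h2 : ∀ a, (gb _ a).map σ =
      ((β (Sum.inl a)).map FK)⁻¹.map cst * gb _ a * (β (Sum.inr a)).map cst := fun a => by
    refine Matrix.ext fun b c => ?_
    by_cases h : b ≤ c
    · simp only [gb, Matrix.map_apply, Matrix.of_apply, if_pos h, σ, eval₂Hom_X']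
    · have ht := (((Final.tri_inv ((hβ (Sum.inl a)).1.map FK) (hU a)).map cst).mul
        (gb_tri a)).mul ((hβ (Sum.inr a)).1.map cst)
      rw [ht (not_le.1 h)]
      simp [gb, h]
  have h3 : (Stm.grHom Q x).comp (Stm.mv β) = σ.comp (Stm.grHom Q x) := by
    refine hom_ext (fun c => ?_) ?_
    · rw [RingHom.comp_apply, RingHom.comp_apply, StmB.mv_C, gr_C, h1, StmB.mv_C]
    have h4 : ∀ a, ((β a).map C).map (Stm.grHom Q x) = (β a).map cst := fun a =>
      Matrix.ext fun r c => gr_C Q x _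
    rintro (a | a)
    · have e : σ.comp (C.comp x) = (C.comp x).comp (Stm.mv fun a => β (Sum.inl a)) :=
        RingHom.ext h1
      rw [map_comp', map_comp', g_mv, Matrix.map_mul, h4, gr_inl, ← map_comp', e,
        map_comp' (Stm.mv _), g_mv, Matrix.map_mul]
      rfl
    · have e : σ.comp (C.comp (x.comp F)) =
          (C.comp (x.comp F)).comp (Stm.mv fun a => β (Sum.inl a)) := RingHom.ext fun t => by
        simp only [RingHom.comp_apply]
        rw [h1, hF, hF, map_pow (Stm.mv _)]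
      have e2 : ((β (Sum.inl a)).map C).map (C.comp (x.comp F)) =
          ((β (Sum.inl a)).map FK).map cst := Matrix.ext fun r c => by
        simp only [Matrix.map_apply, RingHom.comp_apply, cst]
        rw [hF, hK, map_pow C]
      rw [map_comp', map_comp', g_mv, Matrix.map_mul, h4, gr_inr hF, Matrix.map_mul, h2,
        ← map_comp', e, map_comp' (Stm.mv _), g_mv, Matrix.map_mul, e2]
      simp only [Matrix.mul_assoc]
      rw [← Matrix.mul_assoc (Matrix.map (Matrix.map _ FK) cst), ← Matrix.map_mul,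
        Matrix.mul_nonsing_inv _ (Ne.isUnit (hU a)), Matrix.map_one _ (map_zero _) (map_one _),
        Matrix.one_mul]
  rw [← RingHom.comp_apply, h3, RingHom.comp_apply, hf, map_zero]

/-- The kernel of the graph map is stable under the triangular matrices. -/
lemma stab {Q : ℕ} {F : Stm.Rg K n α →+* Stm.Rg K n α} (hF : ∀ t, F t = t ^ Q) {FK : K →+* K}
    (hK : ∀ t, FK t = t ^ Q) {P : Pr K (α × (Fin n × Fin n))}
    (hP : Stm.Stab (Stm.Bor K n α) P) : Stm.Stab (Stm.Bor K n (α ⊕ α)) (Stm.graph Q P) := by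
  rintro _ ⟨β, hβ, rfl⟩ f hf
  exact stab_gen hF hK hβ (Ideal.Quotient.mk P.asIdeal) (Ideal.quotientMap P.asIdeal
    (Stm.mv fun a => β (Sum.inl a)) fun f hf => hP _ ⟨_, fun a => hβ _, rfl⟩ f hf)
    (fun _ => rfl) hf

lemma chain_iff {L : Type} [Field L] (φ : D →+* L) (s : Fin l → ℕ) (ρ : ℕ → ℕ → ℕ)
    (G : Fin (l + 1) → Matrix (Fin n) (Fin n) D) {y : Fin (l + 1) × (Fin n × Fin n) → L}
    (hy : ∀ a, matA y a = (G a).map φ) :
    Stm.Chain q s ρ G (RingHom.ker φ) ↔ y ∈ Dset q n s ρ := by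
  refine Iff.trans ?_ and_assoc.symm
  refine and_congr (forall_congr' fun a => ?_) (and_congr (forall_congr' fun a => ?_)
    (forall_congr' fun i => forall_congr' fun j => ?_))
  · rw [RingHom.mem_ker, RingHom.map_det, hy]
    rfl
  · refine forall_congr' fun i => forall_congr' fun j => forall_congr' fun _ =>
      forall_congr' fun _ => ?_
    rw [hy, hy, ← RingHom.mapMatrix_apply, ← RingHom.mapMatrix_apply, ← RingHom.map_adjugate,
      ← map_mul]
    rfl
  · rw [Final.rkM_le_iff]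
    refine forall_congr' fun u => forall_congr' fun v => forall_congr' fun _ =>
      forall_congr' fun _ => ?_
    rw [RingHom.mem_ker, RingHom.map_det, gramA, hy, hy]
    refine Eq.congr_left (congrArg _ (Matrix.ext fun r c => ?_))
    simp [Matrix.mul_apply]

lemma chains [IsDomain D] {p : ℕ} [Fact p.Prime] [CharP K p] (hp : IsPP p q) {Q : ℕ} (hQ : Q ≠ 0)
    {F : Stm.Rg K n (Fin (l + 1)) →+* Stm.Rg K n (Fin (l + 1))} (hF : ∀ t, F t = t ^ Q)
    {s : Fin l → ℕ} {ρ : ℕ → ℕ → ℕ} (x : Stm.Rg K n (Fin (l + 1)) →+* D)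
    (hx : Stm.Chain q s ρ (Stm.g K n) (RingHom.ker x)) :
    Stm.Chain q s ρ (Stm.g K n ∘ Sum.inl) (RingHom.ker (Stm.grHom Q x)) ∧
      Stm.Chain q s ρ (Stm.g K n ∘ Sum.inr) (RingHom.ker (Stm.grHom Q x)) := by
  obtain ⟨L, _, i, hi⟩ : ∃ (L : Type) (_ : Field L)
      (i : MvPolynomial (Fin (l + 1) × (Fin n × Fin n)) D →+* L), ∀ t, i t = 0 ↔ t = 0 :=
    ⟨FractionRing (MvPolynomial (Fin (l + 1) × (Fin n × Fin n)) D), inferInstance, algebraMap _ _,
      fun t => map_eq_zero_iff _ (IsFractionRing.injective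
        (MvPolynomial (Fin (l + 1) × (Fin n × Fin n)) D) _)⟩
  have : CharP L p := charP_of_injective_ringHom (i.comp (C.comp (x.comp C))).injective p
  have k0 : RingHom.ker (Stm.grHom Q x) = RingHom.ker (i.comp (Stm.grHom Q x)) :=
    Ideal.ext fun f => (hi _).symm
  have k1 : RingHom.ker (i.comp (C.comp x)) = RingHom.ker x := Ideal.ext fun f =>
    (hi _).trans C_eq_zero
  have k2 : RingHom.ker (i.comp (C.comp (x.comp F))) = RingHom.ker x :=
    Ideal.ext fun f => (hi _).trans (C_eq_zero.trans (by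
      rw [RingHom.comp_apply, hF, map_pow, pow_eq_zero_iff hQ]
      rfl))
  rw [k0]
  refine ⟨(chain_iff _ s ρ _ (y := fun v => i (C (x (X v)))) fun a => ?_).2
    ((chain_iff (i.comp (C.comp x)) s ρ _ fun a => rfl).1 (k1 ▸ hx)),
    (chain_iff (i.comp (Stm.grHom Q x)) s ρ (Stm.g K n ∘ Sum.inr)
      (y := fun v => i (Stm.grHom Q x (X (Sum.inr v.1, v.2)))) fun a => rfl).2 (Final.mem_of_mul hp (β := fun a => (gb _ a).map i)
        (fun a => ⟨(gb_tri a).map i, ?_⟩) (fun a => ?_)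
        ((chain_iff (i.comp (C.comp (x.comp F))) s ρ _
          (y := fun v => i (C (x (F (X v))))) fun a => rfl).1 (k2 ▸ hx)))⟩
  · rw [map_comp', Function.comp_apply, gr_inl]
    rfl
  · rw [← RingHom.mapMatrix_apply, ← RingHom.map_det, Ne, hi]
    exact gb_det a
  · change ((Stm.g K n (Sum.inr a)).map (Stm.grHom Q x)).map i = _
    rw [gr_inr hF, Matrix.map_mul]
    rfl

lemma gr_frac {Q : ℕ} {F : Stm.Rg K n α →+* Stm.Rg K n α} (hF : ∀ t, F t = t ^ Q)
    (x : Stm.Rg K n α →+* D) (a : α) : ∃ (d : Stm.Rg K n (α ⊕ α))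
      (N : Matrix (Fin n) (Fin n) (Stm.Rg K n (α ⊕ α))),
      Stm.grHom Q x d = C (x ((Stm.g K n a).det ^ Q)) ∧
      ∀ b c, b ≤ c → X (a, (b, c)) * Stm.grHom Q x d - Stm.grHom Q x (N b c) = 0 := by
  have e : (Stm.grHom Q x).mapMatrix ((Stm.g K n (Sum.inl a : α ⊕ α)).map (· ^ Q)) =
      (C.comp (x.comp F)).mapMatrix (Stm.g K n a) := Matrix.ext fun r c => by
    have h := congrFun (congrFun (gr_inl Q x a) r) c
    simp only [Matrix.map_apply, RingHom.comp_apply, RingHom.mapMatrix_apply, hF, map_pow] at h ⊢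
    rw [h]
  refine ⟨((Stm.g K n (Sum.inl a)).map (· ^ Q)).det,
    ((Stm.g K n (Sum.inl a)).map (· ^ Q)).adjugate * Stm.g K n (Sum.inr a), ?_, fun b c h => ?_⟩
  · rw [RingHom.map_det, e, ← RingHom.map_det, RingHom.comp_apply, RingHom.comp_apply, hF]
  · rw [RingHom.map_det, e, ← Matrix.map_apply (f := Stm.grHom Q _), Matrix.map_mul, gr_inr hF,
      ← RingHom.mapMatrix_apply (Stm.grHom Q _), RingHom.map_adjugate, e, RingHom.mapMatrix_apply,
      ← Matrix.mul_assoc, Matrix.adjugate_mul, Matrix.smul_mul, Matrix.one_mul, Matrix.smul_apply,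
      smul_eq_mul, gb, Matrix.of_apply, if_pos h, mul_comm, sub_self]

/-- The parametrisation of the graph. -/
def th (K : Type) [Field K] (n : ℕ) (α : Type) (Q : ℕ) : Stm.Rg K n (α ⊕ α) →ₐ[K]
    MvPolynomial ((α × (Fin n × Fin n)) ⊕ (α × (Fin n × Fin n))) K :=
  aeval fun v => Sum.elim (fun a => X (Sum.inl (a, v.2)))
    (fun a => ∑ b ∈ Finset.Iic v.2.2, X (Sum.inl (a, (v.2.1, b))) ^ Q *
      X (Sum.inr (a, (b, v.2.2)))) v.1

/-- The positions below the diagonal. -/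
def low (α : Type) (n : ℕ) : Set (α × (Fin n × Fin n)) := {v | v.2.2 < v.2.1}

lemma ev_th (Q : ℕ) (P : Pr K (α × (Fin n × Fin n))) (f : Stm.Rg K n (α ⊕ α)) :
    Prod.ev _ (low α n) P (th K n α Q f) = Stm.grHom Q (Ideal.Quotient.mk P.asIdeal) f := by
  have h : (Prod.ev _ (low α n) P).comp (th K n α Q).toRingHom =
      Stm.grHom Q (Ideal.Quotient.mk P.asIdeal) := by
    refine MvPolynomial.ringHom_ext (fun c => ?_) ?_
    · simp [Prod.ev, Stm.grHom]
    rintro ⟨a | a, r, c⟩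
    · simp [Prod.ev, Stm.grHom, th, Stm.g]
    · simp only [Prod.ev, Stm.grHom, th, Stm.g, RingHom.comp_apply, AlgHom.toRingHom_eq_coe,
        RingHom.coe_coe, aeval_X, Sum.elim_inr, map_sum, map_mul, map_pow, eval₂Hom_X',
        Sum.elim_inl, Matrix.of_apply]
      refine Finset.sum_congr rfl fun b hb => ?_
      rw [if_neg (show (a, (b, c)) ∉ low α n from not_lt.2 (Finset.mem_Iic.1 hb))]
  exact RingHom.congr_fun h f

lemma cm_th (Q : ℕ) (P : Pr K (α × (Fin n × Fin n))) :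
    cm (th K n α Q) (extZ _ (low α n) P) = Stm.graph Q P := by
  ext f
  rw [mem_cm, Prod.mem_extZ, ev_th]
  rfl

lemma dg_th {Q : ℕ} {F : Stm.Rg K n α →+* Stm.Rg K n α} (hF : ∀ t, F t = t ^ Q)
    {P : Pr K (α × (Fin n × Fin n))} (hP : ∀ a, (Stm.g K n a).det ∉ P.asIdeal) :
    dgA (th K n α Q) (extZ _ (low α n) P) = 1 := by
  refine dgA_eq_one' ?_
  have h1 : th K n α Q 1 ∉ (extZ _ (low α n) P).asIdeal := by
    rw [map_one]
    exact (Ideal.ne_top_iff_one _).1 (extZ _ (low α n) P).isPrime.ne_top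
  rintro (⟨a, r, c⟩ | ⟨a, b, c⟩)
  · exact ⟨X (Sum.inl a, (r, c)), 1, h1, by simp [th]⟩
  by_cases h : c < b
  · refine ⟨0, 1, h1, ?_⟩
    rw [map_one, map_zero, mul_one, sub_zero]
    exact Prod.X_mem.2 (show (a, (b, c)) ∈ low α n from h)
  obtain ⟨d, N, hd, hN⟩ := gr_frac hF (Ideal.Quotient.mk P.asIdeal) a
  refine ⟨N b c, d, fun h0 => ?_, ?_⟩
  · rw [Prod.mem_extZ, ev_th, hd, C_eq_zero, Ideal.Quotient.eq_zero_iff_mem] at h0
    exact hP a (P.isPrime.mem_of_pow_mem _ h0)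
  · rw [Prod.mem_extZ, map_sub, map_mul, ev_th, ev_th, Prod.ev_X,
      if_neg (show (a, (b, c)) ∉ low α n from h)]
    exact hN b c (not_lt.1 h)

lemma th_pf {p : ℕ} [Fact p.Prime] [CharP K p] (j : ℕ) :
    (th K n α (p ^ j)).comp (pf p (m2 α n)) = (pf p (mR _ _)).comp (th K n α (p ^ (j + 1))) := by
  refine MvPolynomial.algHom_ext ?_
  rintro ⟨a | a, r, c⟩
  · simp [pf, th, m2]
  · simp [pf, th, m2, sum_pow_char, mul_pow, pow_succ, pow_mul]

end Diag

variable {K : Type} [Field K] [IsAlgClosed K] {p q : ℕ} [Fact p.Prime] [CharP K p] {n l : ℕ}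
  {α : Type} [Finite α]

theorem FF_graph {P : Pr K (α × (Fin n × Fin n))} (hP : ∀ a, (Stm.g K n a).det ∉ P.asIdeal)
    (j : ℕ) : FF p (m2 α n) (Finsupp.single (Stm.graph (p ^ j) P) 1) =
      (p : ℚ) ^ {v : α × (Fin n × Fin n) | v.2.1 ≤ v.2.2}.ncard •
        Finsupp.single (Stm.graph (p ^ (j + 1)) P) (1 : ℚ) := by
  have h1 : ∀ i, pushA (Diag.th K n α (p ^ i)) (Finsupp.single (extZ _ (Diag.low α n) P) 1) =
      Finsupp.single (Stm.graph (p ^ i) P) 1 := fun i => by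
    rw [pushA_single, Diag.dg_th (iterateFrobenius_def p i) hP, Diag.cm_th, Nat.cast_one, one_smul]
  have h2 : (Diag.low α n)ᶜ = {v | v.2.1 ≤ v.2.2} := Set.ext fun v => by
    simp [Diag.low]
  have h3 := FF_extZ_mR (p := p) (Diag.low α n) P
  rw [← h1, ← h1, ← h2, ← map_smul, ← h3, FF, FF, ← LinearMap.comp_apply, ← LinearMap.comp_apply,
    ← pushA_comp, ← pushA_comp, Diag.th_pf]

omit [IsAlgClosed K] in
theorem graph_mem (hp : IsPP p q) {s : Fin l → ℕ} {ρ : ℕ → ℕ → ℕ}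
    {P : Pr K (Fin (l + 1) × (Fin n × Fin n))} (hP : P ∈ Stm.Sub K n q s ρ) (j : ℕ) :
    Stm.graph (p ^ j) P ∈ Stm.Sub₂ K n q s ρ := by
  have hF := iterateFrobenius_def (R := Stm.Rg K n (Fin (l + 1))) p j
  exact ⟨Diag.stab hF (iterateFrobenius_def p j) hP.1, Diag.chains hp
    (pow_ne_zero j (Fact.out : p.Prime).ne_zero) hF (Ideal.Quotient.mk P.asIdeal)
    (by rw [Ideal.mk_ker]; exact hP.2)⟩

end Pool.Agent.Lib.MP_60ec62_ag.DL
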