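import Pool.Agent.Lib.MP_60ec62_ag.DF.FDemB

/-!
Chains of adjacent flags.
-/

noncomputable section

namespace Pool.Agent.Lib.MP_60ec62_ag.DL.F

open MvPolynomial

variable {K : Type} [Field K] [IsAlgClosed K] {p q : ℕ} [Fact p.Prime] [CharP K p]

variable {n : ℕ}

namespace Dem

omit [IsAlgClosed K]

lemma reg_adj {ι : Type} {F : Subfield K} {Y : Set (ι → K)} {α : Type} [Fintype α] [DecidableEq α]
    {M : (ι → K) → Matrix α α K} (h : ∀ a b, RegF F Y fun x => M x a b) (a b : α) :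
    RegF F Y fun x => (M x).adjugate a b := by
  refine (RegF.det (M := fun x => (M x).updateRow b (Pi.single a 1)) fun i j => ?_).congr
    fun x _ => Matrix.adjugate_apply _ _ _
  refine (RegF.ite (i = b) (fun _ => RegF.ite (j = a) (fun _ => RegF.one) fun _ => RegF.zero)
    fun _ => h i j).congr fun x _ => ?_
  rw [Matrix.updateRow_apply, Pi.single_apply]

lemma reg_gram {l : ℕ} (Y : Set (Fin (l + 1) × (Fin n × Fin n) → K)) (a : Fin (l + 1))
    (i j : Fin n) : Reg Y fun x => gramA q x a i j :=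
  RegF.matMul (M := fun x => (matA x a).transpose) (N := fun x => (matA x 0).map (· ^ q))
    (fun _ _ => RegF.coord _) (fun _ _ => (RegF.coord _).pow q) i j

lemma relCl_rk {l : ℕ} (Y : Set (Fin (l + 1) × (Fin n × Fin n) → K)) (a : Fin (l + 1))
    (i j c : ℕ) : RelCl {x ∈ Y | rkM (gramA q x a) i j ≤ c} Y :=
  relCl_rank_le (F := kk K) (M := fun x => (gramA q x a).submatrix
    (Subtype.val : {a : Fin n // a.1 < i} → Fin n) (Subtype.val : {b : Fin n // b.1 < j} → Fin n))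
    (fun b d => reg_gram Y a b.1 d.1) c

lemma adj_iff {t : ℕ} {g g' : Matrix (Fin n) (Fin n) K} (hg : g.det ≠ 0) :
    Adj t g g' ↔ Pat t (g⁻¹ * g') := by
  refine forall_congr' fun i => forall_congr' fun j => forall_congr' fun _ =>
    forall_congr' fun _ => ?_
  rw [Matrix.inv_def, Matrix.smul_mul, Matrix.smul_apply, Ring.inverse_eq_inv', smul_eq_mul,
    mul_eq_zero, or_iff_right (inv_ne_zero hg)]

/-- Forget the last basis. -/
def ini {l : ℕ} (x : Fin (l + 1 + 1) × (Fin n × Fin n) → K) : Fin (l + 1) × (Fin n × Fin n) → K :=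
  fun c => x (c.1.castSucc, c.2)

/-- The coordinates of a chain: the shorter chain and the last change of basis. -/
def fw {l : ℕ} (x : Fin (l + 1 + 1) × (Fin n × Fin n) → K) :
    (Fin (l + 1) × (Fin n × Fin n)) ⊕ (Fin n × Fin n) → K :=
  Sum.elim (ini x) fun c => ((matA (ini x) (Fin.last l))⁻¹ * matA x (Fin.last (l + 1))) c.1 c.2

/-- The chain with the given coordinates. -/
def bw {l : ℕ} (z : (Fin (l + 1) × (Fin n × Fin n)) ⊕ (Fin n × Fin n) → K) :
    Fin (l + 1 + 1) × (Fin n × Fin n) → K := fun c =>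
  Fin.lastCases (motive := fun _ => K)
    ((matA (z ∘ Sum.inl) (Fin.last l) * mat (z ∘ Sum.inr)) c.2.1 c.2.2)
    (fun a => z (Sum.inl (a, c.2))) c.1

lemma ini_bw {l : ℕ} (z : (Fin (l + 1) × (Fin n × Fin n)) ⊕ (Fin n × Fin n) → K) :
    ini (bw z) = z ∘ Sum.inl := by
  funext c
  simp [ini, bw]

lemma last_bw {l : ℕ} (z : (Fin (l + 1) × (Fin n × Fin n)) ⊕ (Fin n × Fin n) → K) :
    matA (bw z) (Fin.last (l + 1)) = matA (z ∘ Sum.inl) (Fin.last l) * mat (z ∘ Sum.inr) := by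
  ext a b
  simp [matA, bw]

lemma mem_iff {l : ℕ} (s : Fin (l + 1) → ℕ) (ρ : Fin (l + 1 + 1) → ℕ → ℕ → ℕ)
    (x : Fin (l + 1 + 1) × (Fin n × Fin n) → K) (hx : (matA (ini x) (Fin.last l)).det ≠ 0) :
    x ∈ {x ∈ Cset (K := K) n s | ∀ a i j, rkM (gramA q x a) i j = ρ a i j} ↔
    fw x ∈ {z ∈ Eset n {y ∈ Cset (K := K) n (Fin.init s) |
        ∀ a i j, rkM (gramA q y a) i j = ρ a.castSucc i j} (s (Fin.last l)) |
      ∀ i j, rkM ((mat (z ∘ Sum.inr)).transpose * gramA q (z ∘ Sum.inl) (Fin.last l)) i j =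
        ρ (Fin.last (l + 1)) i j} := by
  have e1 : fw x ∘ Sum.inl = ini x := rfl
  have e2 : mat (fw x ∘ Sum.inr) =
      (matA (ini x) (Fin.last l))⁻¹ * matA x (Fin.last (l + 1)) := rfl
  have e3 : ((matA (ini x) (Fin.last l))⁻¹ * matA x (Fin.last (l + 1))).transpose *
      gramA q (ini x) (Fin.last l) = gramA q x (Fin.last (l + 1)) := by
    rw [gramA, ← Matrix.mul_assoc, ← Matrix.transpose_mul, ← Matrix.mul_assoc,
      Matrix.mul_nonsing_inv _ (Ne.isUnit hx), Matrix.one_mul]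
    rfl
  have e4 : ((matA (ini x) (Fin.last l))⁻¹ * matA x (Fin.last (l + 1))).det ≠ 0 ↔
      (matA x (Fin.last (l + 1))).det ≠ 0 := by
    rw [Matrix.det_mul, Matrix.det_nonsing_inv, Ring.inverse_eq_inv', mul_ne_zero_iff,
      and_iff_right (inv_ne_zero hx)]
  simp only [Set.mem_ofPred_eq, Eset, Cset, e1, e2, e3, e4, ← adj_iff hx]
  rw [Fin.forall_fin_succ' (P := fun a => (matA x a).det ≠ 0),
    Fin.forall_fin_succ' (P := fun a => Adj (s a) (matA x a.castSucc) (matA x a.succ)),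
    Fin.forall_fin_succ' (P := fun a => ∀ i j, rkM (gramA q x a) i j = ρ a i j)]
  exact ⟨fun ⟨⟨⟨a1, a2⟩, a3, a4⟩, a5, a6⟩ => ⟨⟨⟨⟨a1, a3⟩, a5⟩, a4, a2⟩, a6⟩,
    fun ⟨⟨⟨⟨a1, a3⟩, a5⟩, a4, a2⟩, a6⟩ => ⟨⟨⟨a1, a2⟩, a3, a4⟩, a5, a6⟩⟩

lemma reg_fw {l : ℕ} {Y : Set (Fin (l + 1 + 1) × (Fin n × Fin n) → K)}
    (h : ∀ x ∈ Y, (matA (ini x) (Fin.last l)).det ≠ 0) : RegMap Y fw := by
  rintro (c | c)
  · exact RegF.coord _
  · exact RegF.matMul (M := fun x => (matA (ini x) (Fin.last l))⁻¹)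
      (N := fun x => matA x (Fin.last (l + 1)))
      (RegF.matInv (M := fun x => matA (ini x) (Fin.last l)) (fun _ _ => RegF.coord _) h)
      (fun _ _ => RegF.coord _) c.1 c.2

lemma reg_bw {l : ℕ} (Y : Set ((Fin (l + 1) × (Fin n × Fin n)) ⊕ (Fin n × Fin n) → K)) :
    RegMap Y bw := by
  rintro ⟨a, c⟩
  induction a using Fin.lastCases with
  | last =>
    refine (RegF.matMul (M := fun z => matA (z ∘ Sum.inl) (Fin.last l))
      (N := fun z => mat (z ∘ Sum.inr)) (fun _ _ => RegF.coord _) (fun _ _ => RegF.coord _)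
      c.1 c.2).congr fun z _ => ?_
    simp [bw]
  | cast a =>
    refine (RegF.coord (Sum.inl (a, c))).congr fun z _ => ?_
    simp [bw]

lemma bw_fw {l : ℕ} (x : Fin (l + 1 + 1) × (Fin n × Fin n) → K)
    (hx : (matA (ini x) (Fin.last l)).det ≠ 0) : bw (fw x) = x := by
  have e1 : fw x ∘ Sum.inl = ini x := rfl
  have e2 : mat (fw x ∘ Sum.inr) =
      (matA (ini x) (Fin.last l))⁻¹ * matA x (Fin.last (l + 1)) := rfl
  funext ⟨a, c⟩
  induction a using Fin.lastCases with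
  | last =>
    have := last_bw (fw x)
    rw [e1, e2, ← Matrix.mul_assoc, Matrix.mul_nonsing_inv _ (Ne.isUnit hx), Matrix.one_mul] at this
    exact congrFun (congrFun this c.1) c.2
  | cast a => exact congrFun (ini_bw (fw x)) (a, c)

lemma fw_bw {l : ℕ} (z : (Fin (l + 1) × (Fin n × Fin n)) ⊕ (Fin n × Fin n) → K)
    (hz : (matA (z ∘ Sum.inl) (Fin.last l)).det ≠ 0) : fw (bw z) = z := by
  funext c
  rcases c with c | c
  · exact congrFun (ini_bw z) c
  · change ((matA (ini (bw z)) (Fin.last l))⁻¹ * matA (bw z) (Fin.last (l + 1))) c.1 c.2 = _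
    rw [ini_bw, last_bw, ← Matrix.mul_assoc, Matrix.nonsing_inv_mul _ (Ne.isUnit hz),
      Matrix.one_mul]
    rfl

end Dem

open Dem

omit [IsAlgClosed K] in
lemma lc_Cset {l : ℕ} (s : Fin l → ℕ) : LC (Cset (K := K) n s) := by
  have h1 : LC {x ∈ (Set.univ : Set (Fin (l + 1) × (Fin n × Fin n) → K)) |
      ∏ a, (matA x a).det ≠ 0} :=
    (RegF.prod (F := ⊤) _ fun a _ =>
      RegF.det (M := fun x => matA x a) fun _ _ => RegF.coord _).lc_ne LC.univ
  have h2 : RelCl {x ∈ (Set.univ : Set (Fin (l + 1) × (Fin n × Fin n) → K)) |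
      ∀ a : Fin l, ∀ i j : Fin n, ∀ _ : j < i, ∀ _ : ¬ (i.1 = s a ∧ j.1 + 1 = s a),
        ((matA x a.castSucc).adjugate * matA x a.succ) i j = 0} Set.univ :=
    relCl_forall fun a => relCl_forall fun i => relCl_forall fun j => relCl_forall fun _ =>
      relCl_forall fun _ => (RegF.matMul (F := ⊤) (M := fun x => (matA x a.castSucc).adjugate)
        (N := fun x => matA x a.succ)
        (reg_adj (M := fun x => matA x a.castSucc) fun _ _ => RegF.coord _)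
        (fun _ _ => RegF.coord _) i j).relCl_zero
  have e : Cset (K := K) n s = _ ∩ _ := Set.ext fun x =>
    ⟨fun hx => (⟨⟨trivial, Finset.prod_ne_zero_iff.2 fun a _ => hx.1 a⟩, trivial, hx.2⟩ :
      x ∈ {x ∈ (Set.univ : Set (Fin (l + 1) × (Fin n × Fin n) → K)) | ∏ a, (matA x a).det ≠ 0} ∩
      {x ∈ (Set.univ : Set (Fin (l + 1) × (Fin n × Fin n) → K)) |
      ∀ a : Fin l, ∀ i j : Fin n, ∀ _ : j < i, ∀ _ : ¬ (i.1 = s a ∧ j.1 + 1 = s a),
        ((matA x a.castSucc).adjugate * matA x a.succ) i j = 0}),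
    fun hx => ⟨fun a => Finset.prod_ne_zero_iff.1 hx.1.2 a (Finset.mem_univ a), hx.2.2⟩⟩
  rw [e]
  exact h1.inter (h2.lc LC.univ)

omit [IsAlgClosed K] in
lemma lc_Dset {l : ℕ} (s : Fin l → ℕ) (ρ : ℕ → ℕ → ℕ) : LC (Dset (K := K) q n s ρ) :=
  (relCl_forall fun i => relCl_forall fun j => relCl_rk _ _ i j (ρ i j)).lc (lc_Cset s)

theorem dem_stratum
    (H : ∀ ρ : ℕ → ℕ → ℕ, FGood p {x : Fin n × Fin n → K | (mat x).det ≠ 0 ∧
      ∀ i j, rkM ((mat x).transpose * (mat x).map (· ^ q)) i j = ρ i j} fun _ => 0)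
    (l : ℕ) (s : Fin l → ℕ) (ρ : Fin (l + 1) → ℕ → ℕ → ℕ) :
    FGood p {x ∈ Cset (K := K) n s | ∀ a i j, rkM (gramA q x a) i j = ρ a i j} fun _ => 0 := by
  induction l with
  | zero =>
    have e : ∀ x : Fin (0 + 1) × (Fin n × Fin n) → K,
        x ∈ {x ∈ Cset (K := K) n s | ∀ a i j, rkM (gramA q x a) i j = ρ a i j} ↔
        (fun c => x (0, c)) ∈ {x : Fin n × Fin n → K | (mat x).det ≠ 0 ∧
          ∀ i j, rkM ((mat x).transpose * (mat x).map (· ^ q)) i j = ρ 0 i j} := fun x =>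
      ⟨fun hx => ⟨hx.1.1 0, hx.2 0⟩, fun hx => ⟨⟨fun a => by
        rw [Subsingleton.elim (α := Fin 1) a 0]; exact hx.1, fun a => a.elim0⟩, fun a => by
        rw [Subsingleton.elim (α := Fin 1) a 0]; exact hx.2⟩⟩
    refine (H (ρ 0)).iso (Φ := fun x c => x (0, c)) (Ψ := fun y c => y c.2) ?_
      ⟨fun _ => RegF.coord _, fun _ => RegF.coord _, fun x hx => (e x).1 hx,
        fun y hy => (e _).2 hy, fun x _ => funext fun c => ?_, fun _ _ => rfl⟩ fun _ _ => rfl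
    · have := LC.univ.preimage (H (ρ 0)).1
        (Φ := fun (x : Fin (0 + 1) × (Fin n × Fin n) → K) c => x (0, c)) fun _ => RegF.coord _
      rwa [show {x ∈ Cset (K := K) n s | ∀ a i j, rkM (gramA q x a) i j = ρ a i j} = _ from
        Set.ext fun x => (e x).trans (and_iff_right (Set.mem_univ x)).symm]
    · rw [← Subsingleton.elim (α := Fin 1) c.1 0]
  | succ l ih =>
    have h := step (ih (Fin.init s) fun a => ρ a.castSucc)
      (G := fun y => gramA q y (Fin.last l)) (reg_gram _ _) (σ := ρ (Fin.last l).castSucc)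
      (fun y hy => funext fun i => funext fun j => hy.2 _ i j) (s (Fin.last l))
      (ρ (Fin.last (l + 1)))
    have hd : ∀ x ∈ Cset (K := K) n s, (matA (ini x) (Fin.last l)).det ≠ 0 := fun x hx =>
      hx.1 (Fin.last l).castSucc
    refine h.iso (Φ := fw) (Ψ := bw) ?_ ⟨reg_fw fun x hx => hd x hx.1, reg_bw _,
      fun x hx => (mem_iff s ρ x (hd x hx.1)).1 hx, fun z hz => ?_,
      fun x hx => bw_fw x (hd x hx.1), fun z hz => fw_bw z (hz.1.1.1.1 _)⟩ fun _ _ => rfl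
    · have := (lc_Cset s).preimage h.1 (reg_fw hd)
      rwa [show {x ∈ Cset (K := K) n s | ∀ a i j, rkM (gramA q x a) i j = ρ a i j} = _ from
        Set.ext fun x => ⟨fun hx => (⟨hx.1, (mem_iff s ρ x (hd x hx.1)).1 hx⟩ : _ ∧ _),
          fun hx => (mem_iff s ρ x (hd x hx.1)).2 hx.2⟩]
    · refine (mem_iff s ρ _ (by rw [ini_bw]; exact hz.1.1.1.1 _)).2 ?_
      rw [fw_bw z (hz.1.1.1.1 _)]
      exact hz

theorem dem
    (H : ∀ ρ : ℕ → ℕ → ℕ, FGood p {x : Fin n × Fin n → K | (mat x).det ≠ 0 ∧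
      ∀ i j, rkM ((mat x).transpose * (mat x).map (· ^ q)) i j = ρ i j} fun _ => 0)
    {l : ℕ} (s : Fin l → ℕ) (ρ : ℕ → ℕ → ℕ) : FGood p (Dset (K := K) q n s ρ) fun _ => 0 := by
  refine FGood.stratFun (α := Fin (l + 1) × Fin (n + 1) × Fin (n + 1)) (lc_Dset s ρ) RegF.zero
    (fun c x => rkM (gramA q x c.1) c.2.1 c.2.2) n (fun _ _ => rkM_le _ _ _)
    (fun c m => relCl_rk _ _ _ _ m) fun τ => ?_
  by_cases hne : ∃ x₀ ∈ Dset (K := K) q n s ρ,
    ∀ c : Fin (l + 1) × Fin (n + 1) × Fin (n + 1), rkM (gramA q x₀ c.1) c.2.1 c.2.2 = τ c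
  · obtain ⟨x₀, h1, h2⟩ := hne
    refine (dem_stratum H l s fun a => rkM (gramA q x₀ a)).congr (Set.ext fun x => ?_)
      fun _ _ => rfl
    refine ⟨fun hx => ⟨hx.1.1, fun a i j => ?_⟩, fun hx => ⟨⟨hx.1, fun i j => ?_⟩, fun c => ?_⟩⟩
    · rw [← rkM_min, ← rkM_min (gramA q x₀ a)]
      exact (hx.2 (a, ⟨min i n, by omega⟩, ⟨min j n, by omega⟩)).trans
        (h2 (a, ⟨min i n, by omega⟩, ⟨min j n, by omega⟩)).symm
    · rw [hx.2]
      exact h1.2 i j
    · rw [hx.2, h2]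
  · exact (FGood.empty _).congr (Set.eq_empty_of_forall_notMem fun x hx => hne ⟨x, hx⟩)
      fun _ _ => rfl

end Pool.Agent.Lib.MP_60ec62_ag.DL.F
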