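import Pool.Agent.Lib.MP_60ec62_ag.DF.FUpLin
import Pool.Agent.Lib.MP_60ec62_ag.DL.Adapt
import Pool.Agent.Lib.MP_60ec62_ag.DL.WBasic

/-!
The locus of singular dual matrices: the restriction to a hyperplane.
-/

noncomputable section

namespace Pool.Agent.Lib.MP_60ec62_ag.DL.F

open MvPolynomial

variable {K : Type} [Field K] [IsAlgClosed K] {p q : ℕ} [Fact p.Prime] [CharP K p]
  {I N μ : Type} [Fintype I] [Fintype N] [Fintype μ]

namespace Deg2

section Alg

omit [IsAlgClosed K]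

lemma hq_mulVec (hp : IsPP p q) {I' : Type} [Fintype I'] {β : Matrix I I' K}
    (hβ : ∀ i a, ∃ n : ℤ, β i a = n) (ξ : Matrix I I K) (u : I' → N → K) :
    ∑ i, ∑ j, ξ i j * hq q (fun l => β.mulVec (fun a => u a l) i)
      (fun l => β.mulVec (fun a => u a l) j) =
      ∑ a, ∑ b, (β.transpose * ξ * β) a b * hq q (u a) (u b) := by
  have h1 : ∀ i a, β i a ^ q = β i a := fun i a => by
    obtain ⟨n, hn⟩ := hβ i a
    rw [hn, hp.intCast_pow]
  have h2 : ∀ i j, hq q (fun l => β.mulVec (fun a => u a l) i)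
      (fun l => β.mulVec (fun a => u a l) j) =
      ∑ a, ∑ b, β i a * β j b * hq q (u a) (u b) := fun i j => by
    simp only [hq, Matrix.mulVec, dotProduct, hp.sum_pow, mul_pow, h1]
    simp only [Finset.sum_mul_sum]
    simp only [Finset.mul_sum]
    rw [Finset.sum_comm]
    refine Finset.sum_congr rfl fun a _ => ?_
    rw [Finset.sum_comm]
    refine Finset.sum_congr rfl fun b _ => Finset.sum_congr rfl fun l _ => ?_
    ring
  simp only [h2, Matrix.mul_apply, Matrix.transpose_apply, Finset.mul_sum, Finset.sum_mul]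
  calc _ = ∑ i, ∑ a, ∑ j, ∑ b, ξ i j * (β i a * β j b * hq q (u a) (u b)) :=
        Finset.sum_congr rfl fun i _ => Finset.sum_comm
    _ = ∑ a, ∑ i, ∑ j, ∑ b, ξ i j * (β i a * β j b * hq q (u a) (u b)) := Finset.sum_comm
    _ = _ := by
        refine Finset.sum_congr rfl fun a _ => ?_
        rw [Finset.sum_comm]
        refine (Finset.sum_congr rfl fun j _ => Finset.sum_comm).trans ?_
        rw [Finset.sum_comm]
        refine Finset.sum_congr rfl fun b _ => Finset.sum_congr rfl fun j _ =>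
          Finset.sum_congr rfl fun i _ => ?_
        ring

/-- Rescaling of the vectors. -/
def resc (q : ℕ) (f : I → K) (y : (I × I) ⊕ ((I × N) ⊕ μ) → K) : (I × I) ⊕ ((I × N) ⊕ μ) → K :=
  Sum.elim (fun ab => y (Sum.inl ab) / (f ab.1 * f ab.2 ^ q))
    (Sum.elim (fun al => f al.1 * y (Sum.inr (Sum.inl al))) fun m => y (Sum.inr (Sum.inr m)))

omit [Fintype I] [Fintype N] [Fintype μ] in
lemma resc_resc {f g : I → K} (h : ∀ a, g a * f a = 1) (y : (I × I) ⊕ ((I × N) ⊕ μ) → K) :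
    resc q g (resc q f y) = y := by
  funext i
  rcases i with ab | al | m
  · show y (Sum.inl ab) / (f ab.1 * f ab.2 ^ q) / (g ab.1 * g ab.2 ^ q) = _
    rw [div_div, mul_mul_mul_comm, ← mul_pow, mul_comm (f ab.1), mul_comm (f ab.2), h, h, one_pow,
      one_mul, div_one]
  · show g al.1 * (f al.1 * y (Sum.inr (Sum.inl al))) = _
    rw [← mul_assoc, h, one_mul]
  · rfl

omit [Fintype I] [Fintype N] [Fintype μ] in
lemma resc_mem {T : I → I → Prop} (f : I → K) {y : (I × I) ⊕ ((I × N) ⊕ μ) → K}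
    (hy : y ∈ Wset N μ T) : resc q f y ∈ Wset N μ T := fun i j hij => by
  have h : y (Sum.inl (i, j)) = 0 := hy i j hij
  show y (Sum.inl (i, j)) / (f i * f j ^ q) = 0
  rw [h, zero_div]

lemma Wfun_resc {f : I → K} (hf : ∀ a, f a ≠ 0) (y : (I × I) ⊕ ((I × N) ⊕ μ) → K) :
    Wfun q (resc q f y) = Wfun q y := by
  unfold Wfun
  congr 1
  refine Finset.sum_congr rfl fun i _ => Finset.sum_congr rfl fun j _ => ?_
  unfold hq
  rw [Finset.mul_sum, Finset.mul_sum]
  refine Finset.sum_congr rfl fun l _ => ?_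
  show y (Sum.inl (i, j)) / (f i * f j ^ q) * (f i * y (Sum.inr (Sum.inl (i, l))) *
    (f j * y (Sum.inr (Sum.inl (j, l)))) ^ q) =
    y (Sum.inl (i, j)) * (y (Sum.inr (Sum.inl (i, l))) * y (Sum.inr (Sum.inl (j, l))) ^ q)
  have h1 := hf i
  have h2 := hf j
  rw [mul_pow]
  field_simp

omit [Fintype I] [Fintype N] [Fintype μ] in
lemma reg_resc {ι : Type} {Y : Set (ι → K)} {f : (ι → K) → I → K}
    {y : (ι → K) → (I × I) ⊕ ((I × N) ⊕ μ) → K} (hf : RegMap Y f) (h0 : ∀ x ∈ Y, ∀ a, f x a ≠ 0)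
    (hy : RegMap Y y) : RegMap Y fun x => resc q (f x) (y x) := by
  rintro (ab | al | m)
  · exact (hy _).div ((hf _).mul ((hf _).pow q)) fun x hx =>
      mul_ne_zero (h0 x hx _) (pow_ne_zero _ (h0 x hx _))
  · exact (hf _).mul (hy _)
  · exact hy _

variable (K N μ) in
/-- The dual space with the sum of the vectors in `s` equal to zero. -/
def Hs (T : I → I → Prop) (s : Finset I) : Set ((I × I) ⊕ ((I × N) ⊕ μ) → K) :=
  {y ∈ Wset N μ T | ∀ l, ∑ a ∈ s, y (Sum.inr (Sum.inl (a, l))) = 0}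

omit [Fintype I] [Fintype N] [Fintype μ] in
lemma lc_Hs (T : I → I → Prop) (s : Finset I) : LC (Hs K N μ T s) :=
  RelCl.lc (relCl_forall fun _ =>
    (RegF.sum (F := ⊤) s fun _ _ => RegF.coord _).relCl_zero) (lc_Wset T)

omit [Fintype N] [Fintype μ] in
lemma lc_Hset (T : I → I → Prop) (J : Set I) : LC (Hset (K := K) N μ T J) := by
  have h : RelCl {x ∈ (Set.univ : Set (I ⊕ ((I × I) ⊕ ((I × N) ⊕ μ)) → K)) |
      ∀ a, ∀ _ : a ∈ J, x (Sum.inl a) = 0} Set.univ :=
    relCl_forall fun a => relCl_forall fun _ => (RegF.coord (F := ⊤) _).relCl_zero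
  have h2 : RelCl {x ∈ (Set.univ : Set (I ⊕ ((I × I) ⊕ ((I × N) ⊕ μ)) → K)) |
      ∀ i j, ∀ _ : T i j, x (Sum.inr (Sum.inl (i, j))) = 0} Set.univ :=
    relCl_forall fun i => relCl_forall fun j => relCl_forall fun _ =>
      (RegF.coord (F := ⊤) _).relCl_zero
  have h3 : RelCl {x ∈ (Set.univ : Set (I ⊕ ((I × I) ⊕ ((I × N) ⊕ μ)) → K)) |
      ∀ l, ∑ a, x (Sum.inl a) * x (Sum.inr (Sum.inr (Sum.inl (a, l)))) = 0} Set.univ :=
    relCl_forall fun l => (RegF.sum (F := ⊤) _ fun _ _ =>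
      (RegF.coord _).mul (RegF.coord _)).relCl_zero
  have h4 := (h.inter (h2.inter h3)).lc LC.univ
  convert h4 using 1
  ext x
  exact ⟨fun hx => ⟨⟨trivial, hx.1⟩, ⟨trivial, hx.2.1⟩, trivial, hx.2.2⟩,
    fun hx => ⟨hx.1.2, hx.2.1.2, hx.2.2.2⟩⟩

/-- The chart of the hyperplane. -/
def phi {I' : Type} (β : Matrix I I' K) (γ : (I → K) → I' → K)
    (y : (I × I) ⊕ ((I × N) ⊕ μ) → K) : ((I' × I') ⊕ ((I' × N) ⊕ μ)) ⊕ (I × I) → K :=
  Sum.elim (Sum.elim (fun ab => (β.transpose * xi y * β) ab.1 ab.2)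
    (Sum.elim (fun al => γ (fun i => y (Sum.inr (Sum.inl (i, al.2)))) al.1)
      fun m => y (Sum.inr (Sum.inr m)))) fun ij => y (Sum.inl ij)

/-- The inverse chart. -/
def psi {I' : Type} [Fintype I'] (β : Matrix I I' K)
    (z : ((I' × I') ⊕ ((I' × N) ⊕ μ)) ⊕ (I × I) → K) : (I × I) ⊕ ((I × N) ⊕ μ) → K :=
  Sum.elim (fun ij => z (Sum.inr ij))
    (Sum.elim (fun il => β.mulVec (fun a => z (Sum.inl (Sum.inr (Sum.inl (a, il.2))))) il.1)
      fun m => z (Sum.inl (Sum.inr (Sum.inr m))))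

end Alg

theorem good_Hs (hp : IsPP p q) {T : I → I → Prop} (hT : Ferrers T) (s : Finset I)
    (hs : s.Nonempty) (H : ∀ r ≤ Fintype.card I, FDStmt K p q r) :
    FGood p (Hs K N μ T s) (Wfun q) := by
  classical
  obtain ⟨I', _, T', β, hc, hT', hβ, hinj, hr, h1, h2⟩ := adapt_sub (K := K) (p := p) hT s hs
  have hW : FGood p (Wset (K := K) N μ T') (Wfun q) := H _ (by omega) I' N μ rfl T' hT'
  obtain ⟨γ, hγ⟩ := (Matrix.mulVecLin β).exists_leftInverse_of_injective
    (LinearMap.ker_eq_bot.mpr hinj)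
  have hγ' : ∀ u, γ (β.mulVec u) = u := fun u => LinearMap.congr_fun hγ u
  have hβr : ∀ {ι : Type} (Y : Set (ι → K)) i a, Reg Y fun _ => β i a := fun Y i a => by
    obtain ⟨n, hn⟩ := hβ i a
    rw [hn]
    exact RegF.intCast n
  let M : Matrix ({ij : I × I // T ij.1 ij.2} ⊕ {ab : I' × I' // ¬ T' ab.1 ab.2}) (I × I) K :=
    Matrix.of (Sum.elim (fun ij kl => if ij.1 = kl then 1 else 0)
      fun ab kl => β kl.1 ab.1.1 * β kl.2 ab.1.2)
  have M1 : ∀ (ξ : I × I → K) ij, M.mulVec ξ (Sum.inl ij) = ξ ij.1 := fun ξ ij => by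
    simp [M, Matrix.mulVec, dotProduct]
  have M2 : ∀ (ξ : I × I → K) ab, M.mulVec ξ (Sum.inr ab) =
      (β.transpose * Matrix.of (fun i j => ξ (i, j)) * β) ab.1.1 ab.1.2 := fun ξ ab => by
    simp only [M, Matrix.mulVec, dotProduct, Matrix.of_apply, Sum.elim_inr, Matrix.mul_apply,
      Matrix.transpose_apply, Finset.sum_mul, Fintype.sum_prod_type]
    rw [Finset.sum_comm]
    refine Finset.sum_congr rfl fun j _ => Finset.sum_congr rfl fun i _ => ?_
    ring
  have hG := FGood.uplin hW (fun _ => M)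
    (fun y => Sum.elim (fun _ => 0) fun ab => y (Sum.inl ab.1))
    (by
      rintro (ij | ab) kl
      · exact RegF.ite _ (fun _ => RegF.one) fun _ => RegF.zero
      · exact (hβr _ _ _).mul (hβr _ _ _))
    (by
      rintro (ij | ab)
      · exact RegF.zero
      · exact RegF.coord _)
    (by
      intro _ _ v
      let ξ₀ : Matrix I I K := Matrix.of fun i j => if h : T i j then v (Sum.inl ⟨(i, j), h⟩) else 0
      obtain ⟨ξ, hξ, e⟩ := h2 (Matrix.of fun a b => if h : T' a b then 0 else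
        v (Sum.inr ⟨(a, b), h⟩) - (β.transpose * ξ₀ * β) a b) fun a b h => dif_pos h
      refine ⟨fun ij => (ξ₀ + ξ) ij.1 ij.2, funext ?_⟩
      rintro (⟨⟨i, j⟩, h⟩ | ⟨⟨a, b⟩, h⟩)
      · rw [M1]
        show (if h : T i j then v (Sum.inl ⟨(i, j), h⟩) else 0) + ξ i j = _
        rw [dif_pos h, hξ i j h, add_zero]
      · rw [M2]
        show (β.transpose * (ξ₀ + ξ) * β) a b = _
        rw [Matrix.mul_add, Matrix.add_mul, e, Matrix.add_apply, Matrix.of_apply, dif_neg h]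
        exact add_sub_cancel _ _)
  have hrange : ∀ y ∈ Hs K N μ T s, ∀ l,
      β.mulVec (γ fun i => y (Sum.inr (Sum.inl (i, l)))) = fun i => y (Sum.inr (Sum.inl (i, l))) :=
    fun y hy l => by
      obtain ⟨u, hu⟩ := (hr _).mp (hy.2 l)
      rw [← hu, hγ']
  have hz1 : ∀ z : ((I' × I') ⊕ ((I' × N) ⊕ μ)) ⊕ (I × I) → K,
      M.mulVec (z ∘ Sum.inr) = (Sum.elim (fun _ => 0) fun ab => z (Sum.inl (Sum.inl ab.1))) →
      LT T (Matrix.of fun i j => z (Sum.inr (i, j))) := fun z hz i j hij =>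
    (M1 (z ∘ Sum.inr) ⟨(i, j), hij⟩).symm.trans (congrFun hz (Sum.inl ⟨(i, j), hij⟩))
  refine hG.iso (lc_Hs T s) (Φ := phi β γ) (Ψ := psi β)
    ⟨?_, ?_, fun y hy => ⟨?_, funext ?_⟩, fun z hz => ⟨?_, fun l => ?_⟩,
      fun y hy => funext ?_, fun z hz => funext ?_⟩ fun y hy => ?_
  · rintro ((ab | al | m) | ij)
    · exact RegF.matMul (M := fun y => β.transpose * xi y) (N := fun _ => β)
        (fun a j => RegF.matMul (M := fun _ => β.transpose) (N := fun y => xi y)
          (fun _ _ => hβr _ _ _) (fun _ _ => RegF.coord _) a j) (fun _ _ => hβr _ _ _) _ _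
    · exact RegF.linsol (M := fun _ => β)
        (u := fun y => γ fun i => y (Sum.inr (Sum.inl (i, al.2))))
        (v := fun y i => y (Sum.inr (Sum.inl (i, al.2)))) (fun _ _ => hβr _ _ _)
        (fun _ => RegF.coord _) (fun _ _ => hinj) (fun y hy => hrange y hy al.2) al.1
    · exact RegF.coord _
    · exact RegF.coord _
  · rintro (ij | il | m)
    · exact RegF.coord _
    · exact RegF.sum _ fun a _ => (hβr _ _ _).mul (RegF.coord _)
    · exact RegF.coord _
  · exact fun a b h => h1 (xi y) hy.1 a b h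
  · rintro (⟨⟨i, j⟩, h⟩ | ⟨⟨a, b⟩, h⟩)
    · exact (M1 _ _).trans (hy.1 i j h)
    · exact M2 _ _
  · exact fun i j h => hz1 z hz.2 i j h
  · exact (hr fun i => psi β z (Sum.inr (Sum.inl (i, l)))).mpr
      ⟨fun a => z (Sum.inl (Sum.inr (Sum.inl (a, l)))), rfl⟩
  · rintro (ij | il | m)
    · rfl
    · exact congrFun (hrange y hy il.2) il.1
    · rfl
  · rintro ((⟨a, b⟩ | al | m) | ij)
    · show (β.transpose * (Matrix.of fun i j => z (Sum.inr (i, j))) * β) a b =
        z (Sum.inl (Sum.inl (a, b)))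
      by_cases h : T' a b
      · exact (h1 _ (hz1 z hz.2) a b h).trans (hz.1 a b h).symm
      · exact (M2 (z ∘ Sum.inr) ⟨(a, b), h⟩).symm.trans (congrFun hz.2 (Sum.inr ⟨(a, b), h⟩))
    · exact congrFun (hγ' fun a => z (Sum.inl (Sum.inr (Sum.inl (a, al.2))))) al.1
    · rfl
    · rfl
  · have h3 := hq_mulVec hp hβ (xi y) fun a l => γ (fun i => y (Sum.inr (Sum.inl (i, l)))) a
    simp only [hrange y hy] at h3
    exact congrArg (· + herm q (y ∘ Sum.inr)) h3

end Deg2

theorem deg2 (hp : IsPP p q) {T : I → I → Prop} (hT : Ferrers T) (J : Set I)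
    (H : ∀ r ≤ Fintype.card I, FDStmt K p q r) :
    FGood p (Hset (K := K) N μ T J) fun x => Wfun q (x ∘ Sum.inr) := by
  classical
  have hL := Deg2.lc_Hset (K := K) (N := N) (μ := μ) T J
  refine FGood.stratSupp hL (RegF.comp (reg_Wfun Set.univ) (fun _ => RegF.coord _)
    (Set.mapsTo_univ _ _)) (fun a x => x (Sum.inl a)) (fun _ => RegF.coord _) fun s => ?_
  have hLs : LC {x ∈ Hset (K := K) N μ T J | ∀ a, x (Sum.inl a) ≠ 0 ↔ a ∈ s} := by
    have h1 : LC {x ∈ Hset (K := K) N μ T J | ∀ a, ∀ _ : a ∉ s, x (Sum.inl a) = 0} :=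
      RelCl.lc (relCl_forall fun a => relCl_forall fun _ =>
        (RegF.coord (F := ⊤) _).relCl_zero) hL
    have h2 := (RegF.prod (F := ⊤) s fun a _ => RegF.coord (Sum.inl a)).lc_ne h1
    convert h2 using 1
    ext x
    simp only [Set.mem_ofPred_eq, Finset.prod_ne_zero_iff, and_assoc]
    refine and_congr_right fun _ => ⟨fun h => ⟨fun a ha => ?_, fun a ha => (h a).mpr ha⟩,
      fun h a => ⟨fun h0 => ?_, h.2 a⟩⟩
    · by_contra h0
      exact ha ((h a).mp h0)
    · by_contra ha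
      exact h0 (h.1 a ha)
  by_cases hJ : ∃ a ∈ s, a ∈ J
  · obtain ⟨a, ha, haJ⟩ := hJ
    refine (FGood.empty _).congr (Set.eq_empty_of_forall_notMem fun x hx => ?_) fun _ _ => rfl
    exact (hx.2 a).mpr ha (hx.1.1 a haJ)
  have hG : FGood p (Deg2.Hs K N μ T s) (Wfun q) := by
    rcases s.eq_empty_or_nonempty with rfl | hs
    · refine (H _ le_rfl I N μ rfl T hT).congr ?_ fun _ _ => rfl
      ext y
      simp [Deg2.Hs]
    · exact Deg2.good_Hs hp hT s hs H
  have hO := (hG.prodA s).opn' (c := fun z => ∏ a : s, z (Sum.inr a) ≠ 0) (by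
    simpa only [not_not] using
      (RegF.prod (F := ⊤) Finset.univ fun (a : s) _ => RegF.coord (Sum.inr a)).relCl_zero)
  let f : (I ⊕ ((I × I) ⊕ ((I × N) ⊕ μ)) → K) → I → K :=
    fun x a => if a ∈ s then x (Sum.inl a) else 1
  let g : (((I × I) ⊕ ((I × N) ⊕ μ)) ⊕ s → K) → I → K :=
    fun z a => if h : a ∈ s then z (Sum.inr ⟨a, h⟩) else 1
  have hf : ∀ x ∈ {x ∈ Hset (K := K) N μ T J | ∀ a, x (Sum.inl a) ≠ 0 ↔ a ∈ s}, ∀ a, f x a ≠ 0 :=
    fun x hx a => by
      by_cases h : a ∈ s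
      · simpa only [f, if_pos h] using (hx.2 a).mpr h
      · simp only [f, if_neg h]
        exact one_ne_zero
  have hg : ∀ z ∈ {z ∈ prodA (Deg2.Hs K N μ T s) s | ∏ a : s, z (Sum.inr a) ≠ 0}, ∀ a,
      g z a ≠ 0 := fun z hz a => by
    by_cases h : a ∈ s
    · simpa only [g, dif_pos h] using Finset.prod_ne_zero_iff.mp hz.2 ⟨a, h⟩ (Finset.mem_univ _)
    · simp only [g, dif_neg h]
      exact one_ne_zero
  refine hO.iso hLs
    (Φ := fun x => Sum.elim (Deg2.resc q (f x) (x ∘ Sum.inr)) fun a : s => x (Sum.inl a))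
    (Ψ := fun z => Sum.elim (fun a => if a ∈ s then g z a else 0)
      (Deg2.resc q (fun a => (g z a)⁻¹) (z ∘ Sum.inl)))
    ⟨?_, ?_, fun x hx => ⟨⟨Deg2.resc_mem _ hx.1.2.1, fun l => ?_⟩, ?_⟩,
      fun z hz => ⟨⟨fun a ha => if_neg fun h => hJ ⟨a, h, ha⟩,
        Deg2.resc_mem (q := q) (fun a => (g z a)⁻¹) hz.1.1, fun l => ?_⟩, fun a => ?_⟩, fun x hx => funext ?_, fun z hz => funext ?_⟩
    fun x hx => (Deg2.Wfun_resc (hf x hx) _).symm
  · rintro (i | a)
    · exact Deg2.reg_resc (fun a => RegF.ite _ (fun _ => RegF.coord _) fun _ => RegF.one) hf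
        (fun _ => RegF.coord _) i
    · exact RegF.coord _
  · have hgr : RegMap {z ∈ prodA (Deg2.Hs K N μ T s) s | ∏ a : s, z (Sum.inr a) ≠ 0} g :=
      fun a => by
        by_cases h : a ∈ s
        · simp only [g, dif_pos h]
          exact RegF.coord _
        · simp only [g, dif_neg h]
          exact RegF.one
    rintro (a | i)
    · exact RegF.ite _ (fun _ => hgr a) fun _ => RegF.zero
    · exact Deg2.reg_resc (fun a => (hgr a).inv fun z hz => hg z hz a)
        (fun z hz a => inv_ne_zero (hg z hz a)) (fun _ => RegF.coord _) i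
  · refine Eq.trans ?_ (hx.1.2.2 l)
    refine (Finset.sum_congr rfl fun a ha => ?_).trans
      (Finset.sum_subset (Finset.subset_univ s) fun a _ ha => ?_)
    · exact congrArg (· * x (Sum.inr (Sum.inr (Sum.inl (a, l))))) (if_pos ha)
    · rw [not_not.mp (mt (hx.2 a).mp ha), zero_mul]
  · exact Finset.prod_ne_zero_iff.mpr fun a _ => (hx.2 a).mpr a.2
  · refine Eq.trans ?_ (hz.1.2 l)
    refine (Finset.sum_subset (Finset.subset_univ s) fun a _ ha => ?_).symm.trans
      (Finset.sum_congr rfl fun a ha => ?_)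
    · exact mul_eq_zero_of_left (if_neg ha) _
    · show (if a ∈ s then g z a else 0) * ((g z a)⁻¹ * z (Sum.inl (Sum.inr (Sum.inl (a, l))))) = _
      rw [if_pos ha, mul_inv_cancel_left₀ (hg z hz a)]
      rfl
  · show (if a ∈ s then g z a else 0) ≠ 0 ↔ a ∈ s
    by_cases h : a ∈ s
    · rw [if_pos h, iff_true_intro h, iff_true]
      exact hg z hz a
    · simp [h]
  · have e : g (Sum.elim (Deg2.resc q (f x) (x ∘ Sum.inr)) fun a : s => x (Sum.inl a)) = f x :=
      funext fun a => by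
        by_cases h : a ∈ s
        · simp only [f, g, dif_pos h, if_pos h, Sum.elim_inr]
        · simp only [f, g, dif_neg h, if_neg h]
    rw [e]
    rintro (a | i)
    · show (if a ∈ s then f x a else 0) = _
      by_cases h : a ∈ s
      · simp only [f, if_pos h]
      · rw [if_neg h, not_not.mp (mt (hx.2 a).mp h)]
    · exact congrFun (Deg2.resc_resc (fun a => inv_mul_cancel₀ (hf x hx a)) (x ∘ Sum.inr)) i
  · have e : f (Sum.elim (fun a => if a ∈ s then g z a else 0)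
        (Deg2.resc q (fun a => (g z a)⁻¹) (z ∘ Sum.inl))) = g z :=
      funext fun a => by
        by_cases h : a ∈ s
        · simp only [f, if_pos h, Sum.elim_inl]
        · simp only [f, g, dif_neg h, if_neg h]
    rw [e]
    rintro (i | a)
    · exact congrFun (Deg2.resc_resc (fun a => mul_inv_cancel₀ (hg z hz a)) (z ∘ Sum.inl)) i
    · show (if a.1 ∈ s then g z a else 0) = _
      simp only [g, if_pos a.2, dif_pos a.2]

end Pool.Agent.Lib.MP_60ec62_ag.DL.F
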