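import Pool.Agent.Lib.MP_60ec62_ag.DF.Dg

/-!
Push-forward of divisors along generically finite maps.
-/

noncomputable section

namespace Pool.Agent.Lib.MP_60ec62_ag.DL

open MvPolynomial

variable {K : Type} [Field K] {ι κ : Type} [Finite ι] [Finite κ]

namespace Gen

section Abstract

variable {R S R' D : Type} [CommRing R] [CommRing S] [CommRing R'] [CommRing D]
  [Algebra K R] [Algebra K S] [Algebra K R'] [Algebra K D]

lemma ratOn_supp [Algebra.EssFiniteType K R] (J : Ideal R) :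
    RatOn K J ≤ Finsupp.supported ℚ ℚ {z | J ≤ z.asIdeal} := by
  refine Submodule.span_le.2 ?_
  rintro _ ⟨w, a, hw, rfl⟩
  exact (Finsupp.mem_supported _ _).2 fun z hz =>
    hw.trans (dv_supp (Finsupp.mem_support_iff.1 hz)).1.le

variable {ψ : R →ₐ[K] S} {π : S →ₐ[K] D} {lam : R →ₐ[K] R'} {φ : R' →ₐ[K] D}

lemma cm_sq (hc : φ.comp lam = π.comp ψ) (z : PrimeSpectrum D) :
    cm ψ (cm π z) = cm lam (cm φ z) := by
  rw [← cm_comp, ← cm_comp, hc]

lemma dgA_sq (hπ : LocSurj π) (hl : LocSurj lam) (hc : φ.comp lam = π.comp ψ)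
    (z : PrimeSpectrum D) : dgA ψ (cm π z) = dgA φ z := by
  have h1 := dgA_comp ψ π z
  have h2 := dgA_comp lam φ z
  rw [dgA_locSurj hπ, mul_one] at h1
  rw [dgA_locSurj hl, one_mul, hc] at h2
  rw [← h1, h2]

lemma core [Algebra.EssFiniteType K R] [Algebra.EssFiniteType K S] (hπ : LocSurj π)
    (hl : LocSurj lam) (hc : φ.comp lam = π.comp ψ) (hφ : (φ : R' →+* D).Finite) {f : R}
    (hu : IsUnit (lam f)) (h1 : ∀ z, f ∉ z.asIdeal → z ∈ Set.range (cm lam))
    (w : PrimeSpectrum D) (h2 : ∀ z, cm π w ≤ z → ψ f ∉ z.asIdeal → z ∈ Set.range (cm π)) (a : S) :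
    pushA ψ (dv K (cm π w) a) ∈ RatOn K (cm ψ (cm π w)).asIdeal ⊔
      Finsupp.supported ℚ ℚ {z | cm ψ (cm π w) ≤ z ∧ f ∈ z.asIdeal} := by
  have := Res.essFiniteType hπ
  have := Res.essFiniteType hl
  have key : ∀ z, cm π w ≤ z → res lam hl (pushA ψ (Finsupp.single z 1)) =
      pushA φ (res π hπ (Finsupp.single z 1)) := by
    intro z hz
    by_cases hr : z ∈ Set.range (cm π)
    · obtain ⟨z, rfl⟩ := hr
      rw [Res.res_single_cm, pushA_single, pushA_single, map_smul, cm_sq hc, Res.res_single_cm,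
        dgA_sq hπ hl hc]
    · rw [Res.res_single_of_not_range _ hr, map_zero, pushA_single, map_smul,
        Res.res_single_of_not_range, smul_zero]
      rintro ⟨y, hy⟩
      refine hr (h2 z hz fun hf => Res.not_mem_of_unit hu y ?_)
      rw [hy]
      exact hf
  have e : res lam hl (pushA ψ (dv K (cm π w) a)) = pushA φ (res π hπ (dv K (cm π w) a)) := by
    rw [← Finsupp.sum_single (dv K (cm π w) a), Finsupp.sum]
    simp only [map_sum]
    refine Finset.sum_congr rfl fun z hz => ?_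
    rw [← mul_one (dv K (cm π w) a z), ← smul_eq_mul, ← Finsupp.smul_single]
    simp only [map_smul]
    rw [key z (dv_supp (Finsupp.mem_support_iff.1 hz)).1.le]
  rw [Res.res_dv (hD K) (hC K).1] at e
  obtain ⟨c, hc1, hc2⟩ := Res.ratOn_lift (hD K) (hC K).1 (hC K).2.1 hl _ _
    (pushA_dv_mem hφ w (π a))
  have hc3 : c ∈ RatOn K (cm ψ (cm π w)).asIdeal := by
    rw [cm_sq hc]
    exact hc1
  rw [← add_sub_cancel c (pushA ψ (dv K (cm π w) a))]
  refine Submodule.add_mem_sup hc3 ((Finsupp.mem_supported _ _).2 fun z hz => ?_)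
  have hz' := Finsupp.mem_support_iff.1 hz
  refine ⟨?_, ?_⟩
  · by_cases h0 : c z = 0
    · rw [Finsupp.sub_apply, h0, sub_zero] at hz'
      obtain ⟨Q, hQ, rfl⟩ := pushA_supp hz'
      exact fun r hr => (dv_supp hQ).1.le hr
    · exact (Finsupp.mem_supported _ _).1 (ratOn_supp _ hc3) (Finsupp.mem_support_iff.2 h0)
  · by_contra hf
    obtain ⟨y, rfl⟩ := h1 z hf
    rw [← res_apply lam hl, map_sub, e, hc2, sub_self] at hz'
    exact hz' rfl

end Abstract

lemma main (ψ : MvPolynomial ι K →ₐ[K] MvPolynomial κ K) (w : Pr K κ) (f : MvPolynomial ι K)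
    (hf : ψ f ∉ w.asIdeal)
    (hint : ∀ j, ∃ n : ℕ, ((Ideal.Quotient.mk w.asIdeal).comp ψ.toRingHom).IsIntegralElem
      (Ideal.Quotient.mk w.asIdeal (ψ f ^ n * X j))) :
    dgA ψ w ≠ 0 ∧ ∀ a, pushA ψ (dv K w a) ∈ RatOn K (cm ψ w).asIdeal ⊔
      Finsupp.supported ℚ ℚ {z | cm ψ w ≤ z ∧ f ∈ z.asIdeal} := by
  let x : MvPolynomial κ K ⧸ w.asIdeal := Ideal.Quotient.mk _ (ψ f)
  let π : MvPolynomial κ K →ₐ[K] Localization.Away x :=
    (IsScalarTower.toAlgHom K (MvPolynomial κ K ⧸ w.asIdeal) _).comp (Ideal.Quotient.mkₐ K _)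
  let lam : MvPolynomial ι K →ₐ[K] Localization.Away f := IsScalarTower.toAlgHom K _ _
  have hx : IsUnit (π (ψ f)) := IsLocalization.Away.algebraMap_isUnit x
  have hu : IsUnit (lam f) := IsLocalization.Away.algebraMap_isUnit f
  let φ : Localization.Away f →ₐ[K] Localization.Away x :=
    IsLocalization.Away.liftAlgHom f (f := π.comp ψ) hx
  have hφa : ∀ r, φ (lam r) = π (ψ r) := fun r =>
    IsLocalization.Away.lift_eq f (g := (π.comp ψ).toRingHom) hx r
  have hc : φ.comp lam = π.comp ψ := AlgHom.ext hφa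
  have hπ : LocSurj π := fun r => by
    obtain ⟨n, a, e⟩ := IsLocalization.Away.surj x r
    obtain ⟨a, rfl⟩ := Ideal.Quotient.mk_surjective a
    exact ⟨a, ψ f ^ n, by rw [map_pow]; exact hx.pow n, by rw [map_pow]; exact e⟩
  have hl : LocSurj lam := fun r => by
    obtain ⟨n, a, e⟩ := IsLocalization.Away.surj f r
    exact ⟨a, f ^ n, by rw [map_pow]; exact hu.pow n, by rw [map_pow]; exact e⟩
  have h1 : ∀ z : Pr K ι, f ∉ z.asIdeal → z ∈ Set.range (cm lam) := fun z hz => by
    have h : z ∈ Set.range (PrimeSpectrum.comap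
        (algebraMap (MvPolynomial ι K) (Localization.Away f))) := by
      rw [PrimeSpectrum.localization_away_comap_range _ f]
      exact hz
    exact h
  have h2 : ∀ z : Pr K κ, w ≤ z → ψ f ∉ z.asIdeal → z ∈ Set.range (cm π) := fun z hw hz => by
    have h : z ∈ Set.range (PrimeSpectrum.comap (Ideal.Quotient.mk w.asIdeal)) := by
      rw [range_comap_of_surjective _ _ Ideal.Quotient.mk_surjective, Ideal.mk_ker]
      exact hw
    obtain ⟨z, rfl⟩ := h
    have h : z ∈ Set.range (PrimeSpectrum.comap (algebraMap _ (Localization.Away x))) := by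
      rw [PrimeSpectrum.localization_away_comap_range _ x]
      exact hz
    obtain ⟨z, rfl⟩ := h
    exact ⟨z, rfl⟩
  have hI : ∀ s, (φ : Localization.Away f →+* Localization.Away x).IsIntegralElem (π s) := by
    intro s
    induction s using MvPolynomial.induction_on with
    | C a =>
      rw [← algebraMap_eq, π.commutes, ← φ.commutes]
      exact RingHom.isIntegralElem_map _
    | add p q hp hq =>
      rw [map_add]
      exact hp.add _ hq
    | mul_X p j hp =>
      rw [map_mul]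
      refine hp.mul _ ?_
      obtain ⟨n, hn⟩ := hint j
      have h3 := hn.map (algebraMap _ (Localization.Away x))
      have e : (algebraMap _ (Localization.Away x)).comp
          ((Ideal.Quotient.mk w.asIdeal).comp ψ.toRingHom) =
          (φ : Localization.Away f →+* Localization.Away x).comp (lam : _ →+* _) :=
        RingHom.ext fun r => (hφa r).symm
      rw [e] at h3
      obtain ⟨v, hv⟩ := (hu.pow n).exists_right_inv
      have h4 := h3.of_comp.mul _ (RingHom.isIntegralElem_map _ (x := v))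
      have e2 : algebraMap _ (Localization.Away x) (Ideal.Quotient.mk w.asIdeal (ψ f ^ n * X j)) *
          (φ : Localization.Away f →+* Localization.Away x) v = π (X j) := by
        change π (ψ f ^ n * X j) * φ v = _
        rw [map_mul, map_pow, ← hφa, ← map_pow, mul_right_comm, ← map_mul, hv, map_one, one_mul]
      rwa [e2] at h4
  have hφ : (φ : Localization.Away f →+* Localization.Away x).Finite := by
    refine RingHom.IsIntegral.to_finite (fun r => ?_) ?_
    · obtain ⟨n, a, e⟩ := IsLocalization.Away.surj x r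
      obtain ⟨a, rfl⟩ := Ideal.Quotient.mk_surjective a
      obtain ⟨v, hv⟩ := (hu.pow n).exists_right_inv
      have h4 := (hI a).mul _ (RingHom.isIntegralElem_map _ (x := v))
      have e2 : π a * (φ : Localization.Away f →+* Localization.Away x) v = r := by
        have e3 : r * π (ψ f) ^ n = π a := e
        change π a * φ v = _
        rw [← e3, ← hφa, ← map_pow, mul_assoc, ← map_mul, hv, map_one, mul_one]
      rwa [e2] at h4
    · refine RingHom.FiniteType.of_comp_finiteType (f := algebraMap K _) ?_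
      rw [φ.comp_algebraMap, RingHom.finiteType_algebraMap]
      infer_instance
  obtain ⟨w', hw'⟩ := h2 w le_rfl hf
  have := Res.essFiniteType hπ
  have := Res.essFiniteType hl
  refine ⟨?_, fun a => ?_⟩
  · rw [← hw', dgA_sq hπ hl hc]
    exact dgA_ne_zero hφ w'
  · have := core hπ hl hc hφ hu h1 w' (by rw [hw']; exact h2) a
    rwa [hw'] at this

end Gen

theorem genPush (ψ : MvPolynomial ι K →ₐ[K] MvPolynomial κ K) (w : Pr K κ) (f : MvPolynomial ι K)
    (hf : ψ f ∉ w.asIdeal)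
    (hint : ∀ j, ∃ n : ℕ, ((Ideal.Quotient.mk w.asIdeal).comp ψ.toRingHom).IsIntegralElem
      (Ideal.Quotient.mk w.asIdeal (ψ f ^ n * X j))) (a : MvPolynomial κ K) :
    pushA ψ (dv K w a) ∈ RatOn K (cm ψ w).asIdeal ⊔
      Finsupp.supported ℚ ℚ {z | cm ψ w ≤ z ∧ f ∈ z.asIdeal} := (Gen.main ψ w f hf hint).2 a

/-- Push-forward along a map that is finite modulo an ideal. -/
theorem finPush (ψ : MvPolynomial ι K →ₐ[K] MvPolynomial κ K) (w : Pr K κ)
    (hint : ∀ j, ((Ideal.Quotient.mk w.asIdeal).comp ψ.toRingHom).IsIntegralElem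
      (Ideal.Quotient.mk w.asIdeal (X j))) :
    dgA ψ w ≠ 0 ∧ ∀ a, pushA ψ (dv K w a) ∈ RatOn K (cm ψ w).asIdeal := by
  have h1 : ∀ {μ : Type} (z : Pr K μ), (1 : MvPolynomial μ K) ∉ z.asIdeal := fun z h =>
    z.isPrime.ne_top ((Ideal.eq_top_iff_one _).2 h)
  obtain ⟨h2, h3⟩ := Gen.main ψ w 1 (by rw [map_one]; exact h1 w) fun j =>
    ⟨0, by rw [pow_zero, one_mul]; exact hint j⟩
  refine ⟨h2, fun a => ?_⟩
  have e : {z : Pr K ι | cm ψ w ≤ z ∧ 1 ∈ z.asIdeal} = ∅ :=
    Set.eq_empty_of_forall_notMem fun z hz => h1 z hz.2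
  have h4 := h3 a
  rwa [e, Finsupp.supported_empty, sup_bot_eq] at h4

theorem rs_ratOn [IsAlgClosed K] {Y : Set (ι → K)} (hY : LC Y) {w : Pr K ι} (hw : w ∈ hat Y)
    {c : Cy K ι} (hc : c ∈ RatOn K w.asIdeal) : rs Y c ∈ RatG ∅ Y := by
  refine (Submodule.span_le (p := (RatG ∅ Y).comap (rs Y))).2 ?_ hc
  rintro _ ⟨z, b, hz, rfl⟩
  change rs Y _ ∈ RatG ∅ Y
  by_cases h3 : z ∈ hat Y
  · exact rs_dv_mem h3 b
  · rw [hY.rs_dv_off hw hz h3]
    exact zero_mem _

end Pool.Agent.Lib.MP_60ec62_ag.DL
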