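import Pool.Agent.Lib.MP_60ec62_ag.DF.MIso
import Pool.Agent.Lib.MP_60ec62_ag.DF.Gen

/-!
The tangent line relation on the Artin-Schreier curve.
-/

noncomputable section

namespace Pool.Agent.Lib.MP_60ec62_ag.DL

open MvPolynomial

namespace Curve

section General

variable {K : Type} [Field K]

/-- Over a generically finite map, the elements become integral after multiplication. -/
lemma exists_mult {S R : Type} [CommRing S] [Algebra K S] [CommRing R] [Algebra K R]
    [Algebra.EssFiniteType K S] [Algebra.EssFiniteType K R] (φ : S →ₐ[K] R) (P : PrimeSpectrum R)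
    (h : dm K P ≤ dm K (cm φ P)) (s : Finset R) : ∃ f, φ f ∉ P.asIdeal ∧ ∀ r ∈ s,
      ((Ideal.Quotient.mk P.asIdeal).comp (φ : S →+* R)).IsIntegralElem
        (Ideal.Quotient.mk P.asIdeal (φ f * r)) := by
  classical
  let ψ := Dim.qm φ P
  let := ψ.toRingHom.toAlgebra
  have : IsScalarTower K (S ⧸ (cm φ P).asIdeal) (R ⧸ P.asIdeal) :=
    IsScalarTower.of_algebraMap_eq fun c => (ψ.commutes c).symm
  have : FaithfulSMul (S ⧸ (cm φ P).asIdeal) (R ⧸ P.asIdeal) :=
    (faithfulSMul_iff_algebraMap_injective _ _).mpr (Dim.qm_injective φ P)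
  have h1 := trdeg_add_eq K (S ⧸ (cm φ P).asIdeal) (A := R ⧸ P.asIdeal)
  rw [Dim.trdeg_eq_dm, Dim.trdeg_eq_dm] at h1
  have h2 : Algebra.trdeg (S ⧸ (cm φ P).asIdeal) (R ⧸ P.asIdeal) = 0 := by
    by_contra h0
    have h3 : (dm K (cm φ P) : Cardinal) + 1 ≤ dm K P := by
      rw [← h1]
      exact add_le_add_right (Cardinal.one_le_iff_ne_zero.2 h0) _
    have h4 : dm K (cm φ P) + 1 ≤ dm K P := by exact_mod_cast h3
    omega
  have := trdeg_eq_zero_iff.1 h2
  obtain ⟨y, hy, hi⟩ := Algebra.IsAlgebraic.exists_integral_multiples (S ⧸ (cm φ P).asIdeal)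
    (s.image (Ideal.Quotient.mk P.asIdeal))
  obtain ⟨f, rfl⟩ := Ideal.Quotient.mk_surjective y
  refine ⟨f, fun hf => hy (Ideal.Quotient.eq_zero_iff_mem.2 hf), fun r hr => ?_⟩
  obtain ⟨g, hg, e⟩ := hi _ (Finset.mem_image_of_mem _ hr)
  obtain ⟨g, rfl, -, hg'⟩ := Polynomial.lifts_and_degree_eq_and_monic
    ((Polynomial.mem_lifts g).2 (Polynomial.map_surjective _ Ideal.Quotient.mk_surjective g)) hg
  refine ⟨g, hg', ?_⟩
  rw [Polynomial.eval₂_map] at e
  exact e

/-- The elements that are integral after multiplication with a power of `f`. -/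
def GI {R A : Type} [CommRing R] [CommRing A] (φ : R →+* A) (f : R) : Subring A where
  carrier := {s | ∃ n : ℕ, φ.IsIntegralElem (φ f ^ n * s)}
  one_mem' := ⟨0, by simpa using φ.isIntegralElem_one⟩
  zero_mem' := ⟨0, by simpa using φ.isIntegralElem_zero⟩
  add_mem' := by
    rintro a b ⟨n, ha⟩ ⟨m, hb⟩
    refine ⟨n + m, ?_⟩
    have := ((φ.isIntegralElem_map (x := f ^ m)).mul φ ha).add φ
      ((φ.isIntegralElem_map (x := f ^ n)).mul φ hb)
    convert this using 1
    simp only [map_pow]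
    ring
  mul_mem' := by
    rintro a b ⟨n, ha⟩ ⟨m, hb⟩
    refine ⟨n + m, ?_⟩
    convert ha.mul φ hb using 1
    ring
  neg_mem' := by
    rintro a ⟨n, ha⟩
    exact ⟨n, by simpa using ha⟩

lemma map_mem_GI {R A : Type} [CommRing R] [CommRing A] (φ : R →+* A) (f r : R) : φ r ∈ GI φ f :=
  ⟨0, by simpa using φ.isIntegralElem_map⟩

/-- The sum of the first Frobenius powers. -/
def LL {A : Type} [CommRing A] (p e : ℕ) (t : A) : A := ∑ i ∈ Finset.range e, t ^ p ^ i

section LL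

variable {A : Type} [CommRing A] {p : ℕ} [Fact p.Prime] [CharP A p] (e : ℕ)

lemma LL_sub (s t : A) : LL p e (s - t) = LL p e s - LL p e t := by
  simp only [LL, sub_pow_char_pow, Finset.sum_sub_distrib]

omit [CharP A p] in
lemma LL_zero : LL p e (0 : A) = 0 :=
  Finset.sum_eq_zero fun i _ => zero_pow (pow_ne_zero i (Fact.out : p.Prime).ne_zero)

lemma LL_tel (y : A) : LL p e (y ^ p - y) = y ^ p ^ e - y := by
  have := Finset.sum_range_sub (fun i => y ^ p ^ i) e
  simp only [pow_zero, pow_one] at this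
  rw [← this, LL]
  refine Finset.sum_congr rfl fun i _ => ?_
  rw [sub_pow_char_pow, ← pow_mul, ← pow_succ']

lemma LL_pow (t : A) : LL p e t ^ p - LL p e t = t ^ p ^ e - t := by
  rw [← LL_tel, LL_sub, LL, LL, sum_pow_char]
  congr 1
  exact Finset.sum_congr rfl fun i _ => pow_right_comm _ _ _

omit [CharP A p] in
lemma LL_mem {I : Ideal A} {t : A} (h : t ∈ I) : LL p e t ∈ I :=
  I.sum_mem fun i _ => I.pow_mem_of_mem h _ (pow_pos (Fact.out : p.Prime).pos i)

omit [Fact p.Prime] [CharP A p] in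
lemma map_LL {B F : Type} [CommRing B] [FunLike F A B] [RingHomClass F A B] (φ : F) (t : A) :
    φ (LL p e t) = LL p e (φ t) := by
  simp only [LL, map_sum, map_pow]

omit [Fact p.Prime] [CharP A p] in
lemma LL_mem' {I : Subring A} {t : A} (h : t ∈ I) : LL p e t ∈ I :=
  I.sum_mem fun _ _ => I.pow_mem h _

/-- The tangent line meets the curve in two points. -/
lemma tangent (y x u v : A) :
    (u + y ^ (p ^ e * p ^ e) + LL p e (x ^ p ^ e * v)) ^ p -
      (u + y ^ (p ^ e * p ^ e) + LL p e (x ^ p ^ e * v)) -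
      (v + x ^ (p ^ e * p ^ e)) ^ (p ^ e + 1) =
    u ^ p - u + (y ^ p - y - x ^ (p ^ e + 1)) ^ (p ^ e * p ^ e) -
      v * (v - -(x + x ^ (p ^ e * p ^ e))) ^ p ^ e := by
  have h1 := LL_pow (p := p) e (x ^ p ^ e * v)
  have h2 : ∀ a b : A, (a - b) ^ (p ^ e * p ^ e) = a ^ (p ^ e * p ^ e) - b ^ (p ^ e * p ^ e) :=
    fun a b => by rw [pow_mul, sub_pow_char_pow, sub_pow_char_pow, pow_mul, pow_mul]
  rw [add_pow_char, add_pow_char, h2, h2, sub_neg_eq_add, add_pow_char_pow, add_pow_char_pow,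
    pow_succ (v + _), add_pow_char_pow]
  rw [mul_pow] at h1
  generalize p ^ e = q at *
  linear_combination h1

/-- The second intersection point. -/
lemma tangent' (y x : A) :
    y ^ (p ^ e * p ^ e) + LL p e (x ^ p ^ e * -(x + x ^ (p ^ e * p ^ e))) - y =
      LL p e (y ^ p - y - x ^ (p ^ e + 1)) + LL p e ((y ^ p - y - x ^ (p ^ e + 1)) ^ p ^ e) := by
  have h1 : x ^ p ^ e * -(x + x ^ (p ^ e * p ^ e)) =
      0 - x ^ (p ^ e + 1) - (x ^ (p ^ e + 1)) ^ p ^ e := by
    generalize p ^ e = q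
    ring
  have h2 : (y ^ p - y - x ^ (p ^ e + 1)) ^ p ^ e =
      (y ^ p ^ e) ^ p - y ^ p ^ e - (x ^ (p ^ e + 1)) ^ p ^ e := by
    rw [sub_pow_char_pow, sub_pow_char_pow, pow_right_comm y p]
  rw [h1, h2, LL_sub, LL_sub, LL_zero, LL_sub e (_ - _), LL_sub e (_ - _), LL_tel, LL_tel, pow_mul]
  ring

end LL

end General

variable {K : Type} [Field K] {τ : Type}

/-- Polynomials on the product of the plane with the second factor. -/
abbrev RR (K τ : Type) [Field K] : Type := MvPolynomial (Option Unit ⊕ τ) K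

/-- Polynomials with two further variables. -/
abbrev SS (K τ : Type) [Field K] : Type := MvPolynomial ((Option Unit ⊕ τ) ⊕ Option Unit) K

/-- The coordinate of the cover. -/
abbrev yy : RR K τ := X (Sum.inl none)

/-- The coordinate of the line. -/
abbrev xx : RR K τ := X (Sum.inl (some ()))

/-- The first new variable. -/
abbrev uu : SS K τ := X (Sum.inr none)

/-- The second new variable. -/
abbrev vv : SS K τ := X (Sum.inr (some ()))

/-- The inclusion of the old variables. -/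
abbrev il : RR K τ →ₐ[K] SS K τ := rename Sum.inl

/-- The inclusion of the variables of the second factor. -/
abbrev ir : MvPolynomial τ K →ₐ[K] RR K τ := rename Sum.inr

/-- The equation of the curve. -/
def eqn (p q : ℕ) : RR K τ := yy ^ p - yy - xx ^ (q + 1)

/-- The product of the curve with the second factor. -/
abbrev YY (p q : ℕ) (T : Set (τ → K)) : Set (Option Unit ⊕ τ → K) :=
  prodT (AS p (Set.univ : Set (Unit → K)) fun x => x () ^ (q + 1)) T

/-- Substitution for the new variables. -/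
def th (c : RR K τ) : SS K τ →ₐ[K] RR K τ := aeval (Sum.elim X fun j => j.elim 0 fun _ => c)

/-- The parametrisation of the tangent curves. -/
def ps (p e : ℕ) : RR K τ →ₐ[K] SS K τ :=
  aeval (Sum.elim (fun j => j.elim
    (uu + il yy ^ (p ^ e * p ^ e) + LL p e (il xx ^ p ^ e * vv))
    fun _ => vv + il xx ^ (p ^ e * p ^ e)) fun j => X (Sum.inl (Sum.inr j)))

/-- The involution of the curve. -/
def io : RR K τ →ₐ[K] RR K τ :=
  aeval (Sum.elim (fun j => j.elim yy fun _ => -xx) fun j => X (Sum.inr j))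

variable {p q e : ℕ} {T : Set (τ → K)} {P : Pr K (Option Unit ⊕ τ)}

lemma mem_YY {z : Option Unit ⊕ τ → K} : z ∈ YY p q T ↔ eval z (eqn p q) = 0 ∧ z ∘ Sum.inr ∈ T := by
  simp [prodT, AS, eqn, sub_eq_zero (b := z (Sum.inl (some ())) ^ (q + 1))]

lemma th_il (c a : RR K τ) : th c (il a) = a := by
  rw [th, aeval_rename, Sum.elim_comp_inl, aeval_X_left_apply]

lemma th_uu (c : RR K τ) : th c uu = 0 := by simp [th]

lemma th_vv (c : RR K τ) : th c vv = c := by simp [th]

lemma ps_yy : ps p e (yy : RR K τ) =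
    uu + il yy ^ (p ^ e * p ^ e) + LL p e (il xx ^ p ^ e * vv) := by
  rw [ps, aeval_X]; rfl

lemma ps_xx : ps p e (xx : RR K τ) = vv + il xx ^ (p ^ e * p ^ e) := by
  rw [ps, aeval_X]; rfl

lemma ps_inr (j : τ) : ps p e (X (Sum.inr j) : RR K τ) = il (X (Sum.inr j)) := by
  rw [rename_X, ps, aeval_X]; rfl

lemma ps_ir (a : MvPolynomial τ K) : ps p e (ir a) = il (ir a) := by
  have : (ps p e).comp ir = (il (K := K) (τ := τ)).comp ir :=
    MvPolynomial.algHom_ext fun j => by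
      rw [AlgHom.comp_apply, AlgHom.comp_apply, rename_X, ps_inr]
  exact DFunLike.congr_fun this a

lemma io_yy : io (yy : RR K τ) = yy := by simp [io]

lemma io_xx : io (xx : RR K τ) = -xx := by simp [io]

lemma io_inr (j : τ) : io (X (Sum.inr j) : RR K τ) = X (Sum.inr j) := by simp [io]

lemma io_ir : (io (K := K) (τ := τ)).comp ir = ir :=
  MvPolynomial.algHom_ext fun j => by rw [AlgHom.comp_apply, rename_X, io_inr]

lemma io_io : (io (K := K) (τ := τ)).comp io = AlgHom.id K _ := by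
  refine MvPolynomial.algHom_ext ?_
  rintro ((_ | _) | j)
  · rw [AlgHom.comp_apply, io_yy, io_yy, AlgHom.id_apply]
  · rw [AlgHom.comp_apply, io_xx, map_neg, io_xx, neg_neg, AlgHom.id_apply]
  · rw [AlgHom.comp_apply, io_inr, io_inr, AlgHom.id_apply]

/-- The product of a subvariety with a line. -/
abbrev w1 (P : Pr K (Option Unit ⊕ τ)) : Pr K ((Option Unit ⊕ τ) ⊕ Option Unit) :=
  extZ (Option Unit) (insert none ∅) P

lemma w1_le (c : RR K τ) : w1 P ≤ cm (th c) P :=
  Prod.le_iff.2 ⟨fun a ha => by rwa [mem_cm, th_il], fun j hj => by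
    obtain rfl : j = none := by simpa using hj
    rw [mem_cm, th_uu]
    exact zero_mem _⟩

lemma not_mem_w1 (c : RR K τ) : vv - il c ∉ (w1 P).asIdeal := fun h => by
  have := w1_le (c + 1) h
  rw [mem_cm, map_sub, th_vv, th_il, add_sub_cancel_left] at this
  exact P.isPrime.ne_top ((Ideal.eq_top_iff_one _).2 this)

lemma sup_eq (c : RR K τ) : (w1 P).asIdeal ⊔ Ideal.span {vv - il c} = (cm (th c) P).asIdeal := by
  refine le_antisymm (sup_le (w1_le c) ?_) fun f hf => ?_
  · rw [Ideal.span_singleton_le_iff_mem, mem_cm, map_sub, th_vv, th_il, sub_self]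
    exact zero_mem _
  · set J := (w1 P).asIdeal ⊔ Ideal.span {vv - il c}
    have e : (Ideal.Quotient.mkₐ K J).comp (il.comp (th c)) = Ideal.Quotient.mkₐ K J := by
      refine MvPolynomial.algHom_ext ?_
      rintro (i | _ | _)
      · rw [AlgHom.comp_apply, AlgHom.comp_apply, ← rename_X Sum.inl i, th_il]
      · rw [AlgHom.comp_apply, AlgHom.comp_apply, th_uu, map_zero, map_zero, eq_comm]
        exact Ideal.Quotient.eq_zero_iff_mem.2 (Ideal.mem_sup_left (X_mem_extZ.2 (by simp)))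
      · rw [AlgHom.comp_apply, AlgHom.comp_apply, th_vv, eq_comm]
        exact Ideal.Quotient.eq.2 (Ideal.mem_sup_right (Ideal.subset_span rfl))
    have h1 : Ideal.Quotient.mk J (il (th c f)) = Ideal.Quotient.mk J f := DFunLike.congr_fun e f
    rw [← Ideal.Quotient.eq_zero_iff_mem, ← h1, Ideal.Quotient.eq_zero_iff_mem]
    exact Ideal.mem_sup_left (rename_mem_extZ.2 hf)

lemma push_th (ψ : RR K τ →ₐ[K] SS K τ) (c : RR K τ) :
    pushA ψ (Finsupp.single (cm (th c) P) 1) = pushA ((th c).comp ψ) (Finsupp.single P 1) := by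
  rw [pushA_comp, LinearMap.comp_apply, pushA_single (th c),
    dgA_locSurj fun r => ⟨il r, 1, by simp, by rw [map_one, mul_one, th_il]⟩, Nat.cast_one, one_smul]

lemma pf_pow_X {ι : Type} (M : Set ι) (n : ℕ) (i : ι) [Decidable (i ∈ M)] :
    (pf (K := K) p M ^ n) (X i) = if i ∈ M then X i ^ p ^ n else X i := by
  induction n with
  | zero => simp
  | succ n ih =>
    rw [pow_succ', AlgHom.mul_apply, ih]
    split_ifs with h
    · rw [map_pow, pf, aeval_X, if_pos h, ← pow_mul, ← pow_succ']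
    · rw [pf, aeval_X, if_neg h]

lemma FF_pow {ι : Type} (M : Set ι) (n : ℕ) : FF (K := K) p M ^ n = pushA (pf p M ^ n) := by
  induction n with
  | zero => exact pushA_id.symm
  | succ n ih =>
    rw [pow_succ', pow_succ, ih]
    exact (pushA_comp _ _).symm

variable [Finite τ]

lemma dv_w1 (c : RR K τ) : dv K (w1 P) (vv - il c) = Finsupp.single (cm (th c) P) 1 :=
  dv_eq_single (not_mem_w1 c) (sup_eq c)

variable [IsAlgClosed K]

lemma mem_hat_YY (hT : LC T) : P ∈ hat (YY p q T) ↔ eqn p q ∈ P.asIdeal ∧ cm ir P ∈ hat T := by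
  obtain ⟨I, J, rfl⟩ := hT
  have h1 : ∀ (I : Ideal (MvPolynomial τ K)) (x : Option Unit ⊕ τ → K),
      (∀ f ∈ I.map ir, eval x f = 0) ↔ ∀ f ∈ I, eval (x ∘ Sum.inr) f = 0 := fun I x => by
    show I.map _ ≤ RingHom.ker (eval x) ↔ _
    rw [Ideal.map_le_iff_le_comap]
    refine forall₂_congr fun f _ => ?_
    rw [Ideal.mem_comap, RingHom.mem_ker, eval_rename]
  have e : YY p q {x : τ → K | (∀ f ∈ I, eval x f = 0) ∧ ∃ g ∈ J, eval x g ≠ 0} =
      {x | (∀ f ∈ Ideal.span {eqn p q} ⊔ I.map ir, eval x f = 0) ∧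
        ∃ g ∈ J.map ir, eval x g ≠ 0} := by
    ext x
    rw [mem_YY, Set.mem_ofPred_eq, Set.mem_ofPred_eq, Prod.exists_iff, Prod.exists_iff, h1, ← h1 I,
      ← and_assoc]
    refine and_congr_left' ?_
    show _ ∧ I.map ir ≤ RingHom.ker (eval x) ↔ _ ≤ RingHom.ker (eval x)
    rw [sup_le_iff, Ideal.span_singleton_le_iff_mem, RingHom.mem_ker]
  rw [e, mem_hat_iff, mem_hat_iff, sup_le_iff, Ideal.span_singleton_le_iff_mem,
    Ideal.map_le_iff_le_comap, Ideal.map_le_iff_le_comap, and_assoc]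
  rfl

variable [Fact p.Prime] [CharP K p]

omit [Finite τ] [IsAlgClosed K] [CharP K p] in
lemma th_zero_ps : (th 0).comp (ps p e) = pf (K := K) p (mR (Option Unit) τ)ᶜ ^ (2 * e) := by
  classical
  refine MvPolynomial.algHom_ext ?_
  rintro ((_ | _) | j)
  · rw [AlgHom.comp_apply, ps_yy, pf_pow_X, if_pos (by simp), map_add, map_add, map_LL, map_mul,
      th_vv, th_uu, mul_zero, LL_zero, map_pow, th_il, zero_add, add_zero, two_mul, pow_add]
  · rw [AlgHom.comp_apply, ps_xx, pf_pow_X, if_pos (by simp), map_add, th_vv, map_pow, th_il,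
      zero_add, two_mul, pow_add]
  · rw [AlgHom.comp_apply, ps_inr, pf_pow_X, if_neg (by simp), th_il]

omit [Finite τ] [IsAlgClosed K] in
lemma th_neg_ps (hP : eqn p (p ^ e) ∈ P.asIdeal) (r : RR K τ) :
    (th (-(xx + xx ^ (p ^ e * p ^ e)))).comp (ps p e) r - io r ∈ P.asIdeal := by
  have : (Ideal.Quotient.mkₐ K P.asIdeal).comp
      ((th (-(xx + xx ^ (p ^ e * p ^ e)))).comp (ps p e)) =
      (Ideal.Quotient.mkₐ K P.asIdeal).comp io := by
    refine MvPolynomial.algHom_ext ?_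
    rintro ((_ | _) | j)
    · refine Ideal.Quotient.eq.2 (show th _ (ps p e yy) - io yy ∈ _ from ?_)
      rw [ps_yy, io_yy, map_add, map_add, map_LL, map_mul, th_vv, th_uu, map_pow,
        map_pow, th_il, th_il, zero_add, tangent']
      exact add_mem (LL_mem e hP) (LL_mem e (P.asIdeal.pow_mem_of_mem hP _
        (pow_pos (Fact.out : p.Prime).pos e)))
    · refine congrArg (Ideal.Quotient.mkₐ K P.asIdeal) (show th _ (ps p e xx) = io xx from ?_)
      rw [ps_xx, io_xx, map_add, th_vv, map_pow, th_il]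
      ring
    · refine congrArg (Ideal.Quotient.mkₐ K P.asIdeal) (show th _ (ps p e _) = io _ from ?_)
      rw [ps_inr, io_inr, th_il]
  exact Ideal.Quotient.eq.1 (DFunLike.congr_fun this r)

omit [IsAlgClosed K] in
/-- The divisor of the equation on the family of tangent curves. -/
lemma dv_ps (hP : eqn p (p ^ e) ∈ P.asIdeal) :
    dv K (w1 P) (-ps p e (eqn p (p ^ e))) = Finsupp.single (cm (th 0) P) 1 +
      ((p ^ e : ℕ) : ℚ) • Finsupp.single (cm (th (-(xx + xx ^ (p ^ e * p ^ e)))) P) (1 : ℚ) := by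
  have hp : p.Prime := Fact.out
  rw [← dv_w1, ← dv_w1, ← dv_pow (not_mem_w1 _), ← dv_mul (not_mem_w1 _)
    fun h => not_mem_w1 _ ((w1 P).isPrime.mem_of_pow_mem _ h)]
  refine dv_congr ?_
  have hu : uu ∈ (w1 P).asIdeal := X_mem_extZ.2 (by simp)
  have h1 : il (eqn p (p ^ e)) ∈ (w1 P).asIdeal := rename_mem_extZ.2 hP
  have h2 := neg_mem (add_mem (sub_mem ((w1 P).asIdeal.pow_mem_of_mem hu _ hp.pos) hu)
    ((w1 P).asIdeal.pow_mem_of_mem h1 (p ^ e * p ^ e) (Nat.mul_pos (pow_pos hp.pos e) (pow_pos hp.pos e))))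
  convert h2 using 1
  simp only [eqn, map_sub, map_pow, map_neg, map_add, map_zero, ps_yy, ps_xx]
  rw [tangent]
  ring

omit [Finite τ] [IsAlgClosed K] [Fact p.Prime] [CharP K p] in
lemma int_ps {f : MvPolynomial τ K} (hf : ∀ i, ((Ideal.Quotient.mk P.asIdeal).comp
      (ir (K := K) (τ := τ) : MvPolynomial τ K →+* RR K τ)).IsIntegralElem (Ideal.Quotient.mk P.asIdeal (ir f * X i)))
    {w : Pr K ((Option Unit ⊕ τ) ⊕ Option Unit)} (hw : ∀ a ∈ P.asIdeal, il a ∈ w.asIdeal) (j) :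
    ∃ n : ℕ, ((Ideal.Quotient.mk w.asIdeal).comp (ps p e).toRingHom).IsIntegralElem
      (Ideal.Quotient.mk w.asIdeal (ps p e (ir f) ^ n * X j)) := by
  set φ := (Ideal.Quotient.mk w.asIdeal).comp (ps (K := K) (τ := τ) p e).toRingHom
  have h1 : ∀ i, Ideal.Quotient.mk w.asIdeal (il (X i)) ∈ GI φ (ir f) := fun i => by
    have h2 := (hf i).map (Ideal.quotientMap w.asIdeal (il (K := K) (τ := τ) : RR K τ →+* SS K τ) hw)
    have h3 : (Ideal.quotientMap w.asIdeal (il (K := K) (τ := τ) : RR K τ →+* SS K τ) hw).comp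
        ((Ideal.Quotient.mk P.asIdeal).comp (ir (K := K) (τ := τ) : MvPolynomial τ K →+* RR K τ)) =
        φ.comp (ir (K := K) (τ := τ) : MvPolynomial τ K →+* RR K τ) :=
      RingHom.ext fun a => congrArg (Ideal.Quotient.mk w.asIdeal) (ps_ir a).symm
    rw [h3] at h2
    refine ⟨1, ?_⟩
    have h4 : φ.IsIntegralElem (Ideal.Quotient.mk w.asIdeal (il (ir f * X i))) := h2.of_comp
    rw [map_mul, map_mul] at h4
    have h5 : φ (ir f) = Ideal.Quotient.mk w.asIdeal (il (ir f)) :=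
      congrArg (Ideal.Quotient.mk w.asIdeal) (ps_ir f)
    rw [pow_one, h5]
    exact h4
  have hv : Ideal.Quotient.mk w.asIdeal vv ∈ GI φ (ir f) := by
    have h2 := sub_mem (map_mem_GI φ (ir f) xx) (pow_mem (h1 (Sum.inl (some ()))) (p ^ e * p ^ e))
    convert h2 using 1
    rw [← map_pow, eq_sub_iff_add_eq, ← map_add]
    exact congrArg (Ideal.Quotient.mk w.asIdeal) ps_xx.symm
  have hu : Ideal.Quotient.mk w.asIdeal uu ∈ GI φ (ir f) := by
    have h2 := sub_mem (sub_mem (map_mem_GI φ (ir f) yy) (LL_mem' (p := p) e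
      (mul_mem (pow_mem (h1 (Sum.inl (some ()))) (p ^ e)) hv)))
      (pow_mem (h1 (Sum.inl none)) (p ^ e * p ^ e))
    have h3 : φ yy = _ := congrArg (Ideal.Quotient.mk w.asIdeal) ps_yy
    rw [h3, map_add, map_add, map_LL, map_mul, map_pow, map_pow, add_sub_cancel_right,
      add_sub_cancel_right] at h2
    exact h2
  have h : Ideal.Quotient.mk w.asIdeal (X j) ∈ GI φ (ir f) := by
    rcases j with i | _ | _
    · rw [← rename_X Sum.inl i]
      exact h1 i
    · exact hu
    · exact hv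
  obtain ⟨n, hn⟩ := h
  exact ⟨n, by rw [map_mul, map_pow]; exact hn⟩

omit [Finite τ] [IsAlgClosed K] [Fact p.Prime] [CharP K p] in
lemma rs_mem_big {Y : Set (Option Unit ⊕ τ → K)} {b : Pr K τ} {c : Cy K (Option Unit ⊕ τ)}
    (h : ∀ z, c z ≠ 0 → b < cm ir z) :
    rs Y c ∈ Finsupp.supported ℚ ℚ {z | z ∈ hat Y ∧ b < cm ir z} := by
  refine (Finsupp.mem_supported' ℚ _).2 fun z hz => ?_
  by_cases h1 : z ∈ hat Y
  · rw [flt_apply_of_mem h1]
    exact not_not.1 fun h0 => hz ⟨h1, h z h0⟩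
  · exact flt_apply_of_not_mem h1 _

/-- The tangent line relation. -/
theorem rel (hT : LC T) (hP : P ∈ hat (YY p (p ^ e) T)) (hd : dm K P ≤ dm K (cm ir P)) :
    rs (YY p (p ^ e) T) ((FF p (mR (Option Unit) τ)ᶜ ^ (2 * e)) (Finsupp.single P 1) +
      ((p ^ e : ℕ) : ℚ) • pushA io (Finsupp.single P (1 : ℚ))) ∈ RatG ∅ (YY p (p ^ e) T) ⊔
      Finsupp.supported ℚ ℚ {z | z ∈ hat (YY p (p ^ e) T) ∧ cm ir P < cm ir z} := by
  classical
  have := Fintype.ofFinite τ
  obtain ⟨h1, h2⟩ := (mem_hat_YY hT).1 hP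
  have hY : LC (YY p (p ^ e) T) := (LC.univ.AS ((RegF.coord _).pow _) p).prodT hT
  obtain ⟨f, hf, hi⟩ := exists_mult ir P hd (Finset.univ.image X)
  have hk := hK (K := K) p (SS K τ) (extZ (Option Unit) ∅ P) uu (-ps p e (eqn p (p ^ e)))
  rw [dv_extZ_X (Set.notMem_empty _), G, Finsupp.linearCombination_single, one_smul, dv_ps h1] at hk
  rw [FF_pow, ← th_zero_ps, ← pushA_congr (th_neg_ps h1), ← push_th, ← push_th, ← map_smul,
    ← map_add]
  refine Submodule.mem_comap.1 ((Submodule.span_le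
    (p := Submodule.comap (rs (YY p (p ^ e) T) ∘ₗ pushA (ps p e)) _)).2 ?_ hk)
  rintro _ ⟨w, a, hw, rfl⟩
  refine Submodule.mem_comap.2 ?_
  rw [LinearMap.comp_apply]
  have hw1 : ∀ a ∈ P.asIdeal, il a ∈ w.asIdeal := fun a ha =>
    hw (Ideal.mem_sup_left (rename_mem_extZ.2 ha))
  have hw2 : eqn p (p ^ e) ∈ (cm (ps p e) w).asIdeal :=
    (mem_cm _ _ _).2 (neg_mem_iff.1 (hw (Ideal.mem_sup_right (Ideal.subset_span rfl))))
  have hb : cm ir P ≤ cm ir (cm (ps p e) w) := fun g hg => by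
    rw [mem_cm, mem_cm, ps_ir]
    exact hw1 _ hg
  rcases hb.eq_or_lt with hb | hb
  · have hf' : f ∉ (cm ir (cm (ps p e) w)).asIdeal := hb ▸ hf
    obtain ⟨c1, hc1, c2, hc2, hc⟩ := Submodule.mem_sup.1 (genPush (ps p e) w (ir f) hf'
      (int_ps (fun i => hi _ (Finset.mem_image_of_mem _ (Finset.mem_univ i))) hw1) a)
    rw [← hc, map_add]
    refine Submodule.add_mem_sup (rs_ratOn hY ((mem_hat_YY hT).2 ⟨hw2, hb ▸ h2⟩) hc1)
      (rs_mem_big fun z hz => ?_)
    obtain ⟨h3, h4⟩ := (Finsupp.mem_supported ℚ _).1 hc2 (Finsupp.mem_support_iff.2 hz)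
    exact lt_of_le_not_ge (hb.le.trans fun g hg => h3 hg) fun h5 => hf (h5 h4)
  · refine Submodule.mem_sup_right (rs_mem_big fun z hz => ?_)
    obtain ⟨Q, hQ, rfl⟩ := pushA_supp hz
    exact hb.trans_le fun g hg => (dv_supp hQ).1.le hg

end Curve

end Pool.Agent.Lib.MP_60ec62_ag.DL
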