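import Pool.Agent.Lib.MP_60ec62_ag.DF.FExt

/-!
The total Frobenius.
-/

noncomputable section

namespace Pool.Agent.Lib.MP_60ec62_ag.DL

open MvPolynomial

namespace Tot

open KeyEq

section Fields

variable {A B C : Type} [Field A] [Field B] [Field C]

/-- The degree of a map of fields. -/
def hd (f : A →+* B) : ℕ :=
  letI := f.toAlgebra
  Module.finrank A B

lemma hd_comp (f : A →+* B) (g : B →+* C) : hd (g.comp f) = hd f * hd g := by
  let := f.toAlgebra
  let := g.toAlgebra
  let := (g.comp f).toAlgebra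
  have : IsScalarTower A B C := IsScalarTower.of_algebraMap_eq fun _ => rfl
  exact (Module.finrank_mul_finrank A B C).symm

lemma hd_bij {f : A →+* B} (h : Function.Bijective f) : hd f = 1 := by
  let := f.toAlgebra
  exact Module.finrank_of_bijective_algebraMap h

lemma hd_frob {p : ℕ} {f : A →+* B} (h : hd f ≠ 0) {F : A →+* A} {G : B →+* B}
    (hF : ∀ a, F a = a ^ p) (hG : ∀ a, G a = a ^ p) : hd F = hd G := by
  have e : G.comp f = f.comp F := RingHom.ext fun a => by
    rw [RingHom.comp_apply, RingHom.comp_apply, hF, hG, map_pow]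
  have := hd_comp f G
  rw [e, hd_comp, mul_comm] at this
  exact mul_left_cancel₀ h this

end Fields

variable {K : Type} [Field K] {p : ℕ} {ι : Type}

lemma pf_X_mem {M : Set ι} {i : ι} (h : i ∈ M) :
    pf p M (X i : MvPolynomial ι K) = X i ^ p := by rw [pf, aeval_X, if_pos h]

lemma pf_X_not {M : Set ι} {i : ι} (h : i ∉ M) :
    pf p M (X i : MvPolynomial ι K) = X i := by rw [pf, aeval_X, if_neg h]

lemma pf_union {M M₁ : Set ι} (h : Disjoint M M₁) :
    (pf (K := K) p M).comp (pf p M₁) = pf p (M ∪ M₁) := by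
  refine MvPolynomial.algHom_ext fun i => ?_
  rw [AlgHom.comp_apply]
  by_cases h1 : i ∈ M₁
  · rw [pf_X_mem h1, map_pow, pf_X_not (Set.disjoint_right.1 h h1),
      pf_X_mem (Set.mem_union_right _ h1)]
  · rw [pf_X_not h1]
    by_cases h2 : i ∈ M
    · rw [pf_X_mem h2, pf_X_mem (Set.mem_union_left _ h2)]
    · rw [pf_X_not h2, pf_X_not fun e => e.elim h2 h1]

variable [Fact p.Prime] [CharP K p]

lemma pf_map (f : MvPolynomial ι K) : pf p Set.univ (map (frobenius K p) f) = f ^ p := by
  have e : ((pf p Set.univ : MvPolynomial ι K →ₐ[K] _) : MvPolynomial ι K →+* _).comp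
      (map (frobenius K p)) = frobenius (MvPolynomial ι K) p :=
    MvPolynomial.ringHom_ext (fun c => by simp [pf, frobenius_def])
      fun i => by simp [pf, frobenius_def]
  exact DFunLike.congr_fun e f

variable (K p) in
/-- Frobenius of a residue field. -/
def fr {R : Type} [CommRing R] [Algebra K R] (z : PrimeSpectrum R) : Rf z →+* Rf z :=
  haveI : CharP (Rf z) p :=
    charP_of_injective_ringHom ((algebraMap R (Rf z)).comp (algebraMap K R)).injective p
  frobenius _ p

lemma fr_cm {R S : Type} [CommRing R] [Algebra K R] [CommRing S] [Algebra K S] {φ : R →ₐ[K] S}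
    {Q : PrimeSpectrum S} (h : dgA φ Q ≠ 0) : hd (fr K p (cm φ Q)) = hd (fr K p Q) :=
  hd_frob (p := p) (f := rm (φ : R →+* S) (z := cm φ Q) (q := Q) rfl) h (fun _ => rfl) fun _ => rfl

variable [IsAlgClosed K]

lemma dgA_fr (P : Pr K ι) : dgA (pf p Set.univ) P = hd (fr K p P) := by
  let σ := MvPolynomial.mapEquiv ι (frobeniusEquiv K p)
  have s : ∀ f, σ f = map (frobenius K p) f := fun _ => rfl
  have h : P = PrimeSpectrum.comap (σ : MvPolynomial ι K →+* MvPolynomial ι K)
      (cm (pf p Set.univ) P) := PrimeSpectrum.ext (Ideal.ext fun f => by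
    show _ ↔ pf p Set.univ (σ f) ∈ P.asIdeal
    rw [s, pf_map, Ideal.IsPrime.pow_mem_iff_mem P.isPrime p (Fact.out : p.Prime).pos])
  have e : (rm ((pf p Set.univ : MvPolynomial ι K →ₐ[K] _) : MvPolynomial ι K →+* _)
      (z := cm (pf p Set.univ) P) (q := P) rfl).comp (rm _ h) = fr K p P :=
    Ideal.ResidueField.ringHom_ext (RingHom.ext fun f => by
      simp only [RingHom.comp_apply, rm_apply]
      exact ((congrArg (algebraMap _ (Rf P)) (pf_map f)).trans (map_pow _ _ _)))
  rw [← e, hd_comp, hd_bij (rm_bij σ h), one_mul]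
  rfl

variable [Finite ι]

lemma cm_gen (M : Set ι) : cm (pf p M) (gen (MvPolynomial ι K)) = gen _ :=
  eq_of_pts (mem_hat_univ _) (mem_hat_univ _) fun x _ => by
    obtain ⟨y, rfl⟩ := (pfx_bijective (p := p) (M := M)).2 x
    have : ∀ z, z ∈ Vp (gen (MvPolynomial ι K)) := fun z f hf => by
      rw [(Submodule.mem_bot _).1 hf, map_zero]
    exact iff_of_true (mem_Vp_pf.2 (this _)) (this _)

lemma dgA_one (i : ι) : dgA (pf p {i}) (gen (MvPolynomial ι K)) = p := by
  classical
  have hp : p.Prime := Fact.out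
  let φ : MvPolynomial ι K →ₐ[K] _ := pf p {i}
  let G := gen (MvPolynomial ι K)
  let := (rm (φ : MvPolynomial ι K →+* _) (z := cm φ G) (q := G) rfl).toAlgebra
  have am : ∀ f, algebraMap (Rf (cm φ G)) (Rf G) (algebraMap (MvPolynomial ι K) _ f) =
      algebraMap (MvPolynomial ι K) _ (φ f) := fun f => rm_apply _ _ f
  let x : Rf G := algebraMap (MvPolynomial ι K) _ (X i)
  let a : Rf (cm φ G) := algebraMap (MvPolynomial ι K) _ (X i)
  have irr : Irreducible (Polynomial.X ^ p - Polynomial.C a) :=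
    X_pow_sub_C_irreducible_of_prime hp fun b hb => by
      obtain ⟨u, v, hv, e⟩ := rf_frac _ b
      have h1 : u ^ p - X i * v ^ p ∈ (cm φ G).asIdeal := by
        rw [← rf_zero, map_sub, map_mul, map_pow, map_pow, ← e, mul_pow, hb, sub_self]
      rw [cm_gen] at h1 hv
      have h2 := congrArg (pderiv i) ((Submodule.mem_bot _).1 h1)
      simp only [map_sub, Derivation.leibniz_pow, Derivation.leibniz, pderiv_X_self, nsmul_eq_mul,
        CharP.cast_eq_zero, zero_mul, smul_eq_mul, mul_one, zero_add, zero_sub,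
        map_zero, neg_eq_zero, mul_zero] at h2
      exact hv ((Submodule.mem_bot _).2 (pow_eq_zero_iff hp.ne_zero |>.1 h2))
  have mo := Polynomial.monic_X_pow_sub_C a hp.ne_zero
  have rt : Polynomial.aeval x (Polynomial.X ^ p - Polynomial.C a) = 0 := by
    rw [map_sub, map_pow, Polynomial.aeval_X, Polynomial.aeval_C, am,
      pf_X_mem (Set.mem_singleton i), map_pow, sub_self]
  have mem : ∀ f : MvPolynomial ι K,
      algebraMap _ (Rf G) f ∈ IntermediateField.adjoin (Rf (cm φ G)) {x} := fun f => by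
    induction f using MvPolynomial.induction_on with
    | C c =>
      rw [← algebraMap_eq, ← φ.commutes, ← am]
      exact IntermediateField.algebraMap_mem _ _
    | add f g hf hg => rw [map_add]; exact add_mem hf hg
    | mul_X f j hf =>
      rw [map_mul]
      refine mul_mem hf ?_
      by_cases h : j = i
      · rw [h]; exact IntermediateField.mem_adjoin_simple_self _ _
      · rw [← pf_X_not (p := p) (M := {i}) h, ← am]
        exact IntermediateField.algebraMap_mem _ _
  have top : IntermediateField.adjoin (Rf (cm φ G)) {x} = ⊤ := eq_top_iff.2 fun l _ => by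
    obtain ⟨u, v, hv, e⟩ := rf_frac _ l
    rw [eq_div_of_mul_eq (mt rf_zero.1 hv) e]
    exact div_mem (mem u) (mem v)
  have := IntermediateField.adjoin.finrank (K := Rf (cm φ G)) (x := x) ⟨_, mo, rt⟩
  rw [top, IntermediateField.finrank_top', ← minpoly.eq_of_irreducible_of_monic irr rt mo,
    Polynomial.natDegree_X_pow_sub_C] at this
  exact this

lemma dgA_gen (M : Set ι) : dgA (pf p M) (gen (MvPolynomial ι K)) = p ^ M.ncard := by
  induction M, M.toFinite using Set.Finite.induction_on with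
  | empty =>
    rw [Set.ncard_empty, pow_zero]
    exact dgA_eq_one' fun j => ⟨X j, 1, by rw [map_one]; exact (gen _).isPrime.one_notMem, by
      rw [map_one, mul_one, pf_X_not (Set.notMem_empty j), sub_self]; exact zero_mem _⟩
  | @insert i M hi hM ih =>
    rw [Set.insert_eq, ← pf_union (Set.disjoint_singleton_left.2 hi), dgA_comp, cm_gen, ih, dgA_one,
      ← Set.insert_eq, Set.ncard_insert_of_notMem hi hM, pow_succ]

omit [IsAlgClosed K] [Finite ι] in
lemma fix_mul {L : ℕ} {g : MvPolynomial ι K} (h : map (iterateFrobenius K p L) g = g) (m : ℕ) :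
    map (iterateFrobenius K p (L * m)) g = g := by
  induction m with
  | zero => rw [mul_zero, iterateFrobenius_zero, map_id]
  | succ m ih => rw [mul_add_one, iterateFrobenius_add, ← map_map, h, ih]

omit [IsAlgClosed K] [Finite ι] in
lemma fix_one (hK : Per K p) (g : MvPolynomial ι K) :
    ∃ L, 0 < L ∧ map (iterateFrobenius K p L) g = g := by
  induction g using MvPolynomial.induction_on' with
  | monomial u a =>
    obtain ⟨N, h0, h⟩ := hK a
    exact ⟨N, h0, by rw [map_monomial, iterateFrobenius_def, h]⟩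
  | add f g hf hg =>
    obtain ⟨L, h0, h⟩ := hf
    obtain ⟨N, h1, h'⟩ := hg
    exact ⟨L * N, mul_pos h0 h1, by rw [map_add, fix_mul h, mul_comm, fix_mul h']⟩

omit [IsAlgClosed K] [Finite ι] in
lemma fix_set (hK : Per K p) (s : Finset (MvPolynomial ι K)) :
    ∃ L, 0 < L ∧ ∀ g ∈ s, map (iterateFrobenius K p L) g = g := by
  classical
  induction s using Finset.induction_on with
  | empty => exact ⟨1, one_pos, by simp⟩
  | insert f s _ ih =>
    obtain ⟨L, h0, h⟩ := fix_one hK f
    obtain ⟨N, h1, h'⟩ := ih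
    refine ⟨L * N, mul_pos h0 h1, Finset.forall_mem_insert .. |>.2 ⟨fix_mul h _, fun g hg => ?_⟩⟩
    rw [mul_comm, fix_mul (h' g hg)]

omit [IsAlgClosed K] [Finite ι] in
lemma mem_iter {P : Pr K ι} {f : MvPolynomial ι K} (hf : f ∈ P.asIdeal) (n : ℕ) :
    map (iterateFrobenius K p n) f ∈ ((cm (pf p Set.univ))^[n] P).asIdeal := by
  induction n with
  | zero => rwa [iterateFrobenius_zero, map_id]
  | succ n ih =>
    rw [Function.iterate_succ_apply', mem_cm, add_comm, iterateFrobenius_add, ← map_map,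
      iterateFrobenius_one, pf_map]
    exact Ideal.pow_mem_of_mem _ ih _ (Fact.out : p.Prime).pos

lemma dm_iter (P : Pr K ι) (n : ℕ) : dm K ((cm (pf p Set.univ))^[n] P) = dm K P := by
  induction n with
  | zero => rfl
  | succ n ih => rw [Function.iterate_succ_apply', dm_cm_pf, ih]

end Tot

variable {K : Type} [Field K] [IsAlgClosed K] {p q : ℕ} [Fact p.Prime] [CharP K p]
  {ι κ ι' τ : Type} [Finite ι] [Finite κ] [Finite ι'] [Finite τ]

omit [IsAlgClosed K] [Fact p.Prime] [CharP K p] [Finite ι] in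
lemma pf_comm (M M₁ : Set ι) :
    (pf (K := K) p M).comp (pf p M₁) = (pf p M₁).comp (pf p M) := by
  refine MvPolynomial.algHom_ext fun i => ?_
  by_cases h : i ∈ M <;> by_cases h1 : i ∈ M₁ <;> simp [pf, h, h1]

omit [IsAlgClosed K] [Fact p.Prime] [CharP K p] [Finite ι] in
lemma FF_comm (M M₁ : Set ι) : Commute (FF (K := K) p M) (FF p M₁) :=
  ((pushA_comp _ _).symm.trans (congrArg pushA (pf_comm M₁ M))).trans (pushA_comp _ _)

omit [IsAlgClosed K] [Fact p.Prime] [CharP K p] [Finite ι] in
lemma FF_mul_compl (M : Set ι) : FF (K := K) p M * FF p Mᶜ = FF p Set.univ :=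
  (pushA_comp _ _).symm.trans (by
    rw [Tot.pf_union disjoint_compl_left, Set.compl_union_self]; rfl)

theorem dgA_pf_univ (P : Pr K ι) : dgA (pf p Set.univ) P = p ^ dm K P := by
  obtain ⟨s, g, hg, hf⟩ := exists_finite_inj_algHom_of_fg K (MvPolynomial ι K ⧸ P.asIdeal)
  have e1 : cm (Ideal.Quotient.mkₐ K P.asIdeal) (gen _) = P :=
    PrimeSpectrum.ext (Ideal.ext fun _ => Ideal.Quotient.eq_zero_iff_mem)
  have e2 : cm g (gen _) = gen _ :=
    PrimeSpectrum.ext (Ideal.ext fun _ => map_eq_zero_iff g hg)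
  have l : LocSurj (Ideal.Quotient.mkₐ K P.asIdeal) := fun r => by
    obtain ⟨a, rfl⟩ := Ideal.Quotient.mk_surjective r
    exact ⟨a, 1, by rw [map_one]; exact isUnit_one, by rw [map_one, mul_one]; rfl⟩
  have d1 := (hD K).2.2.2.1 _ _ _ l (gen _)
  have d2 := dm_cm_of_finite hf (gen _)
  have f1 := Tot.fr_cm (p := p) ((dgA_locSurj l (gen _)).trans_ne one_ne_zero)
  have f2 := Tot.fr_cm (p := p) (dgA_ne_zero hf (gen _))
  rw [e1] at d1 f1
  rw [e2] at d2 f2
  rw [Tot.dgA_fr, f1, ← f2, ← Tot.dgA_fr, Tot.dgA_gen, d1, ← d2, (hD K).2.2.2.2.2.2.2,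
    Set.ncard_univ, Nat.card_eq_fintype_card]

theorem exists_period (hK : Per K p) (P : Pr K ι) : ∃ L, 0 < L ∧ ∀ m : ℕ,
    (FF p Set.univ ^ (L * m)) (Finsupp.single P 1) =
      (p : ℚ) ^ (L * m * dm K P) • Finsupp.single P (1 : ℚ) := by
  obtain ⟨s, hs⟩ := IsNoetherian.noetherian P.asIdeal
  obtain ⟨L, h0, h⟩ := Tot.fix_set hK s
  refine ⟨L, h0, fun m => ?_⟩
  have e : P = (cm (pf p Set.univ))^[L * m] P := eq_of_le_of_dm_le (K := K) (by
    refine hs.ge.trans (Submodule.span_le.2 fun g hg => ?_)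
    rw [← Tot.fix_mul (h g hg) m]
    exact Tot.mem_iter (hs.le (Submodule.subset_span hg)) _) (Tot.dm_iter P _).ge
  have k : ∀ n, (FF p Set.univ ^ n) (Finsupp.single P 1) =
      (p : ℚ) ^ (n * dm K P) • Finsupp.single ((cm (pf p Set.univ))^[n] P) (1 : ℚ) := fun n => by
    induction n with
    | zero => simp
    | succ n ih =>
      rw [pow_succ', Module.End.mul_apply, ih, map_smul, FF_single, dgA_pf_univ, Tot.dm_iter,
        smul_smul, Function.iterate_succ_apply', add_one_mul, pow_add, Nat.cast_pow]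
  rw [k, ← e]

theorem FF_extZ_mR (s : Set κ) (P : Pr K ι) :
    FF p (mR ι κ) (Finsupp.single (extZ κ s P) 1) =
      (p : ℚ) ^ sᶜ.ncard • Finsupp.single (extZ κ s P) (1 : ℚ) := by
  have hp : p.Prime := Fact.out
  obtain ⟨P, rfl⟩ := (cm_pf_bijective (p := p) (M := Set.univ)).2 P
  have e0 : (mR ι κ)ᶜ = mL Set.univ κ := Set.ext fun i => by rcases i with i | i <;> simp
  have e1 : cm (pf p Set.univ) (extZ κ s P) = extZ κ s (cm (pf p Set.univ) P) :=
    eq_of_pts (mem_hat_univ _) (mem_hat_univ _) fun x _ => by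
      obtain ⟨y, rfl⟩ := (pfx_bijective (p := p) (M := Set.univ)).2 x
      rw [mem_Vp_pf, mem_Vp_extZ, mem_Vp_extZ, ← mem_Vp_pf (p := p) (M := Set.univ)]
      refine and_congr (Iff.of_eq (congrArg _ (funext fun i => ?_))) (forall₂_congr fun j _ => ?_)
      · simp only [pfx_of_mem (Set.mem_univ _), Function.comp_apply]
      · rw [pfx_of_mem (Set.mem_univ _), pow_eq_zero_iff hp.ne_zero]
  have h := LinearMap.congr_fun (FF_mul_compl (K := K) (p := p) (mR ι κ))
    (Finsupp.single (extZ κ s P) 1)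
  rw [FF_single (M := Set.univ), Module.End.mul_apply, e0, ← Finsupp.mapDomain_single, ← FF_extZ,
    FF_single, Finsupp.mapDomain_smul, Finsupp.mapDomain_single, map_smul,
    dgA_pf_univ, dgA_pf_univ, dm_extZ, e1, pow_add, Nat.cast_mul, mul_smul] at h
  rw [smul_right_injective _ (Nat.cast_ne_zero.2 (pow_ne_zero _ hp.ne_zero)) h, Nat.cast_pow]

end Pool.Agent.Lib.MP_60ec62_ag.DL
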