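import Pool.Agent.Lib.MP_60ec62_ag.DF.MIso
import Pool.Agent.Lib.MP_60ec62_ag.DF.Gen
import Pool.Agent.Lib.MP_60ec62_ag.DF.Tot
import Pool.Agent.Lib.MP_60ec62_ag.DF.CurveA

/-!
The point and the Artin-Schreier curve.
-/

noncomputable section

namespace Pool.Agent.Lib.MP_60ec62_ag.DL

open MvPolynomial

variable {K : Type} [Field K] [IsAlgClosed K] {p q : ℕ} [Fact p.Prime] [CharP K p]
  {ι κ ι' τ : Type} [Finite ι] [Finite κ] [Finite ι'] [Finite τ]

namespace Curve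

variable {e : ℕ} {T : Set (τ → K)} {P : Pr K (Option Unit ⊕ τ)}

omit [Fact p.Prime] [CharP K p] in
lemma exists_root {R : Type} [CommRing R] [Algebra K R] (P : PrimeSpectrum R) (r : R)
    {g : Polynomial K} (hg : g.Monic) (h : Polynomial.aeval r g ∈ P.asIdeal) :
    ∃ c : K, r - algebraMap K R c ∈ P.asIdeal := by
  have hi : IsIntegral K (Ideal.Quotient.mkₐ K P.asIdeal r) :=
    ⟨g, hg, by
      rw [← Polynomial.aeval_def, Polynomial.aeval_algHom_apply]
      exact Ideal.Quotient.eq_zero_iff_mem.2 h⟩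
  obtain ⟨c, hc⟩ := minpoly.mem_range_of_degree_eq_one K _
    (IsAlgClosed.degree_eq_one_of_irreducible K (minpoly.irreducible hi))
  exact ⟨c, Ideal.Quotient.eq.1 hc.symm⟩

omit [CharP K p] in
lemma rect_of_lt (h : eqn p q ∈ P.asIdeal) (hd : dm K (cm ir P) < dm K P) :
    Rect (mR (Option Unit) τ) P := by
  have hp : p.Prime := Fact.out
  refine rect_of_minimal (Z := {z | eval z (eqn p q) = 0 ∧ z ∘ Sum.inr ∈ Vp (cm ir P)}) ?_
    ⟨⟨P.isPrime, fun f hf => mem_hat_univ P f fun x _ hx => Hat.mem_vI.1 hf x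
      ⟨hx _ h, fun g hg => by rw [← eval_rename]; exact hx _ hg⟩⟩, fun Q hQ hQP => ?_⟩
  · intro x hx y hy
    have e1 : mix (mR (Option Unit) τ) x y ∘ Sum.inr = y ∘ Sum.inr :=
      funext fun j => mix_of_mem inr_mem_mR x y
    refine ⟨?_, e1 ▸ hy.2⟩
    have := hx.1
    simp only [eqn, map_sub, map_pow, eval_X, mix_of_not_mem inl_not_mem_mR] at this ⊢
    exact this
  · let s : RR K τ →ₐ[K] MvPolynomial (τ ⊕ Option Unit) K := rename Sum.swap
    have hs : LocSurj s := fun r => ⟨rename Sum.swap r, 1, by simp, by simp [s, rename_rename]⟩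
    have h1 : cm s (extZ (Option Unit) ∅ (cm ir P)) < ⟨Q, hQ.1⟩ := by
      refine lt_of_le_not_ge (fun f hf => hQ.2 (Hat.mem_vI.2 fun z hz => ?_)) fun h2 => ?_
      · have h3 : z ∘ Sum.swap ∈ Vp (extZ (Option Unit) ∅ (cm ir P)) :=
          mem_Vp_extZ.2 ⟨hz.2, fun _ hj => hj.elim⟩
        have h4 := h3 _ hf
        rw [RingHom.coe_coe, eval_rename] at h4
        convert h4
        funext i
        simp
      · obtain ⟨t, -, ht⟩ := hat_nonempty (mem_hat_univ (cm ir P))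
        have h3 : (Sum.elim t fun o => o.elim 0 fun _ => 1) ∈
            Vp (extZ (Option Unit) ∅ (cm ir P)) := mem_Vp_extZ.2 ⟨ht, fun _ hj => hj.elim⟩
        have h4 := h3 _ (h2 (hQ.2 (Hat.mem_vI.2 fun z hz => hz.1)))
        simp [s, eqn, hp.ne_zero] at h4
    have h2 := dm_lt (K := K) h1
    rw [Dim.dm_locSurj hs, dm_extZ, Set.compl_empty, Set.ncard_univ, Finite.card_option,
      Nat.card_unique] at h2
    exact (congrArg PrimeSpectrum.asIdeal
      (eq_of_le_of_dm_le (K := K) (p := ⟨Q, hQ.1⟩) (q := P) hQP (by omega))).ge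

/-- The generically finite subvarieties over a fixed subvariety of the second factor. -/
def AA (p e : ℕ) (T : Set (τ → K)) (b : Pr K τ) : Set (Pr K (Option Unit ⊕ τ)) :=
  {P | P ∈ hat (YY p (p ^ e) T) ∧ cm ir P = b ∧ dm K P ≤ dm K b}

omit [Finite τ] [IsAlgClosed K] [Fact p.Prime] [CharP K p] in
lemma pf_ir : (pf (K := K) p (mR (Option Unit) τ)ᶜ).comp ir = ir :=
  MvPolynomial.algHom_ext fun j => by
    rw [AlgHom.comp_apply, rename_X, pf, aeval_X, if_neg (by simp)]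

omit [Finite τ] [IsAlgClosed K] [Fact p.Prime] [CharP K p] in
lemma pf_inl (i : Option Unit) :
    pf (K := K) p (mR (Option Unit) τ)ᶜ (X (Sum.inl i)) = X (Sum.inl i) ^ p := by
  rw [pf, aeval_X, if_pos (by simp)]

omit [Finite τ] [IsAlgClosed K] in
lemma pf_io : (pf (K := K) p (mR (Option Unit) τ)ᶜ).comp io = io.comp (pf p (mR (Option Unit) τ)ᶜ) := by
  refine MvPolynomial.algHom_ext ?_
  rintro ((_ | _) | j)
  · rw [AlgHom.comp_apply, AlgHom.comp_apply, io_yy, pf_inl, map_pow, io_yy]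
  · rw [AlgHom.comp_apply, AlgHom.comp_apply, io_xx, map_neg, pf_inl, map_pow, io_xx, neg_pow,
      neg_one_pow_char, neg_one_mul]
  · rw [AlgHom.comp_apply, AlgHom.comp_apply, io_inr, pf, aeval_X, if_neg (by simp), io_inr]

lemma pf_AA (hT : LC T) {b : Pr K τ} (h : P ∈ AA p e T b) :
    cm (pf p (mR (Option Unit) τ)ᶜ) P ∈ AA p e T b := by
  have hp : p.Prime := Fact.out
  have e1 : cm ir (cm (pf p (mR (Option Unit) τ)ᶜ) P) = cm ir P := by rw [← cm_comp, pf_ir]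
  obtain ⟨h1, h2⟩ := (mem_hat_YY hT).1 h.1
  refine ⟨(mem_hat_YY hT).2 ⟨?_, e1 ▸ h2⟩, e1.trans h.2.1, (dm_cm_pf P).le.trans h.2.2⟩
  have e2 : pf p (mR (Option Unit) τ)ᶜ (eqn p (p ^ e) : RR K τ) = eqn p (p ^ e) ^ p := by
    simp only [eqn, map_sub, map_pow, pf_inl, sub_pow_char]
    rw [pow_right_comm xx p]
  rw [mem_cm, e2]
  exact P.asIdeal.pow_mem_of_mem h1 _ hp.pos

lemma io_AA (hT : LC T) {b : Pr K τ} (h : P ∈ AA p e T b) : cm io P ∈ AA p e T b := by
  have e1 : cm ir (cm io P) = cm ir P := by rw [← cm_comp, io_ir]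
  obtain ⟨h1, h2⟩ := (mem_hat_YY hT).1 h.1
  have hs : LocSurj (io (K := K) (τ := τ)) := fun r =>
    ⟨io r, 1, by simp, by rw [map_one, mul_one]; exact (DFunLike.congr_fun io_io r).symm⟩
  refine ⟨(mem_hat_YY hT).2 ⟨?_, e1 ▸ h2⟩, e1.trans h.2.1, (Dim.dm_locSurj hs P).le.trans h.2.2⟩
  have e2 : io (eqn p (p ^ e) : RR K τ) = eqn p (p ^ e) := by
    simp only [eqn, map_sub, map_pow, io_yy, io_xx]
    rw [pow_succ (-xx), neg_pow, neg_one_pow_char_pow, pow_succ xx]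
    ring
  rwa [mem_cm, e2]

omit [Finite τ] [IsAlgClosed K] in
lemma push_supp {φ : RR K τ →ₐ[K] RR K τ} {S : Set (Pr K (Option Unit ⊕ τ))}
    (h : ∀ P ∈ S, cm φ P ∈ S) {c : Cy K (Option Unit ⊕ τ)} (hc : c ∈ Finsupp.supported ℚ ℚ S) :
    pushA φ c ∈ Finsupp.supported ℚ ℚ S := by
  refine (Finsupp.mem_supported' ℚ _).2 fun z hz => not_not.1 fun h0 => ?_
  obtain ⟨Q, hQ, rfl⟩ := pushA_supp h0
  exact hz (h Q ((Finsupp.mem_supported ℚ _).1 hc (Finsupp.mem_support_iff.2 hQ)))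

/-- Iteration of a relation `V + a I = 0` with a commuting involution `I`. -/
lemma iter {V : Type} [AddCommGroup V] [Module ℚ V] {A N : Submodule ℚ V} {U I : Module.End ℚ V}
    {a : ℚ} (hU : ∀ c ∈ A, U c ∈ A) (hI : ∀ c ∈ A, I c ∈ A) (hc : ∀ c, U (I c) = I (U c))
    (hi : ∀ c, I (I c) = c) (h : ∀ c ∈ A, U c + a • I c ∈ N) (m : ℕ) :
    ∀ c ∈ A, (U ^ (2 * m)) c - a ^ (2 * m) • c ∈ N := by
  induction m with
  | zero => simp
  | succ m ih =>
    intro c hA
    have h1 := Nil.pow_stable hU hA (2 * m)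
    have h2 := add_mem (sub_mem (h _ (hU _ h1)) (N.smul_mem a (h _ (hI _ h1))))
      (N.smul_mem (a ^ 2) (ih c hA))
    convert h2 using 1
    rw [hc, hi, mul_add, mul_one, add_comm (2 * m) 2, pow_add, Module.End.mul_apply, sq U,
      Module.End.mul_apply]
    module

end Curve

open Curve

theorem fgood_pt [IsEmpty ι] : FGood p (Set.univ : Set (ι → K)) fun _ => 0 := by
  have hp : p.Prime := Fact.out
  refine ⟨LC.univ, RegF.zero, fun τ _ T hT P hP => le_nilT (hT.mset _).frob inl_not_mem_mR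
    (Submodule.mem_sup_left (Submodule.mem_sup_left
      (single_mem_SmR hP (fun _ hγ => hγ.elim) ?_)))⟩
  obtain ⟨c, hc⟩ := exists_root (K := K) P (X (Sum.inl none)) (g := Polynomial.X ^ p - Polynomial.X)
    (Polynomial.monic_X_pow_sub (by rw [Polynomial.degree_X]; exact_mod_cast hp.one_lt))
    (hP _ fun x hx _ => by simpa using hx.1.2)
  intro x hx y hy
  convert hy
  funext i
  rcases i with (_ | i) | j
  · have h1 := hx _ hc
    have h2 := hy _ hc
    simp only [algebraMap_eq, map_sub, eval_X, eval_C, sub_eq_zero] at h1 h2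
    rw [mix_of_not_mem inl_not_mem_mR, h1, h2]
  · exact isEmptyElim i
  · exact mix_of_mem inr_mem_mR x y

theorem fgood_curve [Fact (Per K p)] (hp : IsPP p q) :
    FGood p (Set.univ : Set (Unit → K)) fun x => x () ^ (q + 1) := by
  obtain ⟨e, he, rfl⟩ := hp
  have hp : p.Prime := Fact.out
  refine ⟨LC.univ, (RegF.coord _).pow _, fun τ _ T hT P => ?_⟩
  have hN := le_nilT (p := p) (hT.mset (AS p (Set.univ : Set (Unit → K))
    fun x => x () ^ (p ^ e + 1))).frob (inl_not_mem_mR (i := none))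
  induction hn : dm K (cm ir P) using Nat.strong_induction_on generalizing P with
  | _ n ih =>
  intro hP
  rcases lt_or_ge (dm K (cm ir P)) (dm K P) with hd | hd
  · exact hN (Submodule.mem_sup_left (Submodule.mem_sup_left
      (single_mem_SmR hP (fun _ hγ => hγ.elim) (rect_of_lt ((mem_hat_YY hT.lc).1 hP).1 hd))))
  set N := Nil (Sp p) (FF p (mR (Option Unit) τ)) (SmR (mR (Option Unit) τ) ∅ (YY p (p ^ e) T) ⊔
    RatG ∅ (YY p (p ^ e) T) ⊔ InvT (Sum.inl none) (YY p (p ^ e) T))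
  set A := Finsupp.supported ℚ ℚ (AA p e T (cm ir P))
  have hU : ∀ c ∈ A, (FF p (mR (Option Unit) τ)ᶜ ^ (2 * e)) c ∈ A := fun c hc =>
    Nil.pow_stable (fun c hc => push_supp (fun _ => pf_AA hT.lc) hc) hc _
  have hI : ∀ c ∈ A, pushA io c ∈ A := fun c hc => push_supp (fun _ => io_AA hT.lc) hc
  have hc : Commute (FF p (mR (Option Unit) τ)ᶜ) (pushA (io (K := K) (τ := τ))) :=
    ((pushA_comp _ _).symm.trans (congrArg pushA pf_io.symm)).trans (pushA_comp _ _)
  have hi : ∀ c : Cy K (Option Unit ⊕ τ), pushA io (pushA io c) = c := fun c => by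
    rw [← LinearMap.comp_apply, ← pushA_comp, io_io, pushA_id, LinearMap.id_apply]
  have hr : ∀ c ∈ A, (FF p (mR (Option Unit) τ)ᶜ ^ (2 * e)) c + ((p ^ e : ℕ) : ℚ) • pushA io c ∈ N := by
    intro c hA
    refine mem_of_singles (N := N.comap (FF p (mR (Option Unit) τ)ᶜ ^ (2 * e) +
      ((p ^ e : ℕ) : ℚ) • pushA io)) fun Q hQ => ?_
    have h1 : Q ∈ AA p e T (cm ir P) :=
      (Finsupp.mem_supported ℚ _).1 hA (Finsupp.mem_support_iff.2 hQ)
    have h2 := rel hT.lc h1.1 (h1.2.1 ▸ h1.2.2)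
    have h3 : Finsupp.single Q (1 : ℚ) ∈ A := Finsupp.single_mem_supported ℚ 1 h1
    have h4 := add_mem (hU _ h3) (A.smul_mem ((p ^ e : ℕ) : ℚ) (hI _ h3))
    rw [flt_eq_self fun z hz =>
      ((Finsupp.mem_supported ℚ _).1 h4 (Finsupp.mem_support_iff.2 hz)).1] at h2
    refine (sup_le (le_trans (le_sup_right.trans le_sup_left) hN) fun d hd' => ?_ : _ ≤ N) h2
    refine mem_of_singles fun z hz => ?_
    obtain ⟨h5, h6⟩ := (Finsupp.mem_supported ℚ _).1 hd' (Finsupp.mem_support_iff.2 hz)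
    exact ih _ (hn ▸ h1.2.1 ▸ dm_lt h6) z rfl h5
  obtain ⟨L, hL, hL'⟩ := exists_period (Fact.out : Per K p) P
  have h1 := Nil.pow_mem (iter hU hI (fun c => DFunLike.congr_fun (hc.pow_left (2 * e)).eq c) hi hr L
    _ (Finsupp.single_mem_supported ℚ 1 ⟨hP, rfl, hd⟩)) (L * (4 * e))
  rw [map_sub, map_smul, ← pow_mul, show 2 * e * (2 * L) = L * (4 * e) by ring,
    ← Module.End.mul_apply, ← (FF_comm _ _).mul_pow, FF_mul_compl, hL'] at h1
  have h0 : (p : ℚ) ≠ 0 := Nat.cast_ne_zero.2 hp.ne_zero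
  refine Nil.of_aeval (Submonoid.subset_closure
    ⟨2 * e * L, by positivity, (dm K P : ℤ) - 1, rfl⟩) ?_
  have h2 := N.smul_mem (-((p : ℚ) ^ (2 * e * L))⁻¹) h1
  convert h2 using 1
  have h3 : (p : ℚ) ^ (((2 * e * L : ℕ) : ℤ) * (2 * ((dm K P : ℤ) - 1) + 1)) =
      ((p : ℚ) ^ (2 * e * L))⁻¹ * (p : ℚ) ^ (L * (4 * e) * dm K P) := by
    rw [← zpow_natCast, ← zpow_natCast, ← zpow_neg, ← zpow_add₀ h0]
    congr 1
    push_cast
    ring
  have h4 : ((p : ℚ) ^ (2 * e * L))⁻¹ * ((p ^ e : ℕ) : ℚ) ^ (2 * L) = 1 := by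
    rw [Nat.cast_pow, ← pow_mul, show e * (2 * L) = 2 * e * L by ring, inv_mul_cancel₀ (pow_ne_zero _ h0)]
  rw [map_sub, map_pow, Polynomial.aeval_X, Polynomial.aeval_C, LinearMap.sub_apply,
    Module.algebraMap_end_apply, h3, show 2 * (2 * e * L) = L * (4 * e) by ring, smul_sub, smul_smul,
    smul_smul, neg_mul, neg_mul, h4]
  module

end Pool.Agent.Lib.MP_60ec62_ag.DL
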