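import Pool.Agent.Lib.MP_60ec62_ag.DF.FGoodFin
import Pool.Agent.Lib.MP_60ec62_ag.DL.Lang
import Pool.Agent.Lib.MP_60ec62_ag.DF.Curve

/-!
The Hermitian Artin-Schreier varieties.
-/

noncomputable section

namespace Pool.Agent.Lib.MP_60ec62_ag.DL.F

open MvPolynomial

variable {K : Type} [Field K] [IsAlgClosed K] {p q : ℕ} [Fact p.Prime] [CharP K p]
  {ι κ ι' : Type} [Finite ι] [Finite κ] [Finite ι']

namespace Herm

omit [IsAlgClosed K] in
lemma low_lt {P : Pr K ι} {Y : Set (ι → K)} (hP : P ∈ hat Y) (f : MvPolynomial ι (kk K))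
    (hf : f ≠ 0) (h0 : ∀ x ∈ Y, aeval x f = 0) : dm (kk K) (low 0 P) < Nat.card ι := by
  refine dm_lt_card fun e => hf ?_
  have h1 : f ∈ (low 0 P).asIdeal := hP (up f) fun x hx _ => by rw [eval_up, h0 x hx]
  rwa [e, Ideal.mem_bot] at h1

omit [IsAlgClosed K] in
lemma root_mem {t y : K} {n : ℕ} (hn : 2 ≤ n) {a c : K} (ha : a ∈ Kt t) (hc : c ∈ Kt t)
    (h : y ^ n = a * y + c) : y ∈ Kt t := by
  refine mem_Kt_of_isAlgebraic (IsIntegral.isAlgebraic
    ⟨Polynomial.X ^ n - (Polynomial.C ⟨a, ha⟩ * Polynomial.X + Polynomial.C ⟨c, hc⟩), ?_, ?_⟩)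
  · refine Polynomial.monic_X_pow_sub (Polynomial.degree_linear_le.trans_lt ?_)
    exact_mod_cast hn
  · simp only [Polynomial.eval₂_sub, Polynomial.eval₂_add, Polynomial.eval₂_mul,
      Polynomial.eval₂_X_pow, Polynomial.eval₂_X, Polynomial.eval₂_C]
    exact sub_eq_zero.2 h

omit [IsAlgClosed K] [Finite ι] [Finite κ] in
lemma reg_inl {Y : Set (ι → K)} {φ : (ι → K) → K} (h : Reg Y φ) :
    Reg (DL.prodA Y κ) fun x => φ (x ∘ Sum.inl) :=
  RegF.comp h (Φ := fun x : ι ⊕ κ → K => x ∘ Sum.inl) (fun j => RegF.coord (Sum.inl j))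
    fun _ hx => hx

lemma closed_part {Y : Set (ι → K)} {φ : (ι → K) → K} (hp : IsPP p q) (h : FGood p Y φ) :
    FGood p {x ∈ DL.prodA Y (Fin 2) | (x (Sum.inr 1) ^ q) ^ q + x (Sum.inr 1) = 0}
      fun x => φ (x ∘ Sum.inl) := by
  classical
  have h2 : 2 ≤ q * q := hp.two_le.trans (Nat.le_mul_self q)
  have hc : Reg (DL.prodA Y (Fin 2)) fun x => (x (Sum.inr 1) ^ q) ^ q + x (Sum.inr 1) :=
    (((RegF.coord _).pow q).pow q).add (RegF.coord _)
  have hL := hc.lc_zero (h.1.prodA (Fin 2))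
  let f : Polynomial K := Polynomial.X ^ (q * q) + Polynomial.X
  have hf : f ≠ 0 := by
    refine (Polynomial.monic_X_pow_add ?_).ne_zero
    rw [Polynomial.degree_X]
    exact_mod_cast h2
  have hr : ∀ a : K, a ∈ f.roots.toFinset ↔ (a ^ q) ^ q + a = 0 := fun a => by
    rw [Multiset.mem_toFinset, Polynomial.mem_roots hf, Polynomial.IsRoot, ← pow_mul]
    simp [f]
  refine FGood.stratVal hL ((reg_inl h.2.1).mono fun _ hx => hx.1) (F := ⊤)
    (c := fun x => x (Sum.inr 1)) (RegF.coord _) f.roots.toFinset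
    (fun x hx => (hr _).2 hx.2) fun a ha => ?_
  have ha' := (hr a).1 ha
  have hk : a ∈ kk K := root_mem h2 (neg_mem (one_mem _)) (zero_mem _)
    (by rw [pow_mul]; linear_combination ha')
  refine FGood.iso (h.prodA Unit) ?_
    (Φ := fun x => Sum.elim (x ∘ Sum.inl) fun _ => x (Sum.inr 0))
    (Ψ := fun z => Sum.elim (z ∘ Sum.inl) ![z (Sum.inr ()), a]) ⟨?_, ?_, ?_, ?_, ?_, ?_⟩ ?_
  · have h3 := ((RegF.coord (F := kk K) (Y := {x ∈ DL.prodA Y (Fin 2) |
      (x (Sum.inr 1) ^ q) ^ q + x (Sum.inr 1) = 0}) (Sum.inr 1)).sub (RegF.const hk)).lc_zero hL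
    simpa only [sub_eq_zero] using h3
  · rintro (i | i)
    · exact RegF.coord _
    · exact RegF.coord _
  · rintro (i | i)
    · exact RegF.coord _
    · fin_cases i
      · exact RegF.coord _
      · exact RegF.const hk
  · exact fun x hx => hx.1.1
  · exact fun z hz => ⟨⟨hz, ha'⟩, rfl⟩
  · intro x hx
    funext i
    rcases i with i | i
    · rfl
    · fin_cases i
      · rfl
      · exact hx.2.symm
  · intro z _
    funext i
    rcases i with i | i <;> rfl
  · exact fun x _ => rfl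

lemma open_part {Y : Set (ι → K)} {φ : (ι → K) → K} (h : FGood p Y φ) :
    FGood p {x ∈ DL.prodA Y (Fin 2) | ¬ (x (Sum.inr 1) ^ q) ^ q + x (Sum.inr 1) = 0}
      fun x => φ (x ∘ Sum.inl) + x (Sum.inr 0) * ((x (Sum.inr 1) ^ q) ^ q + x (Sum.inr 1)) := by
  have hc : Reg (DL.prodA Y (Fin 2)) fun x => (x (Sum.inr 1) ^ q) ^ q + x (Sum.inr 1) :=
    (((RegF.coord _).pow q).pow q).add (RegF.coord _)
  have hc' : Reg (DL.prodA Y Unit) fun x => (x (Sum.inr ()) ^ q) ^ q + x (Sum.inr ()) :=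
    (((RegF.coord _).pow q).pow q).add (RegF.coord _)
  have hk := FGood.kill (p := p) (hc'.lc_ne (h.1.prodA Unit))
    ((reg_inl h.2.1).mono fun _ hx => hx.1) (hc'.mono fun _ hx => hx.1) fun _ hy => hy.2
  refine FGood.iso hk (hc.lc_ne (h.1.prodA (Fin 2)))
    (Φ := fun x => Sum.elim (Sum.elim (x ∘ Sum.inl) fun _ => x (Sum.inr 1)) fun _ => x (Sum.inr 0))
    (Ψ := fun z => Sum.elim (z ∘ Sum.inl ∘ Sum.inl) ![z (Sum.inr ()), z (Sum.inl (Sum.inr ()))])
    ⟨?_, ?_, ?_, ?_, ?_, ?_⟩ ?_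
  · rintro ((i | i) | i) <;> exact RegF.coord _
  · rintro (i | i)
    · exact RegF.coord _
    · fin_cases i <;> exact RegF.coord _
  · exact fun x hx => hx
  · exact fun z hz => hz
  · intro x _
    funext i
    rcases i with i | i
    · rfl
    · fin_cases i <;> rfl
  · intro z _
    funext i
    rcases i with (i | i) | i <;> rfl
  · intro x _
    exact congrArg _ (mul_comm _ _)

lemma reindex {μ ν : Type} [Fintype μ] [Fintype ν] (e : μ ≃ ν)
    (h : FGood p (Set.univ : Set (ν → K)) fun x => ∑ m, x m ^ (q + 1)) :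
    FGood p (Set.univ : Set (μ → K)) fun x => ∑ m, x m ^ (q + 1) := by
  refine FGood.iso h LC.univ (Φ := fun x => x ∘ e.symm) (Ψ := fun z => z ∘ e)
    ⟨fun _ => RegF.coord _, fun _ => RegF.coord _, fun _ _ => trivial, fun _ _ => trivial,
      fun x _ => ?_, fun z _ => ?_⟩ fun x _ => ?_
  · funext i
    simp
  · funext i
    simp
  · exact (e.symm.sum_comp fun m => x m ^ (q + 1)).symm

end Herm

open Herm

theorem _root_.Pool.Agent.Lib.MP_60ec62_ag.DL.FGood.pair {Y : Set (ι → K)} {φ : (ι → K) → K} (hp : IsPP p q) (h : FGood p Y φ) :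
    FGood p (DL.prodA Y (Fin 2)) fun x => φ (x ∘ Sum.inl) +
      (x (Sum.inr 0) * x (Sum.inr 1) ^ q + x (Sum.inr 1) * x (Sum.inr 0) ^ q) := by
  classical
  have hL := h.1.prodA (Fin 2)
  have hc : Reg (DL.prodA Y (Fin 2)) fun x => (x (Sum.inr 1) ^ q) ^ q + x (Sum.inr 1) :=
    (((RegF.coord _).pow q).pow q).add (RegF.coord _)
  have h1 : FGood p (DL.prodA Y (Fin 2)) fun x => φ (x ∘ Sum.inl) +
      x (Sum.inr 0) * ((x (Sum.inr 1) ^ q) ^ q + x (Sum.inr 1)) :=
    FGood.strat' hL ((reg_inl h.2.1).add ((RegF.coord _).mul hc)) hc.relCl_zero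
      ((closed_part hp h).congr rfl fun x hx => by rw [hx.2, mul_zero, add_zero]) (open_part h)
  have h2 := h1.shiftq hp (ψ := fun x => x (Sum.inr 0) * x (Sum.inr 1))
    ((RegF.coord _).mul (RegF.coord _))
  have e : ∀ x : ι ⊕ Fin 2 → K,
      Function.update x (Sum.inr 1) (x (Sum.inr 1) ^ q) ∘ Sum.inl = x ∘ Sum.inl := fun x =>
    funext fun i => Function.update_of_ne Sum.inl_ne_inr _ _
  refine FGood.frob hp (Sum.inr 1) hL ((reg_inl h.2.1).add
    (((RegF.coord _).mul ((RegF.coord _).pow q)).add ((RegF.coord _).mul ((RegF.coord _).pow q))))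
    (h2.congr ?_ fun x _ => ?_)
  · ext x
    simp only [DL.prodA, Set.mem_ofPred_eq, e]
  · have e0 : Function.update x (Sum.inr 1) (x (Sum.inr 1) ^ q) (Sum.inr 0) = x (Sum.inr 0) :=
      Function.update_of_ne (by simp) _ _
    simp only [e, e0, Function.update_self, mul_pow]
    ring

theorem _root_.Pool.Agent.Lib.MP_60ec62_ag.DL.FGood.pair' {Y : Set (ι → K)} {φ : (ι → K) → K} (hp : IsPP p q) (h : FGood p Y φ) :
    FGood p (DL.prodA Y (Fin 2)) fun x => φ (x ∘ Sum.inl) + ∑ j, x (Sum.inr j) ^ (q + 1) := by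
  have := isAlgClosed_Kt (0 : K)
  have : CharP (kk K) p := (kk K).subtype.charP (kk K).subtype_injective p
  obtain ⟨b, hb⟩ := lang (K := kk K) hp (!![0, 1; 1, 0] : Matrix (Fin 2) (Fin 2) (kk K))
    (by simp [Matrix.det_fin_two])
  obtain ⟨c, hc, hc'⟩ : ∃ c : Matrix (Fin 2) (Fin 2) (kk K), c * b = 1 ∧ b * c = 1 := by
    have h1 : (b.map (· ^ q) * !![0, 1; 1, 0]).transpose * b = 1 := by
      rw [← Matrix.transpose_transpose b, ← Matrix.transpose_mul, Matrix.transpose_transpose b,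
        ← Matrix.mul_assoc, hb, Matrix.transpose_eq_one]
      ext i j
      fin_cases i <;> fin_cases j <;> simp
    exact ⟨_, h1, mul_eq_one_comm.1 h1⟩
  let B : Matrix (Fin 2) (Fin 2) K := b.map (kk K).subtype
  let D : Matrix (Fin 2) (Fin 2) K := c.map (kk K).subtype
  have hBD : B * D = 1 := by
    rw [← Matrix.map_mul, hc', Matrix.map_one _ (map_zero _) (map_one _)]
  have hDB : D * B = 1 := mul_eq_one_comm.1 hBD
  have hB : ∀ i j, B 0 i * B 0 j ^ q + B 1 i * B 1 j ^ q = if i = j then 0 else 1 := fun i j => by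
    have h1 := congrArg (kk K).subtype (congrFun (congrFun hb i) j)
    simp only [Matrix.mul_apply, Fin.sum_univ_two, Matrix.transpose_apply, Matrix.map_apply,
      map_add, map_mul, map_pow] at h1
    refine h1.trans ?_
    fin_cases i <;> fin_cases j <;> simp
  have key : ∀ a : Fin 2 → K, ∑ j, B.mulVec a j ^ (q + 1) = a 0 * a 1 ^ q + a 1 * a 0 ^ q := by
    intro a
    have h00 := hB 0 0
    have h01 := hB 0 1
    have h10 := hB 1 0
    have h11 := hB 1 1
    simp only [if_true, zero_ne_one, one_ne_zero, if_false] at h00 h01 h10 h11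
    simp only [Fin.sum_univ_two, Matrix.mulVec, dotProduct, pow_succ, hp.add_pow, mul_pow]
    linear_combination a 0 * a 0 ^ q * h00 + a 0 * a 1 ^ q * h01 + a 1 * a 0 ^ q * h10 +
      a 1 * a 1 ^ q * h11
  have hr : ∀ M : Matrix (Fin 2) (Fin 2) (kk K), RegMap (DL.prodA Y (Fin 2))
      fun x => Sum.elim (x ∘ Sum.inl) ((M.map (kk K).subtype).mulVec (x ∘ Sum.inr)) := by
    rintro M (i | i)
    · exact RegF.coord _
    · exact RegF.sum Finset.univ fun j _ => (RegF.const (M i j).2).mul (RegF.coord _)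
  refine FGood.iso (h.pair hp) (h.1.prodA _)
    (Φ := fun x => Sum.elim (x ∘ Sum.inl) (D.mulVec (x ∘ Sum.inr)))
    (Ψ := fun x => Sum.elim (x ∘ Sum.inl) (B.mulVec (x ∘ Sum.inr)))
    ⟨hr c, hr b, fun _ hx => hx, fun _ hx => hx, fun x _ => ?_, fun x _ => ?_⟩ fun x _ => ?_
  · rw [Sum.elim_comp_inl, Sum.elim_comp_inr, Matrix.mulVec_mulVec, hBD, Matrix.one_mulVec,
      Sum.elim_comp_inl_inr]
  · rw [Sum.elim_comp_inl, Sum.elim_comp_inr, Matrix.mulVec_mulVec, hDB, Matrix.one_mulVec,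
      Sum.elim_comp_inl_inr]
  · have h1 := key (D.mulVec (x ∘ Sum.inr))
    rw [Matrix.mulVec_mulVec, hBD, Matrix.one_mulVec] at h1
    exact congrArg _ h1

theorem good_herm [Fact (Per K p)] (hp : IsPP p q) (μ : Type) [Fintype μ] :
    FGood p (Set.univ : Set (μ → K)) fun x => ∑ m, x m ^ (q + 1) := by
  have H : ∀ n, FGood p (Set.univ : Set (Fin n → K)) fun x => ∑ m, x m ^ (q + 1) := by
    intro n
    induction n using Nat.twoStepInduction with
    | zero => exact fgood_pt.congr rfl fun x _ => Finset.sum_empty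
    | one =>
      exact reindex finOneEquiv ((fgood_curve hp).congr rfl fun x _ => Fintype.sum_unique _)
    | more n ih _ =>
      refine reindex finSumFinEquiv.symm ((ih.pair' hp).congr ?_ fun x _ => ?_)
      · exact (Set.eq_univ_of_forall fun _ => trivial).symm
      · exact Fintype.sum_sum_type _
  exact reindex (Fintype.equivFin μ) (H _)

theorem d_zero [Fact (Per K p)] (hp : IsPP p q) : FDStmt K p q 0 := by
  intro I N μ _ _ _ hI T _
  have : IsEmpty I := Fintype.card_eq_zero_iff.1 hI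
  have e : Wset (K := K) N μ T = Set.univ :=
    Set.eq_univ_of_forall fun _ i => isEmptyElim i
  rw [e]
  refine FGood.iso (good_herm hp μ) LC.univ (Φ := fun x => x ∘ Sum.inr ∘ Sum.inr)
    (Ψ := fun z => Sum.elim 0 (Sum.elim 0 z))
    ⟨fun _ => RegF.coord _, ?_, fun _ _ => trivial, fun _ _ => trivial, fun x _ => ?_,
      fun z _ => rfl⟩ fun x _ => ?_
  · rintro (i | i | i)
    · exact isEmptyElim i.1
    · exact isEmptyElim i.1
    · exact RegF.coord _
  · funext i
    rcases i with i | i | i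
    · exact isEmptyElim i.1
    · exact isEmptyElim i.1
    · rfl
  · simp [Wfun, herm]

end Pool.Agent.Lib.MP_60ec62_ag.DL.F
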