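import Pool.Agent.Lib.MP_60ec62_ag.DF.FUpLin
import Pool.Agent.Lib.MP_60ec62_ag.DL.WBasic

/-!
A basis of the space: one vector can be dropped.
-/

noncomputable section

namespace Pool.Agent.Lib.MP_60ec62_ag.DL.F

open MvPolynomial

variable {K : Type} [Field K] [IsAlgClosed K] {p q : ℕ} [Fact p.Prime] [CharP K p]
  {I N μ : Type} [Fintype I] [Fintype N] [Fintype μ]

namespace NondegA

omit [Fintype N] in
/-- Raising all entries to the power `q` keeps independence. -/
lemma li_pow (hp : IsPP p q) {α : Type} [Fintype α] {b : α → N → K} (h : LinearIndependent K b) :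
    LinearIndependent K fun a l => b a l ^ q := by
  rw [Fintype.linearIndependent_iff] at h ⊢
  intro c hc a
  choose d hd using fun a => IsAlgClosed.exists_pow_nat_eq (c a) (Nat.pos_of_ne_zero hp.ne_zero)
  have h1 : ∑ a, d a • b a = 0 := by
    funext l
    have h2 := congrFun hc l
    simp only [Finset.sum_apply, Pi.smul_apply, smul_eq_mul, Pi.zero_apply] at h2 ⊢
    refine pow_eq_zero_iff hp.ne_zero |>.1 ?_
    rw [hp.sum_pow, ← h2]
    exact Finset.sum_congr rfl fun a _ => by rw [mul_pow, hd]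
  rw [← hd, h d h1 a, zero_pow hp.ne_zero]

omit [IsAlgClosed K] in
lemma surj {α : Type} [Fintype α] {M : Matrix α N K} (h : LinearIndependent K M.row) :
    Function.Surjective M.mulVec := by
  have h1 : Module.finrank K (LinearMap.range M.mulVecLin) = Module.finrank K (α → K) := by
    rw [Module.finrank_fintype_fun_eq_card]
    exact h.rank_matrix
  exact LinearMap.range_eq_top.1 (Submodule.eq_top_of_finrank_eq h1)

omit [Fintype I] in
lemma exists_min [Finite I] [Nonempty I] {T : I → I → Prop} (hT : Ferrers T) :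
    ∃ j₀, ∀ i j, T i j₀ → T i j := by
  classical
  have := Fintype.ofFinite I
  obtain ⟨j₀, -, h⟩ := Finset.exists_min_image Finset.univ
    (fun j => (Finset.univ.filter fun i => T i j).card) Finset.univ_nonempty
  refine ⟨j₀, fun i j hi => ?_⟩
  by_contra hij
  refine absurd (h j (Finset.mem_univ _)) (not_le.2 (Finset.card_lt_card ⟨fun i' hi' => ?_, ?_⟩))
  · simp only [Finset.mem_filter, Finset.mem_univ, true_and] at hi' ⊢
    exact (hT i i' j₀ j hi hi').resolve_left hij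
  · intro hs
    have := hs (Finset.mem_filter.2 ⟨Finset.mem_univ i, hi⟩)
    exact hij (Finset.mem_filter.1 this).2

omit [IsAlgClosed K] [Fintype μ] in
lemma lc_open (T : I → I → Prop) :
    LC {x ∈ Zset (K := K) (N := N) q μ T | LinearIndependent K (gv x)} := by
  have h : RelCl {x ∈ Zset (K := K) (N := N) q μ T | ¬ LinearIndependent K (gv x)}
      (Zset q μ T) := relCl_dep (F := ⊤) fun _ _ => RegF.coord _
  have h1 := h.lc_diff (lc_Zset T)
  convert h1 using 1
  ext x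
  simp only [Set.mem_ofPred_eq, Set.mem_sdiff, not_and, not_not]
  exact ⟨fun hx => ⟨hx.1, fun _ => hx.2⟩, fun hx => ⟨hx.1, hx.2 hx.1⟩⟩

/-- Splitting off the vector `j₀`. -/
def spl (j₀ : I) (x : (I × N) ⊕ μ → K) : (({i // i ≠ j₀} × N) ⊕ μ) ⊕ N → K :=
  Sum.elim (Sum.elim (fun a => x (Sum.inl (a.1.1, a.2))) fun m => x (Sum.inr m))
    fun l => x (Sum.inl (j₀, l))

/-- Putting back the vector `j₀`. -/
def jn [DecidableEq I] (j₀ : I) (z : (({i // i ≠ j₀} × N) ⊕ μ) ⊕ N → K) : (I × N) ⊕ μ → K :=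
  Sum.elim (fun a => if h : a.1 = j₀ then z (Sum.inr a.2) else z (Sum.inl (Sum.inl (⟨a.1, h⟩, a.2))))
    fun m => z (Sum.inl (Sum.inr m))

omit [Field K] [IsAlgClosed K] [Fintype I] [Fintype N] [Fintype μ] in
lemma jn_spl [DecidableEq I] (j₀ : I) (x : (I × N) ⊕ μ → K) : jn j₀ (spl j₀ x) = x := by
  funext a
  rcases a with ⟨i, l⟩ | m
  · by_cases h : i = j₀
    · subst h
      simp [jn, spl]
    · simp [jn, spl, h]
  · rfl

omit [Field K] [IsAlgClosed K] [Fintype I] [Fintype N] [Fintype μ] in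
lemma spl_jn [DecidableEq I] (j₀ : I) (z : (({i // i ≠ j₀} × N) ⊕ μ) ⊕ N → K) :
    spl j₀ (jn j₀ z) = z := by
  funext a
  rcases a with (⟨⟨i, h⟩, l⟩ | m) | l
  · simp [jn, spl, h]
  · rfl
  · simp [jn, spl]

omit [IsAlgClosed K] [Fintype I] [Fintype N] [Fintype μ] in
lemma reg_jn [DecidableEq I] (j₀ : I) (Y : Set ((({i // i ≠ j₀} × N) ⊕ μ) ⊕ N → K)) :
    RegMap Y (jn j₀) := by
  rintro (⟨i, l⟩ | m)
  · by_cases h : i = j₀
    · exact (RegF.coord (Sum.inr l)).congr fun x _ => by simp [jn, h]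
    · exact (RegF.coord (Sum.inl (Sum.inl (⟨i, h⟩, l)))).congr fun x _ => by simp [jn, h]
  · exact RegF.coord _

omit [IsAlgClosed K] [Fintype I] [Fintype N] [Fintype μ] in
lemma reg_spl (j₀ : I) (Y : Set ((I × N) ⊕ μ → K)) : RegMap Y (spl j₀) := by
  rintro ((a | m) | l) <;> exact RegF.coord _

theorem drop (hp : IsPP p q) {T : I → I → Prop} (hT : Ferrers T) (j₀ : I) (h0 : ∀ i, ¬ T i j₀)
    (H : ∀ r < Fintype.card I, FCStmt K p q r) :
    FGood p {x ∈ Zset (K := K) (N := N) q μ T | LinearIndependent K (gv x)} (herm q) := by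
  classical
  have hc : Fintype.card {i // i ≠ j₀} < Fintype.card I :=
    Fintype.card_subtype_lt (x := j₀) (by simp)
  have h1 := H _ hc {i // i ≠ j₀} N μ rfl (fun a b => T a.1 b.1) fun a a' b b' => hT _ _ _ _
  have h2 := h1.opn' (c := fun x => LinearIndependent K (gv x))
    (relCl_dep (F := ⊤) fun _ _ => RegF.coord _)
  have h3 := h2.uplin (α := {a : {i // i ≠ j₀} // T j₀ a.1}) (κ := N)
    (fun y => Matrix.of fun a l => gv y a.1 l ^ q) (fun _ => 0)
    (fun a l => (RegF.coord _).pow q) (fun _ => RegF.zero)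
    (fun y hy => surj (li_pow hp (hy.2.comp Subtype.val Subtype.val_injective)))
  have h4 := h3.opn' (c := fun z => LinearIndependent K (gv (jn j₀ z)))
    (relCl_dep (F := kk K) fun i l => reg_jn j₀ _ (Sum.inl (i, l)))
  have key : ∀ x : (I × N) ⊕ μ → K, x ∈ Zset q μ T ↔
      (spl j₀ x ∘ Sum.inl ∈ Zset q μ fun a b : {i // i ≠ j₀} => T a.1 b.1) ∧
      (Matrix.of fun (a : {a : {i // i ≠ j₀} // T j₀ a.1}) l =>
        gv (spl j₀ x ∘ Sum.inl) a.1 l ^ q).mulVec (spl j₀ x ∘ Sum.inr) = 0 := by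
    intro x
    have e : ∀ a : {a : {i // i ≠ j₀} // T j₀ a.1},
        (Matrix.of fun (a : {a : {i // i ≠ j₀} // T j₀ a.1}) l =>
          gv (spl j₀ x ∘ Sum.inl) a.1 l ^ q).mulVec (spl j₀ x ∘ Sum.inr) a =
          hq q (gv x j₀) (gv x a.1.1) := fun a =>
      Finset.sum_congr rfl fun l _ => mul_comm _ _
    refine ⟨fun hx => ⟨fun a b hab => hx _ _ hab, funext fun a => (e a).trans (hx _ _ a.2)⟩,
      fun hx i j hij => ?_⟩
    have hj : j ≠ j₀ := fun h => h0 i (h ▸ hij)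
    by_cases hi : i = j₀
    · subst hi
      exact (e ⟨⟨j, hj⟩, hij⟩).symm.trans (congrFun hx.2 _)
    · exact hx.1 ⟨i, hi⟩ ⟨j, hj⟩ hij
  refine h4.iso (lc_open T) (Φ := spl j₀) (Ψ := jn j₀)
    ⟨reg_spl j₀ _, reg_jn j₀ _, fun x hx => ?_, fun z hz => ?_, fun x _ => jn_spl j₀ x,
      fun z _ => spl_jn j₀ z⟩ fun x _ => rfl
  · have hx' := (key x).1 hx.1
    refine ⟨⟨⟨hx'.1, hx.2.comp Subtype.val Subtype.val_injective⟩, hx'.2⟩, ?_⟩
    rw [jn_spl]
    exact hx.2
  · refine ⟨(key _).2 ?_, hz.2⟩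
    rw [spl_jn]
    exact ⟨hz.1.1.1, hz.1.2⟩

end NondegA

theorem zopen (hp : IsPP p q) [Nonempty I] {T : I → I → Prop} (hT : Ferrers T)
    (H : ∀ r < Fintype.card I, FCStmt K p q r) :
    FGood p {x ∈ Zset (K := K) (N := I) q μ T | LinearIndependent K (gv x)} (herm q) := by
  obtain ⟨j₀, hj⟩ := NondegA.exists_min hT
  by_cases h0 : ∀ i, ¬ T i j₀
  · exact NondegA.drop hp hT j₀ h0 H
  · obtain ⟨i, hi⟩ := not_forall_not.1 h0
    refine (FGood.empty (herm q)).congr (Set.eq_empty_of_forall_notMem fun x hx => ?_)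
      fun _ _ => rfl
    have hs : Function.Surjective (Matrix.of fun a l => gv x a l ^ q).mulVecLin :=
      NondegA.surj (NondegA.li_pow hp hx.2)
    refine hx.2.ne_zero i (LinearMap.injective_iff_surjective.2 hs ?_)
    rw [map_zero]
    funext j
    exact (Finset.sum_congr rfl fun l _ => mul_comm _ _).trans (hx.1 i j (hj i j hi))

end Pool.Agent.Lib.MP_60ec62_ag.DL.F
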