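import Pool.Agent.Lib.MP_60ec62_ag.DF.FGoodFin
import Pool.Agent.Lib.MP_60ec62_ag.DL.Lang
import Pool.Agent.Lib.MP_60ec62_ag.DL.WBasic

/-!
The locus of invertible dual matrices.
-/

noncomputable section

namespace Pool.Agent.Lib.MP_60ec62_ag.DL.F

open MvPolynomial

variable {K : Type} [Field K] [IsAlgClosed K] {p q : ℕ} [Fact p.Prime] [CharP K p]
  {I N μ : Type} [Fintype I] [Fintype N] [Fintype μ]

namespace NondegB

/-- The polynomials of the Lang map. -/
def lp (R : Type) [CommRing R] (q : ℕ) {I τ : Type} [Fintype I] :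
    Option ((I × I) ⊕ τ) → MvPolynomial (Option ((I × I) ⊕ τ)) R
  | none => X none
  | some (Sum.inl (i, j)) => ∑ l, X (some (Sum.inl (i, l))) * X (some (Sum.inl (j, l))) ^ q
  | some (Sum.inr m) => X (some (Sum.inr m))

/-- The Lang map on points. -/
def lm (q : ℕ) {I τ : Type} [Fintype I] (x : Option ((I × I) ⊕ τ) → K) :
    Option ((I × I) ⊕ τ) → K
  | none => x none
  | some (Sum.inl (i, j)) => ∑ l, x (some (Sum.inl (i, l))) * x (some (Sum.inl (j, l))) ^ q
  | some (Sum.inr m) => x (some (Sum.inr m))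

omit [IsAlgClosed K] in
lemma aeval_lp {τ : Type} (x : Option ((I × I) ⊕ τ) → K) :
    (fun i => aeval x (lp (kk K) q i)) = lm q x := by
  funext i
  rcases i with _ | ⟨i, j⟩ | m <;> simp [lp, lm]

omit [IsAlgClosed K] in
lemma up_lp {τ : Type} (i : Option ((I × I) ⊕ τ)) : DL.up (lp (kk K) q i) = lp K q i := by
  rcases i with _ | ⟨i, j⟩ | m <;> simp [lp]

/-- The Gram matrix of the rows. -/
def gm (q : ℕ) {I τ : Type} [Fintype I] (x : (I × I) ⊕ τ → K) : Matrix I I K :=
  xi x * ((xi x).map (· ^ q)).transpose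

omit [IsAlgClosed K] in
lemma gm_apply {τ : Type} (x : (I × I) ⊕ τ → K) (i j : I) :
    gm q x i j = hq q (gv x i) (gv x j) := rfl

omit [IsAlgClosed K] in
lemma xi_lm {τ : Type} (x : Option ((I × I) ⊕ τ) → K) : xi (lm q x ∘ some) = gm q (x ∘ some) := rfl

omit [IsAlgClosed K] in
lemma det_gm [DecidableEq I] (hp : IsPP p q) {τ : Type} (x : (I × I) ⊕ τ → K) :
    (gm q x).det = (xi x).det * (xi x).det ^ q := by
  rw [gm, Matrix.det_mul, Matrix.det_transpose, hp.det_map]

omit [IsAlgClosed K] in
lemma li_iff [DecidableEq I] {τ : Type} (x : (I × I) ⊕ τ → K) :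
    LinearIndependent K (gv x) ↔ (xi x).det ≠ 0 := by
  have : gv x = (xi x).row := rfl
  rw [this, Matrix.linearIndependent_rows_iff_isUnit, Matrix.isUnit_iff_isUnit_det,
    isUnit_iff_ne_zero]

/-- The equation of the source of the Lang map. -/
def eqn (K : Type) [Field K] (q : ℕ) (I τ : Type) [Fintype I] [DecidableEq I] :
    MvPolynomial (Option ((I × I) ⊕ τ)) K :=
  X none * (Matrix.of fun i j : I => lp K q (some (Sum.inl (i, j)))).det - 1

omit [IsAlgClosed K] in
lemma eval_eqn [DecidableEq I] {τ : Type} (x : Option ((I × I) ⊕ τ) → K) :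
    eval x (eqn K q I τ) = x none * (gm q (x ∘ some)).det - 1 := by
  rw [eqn, map_sub, map_mul, RingHom.map_det, eval_X, map_one]
  congr 3
  ext i j
  simp [lp, gm_apply, hq, gv]

omit [IsAlgClosed K] in
lemma zero_iff [DecidableEq I] {τ : Type} (x : Option ((I × I) ⊕ τ) → K) :
    (∀ f ∈ Ideal.span {eqn K q I τ}, eval x f = 0) ↔ x none * (gm q (x ∘ some)).det = 1 := by
  rw [← sub_eq_zero, ← eval_eqn]
  constructor
  · exact fun h => h _ (Ideal.subset_span rfl)
  · intro h f hf
    obtain ⟨a, rfl⟩ := Ideal.mem_span_singleton'.1 hf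
    rw [map_mul, h, mul_zero]

omit [IsAlgClosed K] in
lemma integral [DecidableEq I] (hp : IsPP p q) {τ : Type} (j : Option ((I × I) ⊕ τ)) :
    ((Ideal.Quotient.mk (Ideal.span {eqn K q I τ})).comp
      (aeval fun i => DL.up (lp (kk K) q i) : MvPolynomial (Option ((I × I) ⊕ τ)) K →ₐ[K]
        MvPolynomial (Option ((I × I) ⊕ τ)) K).toRingHom).IsIntegralElem
        (Ideal.Quotient.mk (Ideal.span {eqn K q I τ}) (X j)) := by
  set f := ((Ideal.Quotient.mk (Ideal.span {eqn K q I τ})).comp
      (aeval fun i => DL.up (lp (kk K) q i) : MvPolynomial (Option ((I × I) ⊕ τ)) K →ₐ[K]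
        MvPolynomial (Option ((I × I) ⊕ τ)) K).toRingHom) with hf
  have hX : ∀ i, f (X i) = Ideal.Quotient.mk (Ideal.span {eqn K q I τ}) (lp K q i) := by
    intro i
    rw [hf, RingHom.comp_apply, ← up_lp]
    congr 1
    exact aeval_X _ _
  rcases j with _ | ⟨i, l⟩ | m
  · have := f.isIntegralElem_map (x := X none)
    rwa [hX] at this
  · have hc : (p : MvPolynomial (Option ((I × I) ⊕ τ)) K ⧸ Ideal.span {eqn K q I τ}) = 0 := by
      rw [← map_natCast (algebraMap K _), CharP.cast_eq_zero, map_zero]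
    exact @lang_integral p q _ hp _ _ I _ _ f.toAlgebra _ _ hc
      (Matrix.of fun i j : I => X (some (Sum.inl (i, j)))) (X none)
      (Matrix.of fun l i : I => Ideal.Quotient.mk _ (X (some (Sum.inl (i, l)))))
      (by
        change f _ = 1
        have h1 : f.mapMatrix (Matrix.of fun i j : I => X (some (Sum.inl (i, j)))) =
            (Ideal.Quotient.mk (Ideal.span {eqn K q I τ})).mapMatrix
              (Matrix.of fun i j : I => lp K q (some (Sum.inl (i, j)))) := by
          ext i j
          exact hX _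
        rw [map_mul, RingHom.map_det, h1, ← RingHom.map_det, hX, ← map_mul, ← sub_eq_zero,
          ← map_one (Ideal.Quotient.mk (Ideal.span {eqn K q I τ})), ← map_sub,
          Ideal.Quotient.eq_zero_iff_mem]
        exact Ideal.subset_span rfl)
      (by
        ext i j
        change _ = f _
        rw [Matrix.of_apply, hX]
        simp [lp, Matrix.mul_apply]) l i
  · have := f.isIntegralElem_map (x := X (some (Sum.inr m)))
    rwa [hX] at this

/-- The change of the vectors. -/
def fw (x : Option ((I × I) ⊕ ((I × N) ⊕ μ)) → K) : (I × I) ⊕ ((I × N) ⊕ μ) → K :=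
  Sum.elim (fun il => x (some (Sum.inl il)))
    (Sum.elim (fun ln => ∑ i, x (some (Sum.inl (i, ln.1))) * x (some (Sum.inr (Sum.inl (i, ln.2)))))
      fun m => x (some (Sum.inr (Sum.inr m))))

/-- The inverse change. -/
def bw [DecidableEq I] (q : ℕ) (w : (I × I) ⊕ ((I × N) ⊕ μ) → K) :
    Option ((I × I) ⊕ ((I × N) ⊕ μ)) → K
  | none => (gm q w).det⁻¹
  | some (Sum.inl il) => w (Sum.inl il)
  | some (Sum.inr (Sum.inl (i, n))) =>
      ∑ l, (xi w).transpose⁻¹ i l * w (Sum.inr (Sum.inl (l, n)))
  | some (Sum.inr (Sum.inr m)) => w (Sum.inr (Sum.inr m))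

omit [IsAlgClosed K] in
lemma wfun_lm (hp : IsPP p q) (x : Option ((I × I) ⊕ ((I × N) ⊕ μ)) → K) :
    Wfun q (lm q x ∘ some) = herm q (fw x) := by
  simp only [Wfun, herm, Fintype.sum_sum_type, Fintype.sum_prod_type, fw, Sum.elim_inr,
    Sum.elim_inl, Function.comp_apply, lm, xi, Matrix.of_apply, hq, gv]
  congr 1
  simp only [pow_succ' _ q, hp.sum_pow, mul_pow, Finset.sum_mul_sum]
  symm
  calc _ = ∑ l : I, ∑ i : I, ∑ j : I, ∑ n : N,
        x (some (Sum.inl (i, l))) * x (some (Sum.inr (Sum.inl (i, n)))) *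
          (x (some (Sum.inl (j, l))) ^ q * x (some (Sum.inr (Sum.inl (j, n)))) ^ q) := by
        refine Finset.sum_congr rfl fun l _ => ?_
        rw [Finset.sum_comm]
        exact Finset.sum_congr rfl fun i _ => Finset.sum_comm
    _ = _ := by
        rw [Finset.sum_comm]
        refine Finset.sum_congr rfl fun i _ => ?_
        rw [Finset.sum_comm]
        refine Finset.sum_congr rfl fun j _ => Finset.sum_congr rfl fun l _ =>
          Finset.sum_congr rfl fun n _ => by ring

end NondegB

open NondegB in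
theorem nondeg [DecidableEq I] (hp : IsPP p q) {T : I → I → Prop}
    (H : FGood p {x ∈ Zset (K := K) (N := I) q ((I × N) ⊕ μ) T | LinearIndependent K (gv x)}
      (herm q)) :
    FGood p {x ∈ Wset (K := K) N μ T | (xi x).det ≠ 0} (Wfun q) := by
  have hdet : ∀ Y : Set ((I × I) ⊕ ((I × N) ⊕ μ) → K), Reg Y fun x => (xi x).det := fun Y =>
    RegF.det fun _ _ => RegF.coord _
  let Y1 : Set (Option ((I × I) ⊕ ((I × N) ⊕ μ)) → K) :=
    {z | z ∘ some ∈ Wset N μ T ∧ z none * (xi (z ∘ some)).det = 1}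
  have hY1 : LC Y1 := by
    have h1 : LC {z ∈ (Set.univ : Set (Option ((I × I) ⊕ ((I × N) ⊕ μ)) → K)) |
        z ∘ some ∈ Wset N μ T} :=
      LC.univ.preimage (lc_Wset T) (Φ := fun z => z ∘ some) fun j => RegF.coord (some j)
    have h2 := RegF.lc_zero (F := ⊤) (((RegF.coord none).mul
      (RegF.det (M := fun z => xi (z ∘ some)) fun _ _ => RegF.coord _)).sub RegF.one) h1
    convert h2 using 1
    ext z
    simp only [Y1, Set.mem_ofPred_eq, Set.mem_univ, true_and, sub_eq_zero]
  have hφ1 : Reg Y1 fun z => Wfun q (z ∘ some) :=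
    (reg_Wfun Set.univ).comp (Φ := fun z => z ∘ some) (fun j => RegF.coord (some j))
      (Set.mapsTo_univ _ _)
  have key : FGood p Y1 fun z => Wfun q (z ∘ some) := by
    refine FGood.fin (lp (kk K) q) (Ideal.span {eqn K q I ((I × N) ⊕ μ)}) (integral hp) hY1 hφ1
      ?_ ?_
    · rintro y ⟨-, hy⟩
      obtain ⟨b, hb⟩ := lang hp (xi (y ∘ some)) (right_ne_zero_of_mul_eq_one hy)
      let x : Option ((I × I) ⊕ ((I × N) ⊕ μ)) → K := fun o => o.elim (y none)
        (Sum.elim (fun il => b il.2 il.1) fun m => y (some (Sum.inr m)))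
      have h1 : gm q (x ∘ some) = xi (y ∘ some) := by
        rw [← hb]; rfl
      refine ⟨x, (zero_iff x).2 (by rw [h1]; exact hy), ?_⟩
      rw [aeval_lp]
      funext o
      rcases o with _ | ⟨i, j⟩ | m
      · rfl
      · exact congrFun (congrFun h1 i) j
      · rfl
    · have hlc : LC {x : Option ((I × I) ⊕ ((I × N) ⊕ μ)) → K |
          (∀ f ∈ Ideal.span {eqn K q I ((I × N) ⊕ μ)}, eval x f = 0) ∧
          (fun i => aeval x (lp (kk K) q i)) ∈ Y1} :=
        ((Reg.relCl_zeroSet _).lc LC.univ).preimage hY1 fun j => RegF.poly _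
      have hxi : ∀ x : Option ((I × I) ⊕ ((I × N) ⊕ μ)) → K, xi (fw x) = xi (x ∘ some) :=
        fun x => rfl
      have hne : ∀ w : (I × I) ⊕ ((I × N) ⊕ μ) → K, LinearIndependent K (gv w) →
          (gm q w).det ≠ 0 := fun w hw => by
        rw [det_gm hp]
        exact mul_ne_zero ((li_iff w).1 hw) (pow_ne_zero _ ((li_iff w).1 hw))
      have hne' : ∀ w : (I × I) ⊕ ((I × N) ⊕ μ) → K, (gm q w).det ≠ 0 → (xi w).det ≠ 0 :=
        fun w hw => by
          rw [det_gm hp] at hw
          exact left_ne_zero_of_mul hw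
      refine H.iso hlc (Φ := fw) (Ψ := bw q) ⟨?_, ?_, ?_, ?_, ?_, ?_⟩ ?_
      · rintro (il | ln | m)
        · exact RegF.coord _
        · exact RegF.sum _ fun _ _ => (RegF.coord _).mul (RegF.coord _)
        · exact RegF.coord _
      · rintro (_ | il | ⟨i, n⟩ | m)
        · exact (RegF.det fun _ _ => RegF.hq (fun _ => RegF.coord _) fun _ => RegF.coord _).inv
            fun w hw => hne w hw.2
        · exact RegF.coord _
        · exact RegF.sum _ fun l _ => (RegF.matInv (M := fun w => (xi w).transpose)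
            (fun _ _ => RegF.coord _) (fun w hw => by
              rw [Matrix.det_transpose]; exact (li_iff w).1 hw.2) i l).mul (RegF.coord _)
        · exact RegF.coord _
      · rintro x ⟨h1, h2⟩
        rw [aeval_lp] at h2
        refine ⟨fun i j hij => h2.1 i j hij, (li_iff _).2 ?_⟩
        rw [hxi]
        exact hne' _ (right_ne_zero_of_mul_eq_one ((zero_iff x).1 h1))
      · rintro w ⟨h1, h2⟩
        have h3 : bw q w none * (gm q (bw q w ∘ some)).det = 1 := inv_mul_cancel₀ (hne w h2)
        refine ⟨(zero_iff _).2 h3, ?_⟩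
        rw [aeval_lp]
        exact ⟨fun i j hij => h1 i j hij, h3⟩
      · rintro x ⟨h1, -⟩
        have h2 := (zero_iff x).1 h1
        have h3 : IsUnit (xi (x ∘ some)).transpose.det := by
          rw [Matrix.det_transpose, isUnit_iff_ne_zero]
          exact hne' _ (right_ne_zero_of_mul_eq_one h2)
        funext o
        rcases o with _ | il | ⟨i, n⟩ | m
        · exact (eq_inv_of_mul_eq_one_left h2).symm
        · rfl
        · have h4 := congrFun (congrFun (Matrix.nonsing_inv_mul_cancel_left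
            (xi (x ∘ some)).transpose
            (Matrix.of fun (i : I) (n : N) => x (some (Sum.inr (Sum.inl (i, n))))) h3) i) n
          exact h4
        · rfl
      · rintro w ⟨-, h2⟩
        have h3 : IsUnit (xi w).transpose.det := by
          rw [Matrix.det_transpose, isUnit_iff_ne_zero]
          exact (li_iff w).1 h2
        funext o
        rcases o with il | ⟨l, n⟩ | m
        · rfl
        · have h4 := congrFun (congrFun (Matrix.mul_nonsing_inv_cancel_left (xi w).transpose
            (Matrix.of fun (i : I) (n : N) => w (Sum.inr (Sum.inl (i, n)))) h3) l) n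
          exact h4
        · rfl
      · intro x _
        rw [aeval_lp]
        exact wfun_lm hp x
  refine key.iso ((hdet _).lc_ne (lc_Wset T)) (Φ := fun x o => o.elim (xi x).det⁻¹ x)
    (Ψ := fun z => z ∘ some) ⟨?_, fun j => RegF.coord _, ?_, ?_, fun _ _ => rfl, ?_⟩
    fun _ _ => rfl
  · rintro (_ | j)
    · exact (hdet _).inv fun x hx => hx.2
    · exact RegF.coord _
  · exact fun x hx => ⟨hx.1, inv_mul_cancel₀ hx.2⟩
  · exact fun z hz => ⟨hz.1, right_ne_zero_of_mul_eq_one hz.2⟩
  · rintro z ⟨-, hz⟩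
    funext o
    rcases o with _ | j
    · exact (eq_inv_of_mul_eq_one_left hz).symm
    · rfl

end Pool.Agent.Lib.MP_60ec62_ag.DL.F
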