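import Pool.Agent.Lib.MP_60ec62_ag.DF.FFourier
import Pool.Agent.Lib.MP_60ec62_ag.DF.FHerm
import Pool.Agent.Lib.MP_60ec62_ag.DF.FNondegA
import Pool.Agent.Lib.MP_60ec62_ag.DF.FNondegB
import Pool.Agent.Lib.MP_60ec62_ag.DF.FDeg0
import Pool.Agent.Lib.MP_60ec62_ag.DF.FDeg1
import Pool.Agent.Lib.MP_60ec62_ag.DF.FDeg2

/-!
The induction on the number of vectors.
-/

noncomputable section

namespace Pool.Agent.Lib.MP_60ec62_ag.DL.F

open MvPolynomial

variable {K : Type} [Field K] [IsAlgClosed K] {p q : ℕ} [Fact p.Prime] [CharP K p]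
  [Fact (Per K p)]

theorem d_all (hp : IsPP p q) (r : ℕ) : FDStmt K p q r := by
  classical
  induction r using Nat.strong_induction_on with
  | _ r ih =>
    rcases Nat.eq_zero_or_pos r with rfl | hr
    · exact d_zero hp
    intro I N μ _ _ _ hI T hT
    have : Nonempty I := Fintype.card_pos_iff.mp (hI ▸ hr)
    refine FGood.strat' (c := fun x => (xi x).det = 0) (lc_Wset T) (reg_Wfun _)
      (RegF.det (F := ⊤) fun _ _ => RegF.coord _).relCl_zero ?_ ?_
    · refine deg0 hp fun s hs => deg1 hp hT s hs fun I' _ hI' T' hT' J =>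
        deg2 hp hT' J fun r' hr' => ih r' (by omega)
    · exact nondeg hp (zopen hp hT fun r' hr' => c_of_d (ih r' (hI ▸ hr')))

theorem c_all (hp : IsPP p q) (r : ℕ) : FCStmt K p q r := c_of_d (d_all hp r)

end Pool.Agent.Lib.MP_60ec62_ag.DL.F
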