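import Pool.Agent.Lib.MP_60ec62_ag.DF.MIso
import Pool.Agent.Lib.MP_60ec62_ag.DL.Up

/-!
The trivial Artin-Schreier cover.
-/

noncomputable section

namespace Pool.Agent.Lib.MP_60ec62_ag.DL

open MvPolynomial

variable {K : Type} [Field K] [IsAlgClosed K] {p q : ℕ} [Fact p.Prime] [CharP K p]
  {ι κ ι' τ : Type} [Finite ι] [Finite κ] [Finite ι'] [Finite τ]

namespace PDrop

/-- Two open pieces isomorphic to the base and exchanged by the translation. -/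
lemma core {M : Set ι} {M' : Set κ} {A W0 W1 Z0 Z1 : Set (ι → K)} {Y : Set (κ → K)}
    {Φ : (ι → K) → κ → K} {Ψ0 Ψ1 : (κ → K) → ι → K} {i₀ : ι} (lA : LC A) (lY : LC Y)
    (c0 : RelCl Z0 A) (c1 : RelCl Z1 A) (d0 : W0 = A \ Z0) (d1 : W1 = A \ Z1)
    (i0 : RegIso W0 Y Φ Ψ0) (i1 : RegIso W1 Y Φ Ψ1) (m0 : MSet p M W0) (m1 : MSet p M W1)
    (mY : ∀ x, pfx p M' x ∈ Y ↔ x ∈ Y) (a0 : MMap M M' W0 Φ) (a1 : MMap M M' W1 Φ)
    (tr1 : ∀ z, Φ (pt (tr i₀) z) = Φ z) (trW : ∀ z, pt (tr i₀) z ∈ W1 ↔ z ∈ W0)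
    (x0 : ∀ z ∈ W0, z i₀ = 0) (x1 : ∀ z ∈ W1, z i₀ = 1) (hg : MGoodT p M i₀ A) :
    MGoodG p M' ∅ Y := by
  intro P hP _
  have e0 := isoCore' i0
  have e1 := isoCore' i1
  generalize Iso.em i0.reg = f0 at e0
  generalize Iso.em i1.reg = f1 at e1
  have l0 : LC W0 := d0 ▸ c0.lc_diff lA
  have l1 : LC W1 := d1 ▸ c1.lc_diff lA
  have act1 : ∀ Q ∈ hat W0, act (tr i₀) Q ∈ hat W1 := fun Q hQ f hf =>
    mem_act.2 (hQ _ fun z hz k => by
      rw [← eval_pt]; exact hf _ ((trW z).2 hz) (mem_Vp_act.2 k))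
  have act2 : ∀ Q ∈ hat W0, f1 (act (tr i₀) Q) = f0 Q := fun Q hQ =>
    eq_of_pts (e1.mem _ (act1 Q hQ)) (e0.mem _ hQ) fun y hy => by
      have b0 := i0.maps' hy
      have b1 := e1.pts _ (act1 Q hQ) _ ((trW _).2 b0)
      have b2 := e0.pts _ hQ _ b0
      rw [tr1, mem_Vp_act, i0.right y hy] at b1
      rw [i0.right y hy] at b2
      exact b1.trans b2.symm
  have coef : ∀ {W : Set (ι → K)} {f : Pr K ι → Pr K κ}, Set.InjOn f (hat W) →
      ∀ (c : Cy K ι), ∀ Q ∈ hat W, Finsupp.mapDomain f (rs W c) (f Q) = c Q :=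
    fun hf c Q hQ => by
      rw [Finsupp.mapDomain_apply' _ _ (fun _ k => (Up.flt_ne (Finsupp.mem_support_iff.1 k)).1) hf hQ,
        flt_apply_of_mem hQ]
  have inv : ∀ c ∈ InvT i₀ A,
      Finsupp.mapDomain f0 (rs W0 c) = Finsupp.mapDomain f1 (rs W1 c) := fun c hc => by
    ext Q
    by_cases hQ : Q ∈ hat Y
    · obtain ⟨Q0, k, rfl⟩ := e0.surj Q hQ
      rw [coef e0.inj c Q0 k, ← act2 Q0 k, coef e1.inj c _ (act1 Q0 k), hc.2]
    · have z0 : Finsupp.mapDomain f0 (rs W0 c) Q = 0 := by_contra fun k => by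
        obtain ⟨Q', k1, rfl⟩ := Up.mapDomain_ne k
        exact hQ (e0.mem _ (Up.flt_ne k1).1)
      have z1 : Finsupp.mapDomain f1 (rs W1 c) Q = 0 := by_contra fun k => by
        obtain ⟨Q', k1, rfl⟩ := Up.mapDomain_ne k
        exact hQ (e1.mem _ (Up.flt_ne k1).1)
      rw [z0, z1]
  obtain ⟨P0, hP0, rfl⟩ := e0.surj P hP
  have n1 : P0 ∉ hat W1 := fun k => by
    obtain ⟨z, hz, hz'⟩ := hat_nonempty k
    have a : (X i₀ : MvPolynomial ι K) ∈ P0.asIdeal :=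
      hP0 _ fun x hx _ => by rw [eval_X]; exact x0 x hx
    have b := hz' _ a
    rw [eval_X, x1 z hz] at b
    exact one_ne_zero b
  obtain ⟨Op, hOp⟩ : ∃ Op : Cy K ι →ₗ[ℚ] Cy K κ, ∀ c,
      Op c = Finsupp.mapDomain f0 (rs W0 c) - Finsupp.mapDomain f1 (rs W1 c) :=
    ⟨Finsupp.lmapDomain ℚ ℚ f0 ∘ₗ rs W0 - Finsupp.lmapDomain ℚ ℚ f1 ∘ₗ rs W1, fun _ => rfl⟩
  have sp : ∀ (W : Set (ι → K)) (c : Cy K ι), rs W c ∈ Finsupp.supported ℚ ℚ (hat W) :=
    fun W c _ k => (Up.flt_ne (Finsupp.mem_support_iff.1 k)).1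
  have fin : Finsupp.single (f0 P0) (1 : ℚ) = Op (Finsupp.single P0 1) := by
    rw [hOp, flt_eq_self (c := Finsupp.single P0 1) (fun Q k => by
      rw [(Finsupp.single_apply_ne_zero.1 k).1]; exact hP0), Finsupp.mapDomain_single,
      flt_eq_zero (c := Finsupp.single P0 1) (fun Q k => by
      rw [(Finsupp.single_apply_ne_zero.1 k).1]; exact n1), Finsupp.mapDomain_zero, sub_zero]
  have st : StSet (∅ : Set (Au K κ)) Y := fun _ h => h.elim
  have mv : ∀ W, Moves (∅ : Set (Au K ι)) (∅ : Set (Au K κ)) W Φ := fun _ _ h => h.elim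
  rw [fin]
  refine Nil.map' (A := ⊤) (fun _ _ => Submodule.mem_top) (fun c _ => ?_) (fun c _ hc => ?_)
    Submodule.mem_top (hg P0 (hat_mono (d0 ▸ Set.sdiff_subset) hP0))
  · rw [hOp, hOp, map_sub, ← FF_rs m0.frob, ← FF_rs m1.frob,
      e0.FF_comm i0 l0 lY m0.frob mY (fun x hx => a0.pfx m0 hx) (sp _ _),
      e1.FF_comm i1 l1 lY m1.frob mY (fun x hx => a1.pfx m1 hx) (sp _ _)]
  · obtain ⟨sr, hsr, i, hi, rfl⟩ := Submodule.mem_sup.1 hc
    obtain ⟨s, hs, r, hr, rfl⟩ := Submodule.mem_sup.1 hsr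
    rw [map_add, map_add, hOp i, inv i hi, sub_self, add_zero, hOp, hOp]
    refine Submodule.add_mem_sup (sub_mem (e0.map_SmR i0 m0 a0 st (mv _) (rs_SmR _ hs))
      (e1.map_SmR i1 m1 a1 st (mv _) (rs_SmR _ hs))) (sub_mem (e0.map_RatG i0 st (mv _) ?_)
      (e1.map_RatG i1 st (mv _) ?_))
    · rw [d0]; exact c0.rs_RatG lA hr
    · rw [d1]; exact c1.rs_RatG lA hr

end PDrop

theorem FGood.drop {Y : Set (ι → K)} (h : FGood p Y fun _ => 0) : FGoodG p Y := by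
  intro τ _ T hT
  obtain ⟨hY, hφ, hg⟩ := h
  obtain ⟨W, hW⟩ : ∃ W : K → Set (Option ι → K), ∀ a z, z ∈ W a ↔ z ∘ some ∈ Y ∧ z none = a :=
    ⟨fun a => {z | z ∘ some ∈ Y ∧ z none = a}, fun _ _ => Iff.rfl⟩
  have iso : ∀ a ∈ kk K, RegIso (W a) Y (fun z => z ∘ some) fun y o => o.elim a y := fun a ha =>
    ⟨fun j => RegF.coord _, by rintro (_ | j); exacts [RegF.const ha, RegF.coord _],
      fun z hz => ((hW a z).1 hz).1, fun y hy => (hW a _).2 ⟨hy, rfl⟩,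
      fun z hz => funext (by rintro (_ | j); exacts [((hW a z).1 hz).2.symm, rfl]), fun _ _ => rfl⟩
  have hp := (Fact.out : p.Prime)
  have dif : ∀ a ∈ kk K, a ^ p = a → ∃ Z, RelCl Z (AS p Y fun _ => 0) ∧
      W a = (AS p Y fun _ => 0) \ Z := fun a ha e => by
    refine ⟨_, ((((RegF.coord none).sub (RegF.const ha)).pow (p - 1)).sub RegF.one).relCl_zero,
      Set.ext fun z => ?_⟩
    rw [hW]
    constructor
    · rintro ⟨h1, h2⟩
      refine ⟨⟨h1, by rw [h2, e, sub_self]⟩, fun k => ?_⟩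
      have := k.2
      rw [h2, sub_self, zero_pow (by have := hp.two_le; omega), zero_sub, neg_eq_zero] at this
      exact one_ne_zero this
    · rintro ⟨h1, h2⟩
      refine ⟨h1.1, by_contra fun k => h2 ⟨h1, ?_⟩⟩
      refine mul_left_cancel₀ (sub_ne_zero.2 k) ?_
      rw [mul_sub, ← pow_succ', Nat.sub_add_cancel hp.one_le, sub_pow_char, e]
      linear_combination h1.2
  obtain ⟨Z0, c0, d0⟩ := dif 0 (zero_mem _) (zero_pow hp.ne_zero)
  obtain ⟨Z1, c1, d1⟩ := dif 1 (one_mem _) (one_pow _)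
  have tr1 : ∀ z : Option ι → K, pt (tr none) z ∘ some = z ∘ some := fun z =>
    funext fun i => pt_tr_ne (Option.some_ne_none i) z
  have trW : ∀ z, pt (tr none) z ∈ W 1 ↔ z ∈ W 0 := fun z => by
    rw [hW, hW, tr1, pt_tr_self, add_eq_right]
  refine PDrop.core ((hY.AS hφ p).prodT hT.lc) (hY.prodT hT.lc) (c0.prodT T) (c1.prodT T)
    (by rw [← prodT_diff, ← d0]) (by rw [← prodT_diff, ← d1]) ((iso 0 (zero_mem _)).prodT T)
    ((iso 1 (one_mem _)).prodT T) (hT.mset _) (hT.mset _) (hT.mset _).frob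
    (mmap_prodT (fun z => z ∘ some) _) (mmap_prodT (fun z => z ∘ some) _) (fun z => ?_)
    (fun z => ?_) (fun z hz => ((hW 0 _).1 hz.1).2) (fun z hz => ((hW 1 _).1 hz.1).2) (hg τ T hT)
  · rw [pt_tr_inl, Sum.elim_comp_inl, Sum.elim_comp_inr, tr1]
  · rw [pt_tr_inl]
    exact and_congr (by rw [Sum.elim_comp_inl]; exact trW _) (by rw [Sum.elim_comp_inr])

end Pool.Agent.Lib.MP_60ec62_ag.DL
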