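import Pool.Agent.Lib.MP_60ec62_ag.DF.Diag

/-!
The decomposition of the diagonal and its realisations.
-/

noncomputable section

namespace Pool.Agent.Lib.MP_60ec62_ag.DL

open MvPolynomial

variable {K : Type} [Field K] [IsAlgClosed K] {p q : ℕ} [Fact p.Prime] [CharP K p] {n l : ℕ}
  {α : Type} [Finite α]

lemma Sp.scale {f : Polynomial ℚ} (h : f ∈ Sp p) (m : ℕ) : ∃ c : ℚ, c ≠ 0 ∧
    c • f.comp (Polynomial.C ((p : ℚ) ^ m) * Polynomial.X) ∈ Sp p := by
  have hp0 : (p : ℚ) ≠ 0 := by exact_mod_cast (Fact.out : p.Prime).ne_zero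
  induction h using Submonoid.closure_induction with
  | mem f hf =>
    obtain ⟨N, hN, r, rfl⟩ := hf
    refine ⟨(((p : ℚ) ^ m) ^ (2 * N))⁻¹, by positivity,
      Submonoid.subset_closure ⟨N, hN, r - m, ?_⟩⟩
    have e : (p : ℚ) ^ ((N : ℤ) * (2 * (r - m) + 1)) =
        (((p : ℚ) ^ m) ^ (2 * N))⁻¹ * (p : ℚ) ^ ((N : ℤ) * (2 * r + 1)) := by
      rw [← pow_mul, ← zpow_natCast, ← zpow_neg, ← zpow_add₀ hp0]
      congr 1
      push_cast
      ring
    rw [e, Polynomial.sub_comp, Polynomial.pow_comp, Polynomial.X_comp, Polynomial.C_comp, mul_pow,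
      ← Polynomial.C_pow, Polynomial.smul_eq_C_mul, mul_sub, ← mul_assoc, ← Polynomial.C_mul,
      ← Polynomial.C_mul, inv_mul_cancel₀ (by positivity), Polynomial.C_1, one_mul]
  | one => exact ⟨1, one_ne_zero, by simp⟩
  | mul f g _ _ hf hg =>
    obtain ⟨c, hc, hf⟩ := hf
    obtain ⟨d, hd, hg⟩ := hg
    refine ⟨c * d, mul_ne_zero hc hd, ?_⟩
    rw [Polynomial.mul_comp, ← smul_mul_smul_comm]
    exact mul_mem hf hg

lemma Sp.coprime {f : Polynomial ℚ} (h : f ∈ Sp p) {m : ℕ} (hm : 0 < m) (i : ℕ) :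
    IsCoprime f (Polynomial.X ^ m - Polynomial.C ((p : ℚ) ^ (m * i))) := by
  have hp1 : (1 : ℚ) < p := by exact_mod_cast (Fact.out : p.Prime).one_lt
  induction h using Submonoid.closure_induction with
  | mem f hf =>
    obtain ⟨N, hN, r, rfl⟩ := hf
    set a : ℚ := (p : ℚ) ^ ((N : ℤ) * (2 * r + 1)) with ha
    set b : ℚ := (p : ℚ) ^ (m * i) with hb
    have h1 : Polynomial.X ^ (2 * N) - Polynomial.C a ∣
        (Polynomial.X ^ (2 * N)) ^ m - Polynomial.C a ^ m := sub_dvd_pow_sub_pow _ _ _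
    have h2 : Polynomial.X ^ m - Polynomial.C b ∣
        (Polynomial.X ^ m) ^ (2 * N) - Polynomial.C b ^ (2 * N) := sub_dvd_pow_sub_pow _ _ _
    refine IsCoprime.of_isCoprime_of_dvd_left (IsCoprime.of_isCoprime_of_dvd_right ?_ h2) h1
    have hne : b ^ (2 * N) - a ^ m ≠ 0 := by
      rw [sub_ne_zero, ha, hb, ← pow_mul, ← zpow_natCast, ← zpow_natCast, ← zpow_mul]
      intro h
      have h3 := zpow_right_injective₀ (by positivity) hp1.ne' h
      push_cast at h3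
      have h4 : ((N : ℤ) * m) * (2 * i) = ((N : ℤ) * m) * (2 * r + 1) := by linear_combination h3
      have h5 := mul_left_cancel₀ (by positivity) h4
      omega
    refine ⟨Polynomial.C (b ^ (2 * N) - a ^ m)⁻¹, -Polynomial.C (b ^ (2 * N) - a ^ m)⁻¹, ?_⟩
    rw [← pow_mul Polynomial.X, ← pow_mul Polynomial.X, mul_comm m (2 * N), ← Polynomial.C_pow, ← Polynomial.C_pow,
      neg_mul, ← sub_eq_add_neg, ← mul_sub, sub_sub_sub_cancel_left, ← Polynomial.C_sub,
      ← Polynomial.C_mul, inv_mul_cancel₀ hne, Polynomial.C_1]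
  | one => exact isCoprime_one_left
  | mul f g _ _ hf hg => exact hf.mul_left hg

variable {s : Fin l → ℕ} {ρ : ℕ → ℕ → ℕ}

namespace Real

lemma aeval_scale {V : Type} [AddCommGroup V] [Module ℚ V] (F : Module.End ℚ V) (v : ℕ → V) (t : ℚ)
    (h : ∀ j, F (v j) = t • v (j + 1)) (f : Polynomial ℚ) :
    Polynomial.aeval F f (v 0) =
      (f.comp (Polynomial.C t * Polynomial.X)).sum fun j a => a • v j := by
  have hp : ∀ j, (F ^ j) (v 0) = t ^ j • v j := by
    intro j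
    induction j with
    | zero => simp
    | succ j ih => rw [pow_succ', Module.End.mul_apply, ih, map_smul, h, smul_smul, pow_succ]
  induction f using Polynomial.induction_on' with
  | add a b ha hb =>
    rw [map_add, LinearMap.add_apply, ha, hb, Polynomial.add_comp,
      Polynomial.sum_add_index _ _ (fun j (a : ℚ) => a • v j) (fun _ => zero_smul _ _)
        fun _ _ _ => add_smul _ _ _]
  | monomial j a =>
    rw [Polynomial.aeval_monomial, Module.End.mul_apply, Module.algebraMap_end_apply, hp,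
      Polynomial.monomial_comp, mul_pow, ← Polynomial.C_pow, ← mul_assoc, ← Polynomial.C_mul,
      Polynomial.C_mul_X_pow_eq_monomial,
      Polynomial.sum_monomial_index _ (fun j (a : ℚ) => a • v j) (zero_smul _ _),
      smul_smul]

theorem diagF (hp : IsPP p q) (H : MGoodG p (m2 (Fin (l + 1)) n)
    (BsetA (Fin (l + 1) ⊕ Fin (l + 1)) n) (sq2 (Dset (K := K) q n s ρ))) :
    ∃ f ∈ Sp p, ∀ P, Minimal (· ∈ Stm.Sub K n q s ρ) P →
      (f.sum fun j a => a • Finsupp.single (Stm.graph (p ^ j) P) (1 : ℚ)) ∈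
        SmR (m2 (Fin (l + 1)) n) (BsetA (Fin (l + 1) ⊕ Fin (l + 1)) n) (sq2 (Dset q n s ρ)) ⊔
          RatG (BsetA (Fin (l + 1) ⊕ Fin (l + 1)) n) (sq2 (Dset (K := K) q n s ρ)) := by
  classical
  have h1 : ∀ P, Minimal (· ∈ Stm.Sub K n q s ρ) P → ∃ f ∈ Sp p, ∀ k : ℕ,
      (FF p (m2 (Fin (l + 1)) n) ^ k) (Polynomial.aeval (FF p (m2 (Fin (l + 1)) n)) f
        (Finsupp.single (Stm.graph (p ^ 0) P) (1 : ℚ))) ∈
        SmR (m2 (Fin (l + 1)) n) (BsetA (Fin (l + 1) ⊕ Fin (l + 1)) n) (sq2 (Dset q n s ρ)) ⊔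
          RatG (BsetA (Fin (l + 1) ⊕ Fin (l + 1)) n) (sq2 (Dset (K := K) q n s ρ)) := by
    intro P hP
    have h := (mem_Sub₂ _).1 (graph_mem hp hP.prop 0)
    exact H _ h.1 h.2
  choose! f hf hf' using h1
  have hfin := finite_minimal (K := K) (n := n) hp s ρ
  have hprod : ∏ P ∈ hfin.toFinset, f P ∈ Sp p :=
    prod_mem fun P hP => hf P (hfin.mem_toFinset.1 hP)
  obtain ⟨c, -, hc⟩ := Sp.scale hprod
    {v : Fin (l + 1) × (Fin n × Fin n) | v.2.1 ≤ v.2.2}.ncard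
  refine ⟨_, hc, fun P hP => ?_⟩
  rw [Polynomial.sum_smul_index' _ _
    (fun j (a : ℚ) => a • Finsupp.single (Stm.graph (p ^ j) P) (1 : ℚ)) fun _ => zero_smul _ _]
  simp only [smul_assoc]
  rw [← Polynomial.smul_sum, ← aeval_scale (FF p (m2 (Fin (l + 1)) n))
    (fun j => Finsupp.single (Stm.graph (p ^ j) P) (1 : ℚ)) _ (FF_graph hP.prop.2.1),
    ← Finset.prod_erase_mul _ _ (hfin.mem_toFinset.2 hP), map_mul, Module.End.mul_apply]
  exact Submodule.smul_mem _ _ (aeval_mem_of_pow (hf' P hP) _)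

end Real

/-- The decomposition of the diagonal. -/
theorem diag (hp : IsPP p q) (H : MGoodG p (m2 (Fin (l + 1)) n)
    (BsetA (Fin (l + 1) ⊕ Fin (l + 1)) n) (sq2 (Dset (K := K) q n s ρ))) :
    ∃ f ∈ Sp p, ∀ P, Minimal (· ∈ Stm.Sub K n q s ρ) P →
      Stm.Gen (Stm.Bor K n _) (Stm.Sub₂ K n q s ρ) {Q ∈ Stm.Sub₂ K n q s ρ | Stm.IsProd Q}
        (f.sum fun j a => a • Stm.cl (Stm.graph (p ^ j) P)) := by
  obtain ⟨f, hf, h⟩ := Real.diagF hp H
  refine ⟨f, hf, fun P hP => ?_⟩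
  have h1 := Submodule.mem_map_of_mem (f := Finsupp.lcoeFun (R := ℚ)) (h P hP)
  rw [Submodule.map_sup, Polynomial.sum, map_sum] at h1
  simp only [map_smul, StmB.coe_single] at h1
  refine SetLike.le_def.1 (sup_le_sup ?_ (StmB.rat_map mem_Sub₂)) h1
  rw [SmR, Finsupp.supported_eq_span_single, Submodule.map_span]
  refine Submodule.span_mono ?_
  rintro _ ⟨_, ⟨Q, ⟨h2, h3, h4⟩, rfl⟩, rfl⟩
  exact ⟨Q, ⟨(mem_Sub₂ Q).2 ⟨h2, h3⟩, (isProd_iff Q).2 h4⟩, (StmB.coe_single Q).symm⟩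

theorem real (hp : IsPP p q) (H : MGoodG p (m2 (Fin (l + 1)) n)
    (BsetA (Fin (l + 1) ⊕ Fin (l + 1)) n) (sq2 (Dset (K := K) q n s ρ)))
    {E V : Type} [Field E] [CharZero E] [AddCommGroup V] [Module E V] (Fr : Module.End E V)
    (cl : PrimeSpectrum (Stm.Rg K n (Fin (l + 1))) → V)
    (act : PrimeSpectrum (Stm.Rg K n (Fin (l + 1) ⊕ Fin (l + 1))) → Module.End E V)
    (h₁ : Stm.Kills (Stm.Rat (Stm.Bor K n _) (Stm.Sub₂ K n q s ρ)) act)
    (h₂ : ∀ Q ∈ Stm.Sub₂ K n q s ρ, Stm.IsProd Q → ∀ x, ∃ c : E, act Q x = c • cl (Stm.fst Q))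
    (h₃ : ∀ j, ∑ᶠ P ∈ {P | Minimal (· ∈ Stm.Sub K n q s ρ) P}, act (Stm.graph (p ^ j) P) = Fr ^ j)
    (m i : ℕ) (hm : 0 < m) (x : V) (hx : (Fr ^ m) x = (p : E) ^ (m * i) • x) :
    x ∈ Submodule.span E (cl '' Stm.Sub K n q s ρ) := by
  classical
  obtain ⟨f, hf, h⟩ := Real.diagF hp H
  let A : (PrimeSpectrum (Stm.Rg K n (Fin (l + 1) ⊕ Fin (l + 1))) →₀ ℚ) →+ Module.End E V :=
    Finsupp.liftAddHom fun Q => ((smulAddHom E _).flip (act Q)).comp (Rat.castHom E).toAddMonoidHom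
  have hA : ∀ c, A c = c.sum fun Q r => (r : E) • act Q := fun c => rfl
  have hA1 : ∀ Q (r : ℚ), A (Finsupp.single Q r) = (r : E) • act Q := fun Q r => by
    rw [hA, Finsupp.sum_single_index (by simp)]
  have hW : ∀ c ∈ SmR (m2 (Fin (l + 1)) n) (BsetA (Fin (l + 1) ⊕ Fin (l + 1)) n)
      (sq2 (Dset q n s ρ)) ⊔ RatG (BsetA (Fin (l + 1) ⊕ Fin (l + 1)) n)
        (sq2 (Dset (K := K) q n s ρ)), ∀ y, A c y ∈ Submodule.span E (cl '' Stm.Sub K n q s ρ) := by
    intro c hc y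
    obtain ⟨c₁, h1, c₂, h2, rfl⟩ := Submodule.mem_sup.1 hc
    have h3 : A c₂ = 0 := h₁ c₂ (StmB.rat_map mem_Sub₂ (Submodule.mem_map_of_mem h2))
    rw [map_add, h3, add_zero, hA, Finsupp.sum, LinearMap.sum_apply]
    refine Submodule.sum_mem _ fun Q hQ => ?_
    obtain ⟨k1, k2, k3⟩ := h1 hQ
    have k4 := (mem_Sub₂ Q).2 ⟨k1, k2⟩
    obtain ⟨d, hd⟩ := h₂ Q k4 ((isProd_iff Q).2 k3) y
    rw [LinearMap.smul_apply, hd]
    exact Submodule.smul_mem _ _ (Submodule.smul_mem _ _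
      (Submodule.subset_span ⟨_, fst_mem_Sub k4, rfl⟩))
  have hfin := finite_minimal (K := K) (n := n) hp s ρ
  have hF : ∀ y, Polynomial.aeval Fr (f.map (Rat.castHom E)) y ∈
      Submodule.span E (cl '' Stm.Sub K n q s ρ) := by
    intro y
    have e : Polynomial.aeval Fr (f.map (Rat.castHom E)) = ∑ P ∈ hfin.toFinset,
        A (f.sum fun j a => a • Finsupp.single (Stm.graph (p ^ j) P) (1 : ℚ)) := by
      simp only [Polynomial.sum, map_sum, Finsupp.smul_single, smul_eq_mul, mul_one, hA1]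
      rw [Finset.sum_comm, Polynomial.aeval_def, Polynomial.eval₂_map, Polynomial.eval₂_eq_sum,
        Polynomial.sum]
      refine Finset.sum_congr rfl fun j _ => ?_
      rw [← Finset.smul_sum, ← finsum_mem_eq_finite_toFinset_sum _ hfin, h₃, Algebra.smul_def]
      rfl
    rw [e, LinearMap.sum_apply]
    exact Submodule.sum_mem _ fun P hP => hW _ (h P (hfin.mem_toFinset.1 hP)) y
  obtain ⟨u, v, huv⟩ := (Sp.coprime hf hm i).map (Polynomial.mapRingHom (Rat.castHom E))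
  have h4 := congrArg (fun g => Polynomial.aeval Fr g x) huv
  simp only [Polynomial.coe_mapRingHom, Polynomial.map_sub, Polynomial.map_pow, Polynomial.map_X,
    Polynomial.map_C, map_one, Module.End.one_apply] at h4
  rw [mul_comm u, map_add, map_mul, map_mul, LinearMap.add_apply, Module.End.mul_apply,
    Module.End.mul_apply, map_sub, map_pow, Polynomial.aeval_X, Polynomial.aeval_C,
    LinearMap.sub_apply, Module.algebraMap_end_apply, hx, map_pow, map_natCast, sub_self, map_zero,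
    add_zero] at h4
  rw [← h4]
  exact hF _

end Pool.Agent.Lib.MP_60ec62_ag.DL
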