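import Pool.Agent.Lib.MP_60ec62_ag.DL.Stm

/-!
Definitions used in the statement: the square of the variety of chains of flags, product
subvarieties, graphs of Frobenius.
-/

noncomputable section

namespace Pool.Agent.Lib.MP_60ec62_ag.DL.Stm

open MvPolynomial

/-- The kernel of a map to a domain. -/
def kerP {R D : Type} [CommRing R] [CommRing D] [IsDomain D] (f : R →+* D) : PrimeSpectrum R :=
  ⟨RingHom.ker f, RingHom.ker_isPrime f⟩

/-- The action `act` of the subvarieties vanishes on the cycles in `W`. -/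
def Kills {R E H : Type} [CommRing R] [Field E] [AddCommGroup H] [Module E H]
    (W : Submodule ℚ (PrimeSpectrum R → ℚ)) (act : PrimeSpectrum R → Module.End E H) : Prop :=
  ∀ c : PrimeSpectrum R →₀ ℚ, ⇑c ∈ W → (c.sum fun Q r => (r : E) • act Q) = 0

variable (K : Type) [Field K] (n : ℕ) {α : Type}

/-- The subvarieties of the square of the variety of chains of flags. -/
def Sub₂ {l : ℕ} (q : ℕ) (s : Fin l → ℕ) (ρ : ℕ → ℕ → ℕ) :
    Set (PrimeSpectrum (Rg K n (Fin (l + 1) ⊕ Fin (l + 1)))) :=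
  {Q | Stab (Bor K n _) Q ∧ Chain q s ρ (g K n ∘ Sum.inl) Q.asIdeal ∧
    Chain q s ρ (g K n ∘ Sum.inr) Q.asIdeal}

variable {K n}

/-- The zero set of `Q` is a product. -/
def IsProd (Q : PrimeSpectrum (Rg K n (α ⊕ α))) : Prop :=
  ∀ x ∈ zeroLocus K Q.asIdeal, ∀ y ∈ zeroLocus K Q.asIdeal,
    (fun v => Sum.elim (fun _ => x v) (fun _ => y v) v.1) ∈ zeroLocus K Q.asIdeal

/-- The image of `Q` in the first factor. -/
def fst (Q : PrimeSpectrum (Rg K n (α ⊕ α))) : PrimeSpectrum (Rg K n α) :=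
  PrimeSpectrum.comap (rename (Prod.map Sum.inl id)).toRingHom Q

/-- The point `(x, x ^ (Q) * β)` of the square, for a point `x` with values in `D` and generic upper
triangular matrices `β`. -/
def grHom {D : Type} [CommRing D] (Q : ℕ) (x : Rg K n α →+* D) :
    Rg K n (α ⊕ α) →+* MvPolynomial (α × (Fin n × Fin n)) D :=
  eval₂Hom (C.comp (x.comp C)) fun v => Sum.elim (fun a => C (x (g K n a v.2.1 v.2.2)))
    (fun a => ∑ b ∈ Finset.Iic v.2.2, C (x (g K n a v.2.1 b) ^ Q) * X (a, (b, v.2.2))) v.1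

/-- The graph of the `Q`-power Frobenius on the subvariety `P`. -/
def graph (Q : ℕ) (P : PrimeSpectrum (Rg K n α)) : PrimeSpectrum (Rg K n (α ⊕ α)) :=
  kerP (grHom Q (Ideal.Quotient.mk P.asIdeal))

end Pool.Agent.Lib.MP_60ec62_ag.DL.Stm
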