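import Pool.Agent.Lib.MP_60ec62_ag.DF.Tot
import Pool.Agent.Lib.MP_60ec62_ag.DF.Rect

/-!
Exchanging the two factors.
-/

noncomputable section

namespace Pool.Agent.Lib.MP_60ec62_ag.DL

namespace Swap

open Polynomial

variable {V : Type} [AddCommGroup V] [Module ℚ V] {F U : Module.End ℚ V}

lemma comm_aeval (h : Commute F U) (s : ℚ[X]) : Commute (aeval F s) U := by
  induction s using Polynomial.induction_on' with
  | add a b ha hb => rw [map_add]; exact ha.add_left hb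
  | monomial n a =>
    rw [aeval_monomial]
    exact (Algebra.commute_algebraMap_left a U).mul_left (h.pow_left n)

/-- The vectors on which the powers of `T` act by the given scalars. -/
def Eig (T : Module.End ℚ V) (L : ℕ) (a : ℕ → ℚ) : Submodule ℚ V where
  carrier := {v | ∀ m : ℕ, (T ^ (L * m)) v = a m • v}
  zero_mem' := fun m => by simp
  add_mem' := fun {v w} hv hw m => by rw [map_add, hv m, hw m, smul_add]
  smul_mem' := fun r v hv m => by rw [map_smul, hv m, smul_comm]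

lemma Eig.stable {T : Module.End ℚ V} {L : ℕ} {a : ℕ → ℚ} (h : Commute T U) :
    ∀ v ∈ Eig T L a, U v ∈ Eig T L a := fun v hv m => by
  rw [← Module.End.mul_apply, (h.pow_left (L * m)).eq, Module.End.mul_apply, hv m, map_smul]

lemma key {p L d : ℕ} (hp : p ≠ 0) (hL : 0 < L) (h : Commute F U) {s : ℚ[X]} (hs : s ∈ Sp p) :
    ∃ t ∈ Sp p, ∃ (k : ℕ) (u : ℚ[X]), ∀ v ∈ Eig (F * U) L (fun m => (p : ℚ) ^ (L * m * d)),
      aeval U t v = (U ^ k) (aeval F (u * s) v) := by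
  have hU : Commute (F * U) U := h.mul_left (Commute.refl U)
  induction hs using Submonoid.closure_induction with
  | one => exact ⟨1, one_mem _, 0, 1, fun v _ => by simp⟩
  | mul s₁ s₂ _ _ h₁ h₂ =>
    obtain ⟨t₁, ht₁, k₁, u₁, e₁⟩ := h₁
    obtain ⟨t₂, ht₂, k₂, u₂, e₂⟩ := h₂
    refine ⟨t₁ * t₂, mul_mem ht₁ ht₂, k₁ + k₂, u₁ * u₂, fun v hv => ?_⟩
    have e : u₁ * u₂ * (s₁ * s₂) = u₁ * s₁ * (u₂ * s₂) := by ring
    rw [map_mul, Module.End.mul_apply, e₁ _ (Nil.aeval_stable (Eig.stable hU) hv t₂), e₂ v hv, e,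
      map_mul _ (u₁ * s₁), pow_add, Module.End.mul_apply, Module.End.mul_apply,
      ← Module.End.mul_apply (aeval F (u₁ * s₁)), ((comm_aeval h (u₁ * s₁)).pow_right k₂).eq,
      Module.End.mul_apply]
  | mem s hs =>
    obtain ⟨N, hN, r, rfl⟩ := hs
    have hp' : (p : ℚ) ≠ 0 := Nat.cast_ne_zero.2 hp
    obtain ⟨u₀, hu₀⟩ := sub_dvd_pow_sub_pow (X ^ (2 * N) : ℚ[X])
      (C ((p : ℚ) ^ ((N : ℤ) * (2 * r + 1)))) L
    set a : ℚ := ((p : ℚ) ^ ((N : ℤ) * (2 * r + 1))) ^ L with ha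
    have ha0 : a ≠ 0 := pow_ne_zero _ (zpow_ne_zero _ hp')
    set b : ℚ := (p : ℚ) ^ (((N * L : ℕ) : ℤ) * (2 * ((d : ℤ) - r - 1) + 1)) with hb
    have hab : a * b = (p : ℚ) ^ (L * (2 * N) * d) := by
      rw [ha, hb, ← zpow_natCast, ← zpow_mul, ← zpow_add₀ hp', ← zpow_natCast]
      congr 1
      push_cast
      ring
    refine ⟨X ^ (2 * (N * L)) - C b, Submonoid.subset_closure ⟨N * L, Nat.mul_pos hN hL, _, rfl⟩,
      L * (2 * N), C (-a⁻¹) * u₀, fun v hv => ?_⟩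
    have e : C (-a⁻¹) * u₀ * (X ^ (2 * N) - C ((p : ℚ) ^ ((N : ℤ) * (2 * r + 1)))) =
        C (-a⁻¹) * (X ^ (L * (2 * N)) - C a) := by
      rw [mul_assoc, mul_comm u₀, ← hu₀, ← pow_mul, ← C_pow, mul_comm (2 * N) L]
    have e2 : 2 * (N * L) = L * (2 * N) := by ring
    have e3 : (U ^ (L * (2 * N))) ((F ^ (L * (2 * N))) v) = (a * b) • v := by
      rw [← Module.End.mul_apply, ← (h.pow_pow _ _).eq, ← h.mul_pow, hv (2 * N), hab]
    rw [e, e2]
    simp only [map_mul, map_sub, map_pow, aeval_X, aeval_C, Module.End.mul_apply,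
      LinearMap.sub_apply, Module.algebraMap_end_apply, map_smul, e3]
    rw [smul_smul, smul_smul, neg_mul, mul_neg, inv_mul_cancel_left₀ ha0,
      mul_inv_cancel₀ ha0, neg_smul, neg_smul, one_smul]
    abel

lemma swap {p L d : ℕ} (hp : p ≠ 0) (hL : 0 < L) (h : Commute F U) {W : Submodule ℚ V}
    (hW : ∀ c ∈ W, U c ∈ W) {c : V}
    (hc : ∀ m : ℕ, ((F * U) ^ (L * m)) c = (p : ℚ) ^ (L * m * d) • c)
    (hn : c ∈ Nil (Sp p) F W) : c ∈ Nil (Sp p) U W := by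
  obtain ⟨s, hs, hn⟩ := hn
  obtain ⟨t, ht, k, u, e⟩ := key (d := d) hp hL h hs
  refine ⟨t, ht, fun n => Nil.pow_stable hW ?_ n⟩
  rw [e c hc, map_mul, Module.End.mul_apply]
  exact Nil.pow_stable hW (aeval_mem_of_pow hn u) k

end Swap

open MvPolynomial

variable {K : Type} [Field K] [IsAlgClosed K] {p q : ℕ} [Fact p.Prime] [CharP K p]
  {ι κ ι' τ : Type} [Finite ι] [Finite κ] [Finite ι'] [Finite τ]

theorem MGoodG.swap (hK : Per K p) {M : Set ι} {Γ : Set (Au K ι)} {Y : Set (ι → K)}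
    (hY : ∀ x, pfx p Mᶜ x ∈ Y ↔ x ∈ Y) (hΓ : FG p Mᶜ Γ) (h : MGoodG p M Γ Y) :
    MGoodG p Mᶜ Γ Y := by
  intro P hP hs
  obtain ⟨L, hL, hper⟩ := exists_period hK P
  rw [SmR_compl]
  refine Swap.swap (d := dm K P) (Fact.out : p.Prime).ne_zero hL (FF_comm M Mᶜ) ?_ ?_ (h P hP hs)
  · intro c hc
    obtain ⟨a, ha, b, hb, rfl⟩ := Submodule.mem_sup.1 hc
    rw [map_add]
    exact Submodule.add_mem_sup (FF_SmR hY hΓ ha) (FF_RatG hY hΓ hb)
  · rw [FF_mul_compl]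
    exact hper

end Pool.Agent.Lib.MP_60ec62_ag.DL
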