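import Pool.Agent.Lib.MP_60ec62_ag.DF.MChain
import Pool.Agent.Lib.MP_60ec62_ag.DF.Swap
import Pool.Agent.Lib.MP_60ec62_ag.DF.Stm2
import Pool.Agent.Lib.MP_60ec62_ag.DL.StmB

/-!
The square of the variety of chains.
-/

noncomputable section

namespace Pool.Agent.Lib.MP_60ec62_ag.DL

open MvPolynomial

variable {K : Type} [Field K] [IsAlgClosed K] {p q : ℕ} [Fact p.Prime] [CharP K p] {n l : ℕ}
  {α : Type} [Finite α]

/-- The square of a set of families of matrices. -/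
def sq2 (Y : Set (α × (Fin n × Fin n) → K)) : Set ((α ⊕ α) × (Fin n × Fin n) → K) :=
  {x | x ∘ Prod.map Sum.inl id ∈ Y ∧ x ∘ Prod.map Sum.inr id ∈ Y}

/-- The variables of the second factor. -/
def m2 (α : Type) (n : ℕ) : Set ((α ⊕ α) × (Fin n × Fin n)) := {v | v.1 ∈ Set.range Sum.inr}

namespace Two

lemma hat_inter {ι : Type} [Finite ι] {Y Z : Set (ι → K)} (hZ : LC Z) {Q : Pr K ι} :
    Q ∈ hat (Y ∩ Z) ↔ Q ∈ hat Y ∧ Q ∈ hat Z := by
  refine ⟨fun h => ⟨hat_mono Set.inter_subset_left h, hat_mono Set.inter_subset_right h⟩,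
    fun h f hf => ?_⟩
  obtain ⟨y, hy, hyQ⟩ := hat_nonempty h.2
  obtain ⟨g, hg, hg'⟩ := hZ.exists_nhd hy
  refine (Q.isPrime.mem_or_mem (h.1 (g * f) fun x hx hxQ => ?_)).resolve_left
    fun h0 => hg (hyQ g h0)
  rw [map_mul]
  by_cases h0 : eval x g = 0
  · rw [h0, zero_mul]
  · rw [hf x ⟨hx, hg' Q h.2 x hxQ h0⟩ hxQ, mul_zero]

lemma hat_pre {ι κ : Type} [Finite ι] [Finite κ] {Y : Set (ι → K)} (hY : LC Y) (j : ι → κ)
    {Q : Pr K κ} : Q ∈ hat {x : κ → K | x ∘ j ∈ Y} ↔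
      PrimeSpectrum.comap (rename j : MvPolynomial ι K →ₐ[K] MvPolynomial κ K).toRingHom Q ∈
        hat Y := by
  obtain ⟨I, J, rfl⟩ := hY
  have h1 : ∀ (x : κ → K) (L : Ideal (MvPolynomial ι K)),
      (∀ f ∈ L.map (rename j : MvPolynomial ι K →ₐ[K] MvPolynomial κ K).toRingHom, eval x f = 0) ↔
        ∀ f ∈ L, eval (x ∘ j) f = 0 := fun x L => by
    refine Iff.trans (b := L.map (rename j : MvPolynomial ι K →ₐ[K] MvPolynomial κ K).toRingHom ≤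
      Hat.mx x) Iff.rfl ?_
    rw [Ideal.map_le_iff_le_comap]
    refine forall_congr' fun f => forall_congr' fun _ => ?_
    rw [Ideal.mem_comap, Hat.mem_mx, ← eval_rename]
    rfl
  have e : {x : κ → K | x ∘ j ∈ {x : ι → K | (∀ f ∈ I, eval x f = 0) ∧ ∃ g ∈ J, eval x g ≠ 0}} =
      {x : κ → K | (∀ f ∈ I.map (rename j : MvPolynomial ι K →ₐ[K] MvPolynomial κ K).toRingHom,
        eval x f = 0) ∧ ∃ g ∈ J.map (rename j : MvPolynomial ι K →ₐ[K] MvPolynomial κ K).toRingHom,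
          eval x g ≠ 0} := by
    ext x
    refine and_congr (h1 x I).symm (not_iff_not.1 ?_)
    simpa only [not_exists, not_and, not_not] using (h1 x J).symm
  rw [e, mem_hat_iff, mem_hat_iff, Ideal.map_le_iff_le_comap, Ideal.map_le_iff_le_comap]
  rfl

omit [IsAlgClosed K] [Finite α] in
lemma lc_pre {ι κ : Type} {Y : Set (ι → K)} (hY : LC Y) (j : ι → κ) :
    LC {x : κ → K | x ∘ j ∈ Y} := by
  have := LC.univ.preimage hY (Φ := fun x : κ → K => x ∘ j) fun i => RegF.coord (j i)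
  simpa only [Set.mem_univ, true_and] using this

omit [IsAlgClosed K] [Finite α] in
lemma lc_sq {Y : Set (α × (Fin n × Fin n) → K)} (hY : LC Y) : LC (sq2 Y) :=
  (lc_pre hY _).inter (lc_pre hY _)

lemma chain_map {R R' : Type} [CommRing R] [CommRing R'] (φ : R →+* R') (s : Fin l → ℕ)
    (ρ : ℕ → ℕ → ℕ) (g : Fin (l + 1) → Matrix (Fin n) (Fin n) R) (I : Ideal R') :
    Stm.Chain q s ρ (fun a => φ.mapMatrix (g a)) I ↔ Stm.Chain q s ρ g (I.comap φ) := by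
  refine and_congr (forall_congr' fun a => ?_) (and_congr (forall_congr' fun a =>
    forall_congr' fun i => forall_congr' fun j => forall_congr' fun _ => forall_congr' fun _ => ?_)
    (forall_congr' fun i => forall_congr' fun j => forall_congr' fun u => forall_congr' fun v =>
      forall_congr' fun _ => forall_congr' fun _ => ?_))
  · rw [Ideal.mem_comap, RingHom.map_det]
  · rw [Ideal.mem_comap, ← RingHom.map_adjugate, ← map_mul]
    rfl
  · rw [Ideal.mem_comap, RingHom.map_det]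
    refine iff_of_eq (congrArg (fun M : Matrix _ _ R' => M.det ∈ I) ?_)
    ext r c
    simp [Matrix.mul_apply]

lemma chain_iff {β : Type} {s : Fin l → ℕ} {ρ : ℕ → ℕ → ℕ} (j : Fin (l + 1) → β)
    (Q : Pr K (β × (Fin n × Fin n))) : Stm.Chain q s ρ (Stm.g K n ∘ j) Q.asIdeal ↔
      PrimeSpectrum.comap (rename (Prod.map j id) : Stm.Rg K n (Fin (l + 1)) →ₐ[K] _).toRingHom Q ∈
        hat (Dset q n s ρ) := by
  have e : Stm.g K n ∘ j = fun a => (rename (Prod.map j id) :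
      Stm.Rg K n (Fin (l + 1)) →ₐ[K] Stm.Rg K n β).toRingHom.mapMatrix (Stm.g K n a) := by
    funext a
    ext r c : 2
    simp [Stm.g]
  rw [e, chain_map, Final.mem_hat_D]
  rfl

omit [IsAlgClosed K] [Finite α] in
lemma exists_res {β : Type} (j : α → β) {γ : Au K (β × (Fin n × Fin n))} (h : γ ∈ BsetA β n) :
    ∃ γ₁ ∈ BsetA (K := K) α n, ∀ x, pt γ x ∘ Prod.map j id = pt γ₁ (x ∘ Prod.map j id) := by
  obtain ⟨b, hb, h⟩ := h
  obtain ⟨γ₁, h1, h2⟩ := StmB.exists_au (δ := Stm.mv (b ∘ j)) ⟨b ∘ j, fun a => hb (j a), rfl⟩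
  refine ⟨γ₁, h1, fun x => funext fun ⟨a, r, c⟩ => ?_⟩
  simp [pt, h, h2, StmB.mv_X]

omit [IsAlgClosed K] [Finite α] [Fact p.Prime] [CharP K p] in
lemma pfx_comp {ι κ : Type} {M : Set κ} {j : ι → κ} (h : ∀ i, j i ∈ M) (x : κ → K) :
    pfx p M x ∘ j = fun i => (x ∘ j) i ^ p := funext fun i => pfx_of_mem (h i) x

omit [IsAlgClosed K] [Finite α] [Fact p.Prime] [CharP K p] in
lemma pfx_comp' {ι κ : Type} {M : Set κ} {j : ι → κ} (h : ∀ i, j i ∉ M) (x : κ → K) :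
    pfx p M x ∘ j = x ∘ j := funext fun i => pfx_of_not_mem (h i) x

omit [IsAlgClosed K] [Finite α] in
lemma mix_comp {ι κ : Type} {M : Set κ} {j : ι → κ} (h : ∀ i, j i ∈ M) (x y : κ → K) :
    mix M x y ∘ j = y ∘ j := funext fun i => mix_of_mem (h i) x y

omit [IsAlgClosed K] [Finite α] in
lemma mix_comp' {ι κ : Type} {M : Set κ} {j : ι → κ} (h : ∀ i, j i ∉ M) (x y : κ → K) :
    mix M x y ∘ j = x ∘ j := funext fun i => mix_of_not_mem (h i) x y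

omit [IsAlgClosed K] [Finite α] [Fact p.Prime] [CharP K p] in
lemma mset_r {Y : Set (α × (Fin n × Fin n) → K)} (hY : Pas p Y)
    {M : Set ((α ⊕ α) × (Fin n × Fin n))} (h1 : ∀ i, Prod.map Sum.inl id i ∉ M)
    (h2 : ∀ i, Prod.map Sum.inr id i ∈ M) : MSet p M (sq2 Y) := by
  refine ⟨fun x => and_congr ?_ ?_, fun x hx y hy => ⟨?_, ?_⟩⟩
  · rw [pfx_comp' h1]
  · rw [pfx_comp h2, hY.frob]
  · rw [mix_comp' h1]
    exact hx.1
  · rw [mix_comp h2]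
    exact hy.2

omit [IsAlgClosed K] [Finite α] [Fact p.Prime] [CharP K p] in
lemma mset_l {Y : Set (α × (Fin n × Fin n) → K)} (hY : Pas p Y)
    {M : Set ((α ⊕ α) × (Fin n × Fin n))} (h1 : ∀ i, Prod.map Sum.inl id i ∈ M)
    (h2 : ∀ i, Prod.map Sum.inr id i ∉ M) : MSet p M (sq2 Y) := by
  refine ⟨fun x => and_congr ?_ ?_, fun x hx y hy => ⟨?_, ?_⟩⟩
  · rw [pfx_comp h1, hY.frob]
  · rw [pfx_comp' h2]
  · rw [mix_comp h1]
    exact hy.1
  · rw [mix_comp' h2]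
    exact hx.2

omit [IsAlgClosed K] in
lemma map_mem_Dset (F : K →+* K) (s : Fin l → ℕ) (ρ : ℕ → ℕ → ℕ)
    (y : Fin (l + 1) × (Fin n × Fin n) → K) :
    (fun j => F (y j)) ∈ Dset q n s ρ ↔ y ∈ Dset q n s ρ := by
  have e : ∀ a, matA (fun j => F (y j)) a = F.mapMatrix (matA y a) := fun _ => rfl
  refine and_congr (and_congr (forall_congr' fun a => ?_) (forall_congr' fun a =>
    forall_congr' fun i => forall_congr' fun j => forall_congr' fun _ => forall_congr' fun _ => ?_))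
    (forall_congr' fun i => forall_congr' fun j => ?_)
  · rw [e, ← RingHom.map_det, map_ne_zero]
  · rw [e, e, ← RingHom.map_adjugate, ← map_mul]
    exact map_eq_zero F
  · rw [Final.rkM_le_iff, Final.rkM_le_iff]
    refine forall_congr' fun u => forall_congr' fun v => forall_congr' fun _ =>
      forall_congr' fun _ => ?_
    rw [← map_eq_zero F (a := ((gramA q y (Fin.last l)).submatrix u v).det), RingHom.map_det]
    refine iff_of_eq (congrArg (fun M : Matrix _ _ K => M.det = 0) ?_)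
    ext r c
    simp [gramA, matA, Matrix.mul_apply]

lemma finite_min {ι : Type} [Finite ι] {Y : Set (ι → K)} {Γ : Set (Au K ι)} (hY : LC Y)
    (hΓ : Conn Γ) (hs : StSet Γ Y) :
    {P | Minimal (fun P => P ∈ hat Y ∧ Stable Γ P) P}.Finite := by
  obtain ⟨I, J, e⟩ := hY
  have hh : ∀ P : Pr K ι, P ∈ hat Y ↔ I ≤ P.asIdeal ∧ ¬ J ≤ P.asIdeal := fun P => by
    rw [e, mem_hat_iff]
  have hT : {P : Pr K ι | Minimal (· ∈ hat Y) P}.Finite := by
    refine ((Ideal.finite_minimalPrimes_of_isNoetherianRing _ I).preimage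
      (f := PrimeSpectrum.asIdeal) fun _ _ _ _ h => PrimeSpectrum.ext h).subset fun P hP => ?_
    obtain ⟨h1, h2⟩ := (hh P).1 hP.1
    exact ⟨⟨P.isPrime, h1⟩, fun Q hQ hQP =>
      hP.2 (y := ⟨Q, hQ.1⟩) ((hh _).2 ⟨hQ.2, fun h => h2 (h.trans hQP)⟩) hQP⟩
  have hst := hΓ.stable hT.toFinset fun γ hγ z hz => by
    rw [Set.Finite.mem_toFinset] at hz ⊢
    refine ⟨(act_mem_hat (hs γ hγ)).2 hz.1, fun Q hQ hle => ?_⟩
    obtain ⟨Q, rfl⟩ := (act_bijective γ).2 Q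
    exact act_le_act.2 (hz.2 ((act_mem_hat (hs γ hγ)).1 hQ) (act_le_act.1 hle))
  refine hT.subset fun P hP => ?_
  obtain ⟨h1, h2⟩ := (hh P).1 hP.1.1
  have := P.isPrime
  obtain ⟨Q, hQ, hQP⟩ := Ideal.exists_minimalPrimes_le h1
  have h3 : Minimal (· ∈ hat Y) (⟨Q, hQ.1.1⟩ : Pr K ι) :=
    ⟨(hh _).2 ⟨hQ.1.2, fun h => h2 (h.trans hQP)⟩, fun R hR hle =>
      hQ.2 ⟨R.isPrime, ((hh R).1 hR).1⟩ hle⟩
  have h4 : P = ⟨Q, hQ.1.1⟩ :=
    le_antisymm (hP.2 ⟨h3.1, hst _ (hT.mem_toFinset.2 h3)⟩ hQP) hQP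
  rw [h4]
  exact h3

end Two

theorem two (hK : Per K p) {Y : Set (α × (Fin n × Fin n) → K)} (hY : Pas p Y)
    (hd : ∀ x ∈ Y, ∀ a, (matA x a).det ≠ 0) (hs : StSet (BsetA α n) Y) (hg : FGoodG p Y) :
    MGoodG p (m2 α n) (BsetA (α ⊕ α) n) (sq2 Y) := by
  have hl := Two.lc_sq hY.lc
  have hd2 : ∀ x ∈ sq2 Y, ∀ a, (matA x a).det ≠ 0 := by
    rintro x hx (a | a)
    · exact hd _ hx.1 a
    · exact hd _ hx.2 a
  have hs2 : StSet (BsetA (α ⊕ α) n) (sq2 Y) := fun γ hγ x => by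
    obtain ⟨γ₁, a1, b1⟩ := Two.exists_res (Sum.inl : α → α ⊕ α) hγ
    obtain ⟨γ₂, a2, b2⟩ := Two.exists_res (Sum.inr : α → α ⊕ α) hγ
    refine and_congr ?_ ?_
    · rw [b1, hs γ₁ a1]
    · rw [b2, hs γ₂ a2]
  have m1 : MSet p {v | v.1 ∈ (Set.range Sum.inl)ᶜ} (sq2 Y) :=
    Two.mset_r hY (fun i => by simp) fun i => by simp
  have m2' : MSet p {v | v.1 ∈ (Set.range Sum.inr)ᶜ} (sq2 Y) :=
    Two.mset_l hY (fun i => by simp) fun i => by simp
  have e1 : {v : (α ⊕ α) × (Fin n × Fin n) | v.1 ∈ (Set.range Sum.inl)ᶜ}ᶜ =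
      {v | v.1 ∈ (Set.range Sum.inr)ᶜ} := by
    ext ⟨a | a, v⟩ <;> simp
  have e2 : {v : (α ⊕ α) × (Fin n × Fin n) | v.1 ∈ (Set.range Sum.inr)ᶜ}ᶜ =
      {v | v.1 ∈ (Set.range Sum.inl)ᶜ} := by
    ext ⟨a | a, v⟩ <;> simp
  have e3 : m2 α n = {v | v.1 ∈ (Set.range Sum.inl)ᶜ} := by
    rw [Set.compl_range_inl]
    rfl
  have hiso : RegIso (prodT Y Y) (sq2 Y) (fun z => z ∘ Equiv.sumProdDistrib α α (Fin n × Fin n))
      fun x => x ∘ (Equiv.sumProdDistrib α α (Fin n × Fin n)).symm :=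
    ⟨fun _ => RegF.coord _, fun _ => RegF.coord _, fun _ h => h, fun _ h => h,
      fun z _ => funext fun i => by simp, fun z _ => funext fun i => by simp⟩
  have g0 : MGoodG p {v | v.1 ∈ (Set.range Sum.inl)ᶜ} ∅ (sq2 Y) :=
    MGoodG.iso (hY.lc.prodT hY.lc) hl hiso (hY.mset Y) m1.frob
      (mmap_comp _ (by rintro ⟨a | a, v⟩ <;> simp) _) (fun _ h => h.elim) (fun _ h => h.elim)
      (fun _ h => h.elim) (fun _ h => h.elim) (hg _ Y hY)
  have g1 := mchain ∅ (Set.range Sum.inl) hl hd2 hs2 m1 (mgoodG_BsetS_empty.2 g0)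
  have g2 := g1.swap hK (by rw [e1]; exact m2'.frob) (by rw [e1]; exact fg_BsetS _ _)
  rw [e1] at g2
  have g3 := mchain _ (Set.range Sum.inr) hl hd2 hs2 m2' g2
  have g4 := g3.swap hK (by rw [e2]; exact m1.frob) (by rw [e2]; exact fg_BsetS _ _)
  rwa [e2, ← e3, Set.empty_union, Set.range_inl_union_range_inr, BsetS_univ] at g4

omit [IsAlgClosed K] in
lemma pas_Dset (s : Fin l → ℕ) (ρ : ℕ → ℕ → ℕ) : Pas p (Dset (K := K) q n s ρ) :=
  ⟨lc_Dset s ρ, Two.map_mem_Dset (frobenius K p) s ρ⟩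

lemma mem_Sub₂ {s : Fin l → ℕ} {ρ : ℕ → ℕ → ℕ}
    (Q : Pr K ((Fin (l + 1) ⊕ Fin (l + 1)) × (Fin n × Fin n))) : Q ∈ Stm.Sub₂ K n q s ρ ↔
      Q ∈ hat (sq2 (Dset q n s ρ)) ∧ Stable (BsetA (Fin (l + 1) ⊕ Fin (l + 1)) n) Q := by
  have h := lc_Dset (K := K) (q := q) (n := n) s ρ
  refine Iff.trans ?_ (and_congr_left' (Two.hat_inter
    (Y := {x | x ∘ Prod.map Sum.inl id ∈ Dset q n s ρ}) (Two.lc_pre h _)).symm)
  rw [Two.hat_pre h, Two.hat_pre h, ← Two.chain_iff, ← Two.chain_iff, ← StmB.stab_iff, and_comm]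
  rfl

omit [IsAlgClosed K] [Finite α] in
lemma isProd_iff (Q : Pr K ((α ⊕ α) × (Fin n × Fin n))) : Stm.IsProd Q ↔ Rect (m2 α n) Q := by
  have e : zeroLocus K Q.asIdeal = Vp Q := by
    ext x
    simp only [mem_zeroLocus_iff, mem_Vp, aeval_eq_eval]
  have e2 : ∀ x y : (α ⊕ α) × (Fin n × Fin n) → K,
      (fun v => Sum.elim (fun _ => x v) (fun _ => y v) v.1) = mix (m2 α n) x y := fun x y => by
    funext ⟨a, v⟩
    rcases a with a | a
    · exact (mix_of_not_mem (by simp [m2]) x y).symm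
    · exact (mix_of_mem (by simp [m2]) x y).symm
  simp only [Stm.IsProd, e, e2, Rect]

lemma fst_mem_Sub {s : Fin l → ℕ} {ρ : ℕ → ℕ → ℕ}
    {Q : Pr K ((Fin (l + 1) ⊕ Fin (l + 1)) × (Fin n × Fin n))} (h : Q ∈ Stm.Sub₂ K n q s ρ) :
    Stm.fst Q ∈ Stm.Sub K n q s ρ := by
  refine ⟨?_, Final.mem_hat_D.1 ((Two.chain_iff Sum.inl Q).1 h.2.1)⟩
  rintro _ ⟨β, hβ, rfl⟩ f hf
  have e : (rename (Prod.map Sum.inl id) : Stm.Rg K n (Fin (l + 1)) →ₐ[K] _).toRingHom.comp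
      (Stm.mv β) = (Stm.mv (Sum.elim β β)).comp
        (rename (Prod.map Sum.inl id) : Stm.Rg K n (Fin (l + 1)) →ₐ[K] _).toRingHom :=
    MvPolynomial.ringHom_ext (fun c => by simp [StmB.mv_C]) fun ⟨a, r, c⟩ => by simp [StmB.mv_X]
  have h1 := h.1 (Stm.mv (Sum.elim β β)) ⟨_, by rintro (a | a) <;> exact hβ a, rfl⟩ _ hf
  exact (congrArg (· ∈ Q.asIdeal) (DFunLike.congr_fun e f)).mpr h1

lemma finite_minimal (hp : IsPP p q) (s : Fin l → ℕ) (ρ : ℕ → ℕ → ℕ) :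
    {P | Minimal (· ∈ Stm.Sub K n q s ρ) P}.Finite := by
  simp only [StmB.mem_Sub]
  exact Two.finite_min (lc_Dset s ρ) StmB.conn_B (stSet_Dset hp s ρ)

end Pool.Agent.Lib.MP_60ec62_ag.DL
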