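import Mathlib

/-!
Elements of a vector space that are carried into a subspace by suitable polynomials in an
endomorphism.
-/

noncomputable section

namespace Pool.Agent.Lib.MP_60ec62_ag.DL

open Polynomial

/-- The products of the polynomials `X ^ (2 N) - p ^ (N (2 r + 1))`. -/
def Sp (p : ℕ) : Submonoid ℚ[X] :=
  Submonoid.closure {f | ∃ N : ℕ, 0 < N ∧ ∃ r : ℤ, f = X ^ (2 * N) - C ((p : ℚ) ^ (N * (2 * r + 1)))}

variable {V V' : Type} [AddCommGroup V] [Module ℚ V] [AddCommGroup V'] [Module ℚ V']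

lemma aeval_mem_of_pow {F : Module.End ℚ V} {W : Submodule ℚ V} {c : V}
    (h : ∀ n : ℕ, (F ^ n) c ∈ W) (s : ℚ[X]) : aeval F s c ∈ W := by
  induction s using Polynomial.induction_on' with
  | add a b ha hb => rw [map_add, LinearMap.add_apply]; exact add_mem ha hb
  | monomial n a =>
    rw [aeval_monomial, Module.End.mul_apply, Module.algebraMap_end_apply]
    exact W.smul_mem _ (h n)

lemma pow_aeval (F : Module.End ℚ V) (s t : ℚ[X]) (n : ℕ) (c : V) :
    (F ^ n) (aeval F (s * t) c) = aeval F (X ^ n * s) (aeval F t c) := by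
  simp only [map_mul, map_pow, aeval_X, Module.End.mul_apply]

/-- The elements that are carried into `W` by a polynomial of `S` and all its multiples. -/
def Nil (S : Submonoid ℚ[X]) (F : Module.End ℚ V) (W : Submodule ℚ V) : Submodule ℚ V where
  carrier := {c | ∃ s ∈ S, ∀ n : ℕ, (F ^ n) (aeval F s c) ∈ W}
  zero_mem' := ⟨1, one_mem _, fun n => by simp⟩
  add_mem' := by
    rintro a b ⟨s, hs, ha⟩ ⟨t, ht, hb⟩
    refine ⟨s * t, mul_mem hs ht, fun n => ?_⟩
    rw [map_add, map_add]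
    refine add_mem ?_ ?_
    · rw [mul_comm, pow_aeval]
      exact aeval_mem_of_pow ha _
    · rw [pow_aeval]
      exact aeval_mem_of_pow hb _
  smul_mem' := by
    rintro r a ⟨s, hs, ha⟩
    refine ⟨s, hs, fun n => ?_⟩
    rw [map_smul, map_smul]
    exact W.smul_mem _ (ha n)

variable {S : Submonoid ℚ[X]} {F : Module.End ℚ V} {F' : Module.End ℚ V'} {W W₁ A : Submodule ℚ V}
  {W' : Submodule ℚ V'} {c : V}

namespace Nil

lemma mem_iff : c ∈ Nil S F W ↔ ∃ s ∈ S, ∀ n : ℕ, (F ^ n) (aeval F s c) ∈ W := Iff.rfl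

lemma mono (h : W ≤ W₁) : Nil S F W ≤ Nil S F W₁ := fun _ ⟨s, hs, hc⟩ => ⟨s, hs, fun n => h (hc n)⟩

lemma aeval_mem (h : c ∈ Nil S F W) (t : ℚ[X]) : aeval F t c ∈ Nil S F W := by
  obtain ⟨s, hs, hc⟩ := h
  refine ⟨s, hs, fun n => ?_⟩
  rw [← Module.End.mul_apply (aeval F s), ← map_mul, mul_comm, pow_aeval]
  exact aeval_mem_of_pow hc _

lemma apply_mem (h : c ∈ Nil S F W) : F c ∈ Nil S F W := by
  simpa using aeval_mem h X

lemma pow_mem (h : c ∈ Nil S F W) (n : ℕ) : (F ^ n) c ∈ Nil S F W := by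
  simpa using aeval_mem h (X ^ n)

/-- A factor from `S` can be cancelled. -/
lemma of_aeval {s : ℚ[X]} (hs : s ∈ S) (h : aeval F s c ∈ Nil S F W) : c ∈ Nil S F W := by
  obtain ⟨t, ht, hc⟩ := h
  exact ⟨t * s, mul_mem ht hs, fun n => by simpa only [map_mul, Module.End.mul_apply] using hc n⟩

lemma pow_stable (hA : ∀ c ∈ A, F c ∈ A) (hc : c ∈ A) (n : ℕ) : (F ^ n) c ∈ A := by
  induction n with
  | zero => exact hc
  | succ n ih => rw [pow_succ', Module.End.mul_apply]; exact hA _ ih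

lemma aeval_stable (hA : ∀ c ∈ A, F c ∈ A) (hc : c ∈ A) (s : ℚ[X]) : aeval F s c ∈ A :=
  aeval_mem_of_pow (pow_stable hA hc) s

lemma le (hW : ∀ c ∈ W, F c ∈ W) : W ≤ Nil S F W :=
  fun _ hc => ⟨1, one_mem _, fun n => by simpa using pow_stable hW hc n⟩

lemma nil_le (h : W ≤ Nil S F W₁) : Nil S F W ≤ Nil S F W₁ :=
  fun _ ⟨_, hs, hc⟩ => of_aeval hs (h (by simpa using hc 0))

/-- On a stable subspace `A`, membership may be tested inside `A`. -/
lemma of_inf (hA : ∀ c ∈ A, F c ∈ A) (hc : c ∈ A) (h : c ∈ Nil S F W)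
    (hW : ∀ c ∈ A, c ∈ W → c ∈ Nil S F W₁) : c ∈ Nil S F W₁ := by
  obtain ⟨s, hs, h⟩ := h
  exact of_aeval hs (hW _ (aeval_stable hA hc s) (by simpa using h 0))

lemma comm_pow {g : V →ₗ[ℚ] V'} (hA : ∀ c ∈ A, F c ∈ A) (hg : ∀ c ∈ A, g (F c) = F' (g c))
    (hc : c ∈ A) (n : ℕ) : g ((F ^ n) c) = (F' ^ n) (g c) := by
  induction n with
  | zero => rfl
  | succ n ih =>
    rw [pow_succ', pow_succ', Module.End.mul_apply, Module.End.mul_apply,
      hg _ (pow_stable hA hc n), ih]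

lemma comm_aeval {g : V →ₗ[ℚ] V'} (hA : ∀ c ∈ A, F c ∈ A) (hg : ∀ c ∈ A, g (F c) = F' (g c))
    (hc : c ∈ A) (s : ℚ[X]) : g (aeval F s c) = aeval F' s (g c) := by
  induction s using Polynomial.induction_on' with
  | add a b ha hb => simp only [map_add, LinearMap.add_apply, ha, hb]
  | monomial n a =>
    rw [aeval_monomial, aeval_monomial, Module.End.mul_apply, Module.End.mul_apply,
      Module.algebraMap_end_apply, Module.algebraMap_end_apply, map_smul, comm_pow hA hg hc]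

/-- Transport along a map that commutes with the endomorphisms on a stable subspace `A`. -/
lemma map {g : V →ₗ[ℚ] V'} (hA : ∀ c ∈ A, F c ∈ A) (hg : ∀ c ∈ A, g (F c) = F' (g c))
    (hW : ∀ c ∈ A, c ∈ W → g c ∈ Nil S F' W') (hc : c ∈ A) (h : c ∈ Nil S F W) :
    g c ∈ Nil S F' W' := by
  obtain ⟨s, hs, h⟩ := h
  refine of_aeval hs ?_
  rw [← comm_aeval hA hg hc]
  exact hW _ (aeval_stable hA hc s) (by simpa using h 0)

/-- The same without stability of the target. -/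
lemma map' {g : V →ₗ[ℚ] V'} (hA : ∀ c ∈ A, F c ∈ A) (hg : ∀ c ∈ A, g (F c) = F' (g c))
    (hW : ∀ c ∈ A, c ∈ W → g c ∈ W') (hc : c ∈ A) (h : c ∈ Nil S F W) : g c ∈ Nil S F' W' := by
  obtain ⟨s, hs, h⟩ := h
  refine ⟨s, hs, fun n => ?_⟩
  rw [← comm_aeval hA hg hc, ← comm_pow hA hg (aeval_stable hA hc s)]
  exact hW _ (pow_stable hA (aeval_stable hA hc s) n) (h n)

/-- Transport back along a map that commutes with the endomorphisms on a stable subspace `A`. -/
lemma comap {g : V →ₗ[ℚ] V'} (hA : ∀ c ∈ A, F c ∈ A) (hg : ∀ c ∈ A, g (F c) = F' (g c))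
    (hW : ∀ c ∈ A, g c ∈ W' → c ∈ Nil S F W) (hc : c ∈ A) (h : g c ∈ Nil S F' W') :
    c ∈ Nil S F W := by
  obtain ⟨s, hs, h⟩ := h
  refine of_aeval hs (hW _ (aeval_stable hA hc s) ?_)
  rw [comm_aeval hA hg hc]
  simpa using h 0

end Nil

end Pool.Agent.Lib.MP_60ec62_ag.DL
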