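import Pool.Agent.Lib.MP_60ec62_ag.DL.KeyEqA
import Pool.Agent.Lib.MP_60ec62_ag.DL.Defs2
import Pool.Agent.Lib.MP_60ec62_ag.DF.Nil

/-!
Push-forward along algebra maps, Frobenius in a set of marked variables, product subvarieties, and
the refined generation properties.
-/

noncomputable section

namespace Pool.Agent.Lib.MP_60ec62_ag.DL

open MvPolynomial

variable {K : Type} [Field K] {ι κ τ : Type}

section Push

variable {R S : Type} [CommRing R] [CommRing S] [Algebra K R] [Algebra K S]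

/-- The degree of the residue field extension (zero if infinite). -/
def dgA (φ : R →ₐ[K] S) (Q : PrimeSpectrum S) : ℕ :=
  letI := (KeyEq.rm (φ : R →+* S) (z := cm φ Q) (q := Q) rfl).toAlgebra
  Module.finrank (KeyEq.Rf (cm φ Q)) (KeyEq.Rf Q)

/-- Push-forward of cycles along an algebra map. -/
def pushA (φ : R →ₐ[K] S) : Cyc S →ₗ[ℚ] Cyc R :=
  Finsupp.linearCombination ℚ fun Q => Finsupp.single (cm φ Q) (dgA φ Q : ℚ)

end Push

variable (K) in
/-- Every element of `K` lies in a finite field. -/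
def Per (p : ℕ) : Prop := ∀ x : K, ∃ N, 0 < N ∧ x ^ p ^ N = x

open Classical in
/-- Frobenius in the marked variables. -/
def pf (p : ℕ) (M : Set ι) : MvPolynomial ι K →ₐ[K] MvPolynomial ι K :=
  aeval fun i => if i ∈ M then X i ^ p else X i

open Classical in
/-- Frobenius in the marked coordinates. -/
def pfx (p : ℕ) (M : Set ι) (x : ι → K) : ι → K := fun i => if i ∈ M then x i ^ p else x i

open Classical in
/-- The point with the marked coordinates of `y` and the other coordinates of `x`. -/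
def mix (M : Set ι) (x y : ι → K) : ι → K := fun i => if i ∈ M then y i else x i

lemma pfx_of_mem {p : ℕ} {M : Set ι} {i : ι} (h : i ∈ M) (x : ι → K) : pfx p M x i = x i ^ p :=
  if_pos h

lemma pfx_of_not_mem {p : ℕ} {M : Set ι} {i : ι} (h : i ∉ M) (x : ι → K) : pfx p M x i = x i :=
  if_neg h

lemma mix_of_mem {M : Set ι} {i : ι} (h : i ∈ M) (x y : ι → K) : mix M x y i = y i := if_pos h

lemma mix_of_not_mem {M : Set ι} {i : ι} (h : i ∉ M) (x y : ι → K) : mix M x y i = x i := if_neg h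

lemma mix_compl (M : Set ι) (x y : ι → K) : mix Mᶜ x y = mix M y x := by
  funext i
  by_cases h : i ∈ M
  · rw [mix_of_mem h, mix_of_not_mem (not_not.2 h)]
  · rw [mix_of_not_mem h, mix_of_mem h]

/-- Push-forward of cycles along Frobenius in the marked variables. -/
def FF (p : ℕ) (M : Set ι) : Module.End ℚ (Cy K ι) := pushA (pf p M)

/-- The marking of a product with further unmarked variables. -/
def mL (M : Set ι) (κ : Type) : Set (ι ⊕ κ) := Sum.inl '' M

@[simp] lemma inl_mem_mL {M : Set ι} {i : ι} : Sum.inl i ∈ mL M κ ↔ i ∈ M :=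
  Sum.inl_injective.mem_set_image

@[simp] lemma inr_not_mem_mL {M : Set ι} {j : κ} : Sum.inr j ∉ mL M κ := by simp [mL]

/-- The marking of the second block of variables. -/
def mR (ι τ : Type) : Set (ι ⊕ τ) := Set.range Sum.inr

@[simp] lemma inr_mem_mR {j : τ} : Sum.inr j ∈ mR ι τ := ⟨j, rfl⟩

@[simp] lemma inl_not_mem_mR {i : ι} : Sum.inl i ∉ mR ι τ := by simp [mR]

/-- The subvariety is a product with respect to the marking. -/
def Rect (M : Set ι) (P : Pr K ι) : Prop := ∀ x ∈ Vp P, ∀ y ∈ Vp P, mix M x y ∈ Vp P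

/-- The polynomial does not depend on the marked variables. -/
def Unm (M : Set ι) (t : MvPolynomial ι K) : Prop :=
  ∀ x y : ι → K, (∀ i ∉ M, x i = y i) → eval x t = eval y t

/-- The set is a product whose marked factor is stable under Frobenius. -/
structure MSet (p : ℕ) (M : Set ι) (Y : Set (ι → K)) : Prop where
  frob : ∀ x, pfx p M x ∈ Y ↔ x ∈ Y
  mix : ∀ x ∈ Y, ∀ y ∈ Y, mix M x y ∈ Y

/-- The map acts on the unmarked coordinates and renames the marked ones. -/
structure MMap (M : Set ι) (M' : Set κ) (Y : Set (ι → K)) (Φ : (ι → K) → κ → K) : Prop where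
  unm : ∀ j ∉ M', ∀ x ∈ Y, ∀ y ∈ Y, (∀ i ∉ M, x i = y i) → Φ x j = Φ y j
  mk' : ∀ j ∈ M', ∃ i ∈ M, ∀ x ∈ Y, Φ x j = x i

/-- The automorphism only acts on the unmarked coordinates. -/
structure UAu (M : Set ι) (γ : Au K ι) : Prop where
  unm : ∀ j ∉ M, ∀ x y, (∀ i ∉ M, x i = y i) → pt γ x j = pt γ y j
  fix : ∀ j ∈ M, ∀ x, pt γ x j = x j

/-- The set of automorphisms is normalised by Frobenius in the marked variables. -/
def FG (p : ℕ) (M : Set ι) (Γ : Set (Au K ι)) : Prop :=
  ∀ γ' ∈ Γ, ∃ γ ∈ Γ, ∀ x, pfx p M (pt γ x) = pt γ' (pfx p M x)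

/-- The span of the stable subvarieties. -/
def StG (Γ : Set (Au K ι)) (Y : Set (ι → K)) : Submodule ℚ (Cy K ι) :=
  Finsupp.supported ℚ ℚ {P | P ∈ hat Y ∧ Stable Γ P}

/-- The span of the stable product subvarieties. -/
def SmR (M : Set ι) (Γ : Set (Au K ι)) (Y : Set (ι → K)) : Submodule ℚ (Cy K ι) :=
  Finsupp.supported ℚ ℚ {P | P ∈ hat Y ∧ Stable Γ P ∧ Rect M P}

/-- Stable cycles are products up to rational equivalence, after applying a polynomial in the
Frobenius of the marked variables. -/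
def MGoodG (p : ℕ) (M : Set ι) (Γ : Set (Au K ι)) (Y : Set (ι → K)) : Prop :=
  ∀ P ∈ hat Y, Stable Γ P → Finsupp.single P 1 ∈ Nil (Sp p) (FF p M) (SmR M Γ Y ⊔ RatG Γ Y)

/-- The same modulo cycles invariant under a translation. -/
def MGoodT (p : ℕ) (M : Set ι) (i₀ : ι) (Y : Set (ι → K)) : Prop :=
  ∀ P ∈ hat Y, Finsupp.single P 1 ∈ Nil (Sp p) (FF p M) (SmR M ∅ Y ⊔ RatG ∅ Y ⊔ InvT i₀ Y)

/-- The product of two sets of points. -/
def prodT (Y : Set (ι → K)) (T : Set (τ → K)) : Set (ι ⊕ τ → K) :=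
  {z | z ∘ Sum.inl ∈ Y ∧ z ∘ Sum.inr ∈ T}

/-- Locally closed sets that are stable under Frobenius. -/
structure Pas (p : ℕ) (T : Set (τ → K)) : Prop where
  lc : LC T
  frob : ∀ y : τ → K, (fun j => y j ^ p) ∈ T ↔ y ∈ T

/-- The property for all products with a second factor. -/
def FGoodT (p : ℕ) (i₀ : ι) (Y : Set (ι → K)) : Prop :=
  ∀ (τ : Type) [Finite τ] (T : Set (τ → K)), Pas p T →
    MGoodT p (mR ι τ) (Sum.inl i₀) (prodT Y T)

/-- The property for all products with a second factor. -/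
def FGoodG (p : ℕ) (Y : Set (ι → K)) : Prop :=
  ∀ (τ : Type) [Finite τ] (T : Set (τ → K)), Pas p T → MGoodG p (mR ι τ) ∅ (prodT Y T)

/-- The refined generation property of the pair. -/
def FGood (p : ℕ) (Y : Set (ι → K)) (φ : (ι → K) → K) : Prop :=
  LC Y ∧ Reg Y φ ∧ FGoodT p none (AS p Y φ)

variable (K) in
/-- The statement for families of `r` vectors. -/
def FCStmt (p q r : ℕ) : Prop :=
  ∀ (I N μ : Type) [Fintype I] [Fintype N] [Fintype μ], Fintype.card I = r →
    ∀ S : I → I → Prop, Ferrers S → FGood p (Zset (K := K) (N := N) q μ S) (herm q)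

variable (K) in
/-- The statement for the dual space of families of `r` vectors. -/
def FDStmt (p q r : ℕ) : Prop :=
  ∀ (I N μ : Type) [Fintype I] [Fintype N] [Fintype μ], Fintype.card I = r →
    ∀ T : I → I → Prop, Ferrers T → FGood p (Wset (K := K) N μ T) (Wfun q)

/-- Right multiplication by invertible upper triangular matrices in the blocks of `A`. -/
def BsetS {α : Type} (n : ℕ) (A : Set α) : Set (Au K (α × (Fin n × Fin n))) :=
  {γ | ∃ β : α → Matrix (Fin n) (Fin n) K, (∀ a, (β a).BlockTriangular id ∧ (β a).det ≠ 0) ∧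
    (∀ a ∉ A, β a = 1) ∧ ∀ a l i, γ (X (a, (l, i))) = ∑ b, X (a, (l, b)) * C (β a b i)}

end Pool.Agent.Lib.MP_60ec62_ag.DL
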