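import Pool.Agent.Lib.MP_60ec62_ag.DF.Defs
import Pool.Agent.Lib.MP_60ec62_ag.DL.Hat

/-!
Degrees and push-forward along algebra maps.
-/

noncomputable section

namespace Pool.Agent.Lib.MP_60ec62_ag.DL

open MvPolynomial

variable {K : Type} [Field K] {R S T : Type} [CommRing R] [CommRing S] [CommRing T]
  [Algebra K R] [Algebra K S] [Algebra K T]

namespace Dg

open KeyEq

/-- The degree of a map of fields. -/
def fr {A B : Type} [Field A] [Field B] (f : A →+* B) : ℕ :=
  letI := f.toAlgebra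
  Module.finrank A B

lemma fr_comp {A B C : Type} [Field A] [Field B] [Field C] (f : A →+* B) (g : B →+* C) :
    fr (g.comp f) = fr f * fr g := by
  let := f.toAlgebra
  let := g.toAlgebra
  let := (g.comp f).toAlgebra
  have : IsScalarTower A B C := IsScalarTower.of_algebraMap_eq fun _ => rfl
  exact (Module.finrank_mul_finrank A B C).symm

lemma fr_eq_one {A B : Type} [Field A] [Field B] {f : A →+* B} (h : Function.Surjective f) :
    fr f = 1 := by
  let := f.toAlgebra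
  have e : A ≃ₗ[A] B := LinearEquiv.ofBijective (Algebra.linearMap A B) ⟨f.injective, h⟩
  change Module.finrank A B = 1
  rw [← e.finrank_eq, Module.finrank_self]

lemma dgA_eq (φ : R →ₐ[K] S) {z : PrimeSpectrum R} {Q : PrimeSpectrum S}
    (h : z = PrimeSpectrum.comap (φ : R →+* S) Q) : dgA φ Q = fr (rm (φ : R →+* S) h) := by
  subst h
  rfl

end Dg

open KeyEq

lemma pushA_single (φ : R →ₐ[K] S) (Q : PrimeSpectrum S) :
    pushA φ (Finsupp.single Q 1) = (dgA φ Q : ℚ) • Finsupp.single (cm φ Q) 1 := by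
  simp [pushA]

lemma cm_comp (φ : R →ₐ[K] S) (ψ : S →ₐ[K] T) (Q : PrimeSpectrum T) :
    cm (ψ.comp φ) Q = cm φ (cm ψ Q) := rfl

lemma dgA_comp (φ : R →ₐ[K] S) (ψ : S →ₐ[K] T) (Q : PrimeSpectrum T) :
    dgA (ψ.comp φ) Q = dgA φ (cm ψ Q) * dgA ψ Q := by
  rw [Dg.dgA_eq φ (z := cm φ (cm ψ Q)) rfl, Dg.dgA_eq ψ (z := cm ψ Q) rfl,
    Dg.dgA_eq (ψ.comp φ) (z := cm φ (cm ψ Q)) rfl, ← Dg.fr_comp]
  refine congrArg Dg.fr (Ideal.ResidueField.ringHom_ext (RingHom.ext fun r => ?_))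
  simp only [RingHom.comp_apply]
  rw [rm_apply, rm_apply, rm_apply]
  rfl

lemma pushA_comp (φ : R →ₐ[K] S) (ψ : S →ₐ[K] T) :
    pushA (ψ.comp φ) = pushA φ ∘ₗ pushA ψ := by
  refine Finsupp.lhom_ext' fun q => LinearMap.ext_ring ?_
  simp only [LinearMap.comp_apply, Finsupp.lsingle_apply]
  rw [pushA_single, pushA_single, map_smul, pushA_single, dgA_comp, cm_comp, smul_smul,
    Nat.cast_mul, mul_comm]

lemma dgA_eq_one {φ : R →ₐ[K] S} {Q : PrimeSpectrum S}
    (h : ∀ s : S, ∃ a b : R, φ b ∉ Q.asIdeal ∧ s * φ b - φ a ∈ Q.asIdeal) : dgA φ Q = 1 := by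
  rw [Dg.dgA_eq φ (z := cm φ Q) rfl]
  refine Dg.fr_eq_one ?_
  let f := rm (φ : R →+* S) (z := cm φ Q) (q := Q) rfl
  have key : ∀ s : S, algebraMap S (Rf Q) s ∈ f.fieldRange := fun s => by
    obtain ⟨a, b, hb, e⟩ := h s
    have h1 : algebraMap S (Rf Q) (φ b) ≠ 0 := fun h0 => hb (rf_zero.1 h0)
    have h2 := rf_zero.2 e
    rw [map_sub, map_mul, sub_eq_zero, ← eq_div_iff h1] at h2
    rw [h2]
    exact div_mem ⟨_, rm_apply _ _ a⟩ ⟨_, rm_apply _ _ b⟩
  intro l
  obtain ⟨a, b, hb, e⟩ := rf_frac Q l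
  have h1 : algebraMap S (Rf Q) b ≠ 0 := fun h0 => hb (rf_zero.1 h0)
  rw [← eq_div_iff h1] at e
  rw [e]
  exact div_mem (key a) (key b)

/-- It suffices to check the variables. -/
lemma dgA_eq_one' {κ : Type} {φ : R →ₐ[K] MvPolynomial κ K} {Q : Pr K κ}
    (h : ∀ j, ∃ a b : R, φ b ∉ Q.asIdeal ∧ X j * φ b - φ a ∈ Q.asIdeal) : dgA φ Q = 1 := by
  refine dgA_eq_one fun s => ?_
  have hp := Q.isPrime
  have mul : ∀ s t : MvPolynomial κ K,
      (∃ a b : R, φ b ∉ Q.asIdeal ∧ s * φ b - φ a ∈ Q.asIdeal) →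
      (∃ a b : R, φ b ∉ Q.asIdeal ∧ t * φ b - φ a ∈ Q.asIdeal) →
      ∃ a b : R, φ b ∉ Q.asIdeal ∧ s * t * φ b - φ a ∈ Q.asIdeal := by
    rintro s t ⟨a, b, hb, e⟩ ⟨a', b', hb', e'⟩
    refine ⟨a * a', b * b', ?_, ?_⟩
    · rw [map_mul]
      exact fun h0 => (hp.mem_or_mem h0).elim hb hb'
    · have : s * t * φ (b * b') - φ (a * a') =
          (t * φ b') * (s * φ b - φ a) + φ a * (t * φ b' - φ a') := by
        rw [map_mul, map_mul]; ring
      rw [this]
      exact add_mem (Ideal.mul_mem_left _ _ e) (Ideal.mul_mem_left _ _ e')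
  induction s using MvPolynomial.induction_on with
  | C c =>
    refine ⟨algebraMap K R c, 1, by rw [map_one]; exact hp.one_notMem, ?_⟩
    rw [map_one, mul_one, AlgHom.commutes, algebraMap_eq, sub_self]
    exact zero_mem _
  | add s t h1 h2 =>
    obtain ⟨a, b, hb, e⟩ := h1
    obtain ⟨a', b', hb', e'⟩ := h2
    refine ⟨a * b' + a' * b, b * b', ?_, ?_⟩
    · rw [map_mul]
      exact fun h0 => (hp.mem_or_mem h0).elim hb hb'
    · have : (s + t) * φ (b * b') - φ (a * b' + a' * b) =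
          φ b' * (s * φ b - φ a) + φ b * (t * φ b' - φ a') := by
        rw [map_add, map_mul, map_mul, map_mul]; ring
      rw [this]
      exact add_mem (Ideal.mul_mem_left _ _ e) (Ideal.mul_mem_left _ _ e')
  | mul_X s j h1 => exact mul _ _ h1 (h j)

lemma dgA_locSurj {φ : R →ₐ[K] S} (h : LocSurj φ) (Q : PrimeSpectrum S) : dgA φ Q = 1 := by
  refine dgA_eq_one fun s => ?_
  obtain ⟨a, b, hb, e⟩ := h s
  refine ⟨a, b, fun h0 => Q.isPrime.ne_top (Ideal.eq_top_of_isUnit_mem _ h0 hb), ?_⟩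
  rw [e, sub_self]
  exact zero_mem _

lemma pushA_id : pushA (AlgHom.id K R) = LinearMap.id := by
  refine Finsupp.lhom_ext' fun q => LinearMap.ext_ring ?_
  simp only [LinearMap.comp_apply, Finsupp.lsingle_apply, LinearMap.id_apply]
  rw [pushA_single, dgA_locSurj fun r => ⟨r, 1, by simp, by simp⟩, Nat.cast_one, one_smul]
  rfl

lemma pushA_congr {φ φ' : R →ₐ[K] S} {Q : PrimeSpectrum S} (h : ∀ r, φ r - φ' r ∈ Q.asIdeal) :
    pushA φ (Finsupp.single Q 1) = pushA φ' (Finsupp.single Q 1) := by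
  have e : cm φ Q = cm φ' Q := by
    ext r
    rw [mem_cm, mem_cm]
    exact (Ideal.Quotient.eq.2 (h r) ▸ Ideal.Quotient.eq_zero_iff_mem).symm.trans
      Ideal.Quotient.eq_zero_iff_mem
  rw [pushA_single, pushA_single, Dg.dgA_eq φ (z := cm φ Q) rfl, Dg.dgA_eq φ' (z := cm φ Q) e, ← e]
  have e2 : rm (φ : R →+* S) (z := cm φ Q) (q := Q) rfl = rm (φ' : R →+* S) e := by
    refine Ideal.ResidueField.ringHom_ext (RingHom.ext fun r => ?_)
    simp only [RingHom.comp_apply]
    rw [rm_apply, rm_apply, ← sub_eq_zero, ← map_sub]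
    exact rf_zero.2 (h r)
  rw [e2]

lemma pushA_au {ι : Type} (γ : Au K ι) :
    pushA (γ : MvPolynomial ι K →ₐ[K] MvPolynomial ι K) = Finsupp.lmapDomain ℚ ℚ (act γ) := by
  refine Finsupp.lhom_ext' fun q => LinearMap.ext_ring ?_
  simp only [LinearMap.comp_apply, Finsupp.lsingle_apply, Finsupp.lmapDomain_apply,
    Finsupp.mapDomain_single]
  rw [pushA_single, dgA_locSurj fun r => ⟨γ.symm r, 1, by simp, by simp⟩, Nat.cast_one, one_smul]
  rfl

lemma pushA_supp {φ : R →ₐ[K] S} {c : Cyc S} {P : PrimeSpectrum R} (h : pushA φ c P ≠ 0) :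
    ∃ Q, c Q ≠ 0 ∧ cm φ Q = P := by
  by_contra hn
  push Not at hn
  refine h ?_
  rw [pushA, Finsupp.linearCombination_apply, Finsupp.sum, Finsupp.finsetSum_apply]
  refine Finset.sum_eq_zero fun Q hQ => ?_
  rw [Finsupp.smul_apply, Finsupp.single_eq_of_ne (hn Q (Finsupp.mem_support_iff.1 hQ)).symm,
    smul_zero]

variable [Algebra.EssFiniteType K R] [Algebra.EssFiniteType K S]

lemma pushA_eq_push [Algebra R S] [IsScalarTower K R S] [Module.Finite R S] :
    pushA (IsScalarTower.toAlgHom K R S) = Key.push K R := by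
  refine Finsupp.lhom_ext' fun q => LinearMap.ext_ring ?_
  simp only [LinearMap.comp_apply, Finsupp.lsingle_apply]
  ext z
  rw [push_single_apply, pushA_single, Finsupp.smul_apply]
  by_cases h : z = PrimeSpectrum.comap (algebraMap R S) q
  · subst h
    rw [dg, dif_pos rfl]
    exact (congrArg _ Finsupp.single_eq_same).trans (mul_one _)
  · rw [dg_of_ne h, Finsupp.single_eq_of_ne (a := cm (IsScalarTower.toAlgHom K R S) q) h, smul_zero,
      Nat.cast_zero]

variable {φ : R →ₐ[K] S}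

lemma dgA_ne_zero (hφ : (φ : R →+* S).Finite) (Q : PrimeSpectrum S) : dgA φ Q ≠ 0 := by
  let := (φ : R →+* S).toAlgebra
  have : IsScalarTower K R S := IsScalarTower.of_algebraMap_eq fun k => (φ.commutes k).symm
  have : Module.Finite R S := hφ
  obtain ⟨r, hr, e⟩ := Key.push_point (R := R) (hD K) (hC K) Q
  intro h0
  have h1 : pushA φ = Key.push K R := pushA_eq_push
  rw [← h1, pushA_single, h0, Nat.cast_zero, zero_smul, eq_comm,
    smul_eq_zero, Finsupp.single_eq_zero] at e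
  exact e.elim hr one_ne_zero

omit [Algebra.EssFiniteType K R] [Algebra.EssFiniteType K S] in
lemma dm_cm_of_finite (hφ : (φ : R →+* S).Finite) (Q : PrimeSpectrum S) :
    dm K (cm φ Q) = dm K Q := by
  let := (φ : R →+* S).toAlgebra
  have : IsScalarTower K R S := IsScalarTower.of_algebraMap_eq fun k => (φ.commutes k).symm
  have : Module.Finite R S := hφ
  exact Key.dm_comap (R := R) (hD K) Q

/-- The projection formula. -/
lemma pushA_dv (hφ : (φ : R →+* S).Finite) (w : PrimeSpectrum S) (t : R) :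
    pushA φ (dv K w (φ t)) = (dgA φ w : ℚ) • dv K (cm φ w) t := by
  let := (φ : R →+* S).toAlgebra
  have : IsScalarTower K R S := IsScalarTower.of_algebraMap_eq fun k => (φ.commutes k).symm
  have : Module.Finite R S := hφ
  have h1 : pushA φ = Key.push K R := pushA_eq_push
  have h2 := Key.push_G_single (hD K) (hC K) t w
  rw [← Key.push_single, ← h1, pushA_single, map_smul, Key.G_single] at h2
  exact h2

lemma pushA_dv_mem (hφ : (φ : R →+* S).Finite) (w : PrimeSpectrum S) (a : S) :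
    pushA φ (dv K w a) ∈ RatOn K (cm φ w).asIdeal := by
  let := (φ : R →+* S).toAlgebra
  have : IsScalarTower K R S := IsScalarTower.of_algebraMap_eq fun k => (φ.commutes k).symm
  have : Module.Finite R S := hφ
  have h1 : pushA φ = Key.push K R := pushA_eq_push
  rw [h1]
  exact Key.push_ratOn (hD K) (hC K) (hN K) w.asIdeal (Submodule.subset_span ⟨w, _, le_rfl, rfl⟩)

/-- The push-forward of the divisor of a fraction is the divisor of its norm, and the norm of an
invariant fraction is invariant. -/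
lemma pushA_frac (hφ : (φ : R →+* S).Finite) (w : PrimeSpectrum S) {a b : S} (ha : a ∉ w.asIdeal)
    (hb : b ∉ w.asIdeal) : ∃ a' b', a' ∉ (cm φ w).asIdeal ∧ b' ∉ (cm φ w).asIdeal ∧
      pushA φ (dv K w a - dv K w b) = dv K (cm φ w) a' - dv K (cm φ w) b' ∧
      ∀ (h : R ≃ₐ[K] R) (H : S ≃ₐ[K] S), (∀ r, H (φ r) = φ (h r)) →
        (∀ s, H s ∈ w.asIdeal ↔ s ∈ w.asIdeal) → H a * b - a * H b ∈ w.asIdeal →
        h a' * b' - a' * h b' ∈ (cm φ w).asIdeal := by
  let := (φ : R →+* S).toAlgebra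
  have : IsScalarTower K R S := IsScalarTower.of_algebraMap_eq fun k => (φ.commutes k).symm
  have : Module.Finite R S := hφ
  have h1 : pushA φ = Key.push K R := pushA_eq_push
  have hz : cm φ w = PrimeSpectrum.comap (algebraMap R S) w := rfl
  have na := Nm_ne (cm φ w) ha
  have nb := Nm_ne (cm φ w) hb
  have nl := div_ne_zero na nb
  obtain ⟨a', b', hb', e⟩ := rf_frac (cm φ w) (Nm (cm φ w) w a / Nm (cm φ w) w b)
  have nb' : algebraMap R (Rf (cm φ w)) b' ≠ 0 := fun h0 => hb' (rf_zero.1 h0)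
  refine ⟨a', b', fun h0 => mul_ne_zero nl nb' (e.trans (rf_zero.2 h0)), hb', ?_, ?_⟩
  · rw [← dz_eq (K := K) nl hb' e, dz_div na nb, dz_Nm hz ha, dz_Nm hz hb, h1, map_sub]
  intro h H c1 c2 c3
  have hw : PrimeSpectrum.comap (H.toRingEquiv : S →+* S) w = w := by
    ext s
    exact c2 s
  have hzz : cm φ w = PrimeSpectrum.comap (h.toRingEquiv : R →+* R) (cm φ w) := by
    ext r
    change φ r ∈ w.asIdeal ↔ φ (h r) ∈ w.asIdeal
    rw [← c1, c2]
  have k1 : ∀ x, rm (h.toRingEquiv : R →+* R) hzz (Nm (cm φ w) w x) = Nm (cm φ w) w (H x) := by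
    intro x
    have := Nm_equiv h.toRingEquiv H.toRingEquiv c1 hzz w x
    rwa [hw] at this
  have k2 : Nm (cm φ w) w (H a * b) = Nm (cm φ w) w (a * H b) := by
    have h0 := rf_zero.2 c3
    rw [map_sub, sub_eq_zero] at h0
    rw [Nm, dif_pos hz]
    let := (rm (algebraMap R S) hz).toAlgebra
    exact congrArg (Algebra.norm (Rf (cm φ w))) h0
  rw [map_mul, map_mul, ← k1, ← k1] at k2
  have k3 := congrArg (rm (h.toRingEquiv : R →+* R) hzz) e
  rw [map_mul, map_div₀, rm_apply, rm_apply] at k3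
  have nb2 : rm (h.toRingEquiv : R →+* R) hzz (Nm (cm φ w) w b) ≠ 0 := (map_ne_zero _).2 nb
  have k4 : rm (h.toRingEquiv : R →+* R) hzz (Nm (cm φ w) w a) /
      rm (h.toRingEquiv : R →+* R) hzz (Nm (cm φ w) w b) = Nm (cm φ w) w a / Nm (cm φ w) w b :=
    (div_eq_div_iff nb2 nb).2 k2
  rw [k4] at k3
  refine rf_zero.1 ?_
  rw [map_sub, map_mul, map_mul, ← e]
  change _ = algebraMap R _ (h a') at k3
  rw [← k3]
  change _ * algebraMap R _ (h b') * _ - _ = _
  ring

end Pool.Agent.Lib.MP_60ec62_ag.DL
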