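import Pool.Agent.Lib.MP_60ec62_ag.DF.FUpLin
import Pool.Agent.Lib.MP_60ec62_ag.DL.BruhatA
import Pool.Agent.Lib.MP_60ec62_ag.DL.WBasic

/-!
One step in a chain of adjacent flags.
-/

noncomputable section

namespace Pool.Agent.Lib.MP_60ec62_ag.DL.F.Dem

open MvPolynomial

variable {K : Type} [Field K] {n : ℕ}

/-- The parabolic pattern. -/
def Pat (t : ℕ) (P : Matrix (Fin n) (Fin n) K) : Prop :=
  ∀ i j : Fin n, j < i → ¬ (i.1 = t ∧ j.1 + 1 = t) → P i j = 0

lemma rkM_succ (G : Matrix (Fin n) (Fin n) K) (i : Fin n) (l : ℕ) :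
    rkM G (i.1 + 1) l = rkM G i.1 l + if lam n (rkM G) i.1 < min l n then 1 else 0 := by
  have e : ∀ k : ℕ, k ≤ n → rkM G k l = rkM G k (min l n) := fun k hk => by
    rw [← rkM_min G k l, min_eq_left hk]
  rw [e _ i.2, e _ i.2.le, rkM_eq_card G _ _ (min_le_right _ _),
    rkM_eq_card G _ _ (min_le_right _ _)]
  split_ifs with h
  · rw [← Finset.card_insert_of_notMem (a := i) (by simp)]
    congr 1
    ext a
    simp only [Finset.mem_filter, Finset.mem_univ, true_and, Finset.mem_insert]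
    constructor
    · rintro ⟨h1, h2⟩
      by_cases h3 : a = i
      · exact Or.inl h3
      · exact Or.inr ⟨by have := Fin.val_ne_of_ne h3; omega, h2⟩
    · rintro (rfl | ⟨h1, h2⟩)
      · exact ⟨by omega, h⟩
      · exact ⟨by omega, h2⟩
  · rw [add_zero]
    congr 1
    ext a
    simp only [Finset.mem_filter, Finset.mem_univ, true_and]
    constructor
    · rintro ⟨h1, h2⟩
      refine ⟨?_, h2⟩
      by_contra h3
      have h4 : a.1 = i.1 := by omega
      rw [h4] at h2
      exact h h2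
    · rintro ⟨h1, h2⟩
      exact ⟨by omega, h2⟩

/-- A row restricted to the first columns. -/
def ro (G : Matrix (Fin n) (Fin n) K) (j : ℕ) (a : Fin n) : {b : Fin n // b.1 < j} → K :=
  fun b => G a b.1

/-- The span of the first rows restricted to the first columns. -/
def Sp (G : Matrix (Fin n) (Fin n) K) (i j : ℕ) : Submodule K ({b : Fin n // b.1 < j} → K) :=
  Submodule.span K (Set.range fun a : {a : Fin n // a.1 < i} => ro G j a.1)

lemma rkM_eq (G : Matrix (Fin n) (Fin n) K) (i j : ℕ) :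
    rkM G i j = Module.finrank K (Sp G i j) := by
  rw [rkM, Matrix.rank_eq_finrank_span_row]
  rfl

lemma ro_mem (G : Matrix (Fin n) (Fin n) K) {i : ℕ} (j : ℕ) {a : Fin n} (h : a.1 < i) :
    ro G j a ∈ Sp G i j := Submodule.subset_span ⟨⟨a, h⟩, rfl⟩

lemma Sp_le {G : Matrix (Fin n) (Fin n) K} {i j : ℕ} {W : Submodule K _}
    (h : ∀ a : Fin n, a.1 < i → ro G j a ∈ W) : Sp G i j ≤ W :=
  Submodule.span_le.2 (by rintro _ ⟨a, rfl⟩; exact h a.1 a.2)

lemma rk_succ_iff (G : Matrix (Fin n) (Fin n) K) (i : Fin n) (j : ℕ) :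
    rkM G (i.1 + 1) j = rkM G i.1 j ↔ ro G j i ∈ Sp G i.1 j := by
  have h1 : Sp G i.1 j ≤ Sp G (i.1 + 1) j := Sp_le fun a ha => ro_mem G j (by omega)
  rw [rkM_eq, rkM_eq]
  constructor
  · intro h
    rw [Submodule.eq_of_le_of_finrank_eq h1 h.symm]
    exact ro_mem G j (by omega)
  · intro h
    refine congrArg (fun W : Submodule K _ => Module.finrank K W) (le_antisymm (Sp_le ?_) h1)
    intro a ha
    by_cases h3 : a = i
    · rwa [h3]
    · exact ro_mem G j (by have := Fin.val_ne_of_ne h3; omega)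

lemma ro_mul (P G : Matrix (Fin n) (Fin n) K) (j : ℕ) (a : Fin n) :
    ro (P.transpose * G) j a = ∑ k, P k a • ro G j k := by
  funext b
  simp [ro, Matrix.mul_apply, Finset.sum_apply]

/-- The rank condition in the row that changes, in terms of two entries of `P`. -/
lemma cond_iff (G P : Matrix (Fin n) (Fin n) K) (u w : Fin n) (huw : w.1 = u.1 + 1)
    (hP : P.det ≠ 0) (h : Pat w.1 P) (j : ℕ) :
    rkM (P.transpose * G) w.1 j = rkM G u.1 j ↔
      P u u • ro G j u + P w u • ro G j w ∈ Sp G u.1 j := by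
  have e1 : rkM (P.transpose * G) u.1 j = rkM G u.1 j := rkM_adj G P w.1 hP h (by omega) j
  have e2 : Sp (P.transpose * G) u.1 j = Sp G u.1 j := by
    refine Submodule.eq_of_le_of_finrank_eq (Sp_le fun a ha => ?_)
      (by rw [← rkM_eq, ← rkM_eq, e1])
    rw [ro_mul]
    refine Submodule.sum_mem _ fun k _ => ?_
    by_cases hk : k.1 < u.1
    · exact Submodule.smul_mem _ _ (ro_mem G j hk)
    · rw [h k a (by rw [Fin.lt_def]; omega) (by omega), zero_smul]
      exact Submodule.zero_mem _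
  rw [← e1, huw, rk_succ_iff, e2, ro_mul]
  have hne : u ≠ w := fun e => by rw [e] at huw; omega
  rw [← Finset.add_sum_erase _ _ (Finset.mem_univ u),
    ← Finset.add_sum_erase _ _ (Finset.mem_erase.2 ⟨hne.symm, Finset.mem_univ w⟩), ← add_assoc]
  refine Submodule.add_mem_iff_left _ (Submodule.sum_mem _ fun k hk => ?_)
  have h1 := Fin.val_ne_of_ne (Finset.mem_erase.1 hk).1
  have h2 := Fin.val_ne_of_ne (Finset.mem_erase.1 (Finset.mem_erase.1 hk).2).1
  by_cases hk : k.1 < u.1
  · exact Submodule.smul_mem _ _ (ro_mem G j hk)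
  · rw [h k u (by rw [Fin.lt_def]; omega) (by omega), zero_smul]
    exact Submodule.zero_mem _

lemma cond_two (G P : Matrix (Fin n) (Fin n) K) (u w : Fin n) (huw : w.1 = u.1 + 1)
    (hP : P.det ≠ 0) (h : Pat w.1 P) (j : ℕ) (h1 : rkM G w.1 j = rkM G u.1 j)
    (h2 : rkM G (w.1 + 1) j ≠ rkM G w.1 j) :
    rkM (P.transpose * G) w.1 j = rkM G u.1 j ↔ P w u = 0 := by
  rw [cond_iff G P u w huw hP h j]
  rw [huw, rk_succ_iff] at h1
  rw [Submodule.add_mem_iff_right _ (Submodule.smul_mem _ _ h1)]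
  refine ⟨fun h3 => by_contra fun h4 => h2 ?_, fun h3 => by rw [h3, zero_smul]; exact zero_mem _⟩
  rw [rk_succ_iff]
  exact (Sp_le fun a ha => ro_mem G j (by omega) : Sp G u.1 j ≤ _)
    ((Submodule.smul_mem_iff _ h4).1 h3)

lemma cond_one (G P : Matrix (Fin n) (Fin n) K) (u w : Fin n) (huw : w.1 = u.1 + 1)
    (hP : P.det ≠ 0) (h : Pat w.1 P) (j : ℕ) (h1 : rkM G w.1 j ≠ rkM G u.1 j)
    (v : Fin n → K) (hv1 : v w = 1) (hv2 : ∀ a, w < a → v a = 0)
    (hv3 : ∀ b : Fin n, b.1 < j → Matrix.vecMul v G b = 0) :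
    rkM (P.transpose * G) w.1 j = rkM G u.1 j ↔ P u u = v u * P w u := by
  rw [cond_iff G P u w huw hP h j]
  rw [huw, Ne, rk_succ_iff] at h1
  have hne : u ≠ w := fun e => by rw [e] at huw; omega
  have h3 : v u • ro G j u + ro G j w ∈ Sp G u.1 j := by
    have h4 : ∑ k, v k • ro G j k = 0 := by
      funext b
      have := hv3 b.1 b.2
      simpa [ro, Matrix.vecMul, dotProduct, Finset.sum_apply] using this
    rw [← Finset.add_sum_erase _ _ (Finset.mem_univ u),
      ← Finset.add_sum_erase _ _ (Finset.mem_erase.2 ⟨hne.symm, Finset.mem_univ w⟩), ← add_assoc,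
      hv1, one_smul] at h4
    rw [eq_neg_of_add_eq_zero_left h4]
    refine Submodule.neg_mem _ (Submodule.sum_mem _ fun k hk => ?_)
    have h1 := Fin.val_ne_of_ne (Finset.mem_erase.1 hk).1
    have h2 := Fin.val_ne_of_ne (Finset.mem_erase.1 (Finset.mem_erase.1 hk).2).1
    by_cases hk : k.1 < u.1
    · exact Submodule.smul_mem _ _ (ro_mem G j hk)
    · rw [hv2 k (by rw [Fin.lt_def]; omega), zero_smul]
      exact Submodule.zero_mem _
  have e : P u u • ro G j u + P w u • ro G j w =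
      (P u u - v u * P w u) • ro G j u + P w u • (v u • ro G j u + ro G j w) := by
    rw [smul_add, sub_smul, smul_smul, mul_comm (P w u)]
    abel
  rw [e, Submodule.add_mem_iff_left _ (Submodule.smul_mem _ _ h3), ← sub_eq_zero]
  refine ⟨fun h4 => by_contra fun h5 => h1 ((Submodule.smul_mem_iff _ h5).1 h4), fun h4 => ?_⟩
  rw [h4, zero_smul]
  exact zero_mem _

/-- The middle row of ranks is determined by the two neighbours and one value. -/
lemma mid_eq (G G' : Matrix (Fin n) (Fin n) K) (u w : Fin n) (huw : w.1 = u.1 + 1)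
    (h1 : ∀ j, rkM G u.1 j = rkM G' u.1 j) (h2 : ∀ j, rkM G (w.1 + 1) j = rkM G' (w.1 + 1) j)
    (h3 : (∀ j, rkM G (w.1 + 1) j ≠ rkM G u.1 j + 1) ∨
      ∃ j, rkM G (w.1 + 1) j = rkM G u.1 j + 1 ∧ rkM G w.1 j = rkM G' w.1 j) (j : ℕ) :
    rkM G w.1 j = rkM G' w.1 j := by
  have a1 := rkM_succ G u
  have a2 := rkM_succ G w
  have b1 := rkM_succ G' u
  have b2 := rkM_succ G' w
  rw [← huw] at a1 b1
  rcases h3 with h3 | ⟨k, h3, h4⟩
  · have := a1 j
    have := a2 j
    have := b1 j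
    have := b2 j
    have := h1 j
    have := h2 j
    have := h3 j
    split_ifs at * <;> omega
  · have := a1 j
    have := a2 j
    have := b1 j
    have := b2 j
    have := h1 j
    have := h2 j
    have := a1 k
    have := a2 k
    have := b1 k
    have := b2 k
    have := h1 k
    have := h2 k
    split_ifs at * <;> omega

end Pool.Agent.Lib.MP_60ec62_ag.DL.F.Dem
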