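import Pool.Agent.Lib.MP_60ec62_ag.DF.FDemA

/-!
The strata of one step in a chain of adjacent flags.
-/

noncomputable section

namespace Pool.Agent.Lib.MP_60ec62_ag.DL.F.Dem

open MvPolynomial

variable {K : Type} [Field K] {n : ℕ} {ι : Type}

/-- The relation expressing a row by the previous rows is regular. -/
lemma reg_rel {Y : Set (ι → K)} {G : (ι → K) → Matrix (Fin n) (Fin n) K}
    (hG : ∀ a b, Reg Y fun x => G x a b) {σ : ℕ → ℕ → ℕ} (hσ : ∀ y ∈ Y, rkM (G y) = σ)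
    (w : Fin n) : ∃ v : (ι → K) → Fin n → K, (∀ a, Reg Y fun y => v y a) ∧ ∀ y ∈ Y, v y w = 1 ∧
      (∀ a, w < a → v y a = 0) ∧
      ∀ b : Fin n, b.1 < lam n σ w → Matrix.vecMul (v y) (G y) b = 0 := by
  classical
  choose v h1 h2 h3 using fun y => exists_u (G y) w
  refine ⟨v, ?_, fun y hy => ⟨h1 y, fun a ha => by_contra fun h => ?_, by rw [← hσ y hy]; exact h3 y⟩⟩
  · let M : (ι → K) → Matrix ({b : Fin n // b.1 < lam n σ w} ⊕ Fin n) (Fin n) K := fun x =>
      Matrix.of (Sum.elim (fun b a => G x a b.1) fun b a =>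
        if b < w ∧ lam n σ b < lam n σ w then 0 else if a = b then 1 else 0)
    have hM1 : ∀ x d b, (M x).mulVec d (Sum.inl b) = Matrix.vecMul d (G x) b.1 := by
      intro x d b
      simp [M, Matrix.mulVec, Matrix.vecMul, dotProduct, mul_comm]
    have hM2 : ∀ x d b, (M x).mulVec d (Sum.inr b) =
        if b < w ∧ lam n σ b < lam n σ w then 0 else d b := by
      intro x d b
      by_cases hb : b < w ∧ lam n σ b < lam n σ w
      · simp [M, Matrix.mulVec, dotProduct, hb]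
      · rw [if_neg hb]
        simp only [M, Matrix.mulVec, dotProduct, Matrix.of_apply, Sum.elim_inr, if_neg hb]
        simp
    refine RegF.linsol (M := M)
      (v := fun _ => Sum.elim (fun _ => 0) fun b => if b = w then 1 else 0) ?_ ?_ ?_ ?_
    · rintro (b | b) a
      · exact hG a b.1
      · exact RegF.ite _ (fun _ => RegF.zero) fun _ =>
          RegF.ite _ (fun _ => RegF.one) fun _ => RegF.zero
    · rintro (b | b)
      · exact RegF.zero
      · exact RegF.ite _ (fun _ => RegF.one) fun _ => RegF.zero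
    · intro y hy d d' e
      have e' : (M y).mulVec (d - d') = 0 := by rw [Matrix.mulVec_sub, e, sub_self]
      refine sub_eq_zero.1 (uniq_u (G y) w _ (fun a ha => ?_) fun b hb => ?_)
      · rw [hσ y hy]
        by_contra h
        have := congrFun e' (Sum.inr a)
        rw [hM2, if_neg h] at this
        exact ha this
      · rw [hσ y hy] at hb
        exact (hM1 y _ ⟨b, hb⟩).symm.trans (congrFun e' _)
    · intro y hy
      funext c
      rcases c with b | b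
      · rw [hM1]
        exact h3 y b.1 (by rw [hσ y hy]; exact b.2)
      · rw [hM2, Sum.elim_inr]
        by_cases hb : b = w
        · subst hb
          rw [if_neg (fun h => lt_irrefl _ h.1), if_pos rfl, h1]
        · rw [if_neg hb]
          split_ifs with h
          · rfl
          · by_contra h4
            rcases h2 y b h4 with h5 | h5
            · exact hb h5
            · rw [hσ y hy] at h5
              exact h h5
  · rcases h2 y a h with h5 | h5
    · exact ha.ne' h5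
    · exact lt_asymm ha h5.1

variable [IsAlgClosed K] {p : ℕ} [Fact p.Prime] [CharP K p] [Finite ι] {Y : Set (ι → K)}

lemma lin {κ : Type} [Fintype κ] (h : FGood p Y fun _ => 0) (T : κ → Prop)
    (N : (ι → K) → κ → κ → K) (hN : ∀ c d, Reg Y fun y => N y c d)
    (h0 : ∀ y c d, T d → N y c d = 0) :
    FGood p {z : ι ⊕ κ → K | z ∘ Sum.inl ∈ Y ∧
      ∀ c, T c → z (Sum.inr c) = ∑ d, N (z ∘ Sum.inl) c d * z (Sum.inr d)} fun _ => 0 := by
  classical
  let M : (ι → K) → Matrix {c // T c} κ K := fun y =>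
    Matrix.of fun c d => (if d = c.1 then 1 else 0) - N y c.1 d
  have hM : ∀ y z c, (M y).mulVec z c = z c.1 - ∑ d, N y c.1 d * z d := by
    intro y z c
    simp [M, Matrix.mulVec, dotProduct, sub_mul, Finset.sum_sub_distrib]
  refine (h.uplin M (fun _ => 0) (fun c d => ?_) (fun _ => RegF.zero) fun y _ v => ?_).congr ?_
    fun _ _ => rfl
  · exact (RegF.ite _ (fun _ => RegF.one) fun _ => RegF.zero).sub (hN _ _)
  · refine ⟨fun d => if hd : T d then v ⟨d, hd⟩ else 0, funext fun c => ?_⟩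
    rw [hM, dif_pos c.2, Finset.sum_eq_zero, sub_zero]
    intro d _
    by_cases hd : T d
    · rw [h0 y _ d hd, zero_mul]
    · rw [dif_neg hd, mul_zero]
  · ext z
    refine and_congr_right fun _ => ⟨fun e => funext fun c => ?_, fun e c hc => ?_⟩
    · rw [hM]
      exact sub_eq_zero.2 (e c.1 c.2)
    · have := congrFun e ⟨c, hc⟩
      rw [hM] at this
      exact sub_eq_zero.1 this

/-- The space of pairs of a point and an invertible matrix in the parabolic pattern. -/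
def Eset (n : ℕ) (Y : Set (ι → K)) (t : ℕ) : Set (ι ⊕ (Fin n × Fin n) → K) :=
  {z | z ∘ Sum.inl ∈ Y ∧ Pat t (mat (z ∘ Sum.inr)) ∧ (mat (z ∘ Sum.inr)).det ≠ 0}

omit [IsAlgClosed K] [Finite ι] in
lemma reg_det (W : Set (ι ⊕ (Fin n × Fin n) → K)) : Reg W fun z => (mat (z ∘ Sum.inr)).det :=
  RegF.det (M := fun z => mat (z ∘ Sum.inr)) fun _ _ => RegF.coord _

lemma opn_det {W : Set (ι ⊕ (Fin n × Fin n) → K)} (h : FGood p W fun _ => 0) :
    FGood p {z ∈ W | (mat (z ∘ Sum.inr)).det ≠ 0} fun _ => 0 :=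
  h.opn' (by simpa only [not_not] using (reg_det W).relCl_zero)

lemma good_E (h : FGood p Y fun _ => 0) (t : ℕ) : FGood p (Eset n Y t) fun _ => 0 := by
  refine (opn_det (lin h (fun c : Fin n × Fin n => c.2 < c.1 ∧ ¬ (c.1.1 = t ∧ c.2.1 + 1 = t))
    (fun _ _ _ => 0) (fun _ _ => RegF.zero) fun _ _ _ _ => rfl)).congr ?_ fun _ _ => rfl
  ext z
  simp only [Eset, Set.mem_ofPred_eq, zero_mul, Finset.sum_const_zero, and_assoc]
  exact and_congr_right fun _ => and_congr_left fun _ =>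
    ⟨fun e c hc => e c.1 c.2 hc.1 hc.2, fun e i j h1 h2 => e (i, j) ⟨h1, h2⟩⟩

lemma good_E' (h : FGood p Y fun _ => 0) (t : ℕ) (d₁ d₂ : Fin n × Fin n) (hd : d₁ ≠ d₂)
    (h1 : ¬ (d₁.2 < d₁.1 ∧ ¬ (d₁.1.1 = t ∧ d₁.2.1 + 1 = t)))
    (h2 : ¬ (d₂.2 < d₂.1 ∧ ¬ (d₂.1.1 = t ∧ d₂.2.1 + 1 = t))) {m : (ι → K) → K} (hm : Reg Y m) :
    FGood p {z ∈ Eset n Y t | z (Sum.inr d₁) = m (z ∘ Sum.inl) * z (Sum.inr d₂)} fun _ => 0 := by
  refine (opn_det (lin h
    (fun c : Fin n × Fin n => (c.2 < c.1 ∧ ¬ (c.1.1 = t ∧ c.2.1 + 1 = t)) ∨ c = d₁)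
    (fun y c d => if c = d₁ ∧ d = d₂ then m y else 0)
    (fun _ _ => RegF.ite _ (fun _ => hm) fun _ => RegF.zero) fun _ _ d hd' => if_neg ?_)).congr ?_
    fun _ _ => rfl
  · rintro ⟨-, rfl⟩
    exact hd'.elim h2 hd.symm
  · have e : ∀ (z : ι ⊕ (Fin n × Fin n) → K) (c : Fin n × Fin n),
        ∑ d, (if c = d₁ ∧ d = d₂ then m (z ∘ Sum.inl) else 0) * z (Sum.inr d) =
          if c = d₁ then m (z ∘ Sum.inl) * z (Sum.inr d₂) else 0 := by
      intro z c
      by_cases hc : c = d₁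
      · simp [hc]
      · simp [hc]
    ext z
    simp only [Eset, Set.mem_ofPred_eq, e]
    constructor
    · rintro ⟨⟨a1, a2, a3⟩, a4⟩
      refine ⟨⟨a1, fun c hc => ?_⟩, a3⟩
      by_cases hc' : c = d₁
      · rw [if_pos hc', hc', a4]
      · rw [if_neg hc']
        exact a2 c.1 c.2 (hc.resolve_right hc').1 (hc.resolve_right hc').2
    · rintro ⟨⟨a1, a2⟩, a3⟩
      refine ⟨⟨a1, fun i j b1 b2 => ?_, a3⟩, (a2 d₁ (Or.inr rfl)).trans (if_pos rfl)⟩
      refine (a2 (i, j) (Or.inl ⟨b1, b2⟩)).trans (if_neg ?_)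
      rintro rfl
      exact h1 ⟨b1, b2⟩

theorem step (h : FGood p Y fun _ => 0) {G : (ι → K) → Matrix (Fin n) (Fin n) K}
    (hG : ∀ a b, Reg Y fun x => G x a b) {σ : ℕ → ℕ → ℕ} (hσ : ∀ y ∈ Y, rkM (G y) = σ)
    (t : ℕ) (τ : ℕ → ℕ → ℕ) :
    FGood p {z ∈ Eset n Y t |
      ∀ i j, rkM ((mat (z ∘ Sum.inr)).transpose * G (z ∘ Sum.inl)) i j = τ i j} fun _ => 0 := by
  set H : (ι ⊕ (Fin n × Fin n) → K) → Matrix (Fin n) (Fin n) K := fun z =>
    (mat (z ∘ Sum.inr)).transpose * G (z ∘ Sum.inl) with hH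
  change FGood p {z ∈ Eset n Y t | ∀ i j, rkM (H z) i j = τ i j} fun _ => 0
  by_cases hne : ∃ z₀ ∈ Eset n Y t, ∀ i j, rkM (H z₀) i j = τ i j
  swap
  · exact (FGood.empty _).congr (Set.eq_empty_of_forall_notMem fun z hz => hne ⟨z, hz⟩)
      fun _ _ => rfl
  obtain ⟨z₀, hz₀, hτ⟩ := hne
  have hadj : ∀ z ∈ Eset n Y t, ∀ i, i ≠ t → ∀ j, rkM (H z) i j = σ i j := fun z hz i hi j => by
    rw [← hσ _ hz.1]
    exact rkM_adj _ _ t hz.2.2 hz.2.1 hi j
  have all : (∀ z ∈ Eset n Y t, ∀ j, rkM (H z) t j = rkM (H z₀) t j) →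
      FGood p {z ∈ Eset n Y t | ∀ i j, rkM (H z) i j = τ i j} fun _ => 0 := fun e => by
    refine (good_E h t).congr (Set.ext fun z => ⟨fun hz => hz.1, fun hz => ⟨hz, fun i j => ?_⟩⟩)
      fun _ _ => rfl
    rw [← hτ]
    by_cases hi : i = t
    · rw [hi, e z hz]
    · rw [hadj z hz i hi, hadj z₀ hz₀ i hi]
  by_cases ht : 0 < t ∧ t < n
  swap
  · have e : ∀ z ∈ Eset n Y t, ∀ j, rkM (H z) t j = σ t j := fun z hz j => by
      rw [← hσ _ hz.1]
      refine rkM_adj _ _ (n + t + 1) hz.2.2 (fun a b h1 _ => hz.2.1 a b h1 ?_) (by omega) j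
      have := a.2
      omega
    exact all fun z hz j => by rw [e z hz, e z₀ hz₀]
  obtain ⟨u, w, huw, rfl⟩ : ∃ u w : Fin n, w.1 = u.1 + 1 ∧ t = w.1 :=
    ⟨⟨t - 1, by omega⟩, ⟨t, ht.2⟩, by simp only; omega, rfl⟩
  have hu : ∀ z ∈ Eset n Y w.1, ∀ j, rkM (H z) u.1 j = σ u.1 j := fun z hz =>
    hadj z hz _ (by omega)
  have hw : ∀ z ∈ Eset n Y w.1, ∀ j, rkM (H z) (w.1 + 1) j = σ (w.1 + 1) j := fun z hz =>
    hadj z hz _ (by omega)
  by_cases hk : ∃ k, σ (w.1 + 1) k = σ u.1 k + 1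
  swap
  · refine all fun z hz => mid_eq _ _ u w huw (fun j => by rw [hu z hz, hu z₀ hz₀])
      (fun j => by rw [hw z hz, hw z₀ hz₀]) (Or.inl fun j e => hk ⟨j, ?_⟩)
    rwa [hu z hz, hw z hz] at e
  obtain ⟨k, hk⟩ := hk
  have two : ∀ z ∈ Eset n Y w.1, rkM (H z) w.1 k = σ u.1 k ∨ rkM (H z) w.1 k = σ u.1 k + 1 :=
    fun z hz => by
      have := rkM_succ (H z) u k
      rw [← huw, hu z hz] at this
      split_ifs at this
      · exact Or.inr this
      · exact Or.inl this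
  have key : {z ∈ Eset n Y w.1 | ∀ i j, rkM (H z) i j = τ i j} =
      {z ∈ Eset n Y w.1 | rkM (H z) w.1 k = τ w.1 k} := by
    refine Set.ext fun z => and_congr_right fun hz => ⟨fun e => e _ _, fun e i j => ?_⟩
    rw [← hτ]
    by_cases hi : i = w.1
    · rw [hi]
      exact mid_eq _ _ u w huw (fun j => by rw [hu z hz, hu z₀ hz₀])
        (fun j => by rw [hw z hz, hw z₀ hz₀])
        (Or.inr ⟨k, by rw [hu z hz, hw z hz, hk], by rw [e, hτ]⟩) j
    · rw [hadj z hz i hi, hadj z₀ hz₀ i hi]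
  rw [key, ← hτ]
  rcases two z₀ hz₀ with e₀ | e₀
  swap
  · have hr : RelCl {z ∈ Eset n Y w.1 | rkM (H z) w.1 k ≤ σ u.1 k} (Eset n Y w.1) := by
      refine relCl_rank_le (F := kk K) (fun a b => ?_) _
      refine RegF.matMul (M := fun z : ι ⊕ (Fin n × Fin n) → K => (mat (z ∘ Sum.inr)).transpose)
        (N := fun z => G (z ∘ Sum.inl)) (fun _ _ => RegF.coord _) (fun c d => ?_) a.1 b.1
      exact (hG c d).comp (Φ := fun z : ι ⊕ (Fin n × Fin n) → K => z ∘ Sum.inl)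
        (fun _ => RegF.coord _) fun _ hz => hz.1
    refine ((good_E h w.1).opn hr).congr (Set.ext fun z => ?_) fun _ _ => rfl
    rw [e₀]
    refine ⟨fun hz => ⟨hz.1, fun h1 => ?_⟩, fun hz => ⟨hz.1, ?_⟩⟩
    · have := hz.2
      have := h1.2
      omega
    · exact (two z hz.1).resolve_left fun h1 => hz.2 ⟨hz.1, h1.le⟩
  rw [e₀]
  have hne : u ≠ w := fun e => by rw [e] at huw; omega
  have a1 := rkM_succ (G (z₀ ∘ Sum.inl)) u k
  have a2 := rkM_succ (G (z₀ ∘ Sum.inl)) w k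
  rw [hσ _ hz₀.1] at a1 a2
  rw [← huw] at a1
  by_cases hc : σ w.1 k = σ u.1 k
  · refine (good_E' h w.1 (w, u) (u, u) (by simp [hne.symm]) (by simp [huw]) (by simp)
      (m := fun _ => 0) RegF.zero).congr (Set.ext fun z => and_congr_right fun hz => ?_)
      fun _ _ => rfl
    have := cond_two (G (z ∘ Sum.inl)) (mat (z ∘ Sum.inr)) u w huw hz.2.2 hz.2.1 k
      (by rw [hσ _ hz.1]; exact hc) (by rw [hσ _ hz.1]; omega)
    rw [hσ _ hz.1] at this
    rw [zero_mul]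
    exact this
  · obtain ⟨v, hv, hv'⟩ := reg_rel hG hσ w
    refine (good_E' h w.1 (u, u) (w, u) (by simp [hne]) (by simp) (by simp [huw])
      (hv u)).congr (Set.ext fun z => and_congr_right fun hz => ?_) fun _ _ => rfl
    obtain ⟨b1, b2, b3⟩ := hv' _ hz.1
    have := cond_one (G (z ∘ Sum.inl)) (mat (z ∘ Sum.inr)) u w huw hz.2.2 hz.2.1 k
      (by rw [hσ _ hz.1]; exact hc) _ b1 b2 (fun b hb => b3 b (by
        have := b.2
        split_ifs at a1 a2 <;> omega))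
    rw [hσ _ hz.1] at this
    exact this

end Pool.Agent.Lib.MP_60ec62_ag.DL.F.Dem
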