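import Pool.Agent.Lib.MP_60ec62_ag.DF.Frob
import Pool.Agent.Lib.MP_60ec62_ag.DL.Prod

/-!
Products with coordinate subspaces commute with Frobenius.
-/

noncomputable section

namespace Pool.Agent.Lib.MP_60ec62_ag.DL

open MvPolynomial

namespace FExt

variable {K : Type} [Field K] {ι ι' κ : Type}

lemma isFrac {A : Type} [CommRing A] [IsDomain A] (z : PrimeSpectrum A) (hz : z.asIdeal = ⊥) :
    IsFractionRing A (KeyEq.Rf z) := by
  obtain ⟨I, hI⟩ := z
  change I = ⊥ at hz
  subst hz
  exact inferInstanceAs (IsFractionRing A (⊥ : Ideal A).ResidueField)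

lemma dgA_gen {A B : Type} [CommRing A] [CommRing B] [IsDomain A] [IsDomain B] [Algebra K A]
    [Algebra K B] [Algebra A B] [IsScalarTower K A B] (h : Function.Injective (algebraMap A B)) :
    dgA (IsScalarTower.toAlgHom K A B) (gen B) = Module.finrank A B := by
  have h1 : IsFractionRing A (KeyEq.Rf (cm (IsScalarTower.toAlgHom K A B) (gen B))) :=
    isFrac _ ((RingHom.injective_iff_ker_eq_bot (algebraMap A B)).1 h)
  have h2 : IsFractionRing B (KeyEq.Rf (gen B)) := isFrac _ rfl
  unfold dgA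
  let := (KeyEq.rm (IsScalarTower.toAlgHom K A B : A →+* B)
    (z := cm (IsScalarTower.toAlgHom K A B) (gen B)) (q := gen B) rfl).toAlgebra
  have : IsScalarTower A (KeyEq.Rf (cm (IsScalarTower.toAlgHom K A B) (gen B)))
      (KeyEq.Rf (gen B)) := IsScalarTower.of_algebraMap_eq fun a => by
    rw [IsScalarTower.algebraMap_apply A B]
    exact (KeyEq.rm_apply (IsScalarTower.toAlgHom K A B : A →+* B) rfl a).symm
  exact IsFractionRing.finrank_eq A _ B _

attribute [local instance] MvPolynomial.algebraMvPolynomial in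
lemma dgA_map {L L' : Type} [Field L] [Field L'] [Algebra K L] [Algebra K L'] [Algebra L L']
    [IsScalarTower K L L'] (σ : Type) :
    dgA (MvPolynomial.mapAlgHom (σ := σ) (IsScalarTower.toAlgHom K L L')) (gen _) =
      Module.finrank L L' := by
  have : IsScalarTower K (MvPolynomial σ L) (MvPolynomial σ L') :=
    IsScalarTower.of_algebraMap_eq fun k =>
      ((MvPolynomial.mapAlgHom (σ := σ) (IsScalarTower.toAlgHom K L L')).commutes k).symm
  have e : (MvPolynomial.mapAlgHom (σ := σ) (IsScalarTower.toAlgHom K L L')) =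
      IsScalarTower.toAlgHom K (MvPolynomial σ L) (MvPolynomial σ L') := rfl
  rw [e, dgA_gen (map_injective _ (algebraMap L L').injective), Module.finrank, Module.finrank,
    _root_.rank_mvPolynomial_mvPolynomial, Cardinal.toNat_lift]

open Classical in
/-- The generic point of the product with a coordinate subspace. -/
def fb (κ : Type) (s : Set κ) (P : Pr K ι) :
    MvPolynomial (ι ⊕ κ) K →ₐ[K] MvPolynomial {j // j ∉ s} (KeyEq.Rf P) :=
  aeval (Sum.elim (fun i => C (algebraMap (MvPolynomial ι K) _ (X i)))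
    fun j => if h : j ∈ s then 0 else X ⟨j, h⟩)

lemma fb_rename (s : Set κ) (P : Pr K ι) (a : MvPolynomial ι K) :
    fb κ s P (rename Sum.inl a) = C (algebraMap (MvPolynomial ι K) (KeyEq.Rf P) a) := by
  have : (fb κ s P).toRingHom.comp
      (rename Sum.inl : MvPolynomial ι K →ₐ[K] MvPolynomial (ι ⊕ κ) K).toRingHom =
      C.comp (algebraMap (MvPolynomial ι K) (KeyEq.Rf P)) := by
    refine MvPolynomial.ringHom_ext (fun k => ?_) fun i => ?_
    · simp only [fb, AlgHom.toRingHom_eq_coe, RingHom.coe_comp, RingHom.coe_coe,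
        Function.comp_apply, rename_C, aeval_C]
      rw [← algebraMap_eq, ← IsScalarTower.algebraMap_apply, ← algebraMap_eq,
        ← IsScalarTower.algebraMap_apply]
    · simp [fb]
  exact RingHom.congr_fun this a

open Classical in
lemma fb_X (s : Set κ) (P : Pr K ι) (j : κ) :
    fb κ s P (X (Sum.inr j)) = if h : j ∈ s then 0 else X ⟨j, h⟩ := by
  simp [fb]

lemma cm_fb (s : Set κ) (P : Pr K ι) : cm (fb κ s P) (gen _) = extZ κ s P := by
  ext f
  let l := algebraMap (MvPolynomial ι K ⧸ P.asIdeal) P.asIdeal.ResidueField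
  have hl : Function.Injective l := Ideal.injective_algebraMap_quotient_residueField _
  have e : (rename (Subtype.val : {j // j ∉ s} → κ) : MvPolynomial _ (KeyEq.Rf P) →ₐ[KeyEq.Rf P]
      MvPolynomial κ (KeyEq.Rf P)).toRingHom.comp (fb κ s P).toRingHom =
      (MvPolynomial.map l).comp (Prod.ev κ s P) := by
    refine MvPolynomial.ringHom_ext (fun k => ?_) fun i => ?_
    · have := fb_rename s P (C k)
      rw [rename_C] at this
      simp only [AlgHom.toRingHom_eq_coe, RingHom.coe_comp, RingHom.coe_coe, Function.comp_apply,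
        this, rename_C]
      simp [Prod.ev, l]
    · rcases i with i | j
      · simp [Prod.ev, l, fb]
      · simp only [AlgHom.toRingHom_eq_coe, RingHom.coe_comp, RingHom.coe_coe,
          Function.comp_apply, fb_X, Prod.ev_X]
        split_ifs <;> simp
  rw [Prod.mem_extZ, ← map_eq_zero_iff _ (map_injective l hl), ← RingHom.comp_apply, ← e, mem_cm]
  change fb κ s P f ∈ (⊥ : Ideal _) ↔ rename Subtype.val (fb κ s P f) = 0
  rw [Ideal.mem_bot, map_eq_zero_iff _ (rename_injective _ Subtype.val_injective)]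

lemma locSurj_fb (s : Set κ) (P : Pr K ι) : LocSurj (fb κ s P) := by
  intro r
  induction r using MvPolynomial.induction_on with
  | C u =>
    obtain ⟨a, b, hb, e⟩ := KeyEq.rf_frac P u
    refine ⟨rename Sum.inl a, rename Sum.inl b, ?_, by rw [fb_rename, fb_rename, ← map_mul, e]⟩
    rw [fb_rename]
    exact (Ne.isUnit (mt KeyEq.rf_zero.1 hb)).map C
  | add p q hp hq =>
    obtain ⟨a, s, hs, e⟩ := hp
    obtain ⟨a', s', hs', e'⟩ := hq
    refine ⟨a * s' + a' * s, s * s', by rw [map_mul]; exact hs.mul hs', ?_⟩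
    rw [map_add, map_mul, map_mul, map_mul, ← e, ← e']
    ring
  | mul_X p j hp =>
    obtain ⟨a, t, ht, e⟩ := hp
    refine ⟨a * X (Sum.inr j.1), t, ht, ?_⟩
    rw [map_mul, ← e, fb_X, dif_neg j.2]
    ring

/-- Push-forward commutes with products. -/
lemma key (φ : MvPolynomial ι' K →ₐ[K] MvPolynomial ι K)
    (Φ : MvPolynomial (ι' ⊕ κ) K →ₐ[K] MvPolynomial (ι ⊕ κ) K)
    (h1 : ∀ i, Φ (X (Sum.inl i)) = rename Sum.inl (φ (X i)))
    (h2 : ∀ j, Φ (X (Sum.inr j)) = X (Sum.inr j)) (s : Set κ) (P : Pr K ι) :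
    cm Φ (extZ κ s P) = extZ κ s (cm φ P) ∧ dgA Φ (extZ κ s P) = dgA φ P := by
  let := (KeyEq.rm (φ : MvPolynomial ι' K →+* MvPolynomial ι K) (z := cm φ P) (q := P)
    rfl).toAlgebra
  have hr : ∀ a, algebraMap (KeyEq.Rf (cm φ P)) (KeyEq.Rf P)
      (algebraMap (MvPolynomial ι' K) _ a) = algebraMap (MvPolynomial ι K) _ (φ a) := fun a =>
    KeyEq.rm_apply (φ : MvPolynomial ι' K →+* MvPolynomial ι K) rfl a
  have : IsScalarTower K (KeyEq.Rf (cm φ P)) (KeyEq.Rf P) :=
    IsScalarTower.of_algebraMap_eq fun k => by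
      rw [IsScalarTower.algebraMap_apply K (MvPolynomial ι' K) (KeyEq.Rf (cm φ P)), hr,
        AlgHom.commutes, ← IsScalarTower.algebraMap_apply]
  set ρ := MvPolynomial.mapAlgHom (σ := {j // j ∉ s})
    (IsScalarTower.toAlgHom K (KeyEq.Rf (cm φ P)) (KeyEq.Rf P)) with hρ
  have e : (fb κ s P).comp Φ = ρ.comp (fb κ s (cm φ P)) := by
    refine MvPolynomial.algHom_ext fun i => ?_
    rcases i with i | j
    · rw [AlgHom.comp_apply, AlgHom.comp_apply, h1, fb_rename, ← hr, ← rename_X Sum.inl i,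
        fb_rename]
      simp [ρ]
    · rw [AlgHom.comp_apply, AlgHom.comp_apply, h2, fb_X, fb_X]
      split_ifs <;> simp [ρ]
  have hg : cm ρ (gen _) = gen _ := by
    ext f
    change ρ f ∈ (⊥ : Ideal _) ↔ f ∈ (⊥ : Ideal _)
    rw [Ideal.mem_bot, Ideal.mem_bot]
    exact map_eq_zero_iff _ (map_injective _
      (algebraMap (KeyEq.Rf (cm φ P)) (KeyEq.Rf P)).injective)
  constructor
  · rw [← cm_fb, ← cm_comp, e, cm_comp, hg, cm_fb]
  · have h3 := dgA_comp Φ (fb κ s P) (gen _)
    rw [e, dgA_comp, dgA_locSurj (locSurj_fb s _), dgA_locSurj (locSurj_fb s _), cm_fb, one_mul,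
      mul_one, hρ, dgA_map] at h3
    exact h3.symm

lemma pushA_extZ (φ : MvPolynomial ι' K →ₐ[K] MvPolynomial ι K)
    (Φ : MvPolynomial (ι' ⊕ κ) K →ₐ[K] MvPolynomial (ι ⊕ κ) K)
    (h1 : ∀ i, Φ (X (Sum.inl i)) = rename Sum.inl (φ (X i)))
    (h2 : ∀ j, Φ (X (Sum.inr j)) = X (Sum.inr j)) (s : Set κ) (c : Cy K ι) :
    Finsupp.mapDomain (extZ κ s) (pushA φ c) = pushA Φ (Finsupp.mapDomain (extZ κ s) c) := by
  induction c using Finsupp.induction_linear with
  | zero => simp
  | add a b ha hb => simp only [map_add, Finsupp.mapDomain_add, ha, hb]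
  | single P r =>
    have e : ∀ {T : Type} (Q : T), Finsupp.single Q r = r • Finsupp.single Q (1 : ℚ) := by
      intro T Q
      simp
    rw [Finsupp.mapDomain_single, e P, e (extZ κ s P), map_smul, map_smul, pushA_single,
      pushA_single, (key φ Φ h1 h2 s P).1, (key φ Φ h1 h2 s P).2, Finsupp.mapDomain_smul,
      Finsupp.mapDomain_smul, Finsupp.mapDomain_single]

end FExt

variable {K : Type} [Field K] [IsAlgClosed K] {p q : ℕ} [Fact p.Prime] [CharP K p]
  {ι κ ι' τ : Type} [Finite ι] [Finite κ] [Finite ι'] [Finite τ]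

omit [IsAlgClosed K] [Fact p.Prime] [CharP K p] [Finite ι] [Finite κ] in
theorem FF_extZ (M : Set ι) (s : Set κ) (c : Cy K ι) :
    Finsupp.mapDomain (extZ κ s) (FF p M c) = FF p (mL M κ) (Finsupp.mapDomain (extZ κ s) c) := by
  refine FExt.pushA_extZ (pf p M) (pf p (mL M κ)) (fun i => ?_) (fun j => ?_) s c
  · by_cases h : i ∈ M <;> simp [pf, h]
  · simp [pf]

end Pool.Agent.Lib.MP_60ec62_ag.DL
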