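import Pool.Agent.Lib.MP_60ec62_ag.DF.MIso
import Pool.Agent.Lib.MP_60ec62_ag.DF.Gen

/-!
Finite surjections.
-/

set_option linter.unusedVariables false

noncomputable section

namespace Pool.Agent.Lib.MP_60ec62_ag.DL

open MvPolynomial

variable {K : Type} [Field K] [IsAlgClosed K] {p q : ℕ} [Fact p.Prime] [CharP K p]
  {ι κ ι' τ : Type} [Finite ι] [Finite κ] [Finite ι'] [Finite τ]

namespace PFin

omit [IsAlgClosed K] [Finite ι] [Finite ι'] in
lemma ev (φ : MvPolynomial ι K →ₐ[K] MvPolynomial ι' K) (x : ι' → K) (f : MvPolynomial ι K) :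
    eval (fun i => eval x (φ (X i))) f = eval x (φ f) := by
  induction f using MvPolynomial.induction_on with
  | C a => rw [← algebraMap_eq, φ.commutes, algebraMap_eq, algebraMap_eq, eval_C, eval_C]
  | add p q hp hq => rw [map_add, map_add, map_add, hp, hq]
  | mul_X p i hp => rw [map_mul, map_mul, map_mul, hp, eval_X]

lemma mem_hat (φ : MvPolynomial ι K →ₐ[K] MvPolynomial ι' K) (I : Ideal (MvPolynomial ι' K))
    {Y : Set (ι → K)} (hY : LC Y) (Q : Pr K ι') :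
    Q ∈ hat {x | (∀ f ∈ I, eval x f = 0) ∧ (fun i => eval x (φ (X i))) ∈ Y} ↔
      I ≤ Q.asIdeal ∧ cm φ Q ∈ hat Y := by
  obtain ⟨I₁, J₁, e⟩ := hY
  have eZ : {x | (∀ f ∈ I, eval x f = 0) ∧ (fun i => eval x (φ (X i))) ∈ Y} =
      {x : ι' → K | (∀ f ∈ I ⊔ I₁.map φ, eval x f = 0) ∧ ∃ g ∈ J₁.map φ, eval x g ≠ 0} := by
    ext x
    have e0 : (Hat.mx x).comap φ = Hat.mx fun i => eval x (φ (X i)) := by
      ext f
      rw [Ideal.mem_comap, Hat.mem_mx, Hat.mem_mx, ev]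
    have e1 : ∀ {μ : Type} (y : μ → K) (J : Ideal (MvPolynomial μ K)),
        (∀ f ∈ J, eval y f = 0) ↔ J ≤ Hat.mx y := fun _ _ => Iff.rfl
    have e2 : ∀ {μ : Type} (y : μ → K) (J : Ideal (MvPolynomial μ K)),
        (∃ f ∈ J, eval y f ≠ 0) ↔ ¬ J ≤ Hat.mx y := fun _ _ => by
      rw [SetLike.not_le_iff_exists]
      rfl
    rw [e]
    simp only [Set.mem_ofPred_eq]
    rw [e1, e1, e1, e2, e2, sup_le_iff, Ideal.map_le_iff_le_comap, Ideal.map_le_iff_le_comap, e0,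
      and_assoc]
  rw [eZ, e, mem_hat_iff, mem_hat_iff, sup_le_iff, Ideal.map_le_iff_le_comap,
    Ideal.map_le_iff_le_comap, and_assoc]
  rfl

omit [IsAlgClosed K] [Finite ι] [Finite ι'] in
lemma int_mono {φ : MvPolynomial ι K →ₐ[K] MvPolynomial ι' K} {I J : Ideal (MvPolynomial ι' K)}
    (h : I ≤ J) {a : MvPolynomial ι' K}
    (ha : ((Ideal.Quotient.mk I).comp φ.toRingHom).IsIntegralElem (Ideal.Quotient.mk I a)) :
    ((Ideal.Quotient.mk J).comp φ.toRingHom).IsIntegralElem (Ideal.Quotient.mk J a) := by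
  obtain ⟨P, hP, e⟩ := ha
  refine ⟨P, hP, ?_⟩
  have e2 := congrArg (Ideal.Quotient.factor h) e
  rwa [Polynomial.hom_eval₂, map_zero, Ideal.Quotient.factor_mk, ← RingHom.comp_assoc,
    Ideal.Quotient.factor_comp_mk] at e2

omit [IsAlgClosed K] [Finite ι] [Finite ι'] in
lemma exists_over {φ : MvPolynomial ι K →ₐ[K] MvPolynomial ι' K} {I : Ideal (MvPolynomial ι' K)}
    (hint : ∀ j, ((Ideal.Quotient.mk I).comp φ.toRingHom).IsIntegralElem
      (Ideal.Quotient.mk I (X j))) (P : Pr K ι) (hP : ∀ f, φ f ∈ I → f ∈ P.asIdeal) :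
    ∃ Q : Pr K ι', I ≤ Q.asIdeal ∧ cm φ Q = P := by
  let : Algebra (MvPolynomial ι K) (MvPolynomial ι' K ⧸ I) :=
    ((Ideal.Quotient.mk I).comp φ.toRingHom).toAlgebra
  have hφ : ∀ r, Ideal.Quotient.mk I (φ r) =
    algebraMap (MvPolynomial ι K) (MvPolynomial ι' K ⧸ I) r := fun _ => rfl
  have : Algebra.IsIntegral (MvPolynomial ι K) (MvPolynomial ι' K ⧸ I) := ⟨fun x => by
    obtain ⟨x, rfl⟩ := Ideal.Quotient.mk_surjective x
    induction x using MvPolynomial.induction_on with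
    | C a =>
      rw [← algebraMap_eq, ← φ.commutes, hφ]
      exact isIntegral_algebraMap
    | add p q hp hq =>
      rw [map_add]
      exact hp.add hq
    | mul_X p j hp =>
      rw [map_mul]
      exact hp.mul (hint j)⟩
  have := P.isPrime
  obtain ⟨q, -, hq, e⟩ := Ideal.exists_ideal_over_prime_of_isIntegral P.asIdeal
    (⊥ : Ideal (MvPolynomial ι' K ⧸ I)) fun f hf => hP f (Ideal.Quotient.eq_zero_iff_mem.1 hf)
  refine ⟨PrimeSpectrum.comap (Ideal.Quotient.mk I) ⟨q, hq⟩, fun f hf => ?_,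
    PrimeSpectrum.ext e⟩
  change Ideal.Quotient.mk I f ∈ q
  rw [Ideal.Quotient.eq_zero_iff_mem.2 hf]
  exact zero_mem _

omit [Fact p.Prime] [CharP K p] in
theorem core {φ : MvPolynomial ι K →ₐ[K] MvPolynomial ι' K} {I : Ideal (MvPolynomial ι' K)}
    (hint : ∀ j, ((Ideal.Quotient.mk I).comp φ.toRingHom).IsIntegralElem
      (Ideal.Quotient.mk I (X j))) {Y : Set (ι → K)} (hY : LC Y)
    (hsurj : ∀ y ∈ Y, ∃ x, (∀ f ∈ I, eval x f = 0) ∧ (fun i => eval x (φ (X i))) = y)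
    {i₀ : ι} {j₀ : ι'} (hc : ∀ i, tr j₀ (φ (X i)) = φ (tr i₀ (X i))) {M : Set ι} {M' : Set ι'}
    (hpf : ∀ i, φ (pf p M (X i)) = pf p M' (φ (X i)))
    (hmix : ∀ x y : ι' → K, (fun i => eval (mix M' x y) (φ (X i))) =
      mix M (fun i => eval x (φ (X i))) fun i => eval y (φ (X i)))
    (hg : MGoodT p M' j₀ {x | (∀ f ∈ I, eval x f = 0) ∧ (fun i => eval x (φ (X i))) ∈ Y}) :
    MGoodT p M i₀ Y := by
  set Z : Set (ι' → K) := {x | (∀ f ∈ I, eval x f = 0) ∧ (fun i => eval x (φ (X i))) ∈ Y}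
  have hhat : ∀ Q, Q ∈ hat Z ↔ I ≤ Q.asIdeal ∧ cm φ Q ∈ hat Y := mem_hat φ I hY
  have hT : ∀ c : Cy K ι', (∀ Q, c Q ≠ 0 → I ≤ Q.asIdeal) →
      pushA φ (rs Z c) = rs Y (pushA φ c) := by
    intro c hc
    refine mem_of_singles (N := LinearMap.eqLocus (pushA φ ∘ₗ rs Z) (rs Y ∘ₗ pushA φ))
      fun Q hQ0 => ?_
    change pushA φ (rs Z _) = rs Y (pushA φ _)
    by_cases hQ : Q ∈ hat Z
    · rw [flt_eq_self fun P hP => (Finsupp.single_apply_ne_zero.mp hP).1 ▸ hQ, pushA_single,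
        map_smul, flt_eq_self fun P hP =>
          (Finsupp.single_apply_ne_zero.mp hP).1 ▸ ((hhat Q).1 hQ).2]
    · have h2 : cm φ Q ∉ hat Y := fun h2 => hQ ((hhat Q).2 ⟨hc Q hQ0, h2⟩)
      rw [flt_eq_zero fun P hP => (Finsupp.single_apply_ne_zero.mp hP).1 ▸ hQ, map_zero,
        pushA_single, map_smul,
        flt_eq_zero fun P hP => (Finsupp.single_apply_ne_zero.mp hP).1 ▸ h2, smul_zero]
  have h1 : SmR M' ∅ Z ≤ (SmR M ∅ Y).comap (pushA φ) := fun c hc =>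
    mem_of_singles fun Q hQ => by
      obtain ⟨h1, -, h3⟩ := SmR_supp hc hQ
      change pushA φ _ ∈ SmR M ∅ Y
      rw [pushA_single]
      exact Submodule.smul_mem _ _ (single_mem_SmR ((hhat Q).1 h1).2 (fun _ h => h.elim)
        (h3.cm hmix))
  have h2 : RatG ∅ Z ≤ (RatG ∅ Y).comap (pushA φ) := by
    refine RatG_empty_le fun w hw a _ => ?_
    obtain ⟨h1, h2⟩ := (hhat w).1 hw
    change pushA φ _ ∈ RatG ∅ Y
    rw [hT _ fun Q hQ => h1.trans (dv_supp hQ).1.le]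
    exact rs_ratOn hY h2 ((finPush φ w fun j => int_mono h1 (hint j)).2 a)
  have h3 : InvT j₀ Z ≤ (InvT i₀ Y).comap (pushA φ) := by
    rintro c ⟨hc1, hc2⟩
    have e1 : Finsupp.mapDomain (act (tr j₀)) c = c := by
      ext Q
      obtain ⟨Q, rfl⟩ := (act_bijective (tr j₀)).2 Q
      rw [Finsupp.mapDomain_apply (act_bijective _).1, hc2]
    have e0 : φ.comp (tr i₀ : Au K ι) =
        ((tr j₀ : Au K ι') : MvPolynomial ι' K →ₐ[K] MvPolynomial ι' K).comp φ :=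
      MvPolynomial.algHom_ext fun i => (hc i).symm
    have e2 : Finsupp.mapDomain (act (tr i₀)) (pushA φ c) = pushA φ c := by
      have := LinearMap.congr_fun (congrArg pushA e0) c
      rw [pushA_comp, pushA_comp, pushA_au, pushA_au] at this
      simpa only [LinearMap.comp_apply, Finsupp.lmapDomain_apply, e1] using this
    refine ⟨fun P hP => ?_, fun P => ?_⟩
    · obtain ⟨Q, hQ, rfl⟩ := pushA_supp hP
      exact ((hhat Q).1 (hc1 Q hQ)).2
    · rw [← e2, Finsupp.mapDomain_apply (act_bijective _).1, e2]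
  have h4 : SmR M' ∅ Z ⊔ RatG ∅ Z ⊔ InvT j₀ Z ≤
      (SmR M ∅ Y ⊔ RatG ∅ Y ⊔ InvT i₀ Y).comap (pushA φ) :=
    sup_le (sup_le (h1.trans (Submodule.comap_mono (le_sup_left.trans le_sup_left)))
      (h2.trans (Submodule.comap_mono (le_sup_right.trans le_sup_left))))
      (h3.trans (Submodule.comap_mono le_sup_right))
  have h5 : ∀ c : Cy K ι', pushA φ (FF p M' c) = FF p M (pushA φ c) := fun c => by
    have e0 : φ.comp (pf p M) = (pf p M').comp φ := MvPolynomial.algHom_ext hpf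
    have := LinearMap.congr_fun (congrArg pushA e0) c
    rw [pushA_comp, pushA_comp] at this
    exact this.symm
  intro P hP
  obtain ⟨Q, hQ, rfl⟩ := exists_over hint P fun f hf => hP f fun y hy _ => by
    obtain ⟨x, hx, rfl⟩ := hsurj y hy
    rw [ev]
    exact hx _ hf
  have h6 := Nil.map' (A := ⊤) (g := pushA φ) (fun _ _ => Submodule.mem_top) (fun c _ => h5 c)
    (fun c _ hc => Submodule.mem_comap.1 (h4 hc)) Submodule.mem_top (hg Q ((hhat Q).2 ⟨hQ, hP⟩))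
  rwa [pushA_single, Submodule.smul_mem_iff _ (Nat.cast_ne_zero.2
    (finPush φ Q fun j => int_mono hQ (hint j)).1)] at h6

omit [IsAlgClosed K] [Finite ι] [Finite τ] in
lemma tr_rename (i₀ : ι) (g : MvPolynomial ι K) :
    tr (Sum.inl i₀ : ι ⊕ τ) (rename Sum.inl g) = rename Sum.inl (tr i₀ g) := by
  have : ((tr (Sum.inl i₀) : Au K (ι ⊕ τ)) :
      MvPolynomial (ι ⊕ τ) K →ₐ[K] MvPolynomial (ι ⊕ τ) K).comp
      (rename Sum.inl) = (rename Sum.inl).comp
        ((tr i₀ : Au K ι) : MvPolynomial ι K →ₐ[K] MvPolynomial ι K) := by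
    refine MvPolynomial.algHom_ext fun i => ?_
    by_cases h : i = i₀ <;> simp [tr, trHom, h]
  exact DFunLike.congr_fun this g

omit [IsAlgClosed K] [Finite ι] [Finite τ] in
lemma tr_inr (i₀ : ι) (j : τ) :
    tr (Sum.inl i₀ : ι ⊕ τ) (X (Sum.inr j) : MvPolynomial (ι ⊕ τ) K) = X (Sum.inr j) := by
  simp [tr, trHom]

omit [IsAlgClosed K] [Finite ι] [Finite τ] in
lemma mem_map_iff {I : Ideal (MvPolynomial ι K)} {x : ι ⊕ τ → K} :
    (∀ f ∈ I.map (rename Sum.inl : MvPolynomial ι K →ₐ[K] MvPolynomial (ι ⊕ τ) K), eval x f = 0) ↔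
      ∀ f ∈ I, eval (x ∘ Sum.inl) f = 0 := by
  refine ⟨fun h f hf => ?_, fun h f hf => ?_⟩
  · rw [← eval_rename]; exact h _ (Ideal.mem_map_of_mem _ hf)
  · have : I.map (rename Sum.inl : MvPolynomial ι K →ₐ[K] MvPolynomial (ι ⊕ τ) K) ≤
        RingHom.ker (eval x) := Ideal.map_le_iff_le_comap.2 fun g hg => by
      rw [Ideal.mem_comap, RingHom.mem_ker, eval_rename]; exact h g hg
    exact this hf

end PFin

open PFin in
theorem FGoodT.fin (Φ : ι → MvPolynomial ι' (kk K)) (I : Ideal (MvPolynomial ι' K))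
    (hint : ∀ j, ((Ideal.Quotient.mk I).comp
      (aeval fun i => up (Φ i) : MvPolynomial ι K →ₐ[K] MvPolynomial ι' K).toRingHom).IsIntegralElem
        (Ideal.Quotient.mk I (X j)))
    {Y : Set (ι → K)} (hY : LC Y)
    (hsurj : ∀ y ∈ Y, ∃ x, (∀ f ∈ I, eval x f = 0) ∧ (fun i => aeval x (Φ i)) = y)
    {i₀ : ι} {j₀ : ι'} (hI : ∀ f ∈ I, tr j₀ f ∈ I) (hs : ∀ x, pt (tr i₀) x ∈ Y ↔ x ∈ Y)
    (hc : ∀ i, tr j₀ (up (Φ i)) =
      (aeval fun i => up (Φ i) : MvPolynomial ι K →ₐ[K] MvPolynomial ι' K) (tr i₀ (X i)))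
    (hg : FGoodT p j₀ {x | (∀ f ∈ I, eval x f = 0) ∧ (fun i => aeval x (Φ i)) ∈ Y}) :
    FGoodT p i₀ Y := by
  intro τ _ T hT
  set φ : MvPolynomial ι K →ₐ[K] MvPolynomial ι' K := aeval fun i => up (Φ i) with hφ
  obtain ⟨ψ, h0, h1⟩ : ∃ ψ : MvPolynomial (ι ⊕ τ) K →ₐ[K] MvPolynomial (ι' ⊕ τ) K,
      (∀ i, ψ (X (Sum.inl i)) = rename Sum.inl (up (Φ i))) ∧
        ∀ j, ψ (X (Sum.inr j)) = X (Sum.inr j) :=
    ⟨aeval (Sum.elim (fun i => rename Sum.inl (up (Φ i))) fun j => X (Sum.inr j)),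
      fun _ => aeval_X _ _, fun _ => aeval_X _ _⟩
  have h2 : ∀ g, ψ (rename Sum.inl g) = rename Sum.inl (φ g) := fun g => by
    have : ψ.comp (rename Sum.inl) = (rename Sum.inl).comp φ :=
      MvPolynomial.algHom_ext fun i => by
        rw [AlgHom.comp_apply, AlgHom.comp_apply, rename_X, h0, hφ, aeval_X]
    exact DFunLike.congr_fun this g
  have e0 : ∀ x : ι' ⊕ τ → K, (fun i => eval x (ψ (X i))) =
      Sum.elim (fun i => aeval (x ∘ Sum.inl) (Φ i)) (x ∘ Sum.inr) := fun x => by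
    funext i
    rcases i with i | j
    · rw [h0, eval_rename, eval_up, Sum.elim_inl]
    · rw [h1, eval_X, Sum.elim_inr, Function.comp_apply]
  refine core (φ := ψ) (I := I.map
    (rename Sum.inl : MvPolynomial ι' K →ₐ[K] MvPolynomial (ι' ⊕ τ) K)) ?_ (hY.prodT hT.lc) ?_
    (j₀ := Sum.inl j₀) ?_ (M' := mR ι' τ) ?_ ?_ ?_
  · rintro (j | j)
    · obtain ⟨P, hP, e⟩ := hint j
      refine ⟨P.map (rename Sum.inl : MvPolynomial ι K →ₐ[K] MvPolynomial (ι ⊕ τ) K).toRingHom,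
        hP.map _, ?_⟩
      have e2 := congrArg (Ideal.quotientMap (I.map
        (rename Sum.inl : MvPolynomial ι' K →ₐ[K] MvPolynomial (ι' ⊕ τ) K))
        (rename Sum.inl : MvPolynomial ι' K →ₐ[K] MvPolynomial (ι' ⊕ τ) K).toRingHom
        Ideal.le_comap_map) e
      rw [Polynomial.hom_eval₂, map_zero, Ideal.quotientMap_mk] at e2
      rw [Polynomial.eval₂_map, ← e2]
      congr 1
      · refine RingHom.ext fun a => ?_
        exact congrArg (Ideal.Quotient.mk _) (h2 a)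
      · simp
    · have := RingHom.isIntegralElem_map ((Ideal.Quotient.mk (I.map
        (rename Sum.inl : MvPolynomial ι' K →ₐ[K] MvPolynomial (ι' ⊕ τ) K))).comp ψ.toRingHom)
        (x := X (Sum.inr j))
      simpa [h1] using this
  · intro z hz
    obtain ⟨x, hx, e⟩ := hsurj _ hz.1
    refine ⟨Sum.elim x (z ∘ Sum.inr), mem_map_iff.2 hx, ?_⟩
    rw [e0, Sum.elim_comp_inl, Sum.elim_comp_inr, e, Sum.elim_comp_inl_inr]
  · rintro (i | j)
    · rw [h0, tr_rename, hc, ← rename_X Sum.inl i, tr_rename, h2]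
    · rw [h1, tr_inr, tr_inr, h1]
  · rintro (i | j)
    · rw [h0, (unm_rename_inl _).pf_eq, (unm_X inl_not_mem_mR).pf_eq, h0]
    · rw [h1, pf, pf, aeval_X, aeval_X, if_pos inr_mem_mR, if_pos inr_mem_mR, map_pow, h1]
  · intro x y
    funext i
    rcases i with i | j
    · rw [mix_of_not_mem inl_not_mem_mR, h0, (unm_rename_inl _).eval_mix]
    · rw [mix_of_mem inr_mem_mR, h1, eval_X, eval_X, mix_of_mem inr_mem_mR]
  · have e : {x : ι' ⊕ τ → K | (∀ f ∈ I.map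
        (rename Sum.inl : MvPolynomial ι' K →ₐ[K] MvPolynomial (ι' ⊕ τ) K), eval x f = 0) ∧
        (fun i => eval x (ψ (X i))) ∈ prodT Y T} =
        prodT {x | (∀ f ∈ I, eval x f = 0) ∧ (fun i => aeval x (Φ i)) ∈ Y} T := by
      ext x
      simp only [prodT, Set.mem_ofPred_eq, mem_map_iff, e0, Sum.elim_comp_inl, Sum.elim_comp_inr,
        and_assoc]
    rw [e]
    exact hg τ T hT

end Pool.Agent.Lib.MP_60ec62_ag.DL
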