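import Pool.Agent.Lib.MP_60ec62_ag.DF.PUp
import Pool.Agent.Lib.MP_60ec62_ag.DF.PFin
import Pool.Agent.Lib.MP_60ec62_ag.DL.Defs2

/-!
Transfer of the generation property of pairs.
-/

noncomputable section

namespace Pool.Agent.Lib.MP_60ec62_ag.DL.F

open MvPolynomial

variable {K : Type} [Field K] [IsAlgClosed K] {p q : ℕ} [Fact p.Prime] [CharP K p]
  {ι κ ι' : Type} [Finite ι] [Finite κ] [Finite ι']

variable {Y : Set (ι → K)} {φ : (ι → K) → K}

namespace GoodOps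

omit [IsAlgClosed K] [Fact p.Prime] [CharP K p] [Finite ι] [Finite κ] [Finite ι'] in
/-- A map of the bases, lifted to the covers. -/
def lf (Φ : (ι → K) → κ → K) (z : Option ι → K) : Option κ → K :=
  fun o => o.elim (z none) (Φ (z ∘ some))

section
omit [IsAlgClosed K] [Fact p.Prime] [CharP K p] [Finite ι] [Finite κ] [Finite ι']

omit [Field K] in
lemma lf_none (Φ : (ι → K) → κ → K) (z : Option ι → K) : lf Φ z none = z none := rfl

omit [Field K] in
lemma lf_some (Φ : (ι → K) → κ → K) (z : Option ι → K) : lf Φ z ∘ some = Φ (z ∘ some) := rfl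

omit [Field K] in
lemma ext_opt {z z' : Option ι → K} (h : z none = z' none) (h' : z ∘ some = z' ∘ some) : z = z' := by
  funext o
  cases o with
  | none => exact h
  | some i => exact congrFun h' i

lemma tr_some (x : Option ι → K) : pt (tr none) x ∘ some = x ∘ some :=
  funext fun i => pt_tr_ne (Option.some_ne_none i) x

lemma lf_tr (Φ : (ι → K) → κ → K) (z : Option ι → K) :
    lf Φ (pt (tr none) z) = pt (tr none) (lf Φ z) :=
  ext_opt (by rw [lf_none, pt_tr_self, pt_tr_self, lf_none])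
    (by rw [lf_some, tr_some, tr_some, lf_some])

lemma reg_some {F : Subfield K} {W : Set (Option ι → K)} {χ : (ι → K) → K} (h : RegF F Y χ)
    (hW : ∀ z ∈ W, z ∘ some ∈ Y) : RegF F W fun z => χ (z ∘ some) :=
  h.comp (Φ := fun z => z ∘ some) (fun j => RegF.coord (some j)) hW

lemma reg_lf {W : Set (Option ι → K)} {Φ : (ι → K) → κ → K} (h : RegMap Y Φ)
    (hW : ∀ z ∈ W, z ∘ some ∈ Y) : RegMap W (lf Φ) := by
  intro o
  cases o with
  | none => exact RegF.coord none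
  | some j => exact reg_some (h j) hW

lemma relCl_AS {Z : Set (ι → K)} (hZ : RelCl Z Y) : RelCl (AS p Z φ) (AS p Y φ) := by
  have h1 := hZ.preimage (Y := AS p Y φ) (Φ := fun z => z ∘ some) (fun j => RegF.coord (some j))
    fun _ hz => hz.1
  convert h1 using 1
  ext z
  exact ⟨fun hz => ⟨⟨hZ.1 hz.1, hz.2⟩, hz.1⟩, fun hz => ⟨hz.2, hz.1.2⟩⟩

lemma AS_diff (Z : Set (ι → K)) : AS p (Y \ Z) φ = AS p Y φ \ AS p Z φ := by
  ext z
  exact ⟨fun hz => ⟨⟨hz.1.1, hz.2⟩, fun h => hz.1.2 h.1⟩,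
    fun hz => ⟨⟨hz.1.1, fun h => hz.2 ⟨h, hz.1.2⟩⟩, hz.1.2⟩⟩

lemma eval_some (z : Option ι → K) (f : MvPolynomial ι K) :
    eval z (rename some f) = eval (z ∘ some) f := eval_rename _ _ _

lemma lc_level (hY : LC Y) {r : (ι → K) → ℕ} (hr : ∀ n, RelCl {x ∈ Y | r x ≤ n} Y) (n : ℕ) :
    LC {x ∈ Y | r x = n} := by
  cases n with
  | zero =>
    have := (hr 0).lc hY
    simpa only [Nat.le_zero] using this
  | succ n =>
    have h1 : RelCl {x ∈ Y | r x ≤ n} {x ∈ Y | r x ≤ n + 1} :=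
      (hr n).of_subset (fun x hx => ⟨hx.1, hx.2.trans n.le_succ⟩) fun _ hx => hx.1
    convert h1.lc_diff ((hr (n + 1)).lc hY) using 1
    ext x
    constructor
    · rintro ⟨hx, e⟩
      exact ⟨⟨hx, e.le⟩, fun h => by have := h.2; omega⟩
    · rintro ⟨⟨hx, e⟩, h⟩
      refine ⟨hx, ?_⟩
      by_contra h'
      exact h ⟨hx, by omega⟩

end

end GoodOps

open GoodOps

set_option linter.unusedSectionVars false

theorem _root_.Pool.Agent.Lib.MP_60ec62_ag.DL.FGood.empty (φ : (ι → K) → K) : FGood p (∅ : Set (ι → K)) φ := by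
  refine ⟨LC.empty, fun _ hy => absurd hy (Set.notMem_empty _), fun τ _ T _ P hP => ?_⟩
  obtain ⟨x, hx, -⟩ := hat_nonempty hP
  exact absurd hx.1.1 (Set.notMem_empty _)

theorem _root_.Pool.Agent.Lib.MP_60ec62_ag.DL.FGood.congr {Y' : Set (ι → K)} {ψ : (ι → K) → K} (h : FGood p Y φ) (e : Y' = Y)
    (e' : ∀ x ∈ Y, ψ x = φ x) : FGood p Y' ψ := by
  subst e
  refine ⟨h.1, h.2.1.congr e', ?_⟩
  have e1 : AS p Y' ψ = AS p Y' φ := by
    ext z
    exact ⟨fun hz => ⟨hz.1, hz.2.trans (e' _ hz.1)⟩, fun hz => ⟨hz.1, hz.2.trans (e' _ hz.1).symm⟩⟩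
  rw [e1]
  exact h.2.2

theorem _root_.Pool.Agent.Lib.MP_60ec62_ag.DL.FGood.opn {Z : Set (ι → K)} (h : FGood p Y φ) (hZ : RelCl Z Y) : FGood p (Y \ Z) φ := by
  refine ⟨hZ.lc_diff h.1, h.2.1.mono fun _ hx => hx.1, ?_⟩
  rw [AS_diff]
  exact FGoodT.opn (h.1.AS h.2.1 p) (relCl_AS hZ) (stSet_AS p Y φ) (stSet_AS p Z φ) h.2.2

/-- An open subset given by a predicate whose negation is closed. -/
theorem _root_.Pool.Agent.Lib.MP_60ec62_ag.DL.FGood.opn' {c : (ι → K) → Prop} (h : FGood p Y φ) (hZ : RelCl {x ∈ Y | ¬ c x} Y) :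
    FGood p {x ∈ Y | c x} φ :=
  (h.opn hZ).congr (Set.ext fun _ => ⟨fun hx => ⟨hx.1, fun h1 => h1.2 hx.2⟩,
    fun hx => ⟨hx.1, by_contra fun h1 => hx.2 ⟨hx.1, h1⟩⟩⟩) fun _ _ => rfl

theorem _root_.Pool.Agent.Lib.MP_60ec62_ag.DL.FGood.strat {Z : Set (ι → K)} (hY : LC Y) (hφ : Reg Y φ) (hZ : RelCl Z Y) (h : FGood p Z φ)
    (h' : FGood p (Y \ Z) φ) : FGood p Y φ := by
  refine ⟨hY, hφ, FGoodT.strat (hY.AS hφ p) (relCl_AS hZ) h.2.2 ?_⟩
  rw [← AS_diff]
  exact h'.2.2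

theorem _root_.Pool.Agent.Lib.MP_60ec62_ag.DL.FGood.strat' {c : (ι → K) → Prop} (hY : LC Y) (hφ : Reg Y φ) (hZ : RelCl {x ∈ Y | c x} Y)
    (h : FGood p {x ∈ Y | c x} φ) (h' : FGood p {x ∈ Y | ¬ c x} φ) : FGood p Y φ :=
  FGood.strat hY hφ hZ h (h'.congr (Set.ext fun _ => ⟨fun hx => ⟨hx.1, fun h1 => hx.2 ⟨hx.1, h1⟩⟩,
    fun hx => ⟨hx.1, fun h1 => hx.2 h1.2⟩⟩) fun _ _ => rfl)

theorem GoodOps.stratOne (hY : LC Y) (hφ : Reg Y φ) (r : (ι → K) → ℕ) (B : ℕ) (hB : ∀ x, r x ≤ B)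
    (hr : ∀ n, RelCl {x ∈ Y | r x ≤ n} Y) (h : ∀ n, FGood p {x ∈ Y | r x = n} φ) : FGood p Y φ := by
  have key : ∀ n, FGood p {x ∈ Y | r x ≤ n} φ := by
    intro n
    induction n with
    | zero => exact (h 0).congr (Set.ext fun x => by simp) fun _ _ => rfl
    | succ n ih =>
      refine FGood.strat ((hr (n + 1)).lc hY) (hφ.mono fun _ hx => hx.1)
        ((hr n).of_subset (fun x hx => ⟨hx.1, hx.2.trans n.le_succ⟩) fun _ hx => hx.1) ih
        ((h (n + 1)).congr (Set.ext fun x => ?_) fun _ _ => rfl)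
      constructor
      · rintro ⟨⟨hx, e⟩, h1⟩
        refine ⟨hx, ?_⟩
        by_contra h'
        exact h1 ⟨hx, by omega⟩
      · rintro ⟨hx, e⟩
        exact ⟨⟨hx, e.le⟩, fun h1 => by have := h1.2; omega⟩
  exact (key B).congr (Set.ext fun x => ⟨fun hx => ⟨hx, hB x⟩, fun hx => hx.1⟩) fun _ _ => rfl

theorem _root_.Pool.Agent.Lib.MP_60ec62_ag.DL.FGood.stratFun {α : Type} [Finite α] (hY : LC Y) (hφ : Reg Y φ) (r : α → (ι → K) → ℕ)
    (B : ℕ) (hB : ∀ a x, r a x ≤ B) (hr : ∀ a n, RelCl {x ∈ Y | r a x ≤ n} Y)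
    (h : ∀ ρ : α → ℕ, FGood p {x ∈ Y | ∀ a, r a x = ρ a} φ) : FGood p Y φ := by
  classical
  have := Fintype.ofFinite α
  have key : ∀ s : Finset α, ∀ Y : Set (ι → K), LC Y → Reg Y φ →
      (∀ a n, RelCl {x ∈ Y | r a x ≤ n} Y) →
      (∀ ρ : α → ℕ, FGood p {x ∈ Y | ∀ a ∈ s, r a x = ρ a} φ) → FGood p Y φ := by
    intro s
    induction s using Finset.induction_on with
    | empty =>
      intro Y _ _ _ h
      exact (h fun _ => 0).congr (Set.ext fun x => by simp) fun _ _ => rfl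
    | insert a s ha ih =>
      intro Y hY hφ hr h
      refine GoodOps.stratOne hY hφ (r a) B (hB a) (hr a) fun n => ?_
      refine ih _ (lc_level hY (hr a) n) (hφ.mono fun _ hx => hx.1) (fun b m => ?_) fun ρ => ?_
      · refine ⟨fun _ hx => hx.1, fun y hy hy' => ?_⟩
        obtain ⟨f, hf, hf'⟩ := (hr b m).2 y hy.1 fun h1 => hy' ⟨hy, h1.2⟩
        exact ⟨f, fun z hz => hf z ⟨hz.1.1, hz.2⟩, hf'⟩
      · refine (h (Function.update ρ a n)).congr (Set.ext fun x => ?_) fun _ _ => rfl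
        have e : ∀ b ∈ s, Function.update ρ a n b = ρ b := fun b hb =>
          Function.update_of_ne (fun h1 : b = a => ha (h1 ▸ hb)) _ _
        constructor
        · rintro ⟨⟨hx, h1⟩, h2⟩
          refine ⟨hx, fun b hb => ?_⟩
          rcases Finset.mem_insert.1 hb with rfl | hb
          · rw [Function.update_self]
            exact h1
          · rw [e b hb]
            exact h2 b hb
        · rintro ⟨hx, h1⟩
          refine ⟨⟨hx, ?_⟩, fun b hb => ?_⟩
          · rw [h1 a (Finset.mem_insert_self _ _), Function.update_self]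
          · rw [h1 b (Finset.mem_insert_of_mem hb), e b hb]
  exact key Finset.univ Y hY hφ hr fun ρ => (h ρ).congr (Set.ext fun x => by simp) fun _ _ => rfl

theorem _root_.Pool.Agent.Lib.MP_60ec62_ag.DL.FGood.stratSupp {α : Type} [Fintype α] (hY : LC Y) (hφ : Reg Y φ) (c : α → (ι → K) → K)
    (hc : ∀ a, Reg Y (c a)) (h : ∀ s : Finset α, FGood p {x ∈ Y | ∀ a, c a x ≠ 0 ↔ a ∈ s} φ) :
    FGood p Y φ := by
  classical
  refine FGood.stratFun hY hφ (fun a x => if c a x = 0 then 0 else 1) 1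
    (fun a x => by split_ifs <;> omega) (fun a n => ?_) fun ρ => ?_
  · cases n with
    | zero =>
      convert (hc a).relCl_zero using 1
      ext x
      by_cases h0 : c a x = 0 <;> simp [h0]
    | succ n =>
      convert RelCl.refl Y using 1
      ext x
      by_cases h0 : c a x = 0 <;> simp [h0]
  · by_cases hρ : ∀ a, ρ a ≤ 1
    · refine (h (Finset.univ.filter fun a => ρ a = 1)).congr (Set.ext fun x => ?_) fun _ _ => rfl
      refine and_congr_right fun _ => forall_congr' fun a => ?_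
      have := hρ a
      by_cases h0 : c a x = 0
      · simp only [h0, if_true, ne_eq, not_true, false_iff, Finset.mem_filter, Finset.mem_univ,
          true_and]
        omega
      · simp only [h0, if_false, ne_eq, not_false_iff, true_iff, Finset.mem_filter, Finset.mem_univ,
          true_and]
        omega
    · refine (FGood.empty φ).congr (Set.eq_empty_of_forall_notMem fun x hx => hρ fun a => ?_)
        fun _ _ => rfl
      rw [← hx.2 a]
      split_ifs <;> omega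

/-- A set that is a finite disjoint union of closed pieces, given by the values of a regular
function that takes finitely many values. -/
theorem _root_.Pool.Agent.Lib.MP_60ec62_ag.DL.FGood.stratVal (hY : LC Y) (hφ : Reg Y φ) {F : Subfield K} {c : (ι → K) → K}
    (hc : RegF F Y c) (s : Finset K) (hs : ∀ x ∈ Y, c x ∈ s)
    (h : ∀ a ∈ s, FGood p {x ∈ Y | c x = a} φ) : FGood p Y φ := by
  classical
  induction s using Finset.induction_on generalizing Y with
  | empty =>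
    exact (FGood.empty φ).congr
      (Set.eq_empty_of_forall_notMem fun x hx => Finset.notMem_empty _ (hs x hx)) fun _ _ => rfl
  | insert a s ha ih =>
    have h1 : RelCl {x ∈ Y | c x = a} Y := by
      have := ((hc.mono_field le_top).sub (RegF.const (Subfield.mem_top a))).relCl_zero
      simpa only [sub_eq_zero] using this
    have e : {x ∈ Y | ¬ c x = a} = Y \ {x ∈ Y | c x = a} :=
      Set.ext fun _ => ⟨fun hx => ⟨hx.1, fun h2 => hx.2 h2.2⟩,
        fun hx => ⟨hx.1, fun h2 => hx.2 ⟨hx.1, h2⟩⟩⟩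
    refine FGood.strat' hY hφ h1 (h a (Finset.mem_insert_self _ _))
      (ih (e ▸ h1.lc_diff hY) (hφ.mono fun _ hx => hx.1) (hc.mono fun _ hx => hx.1)
        (fun x hx => (Finset.mem_insert.1 (hs x hx.1)).resolve_left hx.2) fun b hb => ?_)
    refine (h b (Finset.mem_insert_of_mem hb)).congr (Set.ext fun x => ?_) fun _ _ => rfl
    exact ⟨fun hx => ⟨hx.1.1, hx.2⟩,
      fun hx => ⟨⟨hx.1, fun h2 => ha ((hx.2.symm.trans h2) ▸ hb)⟩, hx.2⟩⟩

theorem _root_.Pool.Agent.Lib.MP_60ec62_ag.DL.FGood.iso {Y' : Set (κ → K)} {φ' : (κ → K) → K} {Φ : (ι → K) → κ → K}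
    {Ψ : (κ → K) → ι → K} (h : FGood p Y' φ') (hY : LC Y) (hi : RegIso Y Y' Φ Ψ)
    (e : ∀ x ∈ Y, φ x = φ' (Φ x)) : FGood p Y φ := by
  have hφ : Reg Y φ := (h.2.1.comp hi.reg hi.maps).congr e
  have hi' : RegIso (AS p Y' φ') (AS p Y φ) (lf Ψ) (lf Φ) := by
    refine ⟨reg_lf hi.reg' fun _ hz => hz.1, reg_lf hi.reg fun _ hz => hz.1,
      fun z hz => ⟨hi.maps' hz.1, ?_⟩, fun z hz => ⟨hi.maps hz.1, ?_⟩,
      fun z hz => ext_opt rfl (hi.right _ hz.1), fun z hz => ext_opt rfl (hi.left _ hz.1)⟩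
    · rw [lf_none, lf_some, e _ (hi.maps' hz.1), hi.right _ hz.1]
      exact hz.2
    · rw [lf_none, lf_some, ← e _ hz.1]
      exact hz.2
  exact ⟨hY, hφ, FGoodT.iso (h.1.AS h.2.1 p) (hY.AS hφ p) hi' (stSet_AS p _ _) (stSet_AS p _ _)
    (fun x _ => lf_tr Ψ x) h.2.2⟩

theorem _root_.Pool.Agent.Lib.MP_60ec62_ag.DL.FGood.up {E : Set (ι' → K)} {ψ : (ι' → K) → K} {π : (ι' → K) → ι → K} (h : FGood p Y φ)
    (hE : LC E) (hπ : RegMap E π) (hm : Set.MapsTo π E Y) (ht : LocTriv E Y π κ)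
    (e : ∀ x ∈ E, ψ x = φ (π x)) : FGood p E ψ := by
  have hψ : Reg E ψ := (h.2.1.comp hπ hm).congr e
  refine ⟨hE, hψ, FGoodT.up (κ := κ) (π := lf π) (hE.AS hψ p) (h.1.AS h.2.1 p)
    (reg_lf hπ fun _ hz => hz.1) (fun z hz => ⟨hm hz.1, ?_⟩) (fun y hy => ?_) (stSet_AS p _ _)
    (stSet_AS p _ _) (fun x _ => lf_tr π x) h.2.2⟩
  · rw [lf_none, lf_some, ← e _ hz.1]
    exact hz.2
  obtain ⟨f, Θ, Ψ, hf, hi⟩ := ht _ hy.1
  let σ : (Option ι ⊕ κ → K) → ι ⊕ κ → K := fun w => w ∘ Sum.map some id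
  have hσ : ∀ w ∈ DL.prodA {y ∈ AS p Y φ | eval y (rename some f) ≠ 0} κ,
      σ w ∈ DL.prodA {y ∈ Y | eval y f ≠ 0} κ := fun w hw =>
    ⟨hw.1.1, fun h0 => hw.2 ((eval_some _ f).trans h0)⟩
  have hτ : ∀ z ∈ {x ∈ AS p E ψ | eval (lf π x) (rename some f) ≠ 0},
      z ∘ some ∈ {x ∈ E | eval (π x) f ≠ 0} := fun z hz =>
    ⟨hz.1.1, fun h0 => hz.2 ((eval_some _ f).trans h0)⟩
  have e1 : ∀ z : Option ι' → K, σ (Sum.elim (lf π z) (Θ (z ∘ some))) =
      Sum.elim (π (z ∘ some)) (Θ (z ∘ some)) := fun z => by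
    funext j
    rcases j with i | j <;> rfl
  have e2 : ∀ w ∈ DL.prodA {y ∈ AS p Y φ | eval y (rename some f) ≠ 0} κ,
      π (Ψ (σ w)) = (w ∘ Sum.inl) ∘ some := fun w hw =>
    funext fun i => congrFun (hi.right _ (hσ w hw)) (Sum.inl i)
  refine ⟨rename some f, fun z => Θ (z ∘ some),
    fun w o => o.elim (w (Sum.inl none)) (Ψ (σ w)), by rwa [eval_some], fun j => ?_, fun o => ?_,
    fun z hz => ⟨⟨hm hz.1.1, ?_⟩, hz.2⟩, fun w hw => ⟨⟨(hi.maps' (hσ w hw)).1, ?_⟩, ?_⟩,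
    fun z hz => ext_opt rfl ?_, fun w hw => ?_⟩
  · rcases j with o | j
    · exact reg_lf hπ (fun _ hz => hz.1.1) o
    · exact reg_some (hi.reg (Sum.inr j)) hτ
  · cases o with
    | none => exact RegF.coord (Sum.inl none)
    | some i => exact (hi.reg' i).comp (Φ := σ) (fun j => RegF.coord (Sum.map some id j)) hσ
  · exact hz.1.2.trans (e _ hz.1.1)
  · refine hw.1.2.trans ?_
    change φ ((w ∘ Sum.inl) ∘ some) = ψ (Ψ (σ w))
    rw [e _ (hi.maps' (hσ w hw)).1, e2 w hw]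
  · rw [eval_some]
    exact (hi.maps' (hσ w hw)).2
  · change Ψ (σ (Sum.elim (lf π z) (Θ (z ∘ some)))) = z ∘ some
    rw [e1]
    exact hi.left _ (hτ z hz)
  · funext j
    rcases j with (_ | i) | j
    · rfl
    · exact congrFun (hi.right _ (hσ w hw)) (Sum.inl i)
    · exact congrFun (hi.right _ (hσ w hw)) (Sum.inr j)

theorem _root_.Pool.Agent.Lib.MP_60ec62_ag.DL.FGood.prodA (h : FGood p Y φ) (κ : Type) [Finite κ] :
    FGood p (prodA Y κ) fun x => φ (x ∘ Sum.inl) :=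
  h.up (π := fun x => x ∘ Sum.inl) (h.1.prodA κ) (fun i => RegF.coord (Sum.inl i))
    (fun _ hx => hx) (locTriv_prodA Y κ) fun _ _ => rfl

theorem _root_.Pool.Agent.Lib.MP_60ec62_ag.DL.FGood.shift {ψ : (ι → K) → K} (h : FGood p Y φ) (hψ : Reg Y ψ) :
    FGood p Y fun x => φ x + (ψ x ^ p - ψ x) := by
  have hφ : Reg Y fun x => φ x + (ψ x ^ p - ψ x) := h.2.1.add ((hψ.pow p).sub hψ)
  have hi : RegIso (AS p Y φ) (AS p Y fun x => φ x + (ψ x ^ p - ψ x))
      (fun z o => o.elim (z none + ψ (z ∘ some)) (z ∘ some))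
      (fun z o => o.elim (z none - ψ (z ∘ some)) (z ∘ some)) := by
    refine ⟨fun o => ?_, fun o => ?_, fun z hz => ⟨hz.1, ?_⟩, fun z hz => ⟨hz.1, ?_⟩,
      fun z _ => ext_opt (add_sub_cancel_right _ _) rfl,
      fun z _ => ext_opt (sub_add_cancel _ _) rfl⟩
    · cases o with
      | none => exact (RegF.coord none).add (reg_some hψ fun _ hz => hz.1)
      | some i => exact RegF.coord (some i)
    · cases o with
      | none => exact (RegF.coord none).sub (reg_some hψ fun _ hz => hz.1)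
      | some i => exact RegF.coord (some i)
    · change (z none + ψ (z ∘ some)) ^ p - (z none + ψ (z ∘ some)) =
        φ (z ∘ some) + (ψ (z ∘ some) ^ p - ψ (z ∘ some))
      rw [add_pow_char, ← hz.2]
      ring
    · change (z none - ψ (z ∘ some)) ^ p - (z none - ψ (z ∘ some)) = φ (z ∘ some)
      have h1 : z none ^ p - z none = φ (z ∘ some) + (ψ (z ∘ some) ^ p - ψ (z ∘ some)) := hz.2
      rw [sub_pow_char]
      linear_combination h1
  refine ⟨h.1, hφ, FGoodT.iso (h.1.AS h.2.1 p) (h.1.AS hφ p) hi (stSet_AS p _ _) (stSet_AS p _ _)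
    (fun x _ => ext_opt ?_ ?_) h.2.2⟩
  · refine Eq.trans ?_ (pt_tr_self none _).symm
    change pt (tr none) x none + ψ (pt (tr none) x ∘ some) = x none + ψ (x ∘ some) + 1
    rw [pt_tr_self, tr_some]
    ring
  · exact (tr_some x).trans (tr_some fun o => o.elim (x none + ψ (x ∘ some)) (x ∘ some)).symm

theorem _root_.Pool.Agent.Lib.MP_60ec62_ag.DL.FGood.shiftq {ψ : (ι → K) → K} (hp : IsPP p q) (h : FGood p Y φ) (hψ : Reg Y ψ) :
    FGood p Y fun x => φ x + (ψ x ^ q - ψ x) := by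
  obtain ⟨e, -, rfl⟩ := hp
  induction e with
  | zero => exact h.congr rfl fun x _ => by simp
  | succ e ih =>
    refine (ih.shift (hψ.pow (p ^ e))).congr rfl fun x _ => ?_
    rw [pow_succ p e, pow_mul]
    ring

theorem _root_.Pool.Agent.Lib.MP_60ec62_ag.DL.FGood.kill {c : (ι → K) → K} (hY : LC Y) (hφ : Reg Y φ) (hc : Reg Y c)
    (h0 : ∀ y ∈ Y, c y ≠ 0) :
    FGood p (DL.prodA Y Unit) fun x => φ (x ∘ Sum.inl) + c (x ∘ Sum.inl) * x (Sum.inr ()) := by
  have hl : RegMap (DL.prodA Y Unit) fun x : ι ⊕ Unit → K => x ∘ Sum.inl :=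
    fun i => RegF.coord (Sum.inl i)
  have hψ : Reg (DL.prodA Y Unit)
      fun x => φ (x ∘ Sum.inl) + c (x ∘ Sum.inl) * x (Sum.inr ()) :=
    (hφ.comp hl fun _ hx => hx).add ((hc.comp hl fun _ hx => hx).mul (RegF.coord _))
  refine ⟨hY.prodA Unit, hψ, fgoodT_of_fibre (κ := Unit) (π := fun z => (z ∘ some) ∘ Sum.inl)
    ((hY.prodA Unit).AS hψ p) hY (fun i => RegF.coord (some (Sum.inl i))) (fun _ hz => hz.1)
    (fun y _ => ?_) (stSet_AS p _ _) fun x _ => by rw [tr_some]⟩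
  have hl' : RegMap (DL.prodA {y ∈ Y | eval y (1 : MvPolynomial ι K) ≠ 0} Unit)
      fun x : ι ⊕ Unit → K => x ∘ Sum.inl := fun i => RegF.coord (Sum.inl i)
  refine ⟨1, fun z _ => z none, fun w o => o.elim (w (Sum.inr ()))
    (Sum.elim (w ∘ Sum.inl) fun _ =>
      (w (Sum.inr ()) ^ p - w (Sum.inr ()) - φ (w ∘ Sum.inl)) / c (w ∘ Sum.inl)), by simp,
    fun j => ?_, fun o => ?_, fun z hz => ⟨hz.1.1, hz.2⟩, fun w hw => ⟨⟨hw.1, ?_⟩, hw.2⟩,
    fun z hz => ?_, fun w _ => ?_⟩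
  · rcases j with i | j
    · exact RegF.coord (some (Sum.inl i))
    · exact RegF.coord none
  · rcases o with _ | i | j
    · exact RegF.coord (Sum.inr ())
    · exact RegF.coord (Sum.inl i)
    · exact ((((RegF.coord (Sum.inr ())).pow p).sub (RegF.coord (Sum.inr ()))).sub
        (hφ.comp hl' fun _ hx => hx.1)).div (hc.comp hl' fun _ hx => hx.1) fun _ hx => h0 _ hx.1
  · change w (Sum.inr ()) ^ p - w (Sum.inr ()) = φ (w ∘ Sum.inl) + c (w ∘ Sum.inl) *
      ((w (Sum.inr ()) ^ p - w (Sum.inr ()) - φ (w ∘ Sum.inl)) / c (w ∘ Sum.inl))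
    rw [mul_div_cancel₀ _ (h0 _ hw.1)]
    ring
  · funext o
    rcases o with _ | i | j
    · rfl
    · rfl
    · change (z none ^ p - z none - φ ((z ∘ some) ∘ Sum.inl)) / c ((z ∘ some) ∘ Sum.inl) =
        z (some (Sum.inr ()))
      have h1 : z none ^ p - z none = φ ((z ∘ some) ∘ Sum.inl) +
        c ((z ∘ some) ∘ Sum.inl) * z (some (Sum.inr ())) := hz.1.2
      rw [h1, add_sub_cancel_left, mul_div_cancel_left₀ _ (h0 _ hz.1.1)]
  · funext j
    rcases j with i | j <;> rfl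

end Pool.Agent.Lib.MP_60ec62_ag.DL.F
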