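import Pool.Agent.Lib.MP_60ec62_ag.DF.Frob
import Pool.Agent.Lib.MP_60ec62_ag.DL.Iso

/-!
Isomorphisms that commute with Frobenius preserve its degree.
-/

noncomputable section

namespace Pool.Agent.Lib.MP_60ec62_ag.DL

open MvPolynomial

variable {K : Type} [Field K] [IsAlgClosed K] {p q : ℕ} [Fact p.Prime] [CharP K p]
  {ι κ ι' τ : Type} [Finite ι] [Finite κ] [Finite ι'] [Finite τ]

variable {M : Set ι} {M' : Set κ} {Y : Set (ι → K)} {Y' : Set (κ → K)} {Φ : (ι → K) → κ → K}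
  {Ψ : (κ → K) → ι → K} {e : Pr K ι → Pr K κ}

namespace FIso

omit [IsAlgClosed K] [Finite ι] [Finite κ] in
/-- The function field of a subvariety is the function field of its image. -/
lemma exists_rep (h : RegIso Y Y' Φ Ψ) {P : Pr K ι} (hP : P ∈ hat Y) :
    ∃ ψ : MvPolynomial κ K →ₐ[K] KeyEq.Rf P,
      Iso.Rep Y Φ P P (IsScalarTower.toAlgHom K _ (KeyEq.Rf P)) ψ ∧
      pushA (IsScalarTower.toAlgHom K _ (KeyEq.Rf P)) (Finsupp.single (gen _) 1) =
        Finsupp.single P 1 ∧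
      pushA ψ (Finsupp.single (gen _) 1) = Finsupp.single (Iso.em h.reg P) 1 := by
  have hu : ∀ f, f ∉ P.asIdeal → IsUnit (IsScalarTower.toAlgHom K _ (KeyEq.Rf P) f) :=
    fun f hf => Ne.isUnit (mt KeyEq.rf_zero.1 hf)
  have hk : ∀ f, f ∈ P.asIdeal → IsScalarTower.toAlgHom K _ (KeyEq.Rf P) f = 0 :=
    fun f hf => KeyEq.rf_zero.2 hf
  have hφ : LocSurj (IsScalarTower.toAlgHom K _ (KeyEq.Rf P)) := fun r => by
    obtain ⟨a, b, hb, e⟩ := KeyEq.rf_frac P r
    exact ⟨a, b, hu b hb, e⟩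
  have hQ : cm (IsScalarTower.toAlgHom K _ (KeyEq.Rf P)) (gen _) = P := by
    ext f
    rw [mem_cm]
    exact (Ideal.mem_bot (R := KeyEq.Rf P)).trans KeyEq.rf_zero
  obtain ⟨ψ, hr, -⟩ := Iso.exists_psi h.reg hP hP le_rfl hu
  have h1 := hr.cm_eq h.reg hk hu (Q := gen _) (by rwa [hQ])
  rw [hQ] at h1
  refine ⟨ψ, hr, ?_, ?_⟩
  · rw [pushA_single, dgA_locSurj hφ, hQ, Nat.cast_one, one_smul]
  · rw [pushA_single, dgA_locSurj (hr.locSurj h hP hP le_rfl hk hu hφ), h1, Nat.cast_one, one_smul]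

end FIso

theorem IsoData.FF_comm (he : IsoData Y Y' Φ e) (h : RegIso Y Y' Φ Ψ) (hY : LC Y) (hY' : LC Y')
    (hs : ∀ x, pfx p M x ∈ Y ↔ x ∈ Y) (hs' : ∀ x, pfx p M' x ∈ Y' ↔ x ∈ Y')
    (hc : ∀ x ∈ Y, Φ (pfx p M x) = pfx p M' (Φ x)) {c : Cy K ι}
    (hc' : c ∈ Finsupp.supported ℚ ℚ (hat Y)) :
    Finsupp.mapDomain e (FF p M c) = FF p M' (Finsupp.mapDomain e c) := by
  have _ := hY
  have _ := hY'
  have _ := hs'
  have hem : ∀ P ∈ hat Y, Iso.em h.reg P = e P := fun P hP =>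
    eq_of_pts (Iso.em_mem h hP) (he.mem P hP) fun y hy => by
      rw [← h.right y hy, Iso.em_pts h hP (h.maps' hy), he.pts P hP _ (h.maps' hy)]
  rw [Finsupp.supported_eq_span_single] at hc'
  refine Submodule.span_induction ?_ (by simp) (fun a b _ _ ha hb => ?_) (fun r a _ ha => ?_) hc'
  · rintro _ ⟨P, hP, rfl⟩
    have hP0 : cm (pf p M) P ∈ hat Y := (cm_pf_mem_hat hs).2 hP
    obtain ⟨ψ, r1, r2, r3⟩ := FIso.exists_rep h hP
    obtain ⟨ψ₀, s1, s2, s3⟩ := FIso.exists_rep h hP0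
    let χ : KeyEq.Rf (cm (pf p M) P) →ₐ[K] KeyEq.Rf P :=
      Ideal.ResidueField.mapₐ _ _ (pf p M) rfl
    have hχ : ∀ f, χ (IsScalarTower.toAlgHom K _ (KeyEq.Rf (cm (pf p M) P)) f) =
        IsScalarTower.toAlgHom K _ (KeyEq.Rf P) (pf p M f) := fun f =>
      Ideal.ResidueField.map_algebraMap _ _ _ _ f
    have e1 : (IsScalarTower.toAlgHom K _ (KeyEq.Rf P)).comp (pf p M) =
        χ.comp (IsScalarTower.toAlgHom K _ (KeyEq.Rf (cm (pf p M) P))) :=
      AlgHom.ext fun f => (hχ f).symm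
    have e2 : ψ.comp (pf p M') = χ.comp ψ₀ := AlgHom.ext fun g => by
      obtain ⟨a, b, hb, t1, t2⟩ := s1 g
      have t3 := congrArg χ t1
      rw [map_mul, hχ, hχ] at t3
      have t4 := r1.eq hP (fun f hf => KeyEq.rf_zero.2 hf)
        (fun f hf => Ne.isUnit (mt KeyEq.rf_zero.1 hf)) (g := pf p M' g) (g' := 1)
        (a := pf p M b) (a' := pf p M a) fun x hx hxP => by
          rw [map_one, one_mul, eval_pf, eval_pf, eval_pf, ← hc x hx]
          exact t2 _ ((hs x).2 hx) (mem_Vp_pf.2 hxP)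
      rw [map_one, one_mul, ← t3] at t4
      exact mul_right_cancel₀ (mt KeyEq.rf_zero.1 hb) t4
    have hg : cm χ (gen _) = gen _ := Subsingleton.elim _ _
    have f1 := LinearMap.congr_fun
      ((pushA_comp _ _).symm.trans ((congrArg pushA e1).trans (pushA_comp _ _)))
      (Finsupp.single (gen _) 1)
    have f2 := LinearMap.congr_fun
      ((pushA_comp _ _).symm.trans ((congrArg pushA e2).trans (pushA_comp _ _)))
      (Finsupp.single (gen _) 1)
    rw [LinearMap.comp_apply, LinearMap.comp_apply, pushA_single χ, hg, map_smul] at f1 f2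
    rw [r2, s2] at f1
    rw [r3, s3, hem _ hP, hem _ hP0] at f2
    show Finsupp.mapDomain e (pushA (pf p M) (Finsupp.single P 1)) =
      pushA (pf p M') (Finsupp.mapDomain e (Finsupp.single P 1))
    rw [f1, Finsupp.mapDomain_smul, Finsupp.mapDomain_single, Finsupp.mapDomain_single, f2]
  · rw [map_add, Finsupp.mapDomain_add, Finsupp.mapDomain_add, map_add, ha, hb]
  · rw [map_smul, Finsupp.mapDomain_smul, Finsupp.mapDomain_smul, map_smul, ha]

end Pool.Agent.Lib.MP_60ec62_ag.DL
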