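import Pool.Agent.Lib.MP_60ec62_ag.DF.Dg
import Pool.Agent.Lib.MP_60ec62_ag.DL.Reg

/-!
Frobenius in the marked variables.
-/

noncomputable section

namespace Pool.Agent.Lib.MP_60ec62_ag.DL

open MvPolynomial

variable {K : Type} [Field K] [IsAlgClosed K] {p q : ℕ} [Fact p.Prime] [CharP K p]
  {ι κ ι' τ : Type} [Finite ι] [Finite κ] [Finite ι'] [Finite τ]

variable {M : Set ι} {M' : Set κ} {Y : Set (ι → K)} {Γ Γ' : Set (Au K ι)} {γ γ' : Au K ι}
  {P : Pr K ι} {c : Cy K ι}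

namespace Frob

omit [IsAlgClosed K] [Fact p.Prime] [CharP K p] [Finite ι] in
lemma pf_X_mem {i : ι} (h : i ∈ M) : pf p M (X i : MvPolynomial ι K) = X i ^ p := by
  rw [pf, aeval_X, if_pos h]

omit [IsAlgClosed K] [Fact p.Prime] [CharP K p] [Finite ι] in
lemma pf_X_not_mem {i : ι} (h : i ∉ M) : pf p M (X i : MvPolynomial ι K) = X i := by
  rw [pf, aeval_X, if_neg h]

open Classical in
variable (p M) in
/-- Frobenius on the coefficients and in the unmarked variables. -/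
def rt : MvPolynomial ι K →+* MvPolynomial ι K :=
  eval₂Hom (C.comp (frobenius K p)) fun i => if i ∈ M then X i else X i ^ p

omit [IsAlgClosed K] [Finite ι] in
lemma rt_C (a : K) : rt p M (C a : MvPolynomial ι K) = C a ^ p := by
  rw [rt, eval₂Hom_C, RingHom.comp_apply, frobenius_def, map_pow]

omit [IsAlgClosed K] [Finite ι] in
lemma rt_X_mem {i : ι} (h : i ∈ M) : rt p M (X i : MvPolynomial ι K) = X i := by
  rw [rt, eval₂Hom_X', if_pos h]

omit [IsAlgClosed K] [Finite ι] in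
lemma rt_X_not_mem {i : ι} (h : i ∉ M) : rt p M (X i : MvPolynomial ι K) = X i ^ p := by
  rw [rt, eval₂Hom_X', if_neg h]

omit [IsAlgClosed K] [Finite ι] in
lemma pf_rt (f : MvPolynomial ι K) : pf p M (rt p M f) = f ^ p := by
  induction f using MvPolynomial.induction_on with
  | C a => rw [rt_C, map_pow, algHom_C, algebraMap_eq]
  | add f g hf hg => rw [map_add, map_add, hf, hg, add_pow_char]
  | mul_X f i hf =>
    rw [map_mul, map_mul, hf, mul_pow]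
    by_cases h : i ∈ M
    · rw [rt_X_mem h, pf_X_mem h]
    · rw [rt_X_not_mem h, map_pow, pf_X_not_mem h]

omit [IsAlgClosed K] [Finite ι] in
lemma rt_pf (f : MvPolynomial ι K) : rt p M (pf p M f) = f ^ p := by
  induction f using MvPolynomial.induction_on with
  | C a => rw [algHom_C, algebraMap_eq, rt_C]
  | add f g hf hg => rw [map_add, map_add, hf, hg, add_pow_char]
  | mul_X f i hf =>
    rw [map_mul, map_mul, hf, mul_pow]
    by_cases h : i ∈ M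
    · rw [pf_X_mem h, map_pow, rt_X_mem h]
    · rw [pf_X_not_mem h, rt_X_not_mem h]

omit [IsAlgClosed K] [CharP K p] [Finite ι] in
lemma pw_mem {f : MvPolynomial ι K} : f ^ p ∈ P.asIdeal ↔ f ∈ P.asIdeal :=
  P.isPrime.pow_mem_iff_mem p (Fact.out : p.Prime).pos

omit [IsAlgClosed K] [Fact p.Prime] [CharP K p] [Finite ι] [Finite κ] in
lemma pfx_comp (a : κ → ι) (ha : ∀ j, a j ∈ M ↔ j ∈ M') (x : ι → K) :
    pfx p M x ∘ a = pfx p M' (x ∘ a) := by
  funext j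
  by_cases h : j ∈ M'
  · rw [Function.comp_apply, pfx_of_mem h, pfx_of_mem ((ha j).2 h), Function.comp_apply]
  · rw [Function.comp_apply, pfx_of_not_mem h, pfx_of_not_mem (mt (ha j).1 h),
      Function.comp_apply]

omit [IsAlgClosed K] [Finite ι] [Finite κ] in
lemma mix_comp (a : κ → ι) (ha : ∀ j, a j ∈ M ↔ j ∈ M') (x y : ι → K) :
    mix M x y ∘ a = mix M' (x ∘ a) (y ∘ a) := by
  funext j
  by_cases h : j ∈ M'
  · rw [Function.comp_apply, mix_of_mem h, mix_of_mem ((ha j).2 h), Function.comp_apply]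
  · rw [Function.comp_apply, mix_of_not_mem h, mix_of_not_mem (mt (ha j).1 h),
      Function.comp_apply]

omit [IsAlgClosed K] [Finite ι] [Finite κ] in
lemma lc_comp {Y' : Set (κ → K)} (h : LC Y') (a : κ → ι) : LC {x : ι → K | x ∘ a ∈ Y'} := by
  obtain ⟨I, J, h⟩ := Hat.lc_iff.1 h
  refine Hat.lc_iff.2 ⟨I.map (rename a), J.map (rename a), fun x => ?_⟩
  have e : (Hat.mx x).comap (rename a) = Hat.mx (x ∘ a) := by
    ext f
    rw [Ideal.mem_comap, Hat.mem_mx, Hat.mem_mx, eval_rename]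
  rw [Ideal.map_le_iff_le_comap, Ideal.map_le_iff_le_comap, e]
  exact h _

end Frob

open Frob

omit [IsAlgClosed K] [Fact p.Prime] [CharP K p] [Finite ι] in
lemma eval_pf (x : ι → K) (f : MvPolynomial ι K) : eval x (pf p M f) = eval (pfx p M x) f := by
  induction f using MvPolynomial.induction_on with
  | C a => rw [algHom_C, algebraMap_eq, eval_C, eval_C]
  | add f g hf hg => rw [map_add, map_add, map_add, hf, hg]
  | mul_X f i hf =>
    rw [map_mul, map_mul, map_mul, hf, eval_X]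
    by_cases h : i ∈ M
    · rw [pf_X_mem h, map_pow, eval_X, pfx_of_mem h]
    · rw [pf_X_not_mem h, eval_X, pfx_of_not_mem h]

omit [IsAlgClosed K] [Finite ι] in
lemma Frob.eval_rt (x : ι → K) (f : MvPolynomial ι K) :
    eval (pfx p M x) (rt p M f) = eval x f ^ p := by
  rw [← eval_pf, pf_rt, map_pow]

omit [Finite ι] in
lemma pfx_bijective : Function.Bijective (pfx (K := K) p M) := by
  classical
  refine ⟨fun x y h => funext fun i => ?_, fun y => ?_⟩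
  · have e := congrFun h i
    by_cases hi : i ∈ M
    · rw [pfx_of_mem hi, pfx_of_mem hi] at e
      exact frobenius_inj K p e
    · rwa [pfx_of_not_mem hi, pfx_of_not_mem hi] at e
  · choose r hr using fun a : K => IsAlgClosed.exists_pow_nat_eq a (Fact.out : p.Prime).pos
    refine ⟨fun i => if i ∈ M then r (y i) else y i, funext fun i => ?_⟩
    by_cases hi : i ∈ M
    · rw [pfx_of_mem hi, if_pos hi, hr]
    · rw [pfx_of_not_mem hi, if_neg hi]

omit [IsAlgClosed K] in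
lemma pf_finite : (pf (K := K) p M : MvPolynomial ι K →+* MvPolynomial ι K).Finite := by
  refine RingHom.IsIntegral.to_finite (fun f => ⟨Polynomial.X ^ p - Polynomial.C (rt p M f),
    Polynomial.monic_X_pow_sub_C _ (Fact.out : p.Prime).ne_zero, ?_⟩) ?_
  · rw [Polynomial.eval₂_sub, Polynomial.eval₂_X_pow, Polynomial.eval₂_C, RingHom.coe_coe, pf_rt,
      sub_self]
  · refine RingHom.FiniteType.of_comp_finiteType (f := algebraMap K (MvPolynomial ι K)) ?_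
    rw [AlgHom.comp_algebraMap]
    exact RingHom.finiteType_algebraMap.2 inferInstance

omit [IsAlgClosed K] [Finite ι] in
lemma mem_Vp_pf {x : ι → K} : pfx p M x ∈ Vp (cm (pf p M) P) ↔ x ∈ Vp P := by
  refine ⟨fun h f hf => ?_, fun h f hf => ?_⟩
  · have e := h (rt p M f) (by rw [mem_cm, pf_rt]; exact pw_mem.2 hf)
    rw [eval_rt] at e
    exact pow_eq_zero_iff (Fact.out : p.Prime).ne_zero |>.1 e
  · rw [← eval_pf]
    exact h _ hf

omit [IsAlgClosed K] [Finite ι] in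
lemma cm_pf_bijective : Function.Bijective (cm (pf (K := K) p M)) := by
  refine Function.bijective_iff_has_inverse.2 ⟨PrimeSpectrum.comap (rt p M), fun P => ?_,
    fun P => ?_⟩
  · refine PrimeSpectrum.ext (Ideal.ext fun f => ?_)
    change pf p M (rt p M f) ∈ P.asIdeal ↔ _
    rw [pf_rt, pw_mem]
  · refine PrimeSpectrum.ext (Ideal.ext fun f => ?_)
    change rt p M (pf p M f) ∈ P.asIdeal ↔ _
    rw [rt_pf, pw_mem]

omit [Finite ι] in
lemma cm_pf_mem_hat (h : ∀ x, pfx p M x ∈ Y ↔ x ∈ Y) : cm (pf p M) P ∈ hat Y ↔ P ∈ hat Y := by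
  refine ⟨fun H f hf => ?_, fun H f hf => ?_⟩
  · rw [← pw_mem (p := p), ← pf_rt (M := M), ← mem_cm]
    refine H _ fun y hy hyP => ?_
    obtain ⟨x, rfl⟩ := (pfx_bijective (p := p) (M := M)).2 y
    rw [eval_rt, hf x ((h x).1 hy) (mem_Vp_pf.1 hyP), zero_pow (Fact.out : p.Prime).ne_zero]
  · refine H (pf p M f) fun x hx hxP => ?_
    rw [eval_pf]
    exact hf _ ((h x).2 hx) (mem_Vp_pf.2 hxP)

omit [IsAlgClosed K] in
lemma dm_cm_pf (P : Pr K ι) : dm K (cm (pf p M) P) = dm K P := dm_cm_of_finite pf_finite P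

omit [IsAlgClosed K] [Fact p.Prime] [CharP K p] [Finite ι] in
lemma FF_single (P : Pr K ι) : FF p M (Finsupp.single P 1) =
    (dgA (pf p M) P : ℚ) • Finsupp.single (cm (pf p M) P) 1 := pushA_single _ P

omit [IsAlgClosed K] in
lemma dgA_pf_ne_zero (P : Pr K ι) : dgA (pf p M) P ≠ 0 := dgA_ne_zero pf_finite P

omit [IsAlgClosed K] [Fact p.Prime] [CharP K p] [Finite ι] in
lemma FF_supported {S : Set (Pr K ι)} (h : ∀ P ∈ S, cm (pf p M) P ∈ S)
    (hc : c ∈ Finsupp.supported ℚ ℚ S) : FF p M c ∈ Finsupp.supported ℚ ℚ S := by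
  refine (Finsupp.mem_supported' ℚ _).2 fun P hP => by_contra fun h0 => ?_
  obtain ⟨Q, h1, rfl⟩ := pushA_supp h0
  exact hP (h Q (by_contra fun hQ => h1 ((Finsupp.mem_supported' ℚ _).1 hc Q hQ)))

omit [IsAlgClosed K] [Fact p.Prime] [CharP K p] [Finite ι] in
lemma FF_flt {S : Set (Pr K ι)} (h : ∀ P, cm (pf p M) P ∈ S ↔ P ∈ S) (c : Cy K ι) :
    FF p M (flt S c) = flt S (FF p M c) := by
  induction c using Finsupp.induction_linear with
  | zero => simp only [map_zero]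
  | add a b ha hb => simp only [map_add, ha, hb]
  | single P r =>
    have e : ∀ Q, Finsupp.single P r Q ≠ 0 → Q = P := fun Q hQ =>
      (Finsupp.single_apply_ne_zero.1 hQ).1
    have e' : ∀ Q, FF p M (Finsupp.single P r) Q ≠ 0 → Q = cm (pf p M) P := fun Q hQ => by
      obtain ⟨R, h1, rfl⟩ := pushA_supp hQ
      rw [e R h1]
    by_cases hP : P ∈ S
    · rw [flt_eq_self fun Q hQ => e Q hQ ▸ hP, flt_eq_self fun Q hQ => e' Q hQ ▸ (h P).2 hP]
    · rw [flt_eq_zero fun Q hQ => e Q hQ ▸ hP, flt_eq_zero fun Q hQ => e' Q hQ ▸ mt (h P).1 hP,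
        map_zero]

omit [Finite ι] in
lemma FF_rs (h : ∀ x, pfx p M x ∈ Y ↔ x ∈ Y) (c : Cy K ι) : FF p M (rs Y c) = rs Y (FF p M c) :=
  FF_flt (fun _ => cm_pf_mem_hat h) c

omit [Finite ι] in
lemma FF_hat (h : ∀ x, pfx p M x ∈ Y ↔ x ∈ Y) (hc : c ∈ Finsupp.supported ℚ ℚ (hat Y)) :
    FF p M c ∈ Finsupp.supported ℚ ℚ (hat Y) :=
  FF_supported (fun _ hP => (cm_pf_mem_hat h).2 hP) hc

omit [Fact p.Prime] [CharP K p] [Finite ι] in
lemma pf_au (h : ∀ x, pfx p M (pt γ x) = pt γ' (pfx p M x)) (f : MvPolynomial ι K) :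
    γ (pf p M f) = pf p M (γ' f) :=
  MvPolynomial.funext fun x => by rw [← eval_pt, eval_pf, eval_pf, h, eval_pt]

omit [Fact p.Prime] [CharP K p] [Finite ι] in
lemma FF_act (h : ∀ x, pfx p M (pt γ x) = pt γ' (pfx p M x)) (c : Cy K ι) :
    FF p M (Finsupp.mapDomain (act γ) c) = Finsupp.mapDomain (act γ') (FF p M c) := by
  have e : (γ : MvPolynomial ι K →ₐ[K] MvPolynomial ι K).comp (pf p M) =
      (pf p M).comp (γ' : MvPolynomial ι K →ₐ[K] MvPolynomial ι K) := AlgHom.ext (pf_au h)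
  have e1 := pushA_comp (pf p M) (γ : MvPolynomial ι K →ₐ[K] MvPolynomial ι K)
  rw [e, pushA_comp, pushA_au, pushA_au] at e1
  exact (LinearMap.congr_fun e1 c).symm

omit [Fact p.Prime] [CharP K p] [Finite ι] in
lemma Unm.pf_eq {t : MvPolynomial ι K} (h : Unm M t) : pf p M t = t :=
  MvPolynomial.funext fun x => by
    rw [eval_pf]
    exact h _ _ fun i hi => pfx_of_not_mem hi x

omit [IsAlgClosed K] [Finite ι] in
lemma Unm.eval_mix {t : MvPolynomial ι K} (h : Unm M t) (x y : ι → K) :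
    eval (mix M x y) t = eval x t := h _ _ fun _ hi => mix_of_not_mem hi x y

omit [IsAlgClosed K] [Finite ι] in
lemma unm_X {i : ι} (h : i ∉ M) : Unm M (X i : MvPolynomial ι K) := fun x y e => by
  rw [eval_X, eval_X, e i h]

omit [IsAlgClosed K] [Finite ι] in
lemma unm_C (a : K) : Unm M (C a : MvPolynomial ι K) := fun x y _ => by rw [eval_C, eval_C]

omit [IsAlgClosed K] [Finite ι] in
lemma unm_one : Unm M (1 : MvPolynomial ι K) := fun x y _ => by rw [map_one, map_one]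

omit [IsAlgClosed K] [Finite ι] [Finite κ] in
lemma Unm.rename_inl {t : MvPolynomial ι K} (h : Unm M t) :
    Unm (mL M κ) (rename Sum.inl t : MvPolynomial (ι ⊕ κ) K) := fun x y e => by
  rw [eval_rename, eval_rename]
  exact h _ _ fun i hi => e _ (mt inl_mem_mL.1 hi)

omit [IsAlgClosed K] [Finite ι] [Finite τ] in
lemma unm_rename_inl (t : MvPolynomial ι K) :
    Unm (mR ι τ) (rename Sum.inl t : MvPolynomial (ι ⊕ τ) K) := fun x y e => by
  rw [eval_rename, eval_rename, show x ∘ Sum.inl = y ∘ Sum.inl from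
    funext fun i => e _ inl_not_mem_mR]

omit [IsAlgClosed K] [Fact p.Prime] [CharP K p] [Finite ι] in
lemma UAu.comm (h : UAu M γ) (x : ι → K) : pfx p M (pt γ x) = pt γ (pfx p M x) := by
  funext j
  by_cases hj : j ∈ M
  · rw [pfx_of_mem hj, h.fix j hj, h.fix j hj, pfx_of_mem hj]
  · rw [pfx_of_not_mem hj]
    exact h.unm j hj _ _ fun i hi => (pfx_of_not_mem hi x).symm

omit [IsAlgClosed K] [Finite ι] in
lemma UAu.mix (h : UAu M γ) (x y : ι → K) : pt γ (mix M x y) = mix M (pt γ x) (pt γ y) := by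
  funext j
  by_cases hj : j ∈ M
  · rw [mix_of_mem hj, h.fix j hj, h.fix j hj, mix_of_mem hj]
  · rw [mix_of_not_mem hj]
    exact h.unm j hj _ _ fun i hi => mix_of_not_mem hi x y

omit [IsAlgClosed K] [Finite ι] in
lemma uau_tr {i₀ : ι} (h : i₀ ∉ M) : UAu M (tr (K := K) i₀) := by
  refine ⟨fun j hj x y e => ?_, fun j hj x => pt_tr_ne (by rintro rfl; exact h hj) x⟩
  by_cases hi : j = i₀
  · rw [hi, pt_tr_self, pt_tr_self, e i₀ h]
  · rw [pt_tr_ne hi, pt_tr_ne hi, e j hj]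

omit [Fact p.Prime] [CharP K p] [Finite ι] in
lemma FG.stable (h : FG p M Γ) (hP : Stable Γ P) : Stable Γ (cm (pf p M) P) := by
  intro γ' h'
  obtain ⟨γ, hγ, e⟩ := h γ' h'
  refine PrimeSpectrum.ext (Ideal.ext fun f => ?_)
  rw [mem_act, mem_cm, mem_cm, ← pf_au e, ← mem_act, hP γ hγ]

omit [IsAlgClosed K] [Fact p.Prime] [CharP K p] [Finite ι] in
lemma fg_empty : FG p M (∅ : Set (Au K ι)) := fun _ h => h.elim

omit [IsAlgClosed K] [Fact p.Prime] [CharP K p] [Finite ι] in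
lemma FG.union (h : FG p M Γ) (h' : FG p M Γ') : FG p M (Γ ∪ Γ') := by
  rintro γ' (h1 | h1)
  · obtain ⟨γ, hγ, e⟩ := h γ' h1
    exact ⟨γ, Or.inl hγ, e⟩
  · obtain ⟨γ, hγ, e⟩ := h' γ' h1
    exact ⟨γ, Or.inr hγ, e⟩

omit [IsAlgClosed K] [Fact p.Prime] [CharP K p] [Finite ι] in
lemma fg_of_uau (h : ∀ γ ∈ Γ, UAu M γ) : FG p M Γ := fun γ hγ => ⟨γ, hγ, (h γ hγ).comm⟩

omit [IsAlgClosed K] [Fact p.Prime] [CharP K p] [Finite ι] [Finite κ] in
lemma MMap.pfx {Φ : (ι → K) → κ → K} (h : MMap M M' Y Φ) (hY : MSet p M Y) {x : ι → K}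
    (hx : x ∈ Y) : Φ (pfx p M x) = pfx p M' (Φ x) := by
  funext j
  have hx' := (hY.frob x).2 hx
  by_cases hj : j ∈ M'
  · obtain ⟨i, hi, e⟩ := h.mk' j hj
    rw [pfx_of_mem hj, e _ hx', e _ hx, pfx_of_mem hi]
  · rw [pfx_of_not_mem hj]
    exact h.unm j hj _ hx' _ hx fun i hi => pfx_of_not_mem hi x

omit [IsAlgClosed K] [Fact p.Prime] [CharP K p] [Finite ι] [Finite κ] in
lemma MMap.mix {Φ : (ι → K) → κ → K} (h : MMap M M' Y Φ) (hY : MSet p M Y) {x y : ι → K}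
    (hx : x ∈ Y) (hy : y ∈ Y) : Φ (mix M x y) = mix M' (Φ x) (Φ y) := by
  funext j
  have hm := hY.mix x hx y hy
  by_cases hj : j ∈ M'
  · obtain ⟨i, hi, e⟩ := h.mk' j hj
    rw [mix_of_mem hj, e _ hm, e _ hy, mix_of_mem hi]
  · rw [mix_of_not_mem hj]
    exact h.unm j hj _ hm _ hx fun i hi => mix_of_not_mem hi x y

omit [Field K] [IsAlgClosed K] [Finite ι] [Finite κ] in
/-- A renaming of coordinates that respects the markings. -/
lemma mmap_comp (a : κ → ι) (h : ∀ j, a j ∈ M ↔ j ∈ M') (Y : Set (ι → K)) :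
    MMap M M' Y fun x => x ∘ a :=
  ⟨fun j hj _ _ _ _ e => e _ (mt (h j).1 hj), fun j hj => ⟨a j, (h j).2 hj, fun _ _ => rfl⟩⟩

omit [IsAlgClosed K] [Fact p.Prime] [CharP K p] [Finite ι] [Finite κ] in
lemma MSet.preimage {Y' : Set (κ → K)} (h : MSet p M' Y') (a : κ → ι)
    (ha : ∀ j, a j ∈ M ↔ j ∈ M') : MSet p M {x : ι → K | x ∘ a ∈ Y'} := by
  refine ⟨fun x => ?_, fun x hx y hy => ?_⟩
  · rw [Set.mem_ofPred_eq, pfx_comp a ha]
    exact h.frob _
  · rw [Set.mem_ofPred_eq, mix_comp a ha]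
    exact h.mix _ hx _ hy

omit [IsAlgClosed K] [Fact p.Prime] [CharP K p] [Finite ι] in
lemma MSet.sep (h : MSet p M Y) {c : (ι → K) → Prop}
    (hc : ∀ x ∈ Y, ∀ y ∈ Y, (∀ i ∉ M, x i = y i) → c x → c y) : MSet p M {x ∈ Y | c x} := by
  refine ⟨fun x => ⟨fun hx => ?_, fun hx => ?_⟩, fun x hx y hy => ?_⟩
  · exact ⟨(h.frob x).1 hx.1, hc _ hx.1 _ ((h.frob x).1 hx.1)
      (fun i hi => pfx_of_not_mem hi x) hx.2⟩
  · exact ⟨(h.frob x).2 hx.1, hc _ hx.1 _ ((h.frob x).2 hx.1)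
      (fun i hi => (pfx_of_not_mem hi x).symm) hx.2⟩
  · exact ⟨h.mix _ hx.1 _ hy.1, hc _ hx.1 _ (h.mix _ hx.1 _ hy.1)
      (fun i hi => (mix_of_not_mem hi x y).symm) hx.2⟩

omit [IsAlgClosed K] [Fact p.Prime] [CharP K p] [Finite ι] in
lemma MSet.prodA (h : MSet p M Y) (κ : Type) : MSet p (mL M κ) (prodA Y κ) :=
  h.preimage Sum.inl fun _ => inl_mem_mL

omit [IsAlgClosed K] [Fact p.Prime] [CharP K p] [Finite ι] in
lemma MSet.cone (h : MSet p M Y) (κ : Type) : MSet p (mL M κ) (cone Y κ) :=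
  (h.prodA κ).sep (c := fun x => x ∘ Sum.inr ≠ 0) fun x _ y _ e hx => by
    rwa [← show x ∘ Sum.inr = y ∘ Sum.inr from funext fun j => e _ inr_not_mem_mL]

omit [IsAlgClosed K] [Fact p.Prime] [CharP K p] [Finite ι] [Finite τ] in
lemma Pas.mset {T : Set (τ → K)} (h : Pas p T) (Y : Set (ι → K)) :
    MSet p (mR ι τ) (prodT Y T) := by
  refine ⟨fun x => ?_, fun x hx y hy => ⟨?_, ?_⟩⟩
  · have e1 : pfx p (mR ι τ) x ∘ Sum.inl = x ∘ Sum.inl :=
      funext fun i => pfx_of_not_mem inl_not_mem_mR x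
    have e2 : pfx p (mR ι τ) x ∘ Sum.inr = fun j => (x ∘ Sum.inr) j ^ p :=
      funext fun j => pfx_of_mem inr_mem_mR x
    rw [prodT, Set.mem_ofPred_eq, Set.mem_ofPred_eq, e1, e2, h.frob]
  · rw [show mix (mR ι τ) x y ∘ Sum.inl = x ∘ Sum.inl from
      funext fun i => mix_of_not_mem inl_not_mem_mR x y]
    exact hx.1
  · rw [show mix (mR ι τ) x y ∘ Sum.inr = y ∘ Sum.inr from
      funext fun i => mix_of_mem inr_mem_mR x y]
    exact hy.2

omit [IsAlgClosed K] [Finite ι] [Finite τ] in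
lemma LC.prodT {T : Set (τ → K)} (hY : LC Y) (hT : LC T) : LC (prodT Y T) :=
  (lc_comp hY Sum.inl).inter (lc_comp hT Sum.inr)

omit [Finite ι] in
lemma FF_StG (hY : ∀ x, pfx p M x ∈ Y ↔ x ∈ Y) (hΓ : FG p M Γ) (hc : c ∈ StG Γ Y) :
    FF p M c ∈ StG Γ Y :=
  FF_supported (fun _ hP => ⟨(cm_pf_mem_hat hY).2 hP.1, hΓ.stable hP.2⟩) hc

lemma FF_RatG (hY : ∀ x, pfx p M x ∈ Y ↔ x ∈ Y) (hΓ : FG p M Γ) (hc : c ∈ RatG Γ Y) :
    FF p M c ∈ RatG Γ Y := by
  refine (Submodule.span_le (p := (RatG Γ Y).comap (FF p M))).2 ?_ hc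
  rintro _ ⟨w, hw, a, b, hs, ha, hb, hi, rfl⟩
  obtain ⟨a', b', ha', hb', e, hi'⟩ := pushA_frac (pf_finite (p := p) (M := M)) w ha hb
  refine Submodule.subset_span ⟨cm (pf p M) w, (cm_pf_mem_hat hY).2 hw, a', b', hΓ.stable hs, ha',
    hb', fun γ' h' => ?_, by rw [FF_rs hY, ← e]; rfl⟩
  obtain ⟨γ, hγ, e'⟩ := hΓ γ' h'
  have h1 := hi γ hγ
  rw [SemiInv, C_1, one_mul] at h1 ⊢
  exact hi' γ' γ (pf_au e') (fun s => by rw [← mem_act, hs γ hγ]) h1

omit [Finite ι] in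
lemma FF_InvT (hY : ∀ x, pfx p M x ∈ Y ↔ x ∈ Y) {i₀ : ι} (hi : i₀ ∉ M) (hc : c ∈ InvT i₀ Y) :
    FF p M c ∈ InvT i₀ Y := by
  refine ⟨fun P hP => ?_, fun P => ?_⟩
  · obtain ⟨Q, h1, rfl⟩ := pushA_supp hP
    exact (cm_pf_mem_hat hY).2 (hc.1 Q h1)
  · have e : Finsupp.mapDomain (act (tr i₀)) c = c := by
      ext Q
      obtain ⟨Q, rfl⟩ := (act_bijective (tr i₀)).2 Q
      rw [Finsupp.mapDomain_apply (act_bijective _).1, hc.2]
    have e2 := FF_act (p := p) (uau_tr hi).comm c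
    rw [e] at e2
    conv_lhs => rw [e2]
    rw [Finsupp.mapDomain_apply (act_bijective _).1]

omit [Finite ι] in
lemma Rect.pf (h : Rect M P) (M₁ : Set ι) : Rect M (cm (pf p M₁) P) := by
  intro x hx y hy
  obtain ⟨x, rfl⟩ := (pfx_bijective (p := p) (M := M₁)).2 x
  obtain ⟨y, rfl⟩ := (pfx_bijective (p := p) (M := M₁)).2 y
  have e : mix M (pfx p M₁ x) (pfx p M₁ y) = pfx p M₁ (mix M x y) := by
    funext i
    by_cases h1 : i ∈ M <;> by_cases h2 : i ∈ M₁ <;> simp [mix, pfx, h1, h2]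
  rw [e]
  exact mem_Vp_pf.2 (h _ (mem_Vp_pf.1 hx) _ (mem_Vp_pf.1 hy))

omit [Finite ι] in
lemma FF_SmR {M₁ : Set ι} (hY : ∀ x, pfx p M₁ x ∈ Y ↔ x ∈ Y) (hΓ : FG p M₁ Γ)
    (hc : c ∈ SmR M Γ Y) : FF p M₁ c ∈ SmR M Γ Y :=
  FF_supported (fun _ hP => ⟨(cm_pf_mem_hat hY).2 hP.1, hΓ.stable hP.2.1, hP.2.2.pf M₁⟩) hc

lemma le_nilG (hY : ∀ x, pfx p M x ∈ Y ↔ x ∈ Y) (hΓ : FG p M Γ) :
    SmR M Γ Y ⊔ RatG Γ Y ≤ Nil (Sp p) (FF p M) (SmR M Γ Y ⊔ RatG Γ Y) := by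
  refine Nil.le fun c hc => ?_
  obtain ⟨a, ha, b, hb, rfl⟩ := Submodule.mem_sup.1 hc
  rw [map_add]
  exact Submodule.add_mem_sup (FF_SmR hY hΓ ha) (FF_RatG hY hΓ hb)

lemma le_nilT (hY : ∀ x, pfx p M x ∈ Y ↔ x ∈ Y) {i₀ : ι} (hi : i₀ ∉ M) :
    SmR M ∅ Y ⊔ RatG ∅ Y ⊔ InvT i₀ Y ≤
      Nil (Sp p) (FF p M) (SmR M ∅ Y ⊔ RatG ∅ Y ⊔ InvT i₀ Y) := by
  refine Nil.le fun c hc => ?_
  obtain ⟨_, hab, d, hd, rfl⟩ := Submodule.mem_sup.1 hc
  obtain ⟨a, ha, b, hb, rfl⟩ := Submodule.mem_sup.1 hab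
  rw [map_add, map_add]
  exact Submodule.add_mem_sup (Submodule.add_mem_sup (FF_SmR hY fg_empty ha)
    (FF_RatG hY fg_empty hb)) (FF_InvT hY hi hd)

end Pool.Agent.Lib.MP_60ec62_ag.DL
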