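import Pool.Agent.Lib.MP_60ec62_ag.DF.MIso
import Pool.Agent.Lib.MP_60ec62_ag.DF.FExt
import Pool.Agent.Lib.MP_60ec62_ag.DL.DescM

/-!
Descent along a multiplicative group.
-/

noncomputable section

namespace Pool.Agent.Lib.MP_60ec62_ag.DL

open MvPolynomial

variable {K : Type} [Field K] [IsAlgClosed K] {p q : ℕ} [Fact p.Prime] [CharP K p]
  {ι κ ι' τ : Type} [Finite ι] [Finite κ] [Finite ι'] [Finite τ]

namespace MDescM

open DescM

variable {M : Set ι} {Y : Set (ι → K)} {H : Set (Au K ι)} {ρ : Kˣ →* Au K ι}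

omit [IsAlgClosed K] [Finite ι] [Finite κ] in
lemma md_mem {S : Set (Pr K ι)} {T : Set (Pr K κ)} {e : Pr K ι → Pr K κ} (h : ∀ P ∈ S, e P ∈ T)
    {c : Cy K ι} (hc : c ∈ Finsupp.supported ℚ ℚ S) {Q : Pr K κ}
    (hQ : Finsupp.mapDomain e c Q ≠ 0) : Q ∈ T := by
  classical
  obtain ⟨P, hP, rfl⟩ :=
    Finset.mem_image.1 (Finsupp.mapDomain_support (Finsupp.mem_support_iff.2 hQ))
  exact h P (hc hP)

omit [IsAlgClosed K] [Fact p.Prime] [CharP K p] [Finite ι] [Finite κ] in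
lemma pfx_inl (z : ι ⊕ κ → K) : pfx p (mL M κ) z ∘ Sum.inl = pfx p M (z ∘ Sum.inl) := by
  funext i
  by_cases h : i ∈ M
  · rw [Function.comp_apply, pfx_of_mem (inl_mem_mL.2 h), pfx_of_mem h]; rfl
  · rw [Function.comp_apply, pfx_of_not_mem (mt inl_mem_mL.1 h), pfx_of_not_mem h]; rfl

omit [IsAlgClosed K] [Finite ι] [Finite κ] in
lemma mix_inl (x y : ι ⊕ κ → K) :
    mix (mL M κ) x y ∘ Sum.inl = mix M (x ∘ Sum.inl) (y ∘ Sum.inl) := by
  funext i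
  by_cases h : i ∈ M
  · rw [Function.comp_apply, mix_of_mem (inl_mem_mL.2 h), mix_of_mem h]; rfl
  · rw [Function.comp_apply, mix_of_not_mem (mt inl_mem_mL.1 h), mix_of_not_mem h]; rfl

omit [IsAlgClosed K] [Fact p.Prime] [CharP K p] [Finite ι] in
lemma lf_comm {δ γ : Au K ι} (c : Kˣ) (h : ∀ x, pfx p M (pt δ x) = pt γ (pfx p M x))
    (x : ι ⊕ Unit → K) :
    pfx p (mL M Unit) (pt (lf δ c) x) = pt (lf γ c) (pfx p (mL M Unit) x) := by
  funext i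
  rcases i with i | j
  · have h1 : pfx p (mL M Unit) (pt (lf δ c) x) ∘ Sum.inl =
        pt (lf γ c) (pfx p (mL M Unit) x) ∘ Sum.inl := by
      rw [pfx_inl, pt_lf_inl, pt_lf_inl, pfx_inl, h]
    exact congrFun h1 i
  · rw [pfx_of_not_mem inr_not_mem_mL, pt_lf_inr, pt_lf_inr, pfx_of_not_mem inr_not_mem_mL]

lemma fg_Gam (hHF : FG p M H) (hρ : ∀ s, UAu M (ρ s)) : FG p (mL M Unit) (Gam H ρ) := by
  rintro _ (⟨γ, hγ, rfl⟩ | ⟨s, rfl⟩)
  · obtain ⟨δ, hδ, h⟩ := hHF γ hγ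
    exact ⟨lf δ 1, Or.inl ⟨δ, hδ, rfl⟩, lf_comm 1 h⟩
  · exact ⟨lf (ρ s) s, Or.inr ⟨s, rfl⟩, lf_comm s (hρ s).comm⟩

lemma mset_Zs (hM : MSet p M Y) : MSet p (mL M Unit) (Zs Y) :=
  (hM.prodA Unit).sep fun x _ y _ h hx => by
    rw [eval_X] at hx ⊢
    rw [← h _ inr_not_mem_mL, hx]

omit [IsAlgClosed K] [Finite ι] in
lemma mmap_up : MMap M (mL M Unit) Y fun y => Sum.elim y 0 where
  unm := by
    rintro (i | j) h x _ y _ hxy
    · exact hxy i (mt inl_mem_mL.2 h)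
    · rfl
  mk' := by
    rintro (i | j) h
    · exact ⟨i, inl_mem_mL.1 h, fun _ _ => rfl⟩
    · exact absurd h inr_not_mem_mL

/-- Transport from `Y` to the zero section. -/
lemma to_Zs (hY : LC Y) (hM : MSet p M Y) (hs : StSet (H ∪ Set.range ρ) Y) {c : Cy K ι}
    (hc : c ∈ Finsupp.supported ℚ ℚ (hat Y))
    (h : c ∈ SmR M (H ∪ Set.range ρ) Y ⊔ RatG (H ∪ Set.range ρ) Y) :
    Finsupp.mapDomain (extZ Unit Set.univ) c ∈
      SmR (mL M Unit) (Gam H ρ) (Zs Y) ⊔ RatG (Gam H ρ) (Zs Y) := by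
  obtain ⟨e, he⟩ := isoCore hY ((relCl_Zs Y).lc (hY.prodA Unit)) (iso_Zs Y)
  have e1 : ∀ P ∈ hat Y, e P = extZ Unit Set.univ P := fun P hP => by
    refine eq_of_pts (he.mem P hP) (ext_mem_Zs hY hP) fun x hx => ?_
    have h1 := he.pts P hP _ ((iso_Zs Y).maps' hx)
    rw [(iso_Zs Y).right x hx] at h1
    rw [h1, mem_Vp_extZ]
    exact ⟨fun h => ⟨h, fun j _ => (mem_Zs.1 hx).2⟩, fun h => h.1⟩
  obtain ⟨s, h1, r, h2, h3⟩ := Submodule.mem_sup.1 h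
  rw [← Finsupp.mapDomain_congr fun P hP => e1 P (hc hP), ← h3, Finsupp.mapDomain_add]
  exact Submodule.add_mem_sup (he.map_SmR (iso_Zs Y) hM mmap_up (stSet_Zs hs) (moves_up hs) h1)
    (he.map_RatG (iso_Zs Y) (stSet_Zs hs) (moves_up hs) h2)

/-- Transport from the zero section to `Y`. -/
lemma of_Zs (hY : LC Y) (hM : MSet p M Y) (hs : StSet (H ∪ Set.range ρ) Y) {c : Cy K ι}
    (hc : c ∈ Finsupp.supported ℚ ℚ (hat Y))
    (h : Finsupp.mapDomain (extZ Unit Set.univ) c ∈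
      SmR (mL M Unit) (Gam H ρ) (Zs Y) ⊔ RatG (Gam H ρ) (Zs Y)) :
    c ∈ SmR M (H ∪ Set.range ρ) Y ⊔ RatG (H ∪ Set.range ρ) Y := by
  obtain ⟨e, he⟩ := isoCore ((relCl_Zs Y).lc (hY.prodA Unit)) hY (iso_Zs Y).symm
  have e1 : ∀ P ∈ hat Y, e (extZ Unit Set.univ P) = P := fun P hP => by
    refine eq_of_pts (he.mem _ (ext_mem_Zs hY hP)) hP fun y hy => ?_
    have h1 := he.pts _ (ext_mem_Zs hY hP) _ ((iso_Zs Y).maps hy)
    rw [mem_Vp_extZ] at h1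
    exact h1.trans ⟨fun h => h.1, fun h => ⟨h, fun j _ => rfl⟩⟩
  have e2 : Finsupp.mapDomain e (Finsupp.mapDomain (extZ Unit Set.univ) c) = c := by
    rw [← Finsupp.mapDomain_comp]
    exact (Finsupp.mapDomain_congr (g := id) fun P hP => e1 P (hc hP)).trans Finsupp.mapDomain_id
  obtain ⟨s, h1, r, h2, h3⟩ := Submodule.mem_sup.1 h
  rw [← e2, ← h3, Finsupp.mapDomain_add]
  exact Submodule.add_mem_sup (he.map_SmR (iso_Zs Y).symm (mset_Zs hM)
    (mmap_comp Sum.inl (fun _ => inl_mem_mL) _) hs (moves_down hs) h1)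
    (he.map_RatG (iso_Zs Y).symm hs (moves_down hs) h2)

lemma GE_ext (n d : Pr K (ι ⊕ Unit) → MvPolynomial (ι ⊕ Unit) K) (c : Cy K ι) :
    GE (X (Sum.inr ())) n d (Finsupp.mapDomain (extZ Unit ∅) c) =
      Finsupp.mapDomain (extZ Unit Set.univ) c := by
  have e2 : (insert () ∅ : Set Unit) = Set.univ := by ext; simp
  induction c using Finsupp.induction_linear with
  | zero => simp
  | add a b ha hb => rw [Finsupp.mapDomain_add, Finsupp.mapDomain_add, map_add, ha, hb]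
  | single P a =>
    rw [Finsupp.mapDomain_single, Finsupp.mapDomain_single, ← mul_one a, ← smul_eq_mul,
      ← Finsupp.smul_single, ← Finsupp.smul_single, map_smul,
      GE_single' _ _ _ _ (by rw [X_mem_extZ]; exact id), dv_extZ_X (Set.notMem_empty _), e2]

/-- Intersection with the zero section. -/
lemma gysin (p : ℕ) [Fact p.Prime] [CharP K p] (hY : LC Y) (hΓ : Conn (Gam H ρ))
    (hsi : ∀ z ∈ hat Y, Stable (H ∪ Set.range ρ) z → ∃ n d : MvPolynomial ι K,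
      n ∉ z.asIdeal ∧ d ∉ z.asIdeal ∧ Unm M n ∧ Unm M d ∧ (∀ γ ∈ H, SemiInv γ 1 z n d) ∧
        ∀ s, SemiInv (ρ s) s z n d)
    {c : Cy K ι} (hc : c ∈ Finsupp.supported ℚ ℚ (hat Y))
    (h : Finsupp.mapDomain (extZ Unit ∅) c ∈
      SmR (mL M Unit) (Gam H ρ) (prodA Y Unit) ⊔ RatG (Gam H ρ) (prodA Y Unit)) :
    Finsupp.mapDomain (extZ Unit Set.univ) c ∈
      SmR (mL M Unit) (Gam H ρ) (Zs Y) ⊔ RatG (Gam H ρ) (Zs Y) := by
  choose! n d h1 h2 u1 u2 h3 h4 using hsi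
  let t : MvPolynomial (ι ⊕ Unit) K := X (Sum.inr ())
  let n' : Pr K (ι ⊕ Unit) → MvPolynomial (ι ⊕ Unit) K := fun z => rename Sum.inl (n (down z))
  let d' : Pr K (ι ⊕ Unit) → MvPolynomial (ι ⊕ Unit) K := fun z => rename Sum.inl (d (down z))
  have hnd : ∀ z ∈ hat (prodA Y Unit), Stable (Gam H ρ) z → t ∈ z.asIdeal →
      n' z ∉ z.asIdeal ∧ d' z ∉ z.asIdeal ∧ Unm (mL M Unit) (n' z) ∧ Unm (mL M Unit) (d' z) :=
    fun z hz hz' _ => ⟨h1 _ ((mem_hat_prodA hY).1 hz) (stable_down hz'),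
      h2 _ ((mem_hat_prodA hY).1 hz) (stable_down hz'),
      (u1 _ ((mem_hat_prodA hY).1 hz) (stable_down hz')).rename_inl,
      (u2 _ ((mem_hat_prodA hY).1 hz) (stable_down hz')).rename_inl⟩
  have hχ : ∀ γ ∈ Gam H ρ, ∃ c ≠ 0, γ t = C c * t ∧
      ∀ z ∈ hat (prodA Y Unit), Stable (Gam H ρ) z → t ∈ z.asIdeal →
        SemiInv γ c z (n' z) (d' z) := by
    rintro _ (⟨γ, hγ, rfl⟩ | ⟨s, rfl⟩)
    · exact ⟨1, one_ne_zero, lf_inr γ 1 (), fun z hz hz' _ =>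
        semiInv_lf 1 (h3 _ ((mem_hat_prodA hY).1 hz) (stable_down hz') γ hγ)⟩
    · exact ⟨s, s.ne_zero, lf_inr (ρ s) s (), fun z hz hz' _ =>
        semiInv_lf s (h4 _ ((mem_hat_prodA hY).1 hz) (stable_down hz') s)⟩
  obtain ⟨s, hs, r, hr, e⟩ := Submodule.mem_sup.1 h
  have k1 := eg_rect (hY.prodA Unit) hΓ t n' d' (unm_X inr_not_mem_mL) hnd hχ hs
  have k2 := eg_rat p (hY.prodA Unit) hΓ t n' d'
    (fun z a b c => ⟨(hnd z a b c).1, (hnd z a b c).2.1⟩) hχ hr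
  have k3 := Submodule.add_mem_sup k1 k2
  rwa [← map_add, ← map_add, e, GE_ext, flt_eq_self fun Q hQ => md_mem (S := hat Y)
    (fun P hP => by rw [mem_hat_prodA hY, down_extZ]; exact hP) hc hQ] at k3

end MDescM

open DescM in
theorem mdescM {M : Set ι} {Y : Set (ι → K)} (hY : LC Y) (hM : MSet p M Y)
    (H : Subgroup (Au K ι)) (ρ : Kˣ →* Au K ι) (hH : Conn (H : Set (Au K ι)))
    (hn : ∀ s, ∀ γ ∈ H, ρ s * γ * (ρ s)⁻¹ ∈ H) (F : ι → MvPolynomial (Option ι) (kk K))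
    (hF : ∀ s x i, pt (ρ s) x i = aeval (fun o : Option ι => o.elim (s : K) x) (F i))
    (hs : StSet (H ∪ Set.range ρ) Y)
    (hsi : ∀ z ∈ hat Y, Stable (H ∪ Set.range ρ) z → ∃ n d : MvPolynomial ι K,
      n ∉ z.asIdeal ∧ d ∉ z.asIdeal ∧ Unm M n ∧ Unm M d ∧ (∀ γ ∈ H, SemiInv γ 1 z n d) ∧
        ∀ s, SemiInv (ρ s) s z n d)
    (hHF : FG p M (H : Set (Au K ι))) (hρ : ∀ s, UAu M (ρ s))
    (hg : MGoodG p M H Y) : MGoodG p M (H ∪ Set.range ρ) Y := by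
  have hΓ : Conn (Gam (H : Set (Au K ι)) ρ) := conn_Gam ρ hH F hF
  have hW : LC (prodA Y Unit) := hY.prodA Unit
  have hZ := relCl_Zs Y
  let π : (ι ⊕ Unit → K) → ι → K := fun x i =>
    aeval (fun o : Option ι => o.elim (x (Sum.inr ()))⁻¹ (x ∘ Sum.inl)) (F i)
  let π' : (ι ⊕ Unit → K) → ι → K := fun x i =>
    aeval (fun o : Option ι => o.elim (x (Sum.inr ())) (x ∘ Sum.inl)) (F i)
  have hπ : ∀ (x : ι ⊕ Unit → K) (u : Kˣ), x (Sum.inr ()) = u →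
      π x = pt (ρ u⁻¹) (x ∘ Sum.inl) := fun x u hu => by
    funext i
    simp only [π, hF, hu, Units.val_inv_eq_inv_val]
  have hπ' : ∀ (x : ι ⊕ Unit → K) (u : Kˣ), x (Sum.inr ()) = u →
      π' x = pt (ρ u) (x ∘ Sum.inl) := fun x u hu => by
    funext i
    simp only [π', hF, hu]
  have hρ' : ∀ u y, pt (ρ u) y ∈ Y ↔ y ∈ Y := fun u => hs _ (Or.inr ⟨u, rfl⟩)
  have hiso : RegIso (prodA Y Unit \ Zs Y) (prodA Y Unit \ Zs Y)
      (fun x => Sum.elim (π x) (x ∘ Sum.inr)) fun x => Sum.elim (π' x) (x ∘ Sum.inr) := by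
    refine ⟨?_, ?_, fun x hx => ?_, fun x hx => ?_, fun x hx => ?_, fun x hx => ?_⟩
    · rintro (i | j)
      · refine RegF.aeval_comp ?_ (F i)
        rintro (_ | i)
        · exact (RegF.coord _).inv fun x hx => (mem_diff.1 hx).2
        · exact RegF.coord _
      · exact RegF.coord _
    · rintro (i | j)
      · refine RegF.aeval_comp ?_ (F i)
        rintro (_ | i)
        · exact RegF.coord _
        · exact RegF.coord _
      · exact RegF.coord _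
    · obtain ⟨h1, h2⟩ := mem_diff.1 hx
      refine mem_diff.2 ⟨?_, h2⟩
      rw [Sum.elim_comp_inl, hπ x (Units.mk0 _ h2) rfl, hρ']
      exact h1
    · obtain ⟨h1, h2⟩ := mem_diff.1 hx
      refine mem_diff.2 ⟨?_, h2⟩
      rw [Sum.elim_comp_inl, hπ' x (Units.mk0 _ h2) rfl, hρ']
      exact h1
    · obtain ⟨-, h2⟩ := mem_diff.1 hx
      rw [hπ' (Sum.elim (π x) (x ∘ Sum.inr)) (Units.mk0 _ h2) rfl, Sum.elim_comp_inl, Sum.elim_comp_inr,
        hπ x (Units.mk0 _ h2) rfl, ← pt_mul, ← map_mul, inv_mul_cancel, map_one, pt_one,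
        Sum.elim_comp_inl_inr]
    · obtain ⟨-, h2⟩ := mem_diff.1 hx
      rw [hπ (Sum.elim (π' x) (x ∘ Sum.inr)) (Units.mk0 _ h2) rfl, Sum.elim_comp_inl, Sum.elim_comp_inr,
        hπ' x (Units.mk0 _ h2) rfl, ← pt_mul, ← map_mul, mul_inv_cancel, map_one, pt_one,
        Sum.elim_comp_inl_inr]
  obtain ⟨e, e1, e2, -, -, e5, -, e7⟩ := upG (hZ.lc_diff hW) hY hZ hiso (fun y hy => by
      refine ⟨Sum.elim y 1, mem_diff.2 ⟨hy, one_ne_zero⟩, ?_⟩
      rw [hπ _ 1 rfl, inv_one, map_one, pt_one, Sum.elim_comp_inl])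
    (Γ := H) (stSet_diff hs) (by
      rintro _ (⟨γ, hγ, rfl⟩ | ⟨s, rfl⟩) x hx
      · obtain ⟨-, h2⟩ := mem_diff.1 hx
        refine ⟨_, Subgroup.subset_closure (hn (Units.mk0 _ h2) γ hγ), ?_⟩
        rw [hπ x (Units.mk0 _ h2) rfl, hπ _ (Units.mk0 _ h2) (by rw [pt_lf_inr]; simp), pt_lf_inl,
          ← pt_mul, ← pt_mul, map_inv]
        congr 1
        group
      · obtain ⟨-, h2⟩ := mem_diff.1 hx
        refine ⟨1, Subgroup.one_mem _, ?_⟩
        rw [hπ x (Units.mk0 _ h2) rfl, hπ _ (s * Units.mk0 _ h2) (by rw [pt_lf_inr]; simp),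
          pt_lf_inl, ← pt_mul, pt_one, ← map_mul, mul_inv, mul_inv_cancel_left])
  have hΓ₁ : FG p M (H ∪ Set.range ρ : Set (Au K ι)) :=
    hHF.union (fg_of_uau (by rintro _ ⟨s, rfl⟩; exact hρ s))
  have hnil := le_nilG (hM.prodA Unit).frob (MDescM.fg_Gam hHF hρ)
  have hmixE : ∀ x ∈ prodA Y Unit \ Zs Y, ∀ y ∈ prodA Y Unit \ Zs Y,
      mix (mL M Unit) x y ∈ prodA Y Unit \ Zs Y := fun x hx y hy => by
    refine mem_diff.2 ⟨?_, ?_⟩
    · rw [MDescM.mix_inl]; exact hM.mix _ (mem_diff.1 hx).1 _ (mem_diff.1 hy).1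
    · rw [mix_of_not_mem inr_not_mem_mL]; exact (mem_diff.1 hx).2
  have hπmix : ∀ x ∈ prodA Y Unit \ Zs Y, ∀ y ∈ prodA Y Unit \ Zs Y,
      π (mix (mL M Unit) x y) = mix M (π x) (π y) := fun x hx y hy => by
    obtain ⟨-, h1⟩ := mem_diff.1 hx
    obtain ⟨-, h2⟩ := mem_diff.1 hy
    rw [hπ _ (Units.mk0 _ h1) (mix_of_not_mem inr_not_mem_mL x y), hπ x (Units.mk0 _ h1) rfl,
      hπ y (Units.mk0 _ h2) rfl, MDescM.mix_inl, (hρ _).mix]
    funext i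
    by_cases h : i ∈ M
    · rw [mix_of_mem h, mix_of_mem h, (hρ _).fix i h, (hρ _).fix i h]
    · rw [mix_of_not_mem h, mix_of_not_mem h]
  have e6 : ∀ c ∈ SmR M H Y, Finsupp.mapDomain e c ∈
      SmR (mL M Unit) (Gam (H : Set (Au K ι)) ρ) (prodA Y Unit \ Zs Y) := fun c hc =>
    map_SmR (fun P h1 h2 h3 => ⟨e1 P h1, e5 P h1 h2,
      rect_of_pts (e1 P h1) hmixE hπmix (e2 P h1) h3⟩) hc
  have eP : ∀ P ∈ hat Y, Stable (H ∪ Set.range ρ) P → e P = extZ Unit ∅ P := fun P hP hP' => by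
    have hA : extZ Unit ∅ P ∈ hat (prodA Y Unit \ Zs Y) := by
      rw [hZ.mem_hat_diff hW, mem_hat_prodA hY, mem_hat_Zs hY, down_extZ, X_mem_extZ]
      exact ⟨hP, fun h => h.2⟩
    refine eq_of_pts (e1 P hP) hA fun x hx => ?_
    obtain ⟨-, h2⟩ := mem_diff.1 hx
    rw [e2 P hP x hx, hπ x (Units.mk0 _ h2) rfl, pts_of_act_eq (hP' _ (Or.inr ⟨_, rfl⟩)),
      mem_Vp_extZ]
    simp
  have key : ∀ m : ℕ, ∀ P ∈ hat Y, Stable (H ∪ Set.range ρ) P → Nat.card ι < dm K P + m →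
      Finsupp.single P 1 ∈ Nil (Sp p) (FF p M)
        (SmR M (H ∪ Set.range ρ) Y ⊔ RatG (H ∪ Set.range ρ) Y) := by
    intro m
    induction m with
    | zero => exact fun P _ _ h => absurd (dm_le_card P) (by omega)
    | succ m ih =>
      intro P hP hP' hm
      obtain ⟨S, hS⟩ : ∃ S : Set (Pr K ι),
        S = {Q | Q ∈ hat Y ∧ Stable (H ∪ Set.range ρ) Q ∧ dm K Q = dm K P} := ⟨_, rfl⟩
      have mS : ∀ {Q}, Q ∈ S ↔ Q ∈ hat Y ∧ Stable (H ∪ Set.range ρ) Q ∧ dm K Q = dm K P := by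
        rw [hS]; exact Iff.rfl
      have hA : ∀ c ∈ Finsupp.supported ℚ ℚ S, FF p M c ∈ Finsupp.supported ℚ ℚ S := fun c hc =>
        FF_supported (fun Q hQ => mS.2 ⟨(cm_pf_mem_hat hM.frob).2 (mS.1 hQ).1,
          hΓ₁.stable (mS.1 hQ).2.1, (dm_cm_pf Q).trans (mS.1 hQ).2.2⟩) hc
      have hAY : ∀ c ∈ Finsupp.supported ℚ ℚ S, c ∈ Finsupp.supported ℚ ℚ (hat Y) := fun c hc =>
        Finsupp.supported_mono (fun Q hQ => (mS.1 hQ).1) hc
      have hPA : Finsupp.single P (1 : ℚ) ∈ Finsupp.supported ℚ ℚ S :=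
        Finsupp.single_mem_supported ℚ 1 (mS.2 ⟨hP, hP', rfl⟩)
      refine Nil.comap (g := Finsupp.lmapDomain ℚ ℚ (extZ Unit ∅)) (F' := FF p (mL M Unit))
        (W' := SmR (mL M Unit) (Gam (H : Set (Au K ι)) ρ) (prodA Y Unit) ⊔
          RatG (Gam (H : Set (Au K ι)) ρ) (prodA Y Unit)) hA (fun c _ => FF_extZ M ∅ c)
        (fun c hc h => le_nilG hM.frob hΓ₁ (MDescM.of_Zs hY hM hs (hAY c hc)
          (MDescM.gysin p hY hΓ hsi (hAY c hc) h))) hPA ?_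
      refine Nil.map hA (fun c _ => FF_extZ M ∅ c) (fun c hc h => ?_) hPA
        (hg P hP fun γ hγ => hP' γ (Or.inl hγ))
      obtain ⟨s, h1, r, h2, h3⟩ := Submodule.mem_sup.1 h
      obtain ⟨r', h4, h5⟩ := hZ.RatG_lift hW (e7 r h2)
      have h6 : Finsupp.mapDomain (extZ Unit ∅) c =
          Finsupp.mapDomain e s + r' - (r' - rs (prodA Y Unit \ Zs Y) r') := by
        rw [h5, ← Finsupp.mapDomain_congr fun Q hQ => eP Q (mS.1 (hc hQ)).1 (mS.1 (hc hQ)).2.1,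
          ← h3, Finsupp.mapDomain_add]
        abel
      have h7 := congrArg (flt {Q | dm K Q = dm K P + 1}) h6
      rw [flt_eq_self (fun Q hQ => MDescM.md_mem (S := S) (fun Q' hQ' => by
        change dm K (extZ Unit ∅ Q') = dm K P + 1
        rw [dm_extZ, (mS.1 hQ').2.2]; simp) hc hQ), map_sub, map_add] at h7
      rw [Finsupp.lmapDomain_apply, h7]
      refine Submodule.sub_mem _ (hnil (Submodule.add_mem_sup
        (flt_SmR _ (SmR_mono Set.sdiff_subset (e6 s h1))) (flt_dm_RatG h4 _)))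
        (mem_of_singles fun Q hQ => ?_)
      have hQd : dm K Q = dm K P + 1 := by
        by_contra h
        exact hQ (flt_apply_of_not_mem h _)
      rw [flt_apply_of_mem hQd, Finsupp.sub_apply] at hQ
      have hQE : Q ∉ hat (prodA Y Unit \ Zs Y) := fun h => hQ (by
        rw [flt_apply_of_mem h, sub_self])
      rw [flt_apply_of_not_mem hQE, sub_zero] at hQ
      have hQW := RatG_supp h4 hQ
      have hQZ : Q ∈ hat (Zs Y) := by
        by_contra h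
        exact hQE ((hZ.mem_hat_diff hW).2 ⟨hQW, h⟩)
      obtain ⟨h8, h9⟩ := (mem_hat_Zs hY).1 hQZ
      have eQ : Q = extZ Unit Set.univ (down Q) := eq_extZ_univ fun _ => h9
      have h10 : dm K (down Q) = dm K P + 1 := by
        rw [← hQd]
        conv_rhs => rw [eQ, dm_extZ]
        simp
      have h11 := Nil.map' (g := Finsupp.lmapDomain ℚ ℚ (extZ Unit Set.univ))
        (F' := FF p (mL M Unit)) (A := Finsupp.supported ℚ ℚ (hat Y))
        (fun c hc => FF_hat hM.frob hc) (fun c _ => FF_extZ M Set.univ c)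
        (fun c hc h => MDescM.to_Zs hY hM hs hc h) (Finsupp.single_mem_supported ℚ 1 h8)
        (ih _ h8 (stable_down (hΓ.ratG_stable h4 hQ)) (by omega))
      rw [Finsupp.lmapDomain_apply, Finsupp.mapDomain_single, ← eQ] at h11
      exact Nil.mono (sup_le_sup (SmR_mono hZ.1) (hZ.RatG_le hW _)) h11
  exact fun P hP hP' => key (Nat.card ι + 1) P hP hP' (by omega)

end Pool.Agent.Lib.MP_60ec62_ag.DL
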