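import Pool.Agent.Lib.MP_60ec62_ag.DF.MDescA
import Pool.Agent.Lib.MP_60ec62_ag.DF.MDescM
import Pool.Agent.Lib.MP_60ec62_ag.DL.Chain

/-!
Descent along triangular groups.
-/

noncomputable section

namespace Pool.Agent.Lib.MP_60ec62_ag.DL

open MvPolynomial

namespace MChain

open Chain (Mx Ix lf lf_apply lf_one hom hom_X matA_pt Tri det_ne NS E E_mem E_self E_sq_zero E_sq
  entry_mul pt_formula mn eval_mn exists_mn eval_pt_mn)

variable {K : Type} [Field K] {α : Type} {n : ℕ}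

/-- Sets of positions on or above the diagonal that contain all positions of the same block
further away from the diagonal than one of their elements. -/
def Adm (S : Set (Ix α n)) : Prop :=
  (∀ x ∈ S, x.2.1 ≤ x.2.2) ∧ ∀ x ∈ S, ∀ y : Ix α n, y.1 = x.1 →
    x.2.2.1 + y.2.1.1 < y.2.2.1 + x.2.1.1 → y ∈ S

variable {S S₀ : Set (Ix α n)} {A : Set α}

lemma Adm.tri (hS : Adm S) {ν : Mx K α n} (h : ν ∈ NS K S) : Tri ν :=
  fun a r c hrc => h a r c fun hm => absurd (hS.1 _ hm) (not_le.2 hrc)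

lemma Adm.mul_tri (hS : Adm S) {ν τ : Mx K α n} (h : ν ∈ NS K S) (hτ : Tri τ) :
    ν * τ ∈ NS K S := by
  intro a r c hm
  rw [Pi.mul_apply, Matrix.mul_apply]
  refine Finset.sum_eq_zero fun b _ => ?_
  rcases lt_trichotomy b c with hb | rfl | hb
  · rw [h a r b fun hm' => hm (hS.2 _ hm' _ rfl (by have : b.1 < c.1 := hb; dsimp only; omega)),
      zero_mul]
  · rw [h a r b hm, zero_mul]
  · rw [hτ a hb, mul_zero]

lemma Adm.tri_mul (hS : Adm S) {ν τ : Mx K α n} (h : ν ∈ NS K S) (hτ : Tri τ) :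
    τ * ν ∈ NS K S := by
  intro a r c hm
  rw [Pi.mul_apply, Matrix.mul_apply]
  refine Finset.sum_eq_zero fun b _ => ?_
  rcases lt_trichotomy r b with hb | rfl | hb
  · rw [h a b c fun hm' => hm (hS.2 _ hm' _ rfl (by have : r.1 < b.1 := hb; dsimp only; omega)),
      mul_zero]
  · rw [h a r c hm, mul_zero]
  · rw [hτ a hb, zero_mul]

lemma Adm.tri_unit (hS : Adm S) {β : Mx K α n} (h : β - 1 ∈ NS K S) : Tri β := by
  have := (hS.tri h).one_add
  rwa [add_sub_cancel] at this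

variable (K) in
/-- The invertible families that differ from the identity only in the given positions. -/
def U (hS : Adm S) : Subgroup (Mx K α n)ˣ where
  carrier := {β | β.1 - 1 ∈ NS K S}
  one_mem' := by
    show (1 : Mx K α n) - 1 ∈ NS K S
    rw [sub_self]; exact zero_mem _
  mul_mem' {β β'} h h' := by
    show β.1 * β'.1 - 1 ∈ NS K S
    have : β.1 * β'.1 - 1 = (β.1 - 1) * β'.1 + (β'.1 - 1) := by noncomm_ring
    rw [this]
    exact add_mem (hS.mul_tri h (hS.tri_unit h')) h'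
  inv_mem' {β} h := by
    show (β⁻¹ : (Mx K α n)ˣ).1 - 1 ∈ NS K S
    have : (β⁻¹ : (Mx K α n)ˣ).1 - 1 = -((β.1 - 1) * (β⁻¹ : (Mx K α n)ˣ).1) := by
      rw [sub_mul, Units.mul_inv, one_mul, neg_sub]
    rw [this]
    exact neg_mem (hS.mul_tri h (hS.tri_unit h).inv)

lemma mem_U (hS : Adm S) {β : (Mx K α n)ˣ} : β ∈ U K hS ↔ β.1 - 1 ∈ NS K S := Iff.rfl

lemma conj_mem (hS : Adm S) {β τ : (Mx K α n)ˣ} (h : β ∈ U K hS) (hτ : Tri τ.1) :
    τ * β * τ⁻¹ ∈ U K hS := by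
  rw [mem_U]
  have : (τ * β * τ⁻¹ : (Mx K α n)ˣ).1 - 1 = τ.1 * (β.1 - 1) * (τ⁻¹ : (Mx K α n)ˣ).1 := by
    rw [mul_sub, sub_mul, mul_one, Units.mul_inv, Units.val_mul, Units.val_mul]
  rw [this]
  exact hS.mul_tri (hS.tri_mul h hτ) hτ.inv

variable (K) in
/-- The corresponding group of automorphisms. -/
def H (hS : Adm S) : Subgroup (Au K (Ix α n)) := (U K hS).map hom

lemma H_subset (hS : Adm S) : (H K hS : Set (Au K (Ix α n))) ⊆ BsetA α n := by
  rintro _ ⟨β, hβ, rfl⟩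
  exact ⟨β.1, fun a => ⟨hS.tri_unit hβ a, det_ne β a⟩, fun a l i => hom_X β (a, (l, i))⟩

/-- The positions on or above the diagonal in the blocks of `A`. -/
def top (n : ℕ) (A : Set α) : Set (Ix α n) := {x | x.1 ∈ A ∧ x.2.1 ≤ x.2.2}

lemma adm_top (A : Set α) : Adm (top n A) :=
  ⟨fun _ h => h.2, fun x h y e hy => ⟨e ▸ h.1, by
    have h1 : x.2.1.1 ≤ x.2.2.1 := h.2
    show y.2.1.1 ≤ y.2.2.1
    omega⟩⟩

lemma H_top (A : Set α) : (H K (adm_top (n := n) A) : Set (Au K (Ix α n))) = BsetS n A := by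
  refine Set.Subset.antisymm ?_ ?_
  · rintro _ ⟨β, hβ, rfl⟩
    refine ⟨β.1, fun a => ⟨(adm_top A).tri_unit hβ a, det_ne β a⟩, fun a ha => ?_,
      fun a l i => hom_X β (a, (l, i))⟩
    exact sub_eq_zero.1 (Matrix.ext fun r c => hβ a r c fun h => ha h.1)
  rintro γ ⟨β, hβ, h1, hγ⟩
  have hu : IsUnit β :=
    Pi.isUnit_iff.2 fun a => (Matrix.isUnit_iff_isUnit_det _).2 (Ne.isUnit (hβ a).2)
  refine ⟨hu.unit, fun a r c hrc => ?_, ?_⟩
  · show β a r c - (1 : Matrix (Fin n) (Fin n) K) r c = 0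
    by_cases ha : a ∈ A
    · have h1 : c < r := not_le.1 fun h => hrc ⟨ha, h⟩
      rw [(hβ a).1 h1, Matrix.one_apply_ne h1.ne', sub_zero]
    · rw [h1 a ha, sub_self]
  · refine AlgEquiv.coe_toAlgHom_injective (MvPolynomial.algHom_ext fun i => ?_)
    show hom hu.unit (X i) = γ (X i)
    rw [hom_X]
    exact (hγ i.1 i.2.1 i.2.2).symm

lemma H_empty (hS : Adm S) (h : ∀ x, x ∉ S) : H K hS = Subgroup.closure ∅ := by
  rw [Subgroup.closure_empty, eq_bot_iff]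
  rintro _ ⟨β, hβ, rfl⟩
  have : β = 1 := Units.ext (sub_eq_zero.1 (funext fun a => Matrix.ext fun r c =>
    hβ a r c (h _)))
  rw [this, map_one]
  exact one_mem _

open Classical in
lemma conn_H [Finite α] [Infinite K] (hS : Adm S) : Conn (H K hS : Set (Au K (Ix α n))) := by
  rintro _ ⟨β, hβ, rfl⟩
  set ν := β.1 - 1 with hν
  have hβ' : ν ∈ NS K S := hβ
  refine ⟨{s | IsUnit (1 + s • ν)}, fun s => if h : IsUnit (1 + s • ν) then hom h.unit else 1,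
    ?_, fun s hs => ?_, ⟨0, by simp, ?_⟩, ⟨1, ?_, ?_⟩, fun i =>
      ⟨1, Polynomial.C (X i) + Polynomial.X * Polynomial.C (lf i ν), fun s hs => ⟨by simp, ?_⟩⟩⟩
  · refine (Set.finite_range fun x : α × Fin n => -(ν x.1 x.2 x.2)⁻¹).infinite_compl.mono
      fun s hs => ?_
    refine (hS.tri ((NS K S).smul_mem s hβ')).one_add.isUnit fun a i h0 => hs ⟨(a, i), ?_⟩
    have h1 : 1 + s * ν a i i = 0 := by simpa using h0
    have h2 : ν a i i ≠ 0 := fun h => by simp [h] at h1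
    show -(ν a i i)⁻¹ = s
    field_simp
    linear_combination -h1
  · have hs' : IsUnit (1 + s • ν) := hs
    simp only [dif_pos hs']
    refine ⟨hs'.unit, ?_, rfl⟩
    show (1 + s • ν) - 1 ∈ NS K S
    rw [add_sub_cancel_left]
    exact (NS K S).smul_mem s hβ'
  · have h0 : IsUnit (1 + (0 : K) • ν) := by simp
    simp only [dif_pos h0]
    rw [show h0.unit = 1 from Units.ext (by simp), map_one]
  · show IsUnit (1 + (1 : K) • ν)
    rw [one_smul, hν, add_sub_cancel]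
    exact β.isUnit
  · have h0 : IsUnit (1 + (1 : K) • ν) := by
      rw [one_smul, hν, add_sub_cancel]
      exact β.isUnit
    simp only [dif_pos h0]
    rw [show h0.unit = β from Units.ext (by rw [IsUnit.unit_spec, one_smul, hν, add_sub_cancel])]
  · have hs' : IsUnit (1 + s • ν) := hs
    simp only [dif_pos hs']
    rw [hom_X, IsUnit.unit_spec, map_add, map_smul, lf_one, smul_eq_C_mul]
    simp only [Polynomial.eval_one, map_one, one_mul, Polynomial.eval_add, Polynomial.eval_C,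
      Polynomial.eval_mul, Polynomial.eval_X]

lemma closure_step (hS : Adm S) (hS₀ : Adm S₀) (hle : S₀ ⊆ S) {σ : Type} (ρ : σ → (Mx K α n)ˣ)
    (hρ : ∀ s, ρ s ∈ U K hS) (h : ∀ β ∈ U K hS, ∃ s, β * ρ s ∈ U K hS₀) :
    H K hS = Subgroup.closure (H K hS₀ ∪ Set.range fun s => hom (ρ s)) := by
  refine le_antisymm ?_ ((Subgroup.closure_le _).2 ?_)
  · rintro _ ⟨β, hβ, rfl⟩
    obtain ⟨s, hs⟩ := h β hβ
    have : hom β = hom (β * ρ s) * (hom (ρ s))⁻¹ := by rw [map_mul, mul_inv_cancel_right]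
    rw [this]
    exact mul_mem (Subgroup.subset_closure (Or.inl ⟨_, hs, rfl⟩))
      (inv_mem (Subgroup.subset_closure (Or.inr ⟨s, rfl⟩)))
  · rintro _ (⟨β, hβ, rfl⟩ | ⟨s, rfl⟩)
    · exact ⟨β, fun a r c hm => hβ a r c fun hm' => hm (hle hm'), rfl⟩
    · exact ⟨ρ s, hρ s, rfl⟩

lemma mem_U_diff (hS : Adm S) {q : Ix α n} (hS₀ : Adm (S \ {q})) {β : (Mx K α n)ˣ}
    (h : β ∈ U K hS) (hq : (β.1 - 1) q.1 q.2.1 q.2.2 = 0) : β ∈ U K hS₀ := by
  intro a r c hm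
  by_cases h1 : (a, (r, c)) = q
  · subst h1
    exact hq
  · exact h a r c fun hm' => hm ⟨hm', h1⟩

lemma pt_hom (β : (Mx K α n)ˣ) (x : Ix α n → K) (j : Ix α n) :
    pt (hom β) x j = ∑ b, x (j.1, (j.2.1, b)) * β.1 j.1 b j.2.2 := by
  simp [pt, hom_X, lf_apply]

lemma uau_E {q : Ix α n} (hq : q.1 ∈ A) {β : (Mx K α n)ˣ} {t : K} (h : β.1 = 1 + t • E K q) :
    UAu {v | v.1 ∈ Aᶜ} (hom β) := by
  refine ⟨fun j hj x y hxy => ?_, fun j hj x => ?_⟩
  · rw [pt_hom, pt_hom]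
    exact Finset.sum_congr rfl fun b _ => by rw [hxy (j.1, (j.2.1, b)) hj]
  · have h1 : β.1 j.1 = 1 := by
      ext r c
      have : (j.1, (r, c)) ≠ q := fun e => hj (by rw [← e] at hq; exact hq)
      simp [h, E, this]
    rw [pt_hom, h1, Finset.sum_eq_single j.2.2]
    · simp
    · intro b _ hb
      simp [Matrix.one_apply_ne hb]
    · simp

lemma unm_mn {a : α} (ha : a ∈ A) (k : ℕ) (u : {b : Fin n // b.1 < k} → Fin n) :
    Unm {v | v.1 ∈ Aᶜ} (up (mn K a k u)) := by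
  intro x y hxy
  have : matA x a = matA y a := Matrix.ext fun l i => hxy (a, (l, i)) fun h => h ha
  rw [eval_mn, eval_mn, this]

lemma semi {Y : Set (Ix α n → K)} (hd : ∀ x ∈ Y, ∀ a, (matA x a).det ≠ 0) {z : Pr K (Ix α n)}
    (hz : z ∈ hat Y) {a : α} (ha : a ∈ A) (i : Fin n) : ∃ m d : MvPolynomial (Ix α n) K,
      m ∉ z.asIdeal ∧ d ∉ z.asIdeal ∧ Unm {v | v.1 ∈ Aᶜ} m ∧ Unm {v | v.1 ∈ Aᶜ} d ∧
        ∀ β : (Mx K α n)ˣ, Tri β.1 → SemiInv (hom β) (β.1 a i i) z m d := by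
  obtain ⟨x, hx, hxz⟩ := hat_nonempty hz
  obtain ⟨u, hu⟩ := exists_mn (hd x hx a) (i.1 + 1)
  obtain ⟨v, hv⟩ := exists_mn (hd x hx a) i.1
  refine ⟨_, _, fun h => hu (hxz _ h), fun h => hv (hxz _ h), unm_mn ha _ _, unm_mn ha _ _,
    fun β hβ => (semiInv_iff hz).2 fun y _ _ => ?_⟩
  have : (Finset.univ.filter fun b : Fin n => b.1 < i.1 + 1) =
      insert i (Finset.univ.filter fun b : Fin n => b.1 < i.1) := by
    ext b
    simp only [Finset.mem_filter, Finset.mem_univ, true_and, Finset.mem_insert, Fin.ext_iff]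
    omega
  rw [eval_pt_mn hβ, eval_pt_mn hβ, this, Finset.prod_insert (by simp)]
  ring

variable [IsAlgClosed K] {p : ℕ} [Fact p.Prime] [CharP K p]

open Classical in
lemma fg_H (hS : Adm S) (A : Set α) : FG p {v | v.1 ∈ A} (H K hS : Set (Au K (Ix α n))) := by
  rintro _ ⟨β, hβ, rfl⟩
  let σ : α → K →+* K := fun a =>
    if a ∈ A then ((frobeniusEquiv K p).symm : K →+* K) else RingHom.id K
  let Φ : Mx K α n →+* Mx K α n :=
    RingHom.pi fun a => (RingHom.mapMatrix (σ a)).comp (Pi.evalRingHom _ a)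
  refine ⟨hom (Units.map (Φ : Mx K α n →* Mx K α n) β), ⟨_, fun a r c hm => ?_, rfl⟩,
    fun x => funext fun j => ?_⟩
  · have h1 : Φ β.1 - 1 = Φ (β.1 - 1) := by rw [map_sub, map_one]
    show (Φ β.1 - 1) a r c = 0
    rw [h1]
    show σ a ((β.1 - 1) a r c) = 0
    rw [hβ a r c hm, map_zero]
  · have h2 : ∀ b, (Units.map (Φ : Mx K α n →* Mx K α n) β).1 j.1 b j.2.2 =
        σ j.1 (β.1 j.1 b j.2.2) := fun b => rfl
    by_cases hj : j.1 ∈ A
    · rw [pfx_of_mem (M := {v : Ix α n | v.1 ∈ A}) hj, pt_hom, pt_hom, sum_pow_char]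
      refine Finset.sum_congr rfl fun b _ => ?_
      rw [h2, pfx_of_mem (M := {v : Ix α n | v.1 ∈ A}) (i := (j.1, (j.2.1, b))) hj, mul_pow]
      simp only [σ, if_pos hj]
      congr 1
      exact frobeniusEquiv_symm_pow_p K p _
    · rw [pfx_of_not_mem (M := {v : Ix α n | v.1 ∈ A}) hj, pt_hom, pt_hom]
      refine Finset.sum_congr rfl fun b _ => ?_
      rw [h2, pfx_of_not_mem (M := {v : Ix α n | v.1 ∈ A}) (i := (j.1, (j.2.1, b))) hj]
      simp only [σ, if_neg hj, RingHom.id_apply]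

variable [Finite α] {Y : Set (Ix α n → K)}

lemma stepA (hY : LC Y) (hs : StSet (BsetA α n) Y) (hM : MSet p {v | v.1 ∈ Aᶜ} Y)
    (hS : Adm S) {q : Ix α n} (hq : q ∈ S) (hqA : q.1 ∈ A) (hS₀ : Adm (S \ {q})) (h : q.2.1 ≠ q.2.2)
    (hdiag : (q.1, (q.2.1, q.2.1)) ∉ S) (hg : MGoodG p {v | v.1 ∈ Aᶜ} (H K hS₀) Y) :
    MGoodG p {v | v.1 ∈ Aᶜ} (H K hS) Y := by
  let f : Multiplicative K →* Mx K α n :=
    { toFun := fun s => 1 + s.toAdd • E K q
      map_one' := by simp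
      map_mul' := fun s t => by
        simp only [toAdd_mul, mul_add, add_mul, mul_one, one_mul, smul_mul_smul_comm,
          E_sq_zero h, smul_zero, add_zero, add_smul]
        abel }
  let ρ : K → (Mx K α n)ˣ := fun s => f.toHomUnits (Multiplicative.ofAdd s)
  have hv : ∀ s, (ρ s).1 = 1 + s • E K q := fun s => rfl
  have hρ : ∀ s, ρ s ∈ U K hS := fun s => by
    rw [mem_U, hv, add_sub_cancel_left]
    exact (NS K S).smul_mem s (E_mem hq)
  have hcl := closure_step hS hS₀ Set.sdiff_subset ρ hρ fun β hβ =>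
    ⟨-β.1 q.1 q.2.1 q.2.2, mem_U_diff hS hS₀ (mul_mem hβ (hρ _)) (by
      have h1 : β.1 q.1 q.2.1 q.2.1 - (1 : Matrix (Fin n) (Fin n) K) q.2.1 q.2.1 = 0 :=
        hβ _ _ _ hdiag
      rw [Matrix.one_apply_eq, sub_eq_zero] at h1
      rw [Units.val_mul, hv, entry_mul, h1, Matrix.one_apply_ne h]
      ring)⟩
  obtain ⟨F, hF⟩ := pt_formula (K := K) q 0
  rw [hcl, mgoodG_closure]
  refine mdescA hY hM (H K hS₀) (fun s => hom (ρ s)) (conn_H hS₀) ?_ (fun s s' => ?_) ?_ F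
    (fun s => hF s (ρ s) (by simp [hv])) (fun γ hγ => hs γ (H_subset hS ?_))
    (fg_H hS₀ Aᶜ) (fun s => uau_E hqA (hv s)) hg
  · simp [ρ]
  · simp [ρ, ofAdd_add]
  · rintro s _ ⟨β, hβ, rfl⟩
    exact ⟨_, conj_mem hS₀ hβ (hS.tri_unit (hρ s)), by simp⟩
  · rw [hcl]
    exact Subgroup.subset_closure hγ

lemma stepM (hY : LC Y) (hM : MSet p {v | v.1 ∈ Aᶜ} Y)
    (hd : ∀ x ∈ Y, ∀ a, (matA x a).det ≠ 0) (hs : StSet (BsetA α n) Y)
    (hS : Adm S) {q : Ix α n} (hq : q ∈ S) (hqA : q.1 ∈ A) (hS₀ : Adm (S \ {q}))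
    (h : q.2.1 = q.2.2)
    (hg : MGoodG p {v | v.1 ∈ Aᶜ} (H K hS₀) Y) : MGoodG p {v | v.1 ∈ Aᶜ} (H K hS) Y := by
  let f : K →* Mx K α n :=
    { toFun := fun s => 1 + (s - 1) • E K q
      map_one' := by simp
      map_mul' := fun s t => by
        simp only [mul_add, add_mul, mul_one, one_mul, smul_mul_smul_comm, E_sq h, add_assoc,
          ← add_smul]
        congr 2
        ring }
  let ρ : Kˣ →* (Mx K α n)ˣ := Units.map f
  have hv : ∀ s, (ρ s).1 = 1 + ((s : K) - 1) • E K q := fun s => rfl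
  have hρ : ∀ s, ρ s ∈ U K hS := fun s => by
    rw [mem_U, hv, add_sub_cancel_left]
    exact (NS K S).smul_mem _ (E_mem hq)
  have hcl := closure_step hS hS₀ Set.sdiff_subset ρ hρ fun β hβ =>
    ⟨(Units.mk0 _ ((hS.tri_unit hβ).diag_ne q.1 q.2.1))⁻¹,
      mem_U_diff hS hS₀ (mul_mem hβ (hρ _)) (by
      have h1 := (hS.tri_unit hβ).diag_ne q.1 q.2.1
      rw [Units.val_mul, hv, entry_mul, ← h]
      simp [sub_mul, inv_mul_cancel₀ h1])⟩
  obtain ⟨F, hF⟩ := pt_formula (K := K) q 1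
  rw [hcl, mgoodG_closure]
  refine mdescM hY hM (H K hS₀) (hom.comp ρ) (conn_H hS₀) ?_ F
    (fun s => hF s (ρ s) (by simp [hv])) (fun γ hγ => hs γ (H_subset hS ?_)) (fun z hz _ => ?_)
    (fg_H hS₀ Aᶜ) (fun s => uau_E hqA (hv s)) hg
  · rintro s _ ⟨β, hβ, rfl⟩
    exact ⟨_, conj_mem hS₀ hβ (hS.tri_unit (hρ s)), by simp⟩
  · rw [hcl]
    exact Subgroup.subset_closure hγ
  · obtain ⟨m, d, hm, hd', um, ud, hsemi⟩ := semi hd hz hqA q.2.1
    refine ⟨m, d, hm, hd', um, ud, ?_, fun s => ?_⟩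
    · rintro _ ⟨β, hβ, rfl⟩
      have h1 : β.1 q.1 q.2.1 q.2.1 - (1 : Matrix (Fin n) (Fin n) K) q.2.1 q.2.1 = 0 :=
        hβ _ _ _ fun hm' => hm'.2 (_root_.Prod.ext rfl (_root_.Prod.ext rfl h))
      rw [Matrix.one_apply_eq, sub_eq_zero] at h1
      have := hsemi β (hS₀.tri_unit hβ)
      rwa [h1] at this
    · have := hsemi (ρ s) (hS.tri_unit (hρ s))
      have h1 : (ρ s).1 q.1 q.2.1 q.2.1 = s := by
        have h2 := E_self (K := K) q
        rw [← h] at h2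
        rw [hv]
        simp [h2]
      rwa [h1] at this

lemma good_H {A₀ : Set α} (hY : LC Y) (hM : MSet p {v | v.1 ∈ Aᶜ} Y)
    (hd : ∀ x ∈ Y, ∀ a, (matA x a).det ≠ 0) (hs : StSet (BsetA α n) Y)
    (hg : MGoodG p {v | v.1 ∈ Aᶜ} (BsetS n A₀) Y) (S : Set (Ix α n)) :
    ∀ hS : Adm S, top n A₀ ⊆ S → S ⊆ top n (A₀ ∪ A) → MGoodG p {v | v.1 ∈ Aᶜ} (H K hS) Y := by
  induction S using WellFoundedLT.induction with
  | ind S ih =>
    intro hS h₁ h₂
    rcases (S \ top n A₀).eq_empty_or_nonempty with he | hne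
    · obtain rfl : S = top n A₀ := (Set.sdiff_eq_empty.1 he).antisymm h₁
      rw [H_top]
      exact hg
    obtain ⟨q, ⟨hq, hq₀⟩, hmin⟩ := (S \ top n A₀).exists_min_image
      (fun x => (x.2.2.1 : ℤ) - x.2.1.1) (Set.toFinite _) hne
    have hqA₀ : q.1 ∉ A₀ := fun h => hq₀ ⟨h, hS.1 q hq⟩
    have hqA : q.1 ∈ A := (h₂ hq).1.resolve_left hqA₀
    have hS₀ : Adm (S \ {q}) := ⟨fun x hx => hS.1 x hx.1, fun x hx y e hy =>
      ⟨hS.2 x hx.1 y e hy, fun hyq => by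
        obtain rfl : y = q := hyq
        have h1 := hmin x ⟨hx.1, fun h => hqA₀ (e ▸ h.1)⟩
        omega⟩⟩
    have h0 := ih (S \ {q}) (Set.sdiff_singleton_ssubset.2 hq) hS₀
      (fun x hx => ⟨h₁ hx, fun e => hq₀ (Set.mem_singleton_iff.1 e ▸ hx)⟩) fun x hx => h₂ hx.1
    by_cases h : q.2.1 = q.2.2
    · exact stepM hY hM hd hs hS hq hqA hS₀ h h0
    · refine stepA hY hs hM hS hq hqA hS₀ h (fun hm => h ?_) h0
      have h1 := hmin _ ⟨hm, fun h => hqA₀ h.1⟩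
      have h2 : q.2.1.1 ≤ q.2.2.1 := hS.1 q hq
      dsimp only at h1
      exact Fin.ext (by omega)

end MChain

variable {K : Type} [Field K] [IsAlgClosed K] {p q : ℕ} [Fact p.Prime] [CharP K p]
  {ι κ ι' τ : Type} [Finite ι] [Finite κ] [Finite ι'] [Finite τ]

variable {α : Type} [Finite α] {n : ℕ} {Y : Set (α × (Fin n × Fin n) → K)}

omit [IsAlgClosed K] [Finite α] in
lemma BsetS_univ : BsetS (K := K) n (Set.univ : Set α) = BsetA α n :=
  Set.ext fun _ => ⟨fun ⟨β, h₁, _, h₂⟩ => ⟨β, h₁, h₂⟩,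
    fun ⟨β, h₁, h₂⟩ => ⟨β, h₁, fun a ha => absurd (Set.mem_univ a) ha, h₂⟩⟩

omit [Finite α] in
lemma fg_BsetS (A A₀ : Set α) : FG p {v | v.1 ∈ A} (BsetS (K := K) n A₀) := by
  rw [← MChain.H_top]
  exact MChain.fg_H _ A

lemma mgoodG_BsetS_empty {M : Set (α × (Fin n × Fin n))} :
    MGoodG p M (BsetS n ∅) Y ↔ MGoodG p M ∅ Y := by
  rw [← MChain.H_top, MChain.H_empty _ fun _ h => h.1, mgoodG_closure]

theorem mchain (A₀ A : Set α) (hY : LC Y) (hd : ∀ x ∈ Y, ∀ a, (matA x a).det ≠ 0)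
    (hs : StSet (BsetA α n) Y) (hM : MSet p {v | v.1 ∈ Aᶜ} Y)
    (hg : MGoodG p {v | v.1 ∈ Aᶜ} (BsetS n A₀) Y) :
    MGoodG p {v | v.1 ∈ Aᶜ} (BsetS n (A₀ ∪ A)) Y := by
  rw [← MChain.H_top]
  exact MChain.good_H hY hM hd hs hg _ _ (fun x hx => ⟨Or.inl hx.1, hx.2⟩) subset_rfl

end Pool.Agent.Lib.MP_60ec62_ag.DL
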