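import Pool.Agent.Lib.MP_60ec62_ag.DF.MIso
import Pool.Agent.Lib.MP_60ec62_ag.DL.DescA

/-!
Descent along an additive group.
-/

noncomputable section

namespace Pool.Agent.Lib.MP_60ec62_ag.DL

open MvPolynomial

variable {K : Type} [Field K] [IsAlgClosed K] {p q : ℕ} [Fact p.Prime] [CharP K p]
  {ι κ ι' τ : Type} [Finite ι] [Finite κ] [Finite ι'] [Finite τ]

namespace MDescA

open DescA

omit [IsAlgClosed K] [Finite ι] [Finite κ] in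
lemma mix_inl (M : Set ι) (x y : ι ⊕ κ → K) :
    mix (mL M κ) x y ∘ Sum.inl = mix M (x ∘ Sum.inl) (y ∘ Sum.inl) := by
  funext i
  by_cases hi : i ∈ M
  · rw [mix_of_mem hi, Function.comp_apply, mix_of_mem (inl_mem_mL.2 hi)]
    rfl
  · rw [mix_of_not_mem hi, Function.comp_apply, mix_of_not_mem (mt inl_mem_mL.1 hi)]
    rfl

omit [IsAlgClosed K] [Finite ι] in
lemma smR_of_agree {M : Set ι} {Γ Γ' : Set (Au K ι)} {Z : Set (ι → K)} (hs : StSet Γ' Z)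
    (h : ∀ γ' ∈ Γ', ∃ γ ∈ Γ, ∀ x ∈ Z, pt γ' x = pt γ x) : SmR M Γ Z ≤ SmR M Γ' Z :=
  Finsupp.supported_mono fun _ ⟨h1, h2, h3⟩ => ⟨h1, stable_of_agree hs h h1 h2, h3⟩

omit [IsAlgClosed K] [Finite ι] [Finite κ] in
lemma flt_map {S : Set (Pr K κ)} {f : Pr K ι → Pr K κ} {c : Cy K ι}
    (h : ∀ P, c P ≠ 0 → f P ∈ S) : flt S (Finsupp.mapDomain f c) = Finsupp.mapDomain f c := by
  classical
  refine flt_eq_self fun Q hQ => ?_
  obtain ⟨P, hP, rfl⟩ :=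
    Finset.mem_image.1 (Finsupp.mapDomain_support (Finsupp.mem_support_iff.2 hQ))
  exact h P (Finsupp.mem_support_iff.1 hP)

lemma GE_ext {s : Set κ} {j : κ} (hj : j ∉ s) (c : Cy K ι) :
    GE (X (Sum.inr j)) (fun _ => 1) (fun _ => 1) (Finsupp.mapDomain (extZ κ s) c) =
      Finsupp.mapDomain (extZ κ (insert j s)) c := by
  induction c using Finsupp.induction_linear with
  | zero => simp
  | add a b ha hb => rw [Finsupp.mapDomain_add, Finsupp.mapDomain_add, map_add, ha, hb]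
  | single P a =>
    rw [Finsupp.mapDomain_single, Finsupp.mapDomain_single, ← mul_one a, ← smul_eq_mul,
      ← Finsupp.smul_single, ← Finsupp.smul_single, map_smul,
      GE_single' _ _ _ _ (mt X_mem_extZ.1 hj), dv_extZ_X hj]

/-- Intersection with an invariant unmarked coordinate hyperplane. -/
lemma cutR (p : ℕ) [Fact p.Prime] [CharP K p] {M : Set ι} {W : Set (ι → K)} (hW : LC W)
    {Γ : Set (Au K ι)} (hΓ : Conn Γ) (j : ι) (hM : j ∉ M) (hj : ∀ γ ∈ Γ, γ (X j) = X j)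
    {s r : Cy K ι} (hs : s ∈ SmR M Γ W) (hr : r ∈ RatG Γ W) :
    rs W (GE (X j) (fun _ => 1) (fun _ => 1) (s + r)) ∈
      SmR M Γ {x ∈ W | eval x (X j) = 0} ⊔ RatG Γ {x ∈ W | eval x (X j) = 0} := by
  have h1 : ∀ (γ : Au K ι) (z : Pr K ι), SemiInv γ 1 z 1 1 := fun γ z => by simp [SemiInv]
  have h2 : ∀ γ ∈ Γ, ∃ c ≠ 0, γ (X j) = C c * X j ∧
      ∀ z ∈ hat W, Stable Γ z → X j ∈ z.asIdeal → SemiInv γ c z 1 1 :=
    fun γ hγ => ⟨1, one_ne_zero, by rw [hj γ hγ, map_one, one_mul], fun z _ _ _ => h1 γ z⟩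
  rw [map_add, map_add]
  exact Submodule.add_mem_sup (eg_rect hW hΓ _ _ _ (unm_X hM)
    (fun z _ _ _ => ⟨EG.one_notMem z, EG.one_notMem z, unm_one, unm_one⟩) h2 hs)
    (eg_rat p hW hΓ _ _ _ (fun z _ _ _ => ⟨EG.one_notMem z, EG.one_notMem z⟩) h2 hr)

/-- The linear form of the descent. -/
lemma lin {M : Set ι} {Y : Set (ι → K)} (hY : LC Y) (hM : MSet p M Y)
    (H : Subgroup (Au K ι)) (ρ : K → Au K ι) (hH : Conn (H : Set (Au K ι))) (h0 : ρ 0 = 1)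
    (hadd : ∀ s s', ρ (s + s') = ρ s * ρ s') (hn : ∀ s, ∀ γ ∈ H, ρ s * γ * (ρ s)⁻¹ ∈ H)
    (F : ι → MvPolynomial (Option ι) (kk K))
    (hF : ∀ s x i, pt (ρ s) x i = aeval (fun o : Option ι => o.elim s x) (F i))
    (hs : StSet (H ∪ Set.range ρ) Y) (hU : ∀ s, UAu M (ρ s)) {c : Cy K ι}
    (hc : c ∈ StG (H ∪ Set.range ρ) Y) (hg : c ∈ SmR M H Y ⊔ RatG H Y) :
    c ∈ SmR M (H ∪ Set.range ρ) Y ⊔ RatG (H ∪ Set.range ρ) Y := by
  have hρ := rho_poly ρ F hF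
  have hpp : ∀ s u x, pt (ρ u) (pt (ρ s) x) = pt (ρ (s + u)) x := fun s u x => by
    rw [hadd, pt_mul]
  have hρY : ∀ s x, pt (ρ s) x ∈ Y ↔ x ∈ Y := fun s => hs _ (Or.inr ⟨s, rfl⟩)
  have hcρ : Conn (Set.range ρ) := by
    rintro _ ⟨u, rfl⟩
    exact ⟨Set.univ, ρ, Set.infinite_univ, fun s _ => ⟨s, rfl⟩, ⟨0, trivial, h0⟩,
      ⟨u, trivial, rfl⟩, hρ⟩
  have hcρ' : Conn (Set.range fun s => ex (ρ s) s) := by
    rintro _ ⟨u, rfl⟩
    refine ⟨Set.univ, fun s => ex (ρ s) (1 * s), Set.infinite_univ,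
      fun s _ => ⟨s, by simp only [one_mul]⟩, ⟨0, trivial, ?_⟩, ⟨u, trivial, ?_⟩, ex_rat 1 hρ⟩
    · simp only [h0, mul_zero, ex_one]
    · simp only [one_mul]
  set Γ₁ : Set (Au K (ι ⊕ Fin 2)) := (fun γ => ex γ 0) '' H ∪ Set.range fun s => ex (ρ s) s
    with hΓ₁
  set Γ₂ : Set (Au K (ι ⊕ Fin 2)) := (fun γ => ex γ 0) '' (H ∪ Set.range ρ) with hΓ₂
  have hc₁ : Conn Γ₁ := (conn_ex hH).union hcρ'
  have hc₂ : Conn Γ₂ := conn_ex (hH.union hcρ)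
  have hW := hY.prodA (Fin 2)
  set W := prodA Y (Fin 2) with hWd
  set Z : Set (ι ⊕ Fin 2 → K) := {x ∈ W | eval x (X (Sum.inr 1)) = 0} with hZd
  have hZ : RelCl Z W := relCl_eval W _
  have hZl : LC Z := hZ.lc hW
  have hE : LC (W \ Z) := hZ.lc_diff hW
  have mZ : ∀ x, x ∈ Z ↔ x ∘ Sum.inl ∈ Y ∧ x (Sum.inr 1) = 0 := fun x => by
    simp [hZd, hWd, prodA]
  have mE : ∀ x, x ∈ W \ Z ↔ x ∘ Sum.inl ∈ Y ∧ x (Sum.inr 1) ≠ 0 := fun x => by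
    rw [Set.mem_sdiff, mZ]
    change x ∘ Sum.inl ∈ Y ∧ _ ↔ _
    tauto
  have hreg : ∀ c : K, c ∈ kk K → RegMap (W \ Z) fun x => Sum.elim
      (pt (ρ (c * (x (Sum.inr 0) / x (Sum.inr 1)))) (x ∘ Sum.inl)) (x ∘ Sum.inr) := by
    rintro c hc (i | j)
    · refine (RegF.aeval_comp (Φ := fun x o => Option.elim o
        (c * (x (Sum.inr 0) / x (Sum.inr 1))) (x ∘ Sum.inl)) ?_ (F i)).congr fun x _ => hF _ _ _
      rintro (_ | i)
      · exact (RegF.const hc).mul ((RegF.coord _).div (RegF.coord _) fun x hx => ((mE x).1 hx).2)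
      · exact RegF.coord _
    · exact RegF.coord _
  have hmaps : ∀ c : K, Set.MapsTo (fun x : ι ⊕ Fin 2 → K => Sum.elim
      (pt (ρ (c * (x (Sum.inr 0) / x (Sum.inr 1)))) (x ∘ Sum.inl)) (x ∘ Sum.inr))
      (W \ Z) (W \ Z) := fun c x hx => by
    rw [mE] at hx ⊢
    exact ⟨by rw [Sum.elim_comp_inl, hρY]; exact hx.1, hx.2⟩
  have hinv : ∀ c d : K, c + d = 0 → ∀ x : ι ⊕ Fin 2 → K, Sum.elim
      (pt (ρ (d * (x (Sum.inr 0) / x (Sum.inr 1))))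
        (pt (ρ (c * (x (Sum.inr 0) / x (Sum.inr 1)))) (x ∘ Sum.inl))) (x ∘ Sum.inr) = x :=
    fun c d h x => by rw [hpp, ← add_mul, h, zero_mul, h0, pt_one, Sum.elim_comp_inl_inr]
  have hiso : RegIso (W \ Z) (prodA Y (Fin 2) \ Z) (fun x => Sum.elim
      (pt (ρ (-1 * (x (Sum.inr 0) / x (Sum.inr 1)))) (x ∘ Sum.inl)) (x ∘ Sum.inr))
      (fun x => Sum.elim
      (pt (ρ (1 * (x (Sum.inr 0) / x (Sum.inr 1)))) (x ∘ Sum.inl)) (x ∘ Sum.inr)) :=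
    ⟨hreg _ (neg_mem (one_mem _)), hreg _ (one_mem _), hmaps _, hmaps _,
      fun x _ => hinv (-1) 1 (by simp) x, fun x _ => hinv 1 (-1) (by simp) x⟩
  have hex : ∀ γ ∈ (H : Set (Au K ι)) ∪ Set.range ρ, ∀ s x, pt (ex γ s) x ∘ Sum.inl ∈ Y ↔
      x ∘ Sum.inl ∈ Y := fun γ hγ s x => by rw [pt_ex_inl, hs γ hγ]
  have hΓ₁e : ∀ γ' ∈ Γ₁, ∃ γ ∈ (H : Set (Au K ι)) ∪ Set.range ρ, ∃ s, γ' = ex γ s := by
    rintro _ (⟨γ, hγ, rfl⟩ | ⟨s, rfl⟩)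
    · exact ⟨γ, Or.inl hγ, 0, rfl⟩
    · exact ⟨ρ s, Or.inr ⟨s, rfl⟩, s, rfl⟩
  obtain ⟨e, e1, e2, -, -, e3, -, e4⟩ := upG
    (π := fun x => pt (ρ (-1 * (x (Sum.inr 0) / x (Sum.inr 1)))) (x ∘ Sum.inl))
    (Γ := (H : Set (Au K ι))) (Γ' := Γ₁) hE hY hZ hiso
    (fun y hy => ⟨Sum.elim y ![0, 1], (mE _).2 ⟨hy, by simp⟩, by simp [h0, pt_one]⟩)
    (fun γ' hγ' x => by
      obtain ⟨γ, hγ, s, rfl⟩ := hΓ₁e γ' hγ'
      rw [mE, mE, hex γ hγ, pt_ex_one])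
    (by
      rintro _ (⟨γ, hγ, rfl⟩ | ⟨s, rfl⟩) x hx
      · refine ⟨_, Subgroup.subset_closure
          (hn (-(-1 * (x (Sum.inr 0) / x (Sum.inr 1)))) γ hγ), ?_⟩
        simp only [pt_ex_inl, pt_ex_zero, pt_ex_one, zero_mul, add_zero]
        generalize -1 * (x (Sum.inr 0) / x (Sum.inr 1)) = u
        have hu : (ρ (-u))⁻¹ = ρ u := inv_eq_of_mul_eq_one_right (by rw [← hadd, neg_add_cancel, h0])
        rw [hu, pt_mul, pt_mul, hpp, add_neg_cancel, h0, pt_one]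
      · refine ⟨1, one_mem _, ?_⟩
        simp only [pt_ex_inl, pt_ex_zero, pt_ex_one, pt_one, hpp]
        have := ((mE x).1 hx).2
        congr 2
        field_simp
        ring)
  have hcs : ∀ α, c α ≠ 0 → α ∈ hat Y ∧ Stable (H ∪ Set.range ρ) α :=
    fun α h => hc (Finsupp.mem_support_iff.2 h)
  have hA : ∀ (s : Set (Fin 2)), ∀ α ∈ hat Y, extZ (Fin 2) s α ∈ hat W := fun s α hα => by
    rw [hWd, mem_hat_prodA hY, down_extZ]
    exact hα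
  have hAZ : ∀ (s : Set (Fin 2)), ∀ α ∈ hat Y, (extZ (Fin 2) s α ∈ hat Z ↔ 1 ∈ s) :=
    fun s α hα => by
      rw [hZd, mem_hat_zero hW, X_mem_extZ]
      exact and_iff_right (hA s α hα)
  have heα : Finsupp.mapDomain e c = Finsupp.mapDomain (extZ (Fin 2) ∅) c := by
    refine Finsupp.mapDomain_congr fun α h => ?_
    obtain ⟨hα, hαs⟩ := hcs α (Finsupp.mem_support_iff.1 h)
    refine eq_of_pts (e1 α hα) ((hZ.mem_hat_diff hW).2 ⟨hA ∅ α hα, fun h => (hAZ ∅ α hα).1 h⟩)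
      fun x hx => ?_
    rw [e2 α hα x hx, mem_Vp_extZ, pts_of_act_eq (hαs _ (Or.inr ⟨_, rfl⟩))]
    simp
  obtain ⟨s, h1, r, h2, h3⟩ := Submodule.mem_sup.1 hg
  obtain ⟨r', h4, h5⟩ := hZ.RatG_lift hW (e4 r h2)
  have h6 : Finsupp.mapDomain e s + r' =
      Finsupp.mapDomain (extZ (Fin 2) ∅) c + (r' - rs (W \ Z) r') := by
    rw [← heα, ← h3, Finsupp.mapDomain_add, h5]
    abel
  have hR : Finsupp.mapDomain e s ∈ SmR (mL M (Fin 2)) Γ₁ (W \ Z) := by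
    refine map_SmR (fun P a1 a2 a3 => ⟨e1 P a1, e3 P a1 a2,
      rect_of_pts (e1 P a1) (fun x hx y hy => ?_) (fun x _ y _ => ?_) (e2 P a1) a3⟩) h1
    · rw [mE] at hx hy ⊢
      rw [mix_inl, mix_of_not_mem inr_not_mem_mL]
      exact ⟨hM.mix _ hx.1 _ hy.1, hx.2⟩
    · simp only [mix_inl, mix_of_not_mem (inr_not_mem_mL (M := M)), (hU _).mix]
      funext i
      by_cases hi : i ∈ M
      · rw [mix_of_mem hi, mix_of_mem hi, (hU _).fix i hi, (hU _).fix i hi]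
      · rw [mix_of_not_mem hi, mix_of_not_mem hi]
  have h7 := cutR p hW hc₁ (Sum.inr 1) inr_not_mem_mL (fun γ' hγ' => by
      obtain ⟨γ, -, s, rfl⟩ := hΓ₁e γ' hγ'
      exact exHom_one γ s) (SmR_mono Set.sdiff_subset hR) h4
  rw [h6, map_add, GE_eq_zero (c := r' - rs (W \ Z) r') _ (fun P hP => by
      by_contra h8
      refine hP ?_
      by_cases h9 : r' P = 0
      · by_cases h10 : P ∈ hat (W \ Z)
        · rw [Finsupp.sub_apply, flt_apply_of_mem h10, sub_self]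
        · rw [Finsupp.sub_apply, flt_apply_of_not_mem h10, h9, sub_zero]
      · rw [Finsupp.sub_apply, flt_apply_of_mem ((hZ.mem_hat_diff hW).2
          ⟨RatG_supp h4 h9, fun h => h8 ((mem_hat_zero hW).1 h).2⟩), sub_self]),
    add_zero, GE_ext (Set.notMem_empty _), flt_map fun α h => hA _ α (hcs α h).1] at h7
  have hs₂ : StSet Γ₂ Z := by
    rintro _ ⟨γ, hγ, rfl⟩ x
    rw [mZ, mZ, hex γ hγ, pt_ex_one]
  have hag : ∀ γ' ∈ Γ₂, ∃ γ ∈ Γ₁, ∀ x ∈ Z, pt γ' x = pt γ x := by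
    rintro _ ⟨γ, hγ | ⟨s, rfl⟩, rfl⟩
    · exact ⟨_, Or.inl ⟨γ, hγ, rfl⟩, fun _ _ => rfl⟩
    · refine ⟨_, Or.inr ⟨s, rfl⟩, fun x hx => funext ?_⟩
      rintro (i | j)
      · exact (congrFun (pt_ex_inl _ _ x) i).trans (congrFun (pt_ex_inl _ _ x) i).symm
      · fin_cases j
        · change pt _ x (Sum.inr 0) = pt _ x (Sum.inr 0)
          rw [pt_ex_zero, pt_ex_zero, ((mZ x).1 hx).2, mul_zero, mul_zero]
        · change pt _ x (Sum.inr 1) = pt _ x (Sum.inr 1)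
          rw [pt_ex_one, pt_ex_one]
  obtain ⟨s₂, h8, r₂, h9, h10⟩ := Submodule.mem_sup.1 h7
  have h11 := cutR p hZl hc₂ (Sum.inr 0) inr_not_mem_mL (by
      rintro _ ⟨γ, -, rfl⟩
      simp [ex_apply, exHom_zero]) (smR_of_agree hs₂ hag h8) (rat_of_agree hs₂ hag h9)
  have h01 : (0 : Fin 2) ∉ insert (1 : Fin 2) (∅ : Set (Fin 2)) := by simp
  rw [h10, GE_ext h01, flt_map fun α h => (hAZ _ α (hcs α h).1).2 (by simp)] at h11
  set Z₀ : Set (ι ⊕ Fin 2 → K) := {x ∈ Z | eval x (X (Sum.inr 0)) = 0} with hZ₀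
  have mZ₀ : ∀ x, x ∈ Z₀ ↔ x ∘ Sum.inl ∈ Y ∧ x (Sum.inr 1) = 0 ∧ x (Sum.inr 0) = 0 := fun x => by
    rw [hZ₀, Set.mem_ofPred_eq, mZ, eval_X, and_assoc]
  have hiso₀ : RegIso Z₀ Y (fun x => x ∘ Sum.inl) fun y => Sum.elim y 0 := by
    refine ⟨fun i => RegF.coord _, ?_, fun x hx => ((mZ₀ x).1 hx).1,
      fun y hy => (mZ₀ _).2 ⟨hy, rfl, rfl⟩, fun x hx => funext ?_, fun y _ => rfl⟩
    · rintro (i | j)
      · exact RegF.coord _
      · exact RegF.zero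
    · rintro (i | j)
      · rfl
      · fin_cases j
        · exact ((mZ₀ x).1 hx).2.2.symm
        · exact ((mZ₀ x).1 hx).2.1.symm
  obtain ⟨e₀, he⟩ := isoCore ((relCl_eval Z _).lc hZl) hY hiso₀
  have hmv : Moves Γ₂ (H ∪ Set.range ρ) Z₀ fun x => x ∘ Sum.inl := fun γ hγ x hx => by
    refine ⟨ex γ 0, Subgroup.subset_closure ⟨γ, hγ, rfl⟩, ?_, pt_ex_inl _ _ _⟩
    rw [mZ₀] at hx ⊢
    rw [hex γ hγ, pt_ex_one, pt_ex_zero, zero_mul, add_zero]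
    exact hx
  have he₀ : Finsupp.mapDomain e₀
      (Finsupp.mapDomain (extZ (Fin 2) (insert 0 (insert 1 ∅))) c) = c := by
    rw [← Finsupp.mapDomain_comp]
    refine (Finsupp.mapDomain_congr fun α h => ?_).trans Finsupp.mapDomain_id
    have hα := (hcs α (Finsupp.mem_support_iff.1 h)).1
    have hB : extZ (Fin 2) (insert 0 (insert 1 ∅)) α ∈ hat Z₀ := by
      rw [hZ₀, mem_hat_zero hZl, X_mem_extZ]
      exact ⟨(hAZ _ α hα).2 (by simp), by simp⟩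
    refine eq_of_pts (he.mem _ hB) hα fun y hy => ?_
    have := he.pts _ hB _ (hiso₀.maps' hy)
    rw [mem_Vp_extZ] at this
    exact this.trans (and_iff_left fun _ _ => rfl)
  have hsep : ∀ (j : Fin 2) {T : Set (ι ⊕ Fin 2 → K)}, MSet p (mL M (Fin 2)) T →
      MSet p (mL M (Fin 2)) {x ∈ T | eval x (X (Sum.inr j)) = 0} := fun j T hT =>
    hT.sep fun x _ y _ h1 h2 => by
      rw [eval_X] at h2 ⊢
      rw [← h1 _ inr_not_mem_mL, h2]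
  obtain ⟨s₃, h12, r₃, h13, h14⟩ := Submodule.mem_sup.1 h11
  rw [← he₀, ← h14, Finsupp.mapDomain_add]
  exact Submodule.add_mem_sup (he.map_SmR hiso₀ (hsep 0 (hsep 1 (hM.prodA (Fin 2))))
    (mmap_comp Sum.inl (fun _ => inl_mem_mL) _) hs hmv h12) (he.map_RatG hiso₀ hs hmv h13)

end MDescA

theorem mdescA {M : Set ι} {Y : Set (ι → K)} (hY : LC Y) (hM : MSet p M Y)
    (H : Subgroup (Au K ι)) (ρ : K → Au K ι) (hH : Conn (H : Set (Au K ι))) (h0 : ρ 0 = 1)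
    (hadd : ∀ s s', ρ (s + s') = ρ s * ρ s') (hn : ∀ s, ∀ γ ∈ H, ρ s * γ * (ρ s)⁻¹ ∈ H)
    (F : ι → MvPolynomial (Option ι) (kk K))
    (hF : ∀ s x i, pt (ρ s) x i = aeval (fun o : Option ι => o.elim s x) (F i))
    (hs : StSet (H ∪ Set.range ρ) Y) (hHF : FG p M (H : Set (Au K ι))) (hρ : ∀ s, UAu M (ρ s))
    (hg : MGoodG p M H Y) : MGoodG p M (H ∪ Set.range ρ) Y := by
  intro α hα hαs
  have hG : FG p M ((H : Set (Au K ι)) ∪ Set.range ρ) :=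
    hHF.union (fg_of_uau fun _ ⟨s, h⟩ => h ▸ hρ s)
  exact Nil.of_inf (A := StG (H ∪ Set.range ρ) Y) (fun c hc => FF_StG hM.frob hG hc)
    (Finsupp.single_mem_supported ℚ 1 ⟨hα, hαs⟩) (hg α hα fun γ hγ => hαs γ (Or.inl hγ))
    fun c hc h => le_nilG hM.frob hG (MDescA.lin hY hM H ρ hH h0 hadd hn F hF hs hρ hc h)

end Pool.Agent.Lib.MP_60ec62_ag.DL
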