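import Pool.Agent.Lib.MP_60ec62_ag.DF.FIso
import Pool.Agent.Lib.MP_60ec62_ag.DF.Rect

/-!
Isomorphisms, open subsets and stratifications.
-/

set_option linter.unusedSectionVars false
set_option linter.unusedVariables false

noncomputable section

namespace Pool.Agent.Lib.MP_60ec62_ag.DL

open MvPolynomial

variable {K : Type} [Field K] [IsAlgClosed K] {p q : ℕ} [Fact p.Prime] [CharP K p]
  {ι κ ι' τ : Type} [Finite ι] [Finite κ] [Finite ι'] [Finite τ]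

variable {M : Set ι} {M' : Set κ} {Y Z : Set (ι → K)} {Y' : Set (κ → K)} {Γ : Set (Au K ι)}
  {Γ' : Set (Au K κ)} {Φ : (ι → K) → κ → K} {Ψ : (κ → K) → ι → K}

theorem mgoodG_closure :
    MGoodG p M (Subgroup.closure Γ : Subgroup (Au K ι)) Y ↔ MGoodG p M Γ Y := by
  have h1 : SmR M (Subgroup.closure Γ : Subgroup (Au K ι)) Y = SmR M Γ Y := by
    simp only [SmR, stable_closure]
  have h2 : RatG (Subgroup.closure Γ : Subgroup (Au K ι)) Y = RatG Γ Y := by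
    refine le_antisymm (RatG_anti Subgroup.subset_closure Y) (Submodule.span_mono ?_)
    rintro _ ⟨w, hw, a, b, hs, ha, hb, h3, rfl⟩
    exact ⟨w, hw, a, b, stable_closure.2 hs, ha, hb,
      Hat.semi_closure (stable_closure.2 hs) hb h3, rfl⟩
  simp only [MGoodG, h1, h2, stable_closure]

namespace MIso

lemma single_mem {P : Pr K ι} (hP : P ∈ hat Y) :
    (Finsupp.single P 1 : Cy K ι) ∈ Finsupp.supported ℚ ℚ (hat Y) :=
  Finsupp.single_mem_supported ℚ 1 hP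

lemma transport {e : Pr K ι → Pr K κ} (he : IsoData Y Y' Φ e) (hY : LC Y) (hY' : LC Y')
    (h : RegIso Y Y' Φ Ψ) (hM : MSet p M Y) (hM' : ∀ x, pfx p M' x ∈ Y' ↔ x ∈ Y')
    (hΦ : MMap M M' Y Φ) {W : Submodule ℚ (Cy K ι)} {W' : Submodule ℚ (Cy K κ)}
    (hW : ∀ c ∈ W, Finsupp.mapDomain e c ∈ W') {P : Pr K ι} (hP : P ∈ hat Y)
    (hg : Finsupp.single P 1 ∈ Nil (Sp p) (FF p M) W) :
    Finsupp.single (e P) 1 ∈ Nil (Sp p) (FF p M') W' := by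
  have := Nil.map' (g := Finsupp.lmapDomain ℚ ℚ e) (F' := FF p M') (W' := W')
    (A := Finsupp.supported ℚ ℚ (hat Y)) (fun c hc => FF_hat hM.frob hc)
    (fun c hc => he.FF_comm h hY hY' hM.frob hM' (fun x hx => hΦ.pfx hM hx) hc)
    (fun c _ hc => hW c hc) (single_mem hP) hg
  rwa [Finsupp.lmapDomain_apply, Finsupp.mapDomain_single] at this

end MIso

theorem MGoodG.iso (hY : LC Y) (hY' : LC Y') (h : RegIso Y Y' Φ Ψ) (hM : MSet p M Y)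
    (hM' : ∀ x, pfx p M' x ∈ Y' ↔ x ∈ Y') (hΦ : MMap M M' Y Φ) (hs : StSet Γ Y)
    (hs' : StSet Γ' Y') (hm : Moves Γ Γ' Y Φ) (hm' : Moves Γ' Γ Y' Ψ) (hg : MGoodG p M Γ Y) :
    MGoodG p M' Γ' Y' := by
  obtain ⟨e, he⟩ := isoCore hY hY' h
  intro Q hQ hQs
  obtain ⟨P, hP, rfl⟩ := he.surj Q hQ
  have hPs : Stable Γ P := fun γ hγ => by
    refine act_eq_of_pts (hs γ hγ) hP fun x hx => ?_
    obtain ⟨γ', h1, h2, h3⟩ := hm' γ hγ _ (h.maps hx)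
    rw [h.left x hx] at h3
    rw [← he.pts P hP _ ((hs γ hγ x).2 hx), ← he.pts P hP _ hx, ← h3, h.right _ h2]
    exact pts_of_act_eq (stable_closure.2 hQs γ' h1) _
  refine MIso.transport he hY hY' h hM hM' hΦ (fun c hc => ?_) hP (hg P hP hPs)
  obtain ⟨s, h1, r, h2, rfl⟩ := Submodule.mem_sup.1 hc
  rw [Finsupp.mapDomain_add]
  exact Submodule.add_mem_sup (he.map_SmR h hM hΦ hs' hm h1) (he.map_RatG h hs' hm h2)

theorem MGoodT.iso (hY : LC Y) (hY' : LC Y') (h : RegIso Y Y' Φ Ψ) (hM : MSet p M Y)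
    (hM' : ∀ x, pfx p M' x ∈ Y' ↔ x ∈ Y') (hΦ : MMap M M' Y Φ) {i₀ : ι} {j₀ : κ}
    (hs : ∀ x, pt (tr i₀) x ∈ Y ↔ x ∈ Y) (hs' : ∀ x, pt (tr j₀) x ∈ Y' ↔ x ∈ Y')
    (hc : ∀ x ∈ Y, Φ (pt (tr i₀) x) = pt (tr j₀) (Φ x)) (hg : MGoodT p M i₀ Y) :
    MGoodT p M' j₀ Y' := by
  obtain ⟨e, he⟩ := isoCore hY hY' h
  intro Q hQ
  obtain ⟨P, hP, rfl⟩ := he.surj Q hQ
  refine MIso.transport he hY hY' h hM hM' hΦ (fun c hc' => ?_) hP (hg P hP)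
  obtain ⟨u, h0, i, h4, rfl⟩ := Submodule.mem_sup.1 hc'
  obtain ⟨s, h1, r, h2, rfl⟩ := Submodule.mem_sup.1 h0
  have hm : Moves (∅ : Set (Au K ι)) (∅ : Set (Au K κ)) Y Φ := fun _ h => h.elim
  have hs0 : StSet (∅ : Set (Au K κ)) Y' := fun _ h => h.elim
  rw [Finsupp.mapDomain_add, Finsupp.mapDomain_add]
  exact Submodule.add_mem_sup
    (Submodule.add_mem_sup (he.map_SmR h hM hΦ hs0 hm h1) (he.map_RatG h hs0 hm h2))
    (he.map_InvT h hs hs' hc h4)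

theorem MGoodT.opn {i₀ : ι} (hY : LC Y) (h : RelCl Z Y) (hM : ∀ x, pfx p M x ∈ Y ↔ x ∈ Y)
    (hM' : ∀ x, pfx p M x ∈ Z ↔ x ∈ Z) (hs : ∀ x, pt (tr i₀) x ∈ Y ↔ x ∈ Y)
    (hs' : ∀ x, pt (tr i₀) x ∈ Z ↔ x ∈ Z) (hg : MGoodT p M i₀ Y) : MGoodT p M i₀ (Y \ Z) := by
  intro P hP
  have h6 : rs (Y \ Z) (Finsupp.single P 1) = Finsupp.single P 1 := flt_eq_self fun Q hQ => by
    rw [(Finsupp.mem_support_single _ _ _).1 (Finsupp.mem_support_iff.2 hQ) |>.1]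
    exact hP
  have hd : ∀ x, pfx p M x ∈ Y \ Z ↔ x ∈ Y \ Z := fun x => by
    rw [Set.mem_sdiff, Set.mem_sdiff, hM, hM']
  rw [← h6]
  refine Nil.map' (g := rs (Y \ Z)) (F := FF p M) (A := ⊤) (fun _ _ => trivial)
    (fun c _ => (FF_rs hd c).symm) (fun c _ hc => ?_) trivial
    (hg P (hat_mono Set.sdiff_subset hP))
  obtain ⟨u, h0, i, h4, rfl⟩ := Submodule.mem_sup.1 hc
  obtain ⟨s, h1, r, h2, rfl⟩ := Submodule.mem_sup.1 h0
  rw [map_add, map_add]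
  exact Submodule.add_mem_sup (Submodule.add_mem_sup (rs_SmR _ h1) (h.rs_RatG hY h2))
    (IsoG.rs_InvT (fun x => by rw [Set.mem_sdiff, Set.mem_sdiff, hs, hs']) h4)

theorem MGoodT.strat {i₀ : ι} (hi : i₀ ∉ M) (hY : LC Y) (h : RelCl Z Y)
    (hM : ∀ x, pfx p M x ∈ Y ↔ x ∈ Y) (hg : MGoodT p M i₀ Z) (hg' : MGoodT p M i₀ (Y \ Z)) :
    MGoodT p M i₀ Y := by
  have h0 : ∀ P ∈ hat Z, Finsupp.single P 1 ∈
      Nil (Sp p) (FF p M) (SmR M ∅ Y ⊔ RatG ∅ Y ⊔ InvT i₀ Y) := fun P hP =>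
    Nil.mono (sup_le_sup (sup_le_sup (SmR_mono h.1) (h.RatG_le hY _)) (IsoG.InvT_mono h.1 _))
      (hg P hP)
  intro P hP
  by_cases hZ : P ∈ hat Z
  · exact h0 P hZ
  refine Nil.nil_le (fun c hc => ?_) (hg' P ((h.mem_hat_diff hY).2 ⟨hP, hZ⟩))
  obtain ⟨u, hu, i, h4, rfl⟩ := Submodule.mem_sup.1 hc
  obtain ⟨s, h1, r, h2, rfl⟩ := Submodule.mem_sup.1 hu
  obtain ⟨r', h3, rfl⟩ := h.RatG_lift hY h2
  have h6 : r' - rs (Y \ Z) r' ∈ Nil (Sp p) (FF p M) (SmR M ∅ Y ⊔ RatG ∅ Y ⊔ InvT i₀ Y) := by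
    refine mem_of_singles fun Q hQ => h0 Q ?_
    by_contra h7
    by_cases h8 : r' Q = 0
    · by_cases h9 : Q ∈ hat (Y \ Z)
      · exact hQ (by rw [Finsupp.sub_apply, flt_apply_of_mem h9, sub_self])
      · exact hQ (by rw [Finsupp.sub_apply, flt_apply_of_not_mem h9, h8, sub_zero])
    · exact hQ (by
        rw [Finsupp.sub_apply, flt_apply_of_mem ((h.mem_hat_diff hY).2 ⟨RatG_supp h3 h8, h7⟩),
          sub_self])
  have h7 : rs (Y \ Z) r' ∈ Nil (Sp p) (FF p M) (SmR M ∅ Y ⊔ RatG ∅ Y ⊔ InvT i₀ Y) := by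
    have := Submodule.sub_mem _
      (le_nilT hM hi (Submodule.mem_sup_left (Submodule.mem_sup_right h3))) h6
    rwa [sub_sub_cancel] at this
  exact Submodule.add_mem _ (Submodule.add_mem _
    (le_nilT hM hi
      (Submodule.mem_sup_left (Submodule.mem_sup_left (SmR_mono Set.sdiff_subset h1)))) h7)
    (le_nilT hM hi (Submodule.mem_sup_right (IsoG.InvT_mono Set.sdiff_subset _ h4)))

/-! Products with a second factor. -/

variable {T : Set (τ → K)}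

lemma RelCl.prodT (h : RelCl Z Y) (T : Set (τ → K)) : RelCl (prodT Z T) (prodT Y T) := by
  refine ⟨fun z hz => ⟨h.1 hz.1, hz.2⟩, fun y hy hy' => ?_⟩
  obtain ⟨f, hf, hf'⟩ := h.2 _ hy.1 fun h1 => hy' ⟨h1, hy.2⟩
  refine ⟨rename Sum.inl f, fun z hz => ?_, ?_⟩
  · rw [eval_rename]
    exact hf _ hz.1
  · rw [eval_rename]
    exact hf'

lemma prodT_diff : prodT (Y \ Z) T = prodT Y T \ prodT Z T :=
  Set.ext fun _ => ⟨fun h => ⟨⟨h.1.1, h.2⟩, fun h' => h.1.2 h'.1⟩,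
    fun h => ⟨⟨h.1.1, fun h' => h.2 ⟨h', h.1.2⟩⟩, h.1.2⟩⟩

lemma RegF.prodT {F : Subfield K} {φ : (ι → K) → K} (h : RegF F Y φ) (T : Set (τ → K)) :
    RegF F (prodT Y T) fun z => φ (z ∘ Sum.inl) :=
  h.comp (Φ := fun z : ι ⊕ τ → K => z ∘ Sum.inl) (fun j => RegF.coord (Sum.inl j))
    fun _ hz => hz.1

lemma RegIso.prodT (h : RegIso Y Y' Φ Ψ) (T : Set (τ → K)) : RegIso (prodT Y T) (prodT Y' T)
    (fun z => Sum.elim (Φ (z ∘ Sum.inl)) (z ∘ Sum.inr))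
    fun z => Sum.elim (Ψ (z ∘ Sum.inl)) (z ∘ Sum.inr) := by
  refine ⟨fun j => ?_, fun j => ?_, fun z hz => ⟨h.maps hz.1, hz.2⟩,
    fun z hz => ⟨h.maps' hz.1, hz.2⟩, fun z hz => ?_, fun z hz => ?_⟩
  · rcases j with j | j
    · exact (h.reg j).prodT T
    · exact RegF.coord (Sum.inr j)
  · rcases j with j | j
    · exact (h.reg' j).prodT T
    · exact RegF.coord (Sum.inr j)
  · funext j
    rcases j with j | j
    · exact congrFun (h.left _ hz.1) j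
    · rfl
  · funext j
    rcases j with j | j
    · exact congrFun (h.right _ hz.1) j
    · rfl

lemma mmap_prodT (Φ : (ι → K) → κ → K) (W : Set (ι ⊕ τ → K)) : MMap (mR ι τ) (mR κ τ) W
    fun z => Sum.elim (Φ (z ∘ Sum.inl)) (z ∘ Sum.inr) := by
  refine ⟨fun j hj x _ y _ hxy => ?_, fun j hj => ?_⟩
  · rcases j with j | j
    · have : x ∘ Sum.inl = y ∘ Sum.inl := funext fun i => hxy _ inl_not_mem_mR
      simp only [Sum.elim_inl, this]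
    · exact absurd inr_mem_mR hj
  · obtain ⟨j, rfl⟩ := hj
    exact ⟨Sum.inr j, inr_mem_mR, fun _ _ => rfl⟩

lemma pt_tr_inl (i₀ : ι) (z : ι ⊕ τ → K) :
    pt (tr (Sum.inl i₀)) z = Sum.elim (pt (tr i₀) (z ∘ Sum.inl)) (z ∘ Sum.inr) := by
  funext j
  rcases j with j | j
  · by_cases hj : j = i₀
    · subst hj
      rw [pt_tr_self, Sum.elim_inl, pt_tr_self]
      rfl
    · rw [pt_tr_ne (fun h => hj (Sum.inl_injective h)), Sum.elim_inl, pt_tr_ne hj]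
      rfl
  · rw [pt_tr_ne Sum.inr_ne_inl]
    rfl

lemma MIso.tr_prodT {i₀ : ι} (hs : ∀ x, pt (tr i₀) x ∈ Y ↔ x ∈ Y) (T : Set (τ → K))
    (z : ι ⊕ τ → K) : pt (tr (Sum.inl i₀)) z ∈ prodT Y T ↔ z ∈ prodT Y T := by
  rw [pt_tr_inl]
  exact and_congr_left' (hs _)

theorem FGoodT.iso (hY : LC Y) (hY' : LC Y') (h : RegIso Y Y' Φ Ψ) {i₀ : ι} {j₀ : κ}
    (hs : ∀ x, pt (tr i₀) x ∈ Y ↔ x ∈ Y) (hs' : ∀ x, pt (tr j₀) x ∈ Y' ↔ x ∈ Y')
    (hc : ∀ x ∈ Y, Φ (pt (tr i₀) x) = pt (tr j₀) (Φ x)) (hg : FGoodT p i₀ Y) : FGoodT p j₀ Y' := by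
  intro τ _ T hT
  refine MGoodT.iso (hY.prodT hT.lc) (hY'.prodT hT.lc) (h.prodT T) (hT.mset Y) (hT.mset Y').frob
    (mmap_prodT Φ _) (MIso.tr_prodT hs T) (MIso.tr_prodT hs' T) (fun z hz => ?_) (hg τ T hT)
  rw [pt_tr_inl, pt_tr_inl]
  funext j
  rcases j with j | j
  · exact congrFun (hc _ hz.1) j
  · rfl

theorem FGoodT.opn {i₀ : ι} (hY : LC Y) (h : RelCl Z Y)
    (hs : ∀ x, pt (tr i₀) x ∈ Y ↔ x ∈ Y) (hs' : ∀ x, pt (tr i₀) x ∈ Z ↔ x ∈ Z)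
    (hg : FGoodT p i₀ Y) : FGoodT p i₀ (Y \ Z) := by
  intro τ _ T hT
  rw [prodT_diff]
  exact MGoodT.opn (hY.prodT hT.lc) (h.prodT T) (hT.mset Y).frob (hT.mset Z).frob
    (MIso.tr_prodT hs T) (MIso.tr_prodT hs' T) (hg τ T hT)

theorem FGoodT.strat {i₀ : ι} (hY : LC Y) (h : RelCl Z Y)
    (hg : FGoodT p i₀ Z) (hg' : FGoodT p i₀ (Y \ Z)) : FGoodT p i₀ Y := by
  intro τ _ T hT
  refine MGoodT.strat inl_not_mem_mR (hY.prodT hT.lc) (h.prodT T) (hT.mset Y).frob (hg τ T hT) ?_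
  rw [← prodT_diff]
  exact hg' τ T hT

end Pool.Agent.Lib.MP_60ec62_ag.DL
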