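import Pool.Agent.Lib.MP_60ec62_ag.DF.PS5A

/-!
Imposing one equation by an Artin-Schreier Fourier transform.
-/

noncomputable section

namespace Pool.Agent.Lib.MP_60ec62_ag.DL

open MvPolynomial

variable {K : Type} [Field K] [IsAlgClosed K] {p q : ℕ} [Fact p.Prime] [CharP K p]
  {ι κ ι' τ : Type} [Finite ι] [Finite κ] [Finite ι'] [Finite τ]

namespace PS5

open S5

theorem core {σ : Type} [Finite σ] {Y : Set (σ → K)} {F g : MvPolynomial σ (kk K)} (hY : LC Y)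
    {M : Set σ} (hM : MSet p M Y)
    (hF' : ∀ x y : σ → K, (∀ i ∉ M, x i = y i) → aeval x F = aeval y F)
    (hg' : ∀ x y : σ → K, (∀ i ∉ M, x i = y i) → aeval x g = aeval y g)
    {i₀ : σ} (hi : i₀ ∉ M) (hs : ∀ x, pt (tr i₀) x ∈ Y ↔ x ∈ Y)
    (hF : ∀ x : σ → K, aeval (pt (tr i₀) x) F = aeval x F)
    (hg : ∀ x : σ → K, aeval (pt (tr i₀) x) g = aeval x g)
    (h1 : MGoodT p (mL M Unit) (Sum.inl i₀) {w ∈ prodA Y Unit |
      aeval (w ∘ Sum.inl) F - w (Sum.inr ()) * aeval (w ∘ Sum.inl) g = 0})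
    (h0 : ∀ P ∈ hat {z ∈ Y | aeval z g = 0}, Finsupp.single P 1 ∈
      RatG ∅ {z ∈ Y | aeval z g = 0} ⊔ InvT i₀ {z ∈ Y | aeval z g = 0}) :
    MGoodT p M i₀ {z ∈ {z ∈ Y | aeval z F = 0} | aeval z g = 0} := by
  have hZ : LC {z ∈ {z ∈ Y | aeval z F = 0} | aeval z g = 0} :=
    (RegF.poly g).lc_zero ((RegF.poly F).lc_zero hY)
  have hMZ : MSet p M {z ∈ {z ∈ Y | aeval z F = 0} | aeval z g = 0} :=
    (hM.sep fun x _ y _ h h' => (hF' x y h).symm.trans h').sep
      fun x _ y _ h h' => (hg' x y h).symm.trans h'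
  have hlow : ∀ α ∈ hat {z ∈ {z ∈ Y | aeval z F = 0} | aeval z g = 0},
      extZ Unit ∅ α ∈ hat {w ∈ prodA Y Unit |
        aeval (w ∘ Sum.inl) F - w (Sum.inr ()) * aeval (w ∘ Sum.inl) g = 0} := fun α hα =>
    hat_mono (Y := prodA {z ∈ {z ∈ Y | aeval z F = 0} | aeval z g = 0} Unit)
      (fun w hw => And.intro hw.1.1 (by rw [hw.1.2, hw.2, mul_zero, sub_zero]))
      (by rwa [mem_hat_prodA hZ, down_extZ])
  have hop := fun c hc h => NR_open (relCl_eval _ _) (lc_Bs hY) _ i₀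
    (fun V => closed_part hY _ hs hF hg h0) (open_part (c := c) hY hM.mix
      (fun x y => hF' _ _ fun i h => mix_of_not_mem h x y)
      (fun x y => hg' _ _ fun i h => mix_of_not_mem h x y) hs hF hg hc h)
  set Z := {z ∈ {z ∈ Y | aeval z F = 0} | aeval z g = 0} with hZdef
  have hZ2 : LC {w ∈ prodA Z Unit | eval w (X (Sum.inr ())) = 0} :=
    (relCl_eval _ _).lc (hZ.prodA Unit)
  have hMZ2 : MSet p (mL M Unit) {w ∈ prodA Z Unit | eval w (X (Sum.inr ())) = 0} :=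
    (hMZ.prodA Unit).sep fun x _ y _ h h' => by
      rw [eval_X] at h' ⊢
      rw [← h _ inr_not_mem_mL, h']
  have hs1 : ∀ x, pt (tr i₀) x ∈ Z ↔ x ∈ Z := fun x => by
    simp only [hZdef, Set.mem_ofPred_eq, hs, hF, hg]
  have t1 : ∀ w : σ ⊕ Unit → K, pt (tr (Sum.inl i₀)) w ∘ Sum.inl = pt (tr i₀) (w ∘ Sum.inl) :=
    pt_tr_comp Sum.inl_injective i₀
  have hs2 : ∀ w, pt (tr (Sum.inl i₀)) w ∈ {w ∈ prodA Z Unit | eval w (X (Sum.inr ())) = 0} ↔
      w ∈ {w ∈ prodA Z Unit | eval w (X (Sum.inr ())) = 0} := fun w => by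
    refine and_congr (by simp only [prodA, Set.mem_ofPred_eq, t1, hs1]) ?_
    rw [eval_X, eval_X, pt_tr_ne (by simp)]
  have hZ0 : ∀ w ∈ {w ∈ prodA Z Unit | eval w (X (Sum.inr ())) = 0}, w (Sum.inr ()) = 0 :=
    fun w hw => (eval_X _).symm.trans hw.2
  refine MGoodT.iso (Φ := fun w => w ∘ Sum.inl) (Ψ := fun z => Sum.elim z fun _ => 0) hZ2 hZ
    ⟨fun i => RegF.coord (Sum.inl i), ?_, fun w hw => hw.1, fun z hz => ⟨hz, eval_X _⟩,
      fun w hw => ?_, fun z _ => rfl⟩ hMZ2 hMZ.frob (mmap_comp Sum.inl (fun _ => inl_mem_mL) _)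
      hs2 hs1 (fun w _ => t1 w) fun β hβ => ?_
  · rintro (i | i)
    · exact RegF.coord i
    · exact RegF.zero
  · funext i
    rcases i with i | i
    · rfl
    · exact (hZ0 w hw).symm
  · obtain ⟨h2, h3⟩ := (mem_hat_zero (hZ.prodA Unit)).1 hβ
    have hα := (mem_hat_prodA hZ).1 h2
    have hA : Finsupp.single (down β) (1 : ℚ) ∈ Finsupp.supported ℚ ℚ (hat Z) :=
      Finsupp.single_mem_supported _ _ hα
    have hst : ∀ c ∈ Finsupp.supported ℚ ℚ (hat Z), FF p M c ∈ Finsupp.supported ℚ ℚ (hat Z) :=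
      fun c hc => FF_hat hMZ.frob hc
    have hcomm := fun (s : Set Unit) t => Nil.comm_aeval (F' := FF p (mL M Unit))
      (g := Finsupp.lmapDomain ℚ ℚ (extZ Unit s)) hst (fun c _ => FF_extZ M s c) hA t
    simp only [Finsupp.lmapDomain_apply, Finsupp.mapDomain_single] at hcomm
    obtain ⟨s, hs', h4⟩ := h1 _ (hlow _ hα)
    have h5 := h4 0
    rw [pow_zero, Module.End.one_apply, ← hcomm] at h5
    have h6 := Nil.aeval_stable hst hA s
    refine Nil.of_aeval hs' (le_nilT hMZ2.frob (mt inl_mem_mL.1 hi) ?_)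
    rw [eq_extZ_univ (Q := β) fun _ => h3, ← hcomm]
    refine retract p (lc_Bs (F := F) (g := g) hY) hZ2 inr_not_mem_mL
      (fun x hx => (ne_iff x).2 hx.2.2.2) hZ0 ?_ i₀ (tr_Bs hs hF hg) hs2 (fun Q hQ => ?_) ?_
    · ext x
      refine ⟨fun hx => ?_, fun hx => ?_⟩
      · have h4 : x eI = 0 := (eval_X _).symm.trans hx.2
        exact ⟨⟨⟨⟨hx.1.1, hx.1.2.1.trans (by rw [h4, zero_mul])⟩,
          hx.1.2.2.1.trans (by rw [h4, zero_mul])⟩, (eval_X _).trans h4⟩,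
          (ne_iff x).2 hx.1.2.2.2⟩
      · have h4 : x eI = 0 := hZ0 _ hx.1
        exact ⟨⟨hx.1.1.1.1, by rw [h4, zero_mul]; exact hx.1.1.1.2,
          by rw [h4, zero_mul]; exact hx.1.1.2, (ne_iff x).1 hx.2⟩, (eval_X _).trans h4⟩
    · obtain ⟨α, h7, rfl⟩ := Up.mapDomain_ne (Finsupp.mem_support_iff.1 hQ)
      rw [mem_hat_zero (hZ.prodA Unit), mem_hat_prodA hZ, down_extZ, X_mem_extZ]
      exact ⟨h6 (Finsupp.mem_support_iff.2 h7), Set.mem_univ _⟩
    · rw [← Finsupp.mapDomain_comp]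
      exact hop _ h6 h5

end PS5

theorem fs5core {Y : Set (ι → K)} (hY : LC Y) (φ f : MvPolynomial ι (kk K))
    (hg : FGood p (prodA Y Unit)
      fun x => aeval (x ∘ Sum.inl) φ + x (Sum.inr ()) * aeval (x ∘ Sum.inl) f) :
    FGood p {x ∈ Y | aeval x f = 0} fun x => aeval x φ := by
  have hZ : LC {x ∈ Y | aeval x f = 0} := (RegF.poly f).lc_zero hY
  refine ⟨hZ, RegF.poly φ, fun τ _ T hT => ?_⟩
  have hY' : LC (prodT {z : Option ι → K | z ∘ some ∈ Y} T) := by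
    refine LC.prodT ?_ hT.lc
    have := LC.preimage LC.univ hY (Φ := fun z : Option ι → K => z ∘ some)
      fun i => RegF.coord (some i)
    simpa only [Set.mem_univ, true_and] using this
  let j : ι → Option ι ⊕ τ := Sum.inl ∘ some
  have eF : ∀ z : Option ι ⊕ τ → K,
      aeval z (X (Sum.inl none) ^ p - X (Sum.inl none) - rename j φ) =
      z (Sum.inl none) ^ p - z (Sum.inl none) - aeval (z ∘ j) φ := fun z => by
    simp only [map_sub, map_pow, aeval_X, aeval_rename]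
  have eg : ∀ z : Option ι ⊕ τ → K, aeval z (rename j f) = aeval (z ∘ j) f :=
    fun z => aeval_rename _ _ _
  have t0 : ∀ z : Option ι ⊕ τ → K, pt (tr (Sum.inl none)) z ∘ j = z ∘ j :=
    fun z => funext fun i => pt_tr_ne (by simp [j]) z
  have t0' : ∀ z : Option ι ⊕ τ → K, pt (tr (Sum.inl none)) z ∘ Sum.inr = z ∘ Sum.inr :=
    fun z => funext fun i => pt_tr_ne (by simp) z
  have hmem : ∀ z : Option ι ⊕ τ → K,
      z ∈ prodT {z : Option ι → K | z ∘ some ∈ Y} T ↔ z ∘ j ∈ Y ∧ z ∘ Sum.inr ∈ T :=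
    fun z => Iff.rfl
  have hs : ∀ z : Option ι ⊕ τ → K,
      pt (tr (Sum.inl none)) z ∈ prodT {z : Option ι → K | z ∘ some ∈ Y} T ↔
      z ∈ prodT {z : Option ι → K | z ∘ some ∈ Y} T := fun z => by
    simp only [hmem, t0, t0']
  have hF : ∀ z : Option ι ⊕ τ → K, aeval (pt (tr (Sum.inl none)) z)
      (X (Sum.inl none) ^ p - X (Sum.inl none) - rename j φ) =
      aeval z (X (Sum.inl none) ^ p - X (Sum.inl none) - rename j φ) := fun z => by
    rw [eF, eF, t0, pt_tr_self, add_pow_char, one_pow]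
    ring
  have hf : ∀ z : Option ι ⊕ τ → K, aeval (pt (tr (Sum.inl none)) z) (rename j f) =
      aeval z (rename j f) := fun z => by rw [eg, eg, t0]
  have hj : ∀ x y : Option ι ⊕ τ → K, (∀ i ∉ mR (Option ι) τ, x i = y i) → x ∘ j = y ∘ j :=
    fun x y h => funext fun i => h _ inl_not_mem_mR
  have key := PS5.core hY' (hT.mset _)
    (fun x y h => by rw [eF, eF, hj x y h, h _ inl_not_mem_mR])
    (fun x y h => by rw [eg, eg, hj x y h]) inl_not_mem_mR hs hF hf ?_ ?_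
  · have e : prodT (AS p {x ∈ Y | aeval x f = 0} fun x => aeval x φ) T =
        {z ∈ {z ∈ prodT {z : Option ι → K | z ∘ some ∈ Y} T |
          aeval z (X (Sum.inl none) ^ p - X (Sum.inl none) - rename j φ) = 0} |
          aeval z (rename j f) = 0} := by
      ext z
      simp only [Set.mem_ofPred_eq, hmem, eF, eg, sub_eq_zero]
      exact ⟨fun h => ⟨⟨⟨h.1.1.1, h.2⟩, h.1.2⟩, h.1.1.2⟩, fun h => ⟨⟨⟨h.1.1.1, h.2⟩, h.1.2⟩, h.1.1.2⟩⟩
    rw [e]
    exact key
  · let a : (Option ι ⊕ τ) ⊕ Unit → Option (ι ⊕ Unit) ⊕ τ :=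
      Sum.elim (Sum.elim (fun o => Sum.inl (o.map Sum.inl)) Sum.inr)
        fun u => Sum.inl (some (Sum.inr u))
    let b : Option (ι ⊕ Unit) ⊕ τ → (Option ι ⊕ τ) ⊕ Unit :=
      Sum.elim (fun o => o.elim (Sum.inl (Sum.inl none))
        (Sum.elim (fun i => Sum.inl (Sum.inl (some i))) Sum.inr)) fun t => Sum.inl (Sum.inr t)
    have hab : ∀ i, a (b i) = i := by rintro ((_ | i | i) | i) <;> rfl
    have hba : ∀ i, b (a i) = i := by rintro (((_ | i) | i) | i) <;> rfl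
    have ha : Function.Injective a := Function.LeftInverse.injective hba
    have t1 : ∀ w : (Option ι ⊕ τ) ⊕ Unit → K,
        pt (tr (Sum.inl (Sum.inl none))) w ∘ Sum.inl = pt (tr (Sum.inl none)) (w ∘ Sum.inl) :=
      S5.pt_tr_comp Sum.inl_injective (Sum.inl none)
    refine MGoodT.iso (Φ := fun w => w ∘ a) (Ψ := fun z => z ∘ b)
      ((hg.1.AS hg.2.1 p).prodT hT.lc)
      (((S5.reg_aeval Sum.inl _).sub ((RegF.coord _).mul (S5.reg_aeval Sum.inl _))).lc_zero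
        (hY'.prodA Unit))
      ⟨fun i => RegF.coord (a i), fun i => RegF.coord (b i), fun w hw => ⟨⟨hw.1.1, hw.2⟩, ?_⟩,
        fun z hz => ⟨⟨hz.1.1, ?_⟩, hz.1.2⟩, fun w _ => funext fun i => congrArg w (hab i),
        fun z _ => funext fun i => congrArg z (hba i)⟩ (hT.mset _)
      (((hT.mset _).prodA Unit).sep fun x _ y _ h h' => ?_).frob (mmap_comp a ?_ _)
      (fun w => ?_) (fun w => ?_)
      (fun w _ => S5.pt_tr_comp ha (Sum.inl (Sum.inl none)) w) (hg.2.2 τ T hT)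
    · rw [eF, eg, sub_sub, sub_eq_zero]
      exact hw.1.2
    · have := hz.2
      rw [eF, eg, sub_sub, sub_eq_zero] at this
      exact this
    · have h1 : ∀ i ∉ mR (Option ι) τ, (x ∘ Sum.inl) i = (y ∘ Sum.inl) i :=
        fun i hi => h _ (mt inl_mem_mL.1 hi)
      rw [eF, eg] at h' ⊢
      rw [← hj _ _ h1, ← h1 _ inl_not_mem_mR, ← h _ inr_not_mem_mL]
      exact h'
    · rintro ((o | t) | u) <;> simp [a]
    · show pt (tr (Sum.inl none)) w ∈ _ ↔ _
      rw [pt_tr_inl]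
      exact and_congr (stSet_AS p _ _ _) Iff.rfl
    · simp only [prodA, Set.mem_ofPred_eq, t1, hF, hf, hs,
        pt_tr_ne (Sum.inr_ne_inl (a := Sum.inl none) (b := ()))]
  · refine sharp_of_fibre (κ := Unit) (π := fun z => Sum.elim (z ∘ j) (z ∘ Sum.inr))
      ((RegF.poly _).lc_zero hY') (hZ.prodT hT.lc) ?_
      (fun z hz => ⟨⟨hz.1.1, (eg z).symm.trans hz.2⟩, hz.1.2⟩) (fun y _ => ?_)
      (fun z => and_congr (hs z) (by rw [hf])) fun z _ => by rw [t0, t0']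
    · rintro (i | i)
      · exact RegF.coord (j i)
      · exact RegF.coord (Sum.inr i)
    refine ⟨1, fun z _ => z (Sum.inl none), fun w => Sum.elim
      (fun o => o.elim (w (Sum.inr ())) fun i => w (Sum.inl (Sum.inl i)))
        fun t => w (Sum.inl (Sum.inr t)),
      by simp, ?_, ?_, fun z hz => ⟨⟨⟨hz.1.1.1, (eg z).symm.trans hz.1.2⟩, hz.1.1.2⟩, hz.2⟩,
      fun w hw => ⟨⟨⟨hw.1.1.1, hw.1.2⟩, (eg _).trans hw.1.1.2⟩, by simp⟩, fun z _ => funext ?_,
      fun w _ => funext ?_⟩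
    · rintro ((i | i) | i)
      · exact RegF.coord (j i)
      · exact RegF.coord (Sum.inr i)
      · exact RegF.coord (Sum.inl none)
    · rintro ((_ | i) | i)
      · exact RegF.coord (Sum.inr ())
      · exact RegF.coord (Sum.inl (Sum.inl i))
      · exact RegF.coord (Sum.inl (Sum.inr i))
    · rintro ((_ | i) | i) <;> rfl
    · rintro ((i | i) | i) <;> rfl

end Pool.Agent.Lib.MP_60ec62_ag.DL
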