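import Pool.Agent.Lib.MP_60ec62_ag.DF.PUp
import Pool.Agent.Lib.MP_60ec62_ag.DL.S5B

/-!
The Rees space of two unmarked equations, with a marked set of variables.
-/

noncomputable section

namespace Pool.Agent.Lib.MP_60ec62_ag.DL

open MvPolynomial

variable {K : Type} [Field K] {ι σ : Type}

namespace PS5

open S5

/-- Product cycles, relations and invariant cycles, all stable under the scaling group. -/
def NR (M : Set (T σ)) (i₀ : σ) (B : Set (T σ → K)) : Submodule ℚ (Cy K (T σ)) :=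
  SmR M (Gam K σ) B ⊔ RatG (Gam K σ) B ⊔
    (InvT (Sum.inl (Sum.inl i₀)) B ⊓ Finsupp.supported ℚ ℚ {P | Stable (Gam K σ) P})

lemma mix_inl {κ : Type} {M : Set σ} (x y : σ ⊕ κ → K) :
    mix (mL M κ) x y ∘ Sum.inl = mix M (x ∘ Sum.inl) (y ∘ Sum.inl) := by
  funext i
  by_cases h : i ∈ M
  · rw [Function.comp_apply, mix_of_mem (inl_mem_mL.2 h), mix_of_mem h, Function.comp_apply]
  · rw [Function.comp_apply, mix_of_not_mem (mt inl_mem_mL.1 h), mix_of_not_mem h,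
      Function.comp_apply]

lemma mix_j2 {M : Set σ} (x y : T σ → K) :
    mix (mL (mL M Unit) (Fin 2)) x y ∘ j2 = mix M (x ∘ j2) (y ∘ j2) := by
  rw [← Function.comp_assoc, mix_inl, mix_inl]
  rfl

variable {Y : Set (σ → K)} {F g : MvPolynomial σ (kk K)}

lemma mix_Bs {M : Set σ} (hM : ∀ x ∈ Y, ∀ y ∈ Y, mix M x y ∈ Y)
    (hF : ∀ x y : σ → K, aeval (mix M x y) F = aeval x F)
    (hg : ∀ x y : σ → K, aeval (mix M x y) g = aeval x g) {x y : T σ → K} (hx : x ∈ Bs Y F g)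
    (hy : y ∈ Bs Y F g) : mix (mL (mL M Unit) (Fin 2)) x y ∈ Bs Y F g := by
  have he : mix (mL (mL M Unit) (Fin 2)) x y eI = x eI := mix_of_not_mem (by simp) x y
  have hu : ∀ j, mix (mL (mL M Unit) (Fin 2)) x y (Sum.inr j) = x (Sum.inr j) := fun j =>
    mix_of_not_mem inr_not_mem_mL x y
  simp only [Bs, Set.mem_ofPred_eq, mix_j2, he, hu, hF, hg]
  exact ⟨hM _ hx.1 _ hy.1, hx.2⟩

variable [Finite σ] [Finite ι] [IsAlgClosed K]

omit [Finite ι] in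
/-- The retraction of cycles from the Rees space to the special fibre. -/
theorem retract (p : ℕ) [Fact p.Prime] [CharP K p] {B : Set (T σ → K)} {Z : Set (σ ⊕ Unit → K)}
    (hB : LC B) (hZ : LC Z) {M : Set (σ ⊕ Unit)} (hM : Sum.inr () ∉ M)
    (hne : ∀ x ∈ B, x ∘ Sum.inr ≠ 0) (hZ0 : ∀ z ∈ Z, z (Sum.inr ()) = 0)
    (hc : {x ∈ B | eval x (X eI : MvPolynomial (T σ) K) = 0} = cone Z (Fin 2)) (i₀ : σ)
    (hT : ∀ x, pt (tr (Sum.inl (Sum.inl i₀))) x ∈ B ↔ x ∈ B)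
    (hT' : ∀ x, pt (tr (Sum.inl i₀)) x ∈ Z ↔ x ∈ Z) {c₀ : Cy K (σ ⊕ Unit)}
    (hα : c₀ ∈ Finsupp.supported ℚ ℚ (hat Z))
    (h : Finsupp.mapDomain (extZ (Fin 2) ∅) c₀ ∈ NR (mL M (Fin 2)) i₀ B) :
    c₀ ∈ SmR M ∅ Z ⊔ RatG ∅ Z ⊔ InvT (Sum.inl i₀) Z := by
  classical
  obtain ⟨π, p1, -, p3, p4, p5⟩ := pushP1 hZ
  set Ψ : Cy K (T σ) →ₗ[ℚ] Cy K (T σ) := rs B ∘ₗ GE (X eI) (fun _ => 1) dK with hΨ
  have key : NR (mL M (Fin 2)) i₀ B ≤
      (SmR M ∅ Z ⊔ RatG ∅ Z ⊔ InvT (Sum.inl i₀) Z).comap (π ∘ₗ Ψ) := by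
    refine sup_le (sup_le (fun c hc' => ?_) fun c hc' => ?_) fun c hc' => ?_
    · refine Submodule.mem_sup_left (Submodule.mem_sup_left ?_)
      have s1 := eg_rect hB conn_Gam (X eI) (fun _ => 1) dK (unm_X (mt inl_mem_mL.1 hM))
        (fun z hz _ _ => ⟨EG.one_notMem z, dK_not_mem hne hz, unm_one, by
          obtain ⟨j, hj⟩ := dK_eq z
          rw [hj]
          exact unm_X inr_not_mem_mL⟩)
        (fun γ hγ => by
          obtain ⟨c, h0, h1, h2⟩ := chi hγ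
          exact ⟨c, h0, h1, fun z _ _ _ => h2 z z⟩) hc'
      rw [hc] at s1
      show π (Ψ c) ∈ _
      refine mem_of_singles (N := (SmR M ∅ Z).comap π) fun Q hQ => ?_
      obtain ⟨h1, h2, h3⟩ := SmR_supp s1 hQ
      obtain ⟨n, hn⟩ := p4 Q h1 (stable_scal hZ0 h1 h2)
      rw [Submodule.mem_comap, hn]
      exact Submodule.smul_mem _ _
        (single_mem_SmR ((mem_hat_cone hZ).1 h1).1 (fun _ h => h.elim) h3.down)
    · refine Submodule.mem_sup_left (Submodule.mem_sup_right (p1 _ (RatG_scal hZ0 ?_)))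
      have := eg_rat p hB conn_Gam (X eI) (fun _ => 1) dK
        (fun z hz _ _ => ⟨EG.one_notMem z, dK_not_mem hne hz⟩)
        (fun γ hγ => by
          obtain ⟨c, h0, h1, h2⟩ := chi hγ
          exact ⟨c, h0, h1, fun z _ _ _ => h2 z z⟩) hc'
      rwa [hc] at this
    · obtain ⟨⟨i1, i2⟩, i3⟩ := hc'
      have s1 : Ψ c ∈ Finsupp.supported ℚ ℚ
          {Q | Q ∈ hat (cone Z (Fin 2)) ∧ Stable (Set.range (scal (Fin 2))) Q} := by
        refine mem_of_singles (N := (Finsupp.supported ℚ ℚ _).comap Ψ) fun z hz Q hQ => ?_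
        obtain ⟨h1, h2⟩ := GE_supp hB hne (i1 z hz) (i3 (Finsupp.mem_support_iff.2 hz))
          (Finsupp.mem_support_iff.1 hQ)
        rw [hc] at h1
        exact ⟨h1, stable_scal hZ0 h1 h2⟩
      have s2 : Finsupp.mapDomain (act (tr (Sum.inl (Sum.inl i₀)))) (Ψ c) = Ψ c := by
        show Finsupp.mapDomain _ (rs B _) = rs B _
        rw [← UpG.flt_mapDomain (T := hat B) (act_bijective _).1 fun P => act_mem_hat hT,
          ← GE_act, (inv_iff _ c).1 i2]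
      have s3 : π (Ψ c) ∈ Finsupp.supported ℚ ℚ (hat Z) := by
        refine mem_of_singles (N := (Finsupp.supported ℚ ℚ _).comap π) fun Q hQ => ?_
        obtain ⟨h1, h2⟩ := s1 (Finsupp.mem_support_iff.2 hQ)
        obtain ⟨n, hn⟩ := p4 Q h1 h2
        rw [Submodule.mem_comap, hn]
        exact Submodule.smul_mem _ _ (Finsupp.single_mem_supported _ _ ((mem_hat_cone hZ).1 h1).1)
      have s4 : π (Finsupp.mapDomain (act (tr (Sum.inl (Sum.inl i₀)))) (Ψ c)) =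
          Finsupp.mapDomain (act (tr (Sum.inl i₀))) (π (Ψ c)) := by
        refine mem_of_singles (N := LinearMap.eqLocus
          (π ∘ₗ Finsupp.lmapDomain ℚ ℚ (act (tr (Sum.inl (Sum.inl i₀)))))
          (Finsupp.lmapDomain ℚ ℚ (act (tr (Sum.inl i₀))) ∘ₗ π)) fun Q hQ => ?_
        obtain ⟨h1, h2⟩ := s1 (Finsupp.mem_support_iff.2 hQ)
        show π (Finsupp.mapDomain _ _) = Finsupp.mapDomain _ (π _)
        rw [Finsupp.mapDomain_single]
        exact p5 _ hT' Q h1 h2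
      refine Submodule.mem_sup_right
        ⟨fun P hP => s3 (Finsupp.mem_support_iff.2 hP), (inv_iff _ _).2 ?_⟩
      show Finsupp.mapDomain _ (π (Ψ c)) = π (Ψ c)
      rw [← s4, s2]
  have hval : ∀ α ∈ hat Z,
      π (Ψ (Finsupp.single (extZ (Fin 2) ∅ α) 1)) = -Finsupp.single α 1 := by
    intro α hα
    have he : X eI ∈ (extZ (Fin 2) ∅ α).asIdeal := by
      have : (X eI : MvPolynomial (T σ) K) = rename Sum.inl (X (Sum.inr ())) := (rename_X _ _).symm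
      rw [this, rename_mem_extZ]
      exact hα _ fun x hx _ => by rw [eval_X, hZ0 x hx]
    have hv : X (Sum.inr 1) ∉ (extZ (Fin 2) ∅ α).asIdeal := by
      rw [X_mem_extZ]
      exact Set.notMem_empty _
    have hQ : extZ (Fin 2) (insert 1 ∅) α ∈ hat (cone Z (Fin 2)) := by
      rw [mem_hat_cone hZ, down_extZ]
      exact ⟨hα, 0, by rw [X_mem_extZ]; simp⟩
    have hQs : Stable (Set.range (scal (Fin 2))) (extZ (Fin 2) (insert 1 ∅) α) := by
      rintro _ ⟨s, rfl⟩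
      refine act_eq_of_pts (stSet_cone Z s) hQ fun x _ => ?_
      simp only [mem_Vp_extZ, scal_inl, pt_scal_inr, mul_eq_zero, Units.ne_zero, false_or]
    focus
      show π (rs B (GE _ _ _ _)) = _
      rw [GE_single _ _ _ _ he, dv_one, dK, if_neg hv, dv_extZ_X (Set.notMem_empty _), zero_sub,
        map_neg, map_neg, flt_eq_self, p3 _ hQ hQs 1 (by rw [X_mem_extZ]; simp), down_extZ]
      intro P hP
      rw [(Finsupp.single_apply_ne_zero.1 hP).1]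
      rw [← hc] at hQ
      exact hat_mono (Set.sep_subset _ _) hQ
  have hval' : π (Ψ (Finsupp.mapDomain (extZ (Fin 2) ∅) c₀)) = -c₀ := by
    refine mem_of_singles (N := LinearMap.eqLocus
      (π ∘ₗ Ψ ∘ₗ Finsupp.lmapDomain ℚ ℚ (extZ (Fin 2) ∅)) (-LinearMap.id)) fun α h1 => ?_
    show π (Ψ (Finsupp.mapDomain _ _)) = -Finsupp.single α 1
    rw [Finsupp.mapDomain_single]
    exact hval α (hα (Finsupp.mem_support_iff.2 h1))
  have := key h
  rw [Submodule.mem_comap, LinearMap.comp_apply, hval'] at this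
  exact neg_mem_iff.1 this

section Pull

variable {E : Set (T σ → K)} {W : Set (ι → K)} {π : (T σ → K) → ι → K}
    {Θ : (T σ → K) → Unit → K} {Ψ : (ι ⊕ Unit → K) → T σ → K} (hE : LC E) (hW : LC W)
    (h : RegIso E (prodA W Unit \ {z ∈ prodA W Unit | eval z (X (Sum.inr ())) = 0})
      (fun x => Sum.elim (π x) (Θ x)) Ψ)
    (hs : StSet (Gam K σ) E) (hm : ∀ γ ∈ Gam K σ, ∀ x ∈ E, π (pt γ x) = π x) {j₀ : ι} {i₀ : σ}
    (hT : ∀ x, pt (tr (Sum.inl (Sum.inl i₀))) x ∈ E ↔ x ∈ E)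
    (hT' : ∀ x, pt (tr j₀) x ∈ W ↔ x ∈ W)
    (hc : ∀ x ∈ E, π (pt (tr (Sum.inl (Sum.inl i₀))) x) = pt (tr j₀) (π x))

include hE hW h hs hm hT hT' hc

/-- Pull-back along a trivial torsor under the scaling group. -/
lemma pullE (M : Set (T σ)) : ∃ e : Pr K ι → Pr K (T σ),
    (∀ P ∈ hat W, ∀ Q ∈ hat E, (∀ x ∈ E, x ∈ Vp Q ↔ π x ∈ Vp P) → Q = e P) ∧
    (RatG ∅ W ⊔ InvT j₀ W ≤ (NR M i₀ E).comap (Finsupp.lmapDomain ℚ ℚ e)) ∧
    ∀ M' : Set ι, (∀ x ∈ E, ∀ y ∈ E, mix M x y ∈ E) →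
      (∀ x ∈ E, ∀ y ∈ E, π (mix M x y) = mix M' (π x) (π y)) →
      SmR M' ∅ W ≤ (NR M i₀ E).comap (Finsupp.lmapDomain ℚ ℚ e) := by
  have hsurj : ∀ y ∈ W, ∃ x ∈ E, π x = y := fun y hy => by
    have hz : (Sum.elim y fun _ => 1 : ι ⊕ Unit → K) ∈
        prodA W Unit \ {z ∈ prodA W Unit | eval z (X (Sum.inr ())) = 0} :=
      ⟨hy, fun h' => by simpa using h'.2⟩
    exact ⟨_, h.maps' hz, funext fun i => congrFun (h.right _ hz) (Sum.inl i)⟩
  obtain ⟨e, e1, e2, e3, -, e4, -, e6⟩ := upG (Γ := ∅) hE hW (relCl_eval _ _) h hsurj hs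
    fun γ hγ x hx => ⟨1, one_mem _, by rw [pt_one, hm γ hγ x hx]⟩
  refine ⟨e, fun P hP Q hQ hPQ => eq_of_pts hQ (e1 P hP) fun x hx => by
    rw [hPQ x hx, e2 P hP x hx], sup_le (fun c hc' => ?_) fun c hc' => ?_,
    fun M' m1 m2 c hc' => ?_⟩
  · exact Submodule.mem_sup_left (Submodule.mem_sup_right (e6 c hc'))
  · refine Submodule.mem_sup_right ⟨map_InvT_of_pts (π := π) (fun x hx => (h.maps hx).1) e1 e2 e3
      hT' hT hc hc', fun Q' hQ' => ?_⟩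
    obtain ⟨P', h1, rfl⟩ := Up.mapDomain_ne (Finsupp.mem_support_iff.1 hQ')
    exact e4 P' (hc'.1 P' h1) fun _ h => h.elim
  · exact Submodule.mem_sup_left (Submodule.mem_sup_left (map_SmR (fun P h1 h2 h3 =>
      ⟨e1 P h1, e4 P h1 h2, rect_of_pts (e1 P h1) m1 m2 (e2 P h1) h3⟩) hc'))

lemma pull0 (M : Set (T σ)) (hg : ∀ P ∈ hat W, Finsupp.single P 1 ∈ RatG ∅ W ⊔ InvT j₀ W)
    {P : Pr K ι} (hP : P ∈ hat W) {Q : Pr K (T σ)} (hQ : Q ∈ hat E)
    (hPQ : ∀ x ∈ E, x ∈ Vp Q ↔ π x ∈ Vp P) : Finsupp.single Q 1 ∈ NR M i₀ E := by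
  obtain ⟨e, e1, e2, -⟩ := pullE hE hW h hs hm hT hT' hc M
  have := e2 (hg P hP)
  rwa [Submodule.mem_comap, Finsupp.lmapDomain_apply, Finsupp.mapDomain_single,
    ← e1 P hP Q hQ hPQ] at this

lemma pull1 {M : Set (T σ)} {M' : Set ι} (m1 : ∀ x ∈ E, ∀ y ∈ E, mix M x y ∈ E)
    (m2 : ∀ x ∈ E, ∀ y ∈ E, π (mix M x y) = mix M' (π x) (π y)) {A : Set (Pr K σ)}
    {fP : Pr K σ → Pr K ι} {fQ : Pr K σ → Pr K (T σ)} (hP : ∀ α ∈ A, fP α ∈ hat W)
    (hQ : ∀ α ∈ A, fQ α ∈ hat E) (hPQ : ∀ α ∈ A, ∀ x ∈ E, x ∈ Vp (fQ α) ↔ π x ∈ Vp (fP α))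
    {c : Cy K σ} (hA : c ∈ Finsupp.supported ℚ ℚ A)
    (hg : Finsupp.mapDomain fP c ∈ SmR M' ∅ W ⊔ RatG ∅ W ⊔ InvT j₀ W) :
    Finsupp.mapDomain fQ c ∈ NR M i₀ E := by
  obtain ⟨e, e1, e2, e3⟩ := pullE hE hW h hs hm hT hT' hc M
  rw [sup_assoc] at hg
  have := sup_le (e3 M' m1 m2) e2 hg
  rw [Submodule.mem_comap, Finsupp.lmapDomain_apply, ← Finsupp.mapDomain_comp] at this
  rwa [Finsupp.mapDomain_congr (g := e ∘ fP) fun α hα =>
    e1 _ (hP α (hA hα)) _ (hQ α (hA hα)) (hPQ α (hA hα))]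

end Pull

omit [Finite ι] in
lemma NR_open {B B₀ : Set (T σ → K)} (h : RelCl B₀ B) (hB : LC B) (M : Set (T σ)) (i₀ : σ)
    (h0 : ∀ V ∈ hat B₀, Stable (Gam K σ) V → Finsupp.single V 1 ∈ NR M i₀ B₀) :
    NR M i₀ (B \ B₀) ≤ NR M i₀ B := by
  have hcl : NR M i₀ B₀ ≤ NR M i₀ B :=
    sup_le_sup (sup_le_sup (SmR_mono h.1) (h.RatG_le hB _))
      (inf_le_inf_right _ (IsoG.InvT_mono h.1 _))
  refine sup_le (sup_le (le_sup_of_le_left (le_sup_of_le_left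
    (SmR_mono Set.sdiff_subset))) fun c hc => ?_)
    (le_sup_of_le_right (inf_le_inf_right _ (IsoG.InvT_mono Set.sdiff_subset _)))
  obtain ⟨c', hc', rfl⟩ := h.RatG_lift hB hc
  have hd : c' - rs (B \ B₀) c' ∈ NR M i₀ B := by
    refine mem_of_singles fun V hV => hcl ?_
    have h1 : V ∉ hat (B \ B₀) := fun h1 => hV (by
      rw [Finsupp.sub_apply, flt_apply_of_mem h1, sub_self])
    rw [Finsupp.sub_apply, flt_apply_of_not_mem h1, sub_zero] at hV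
    refine h0 V ?_ (conn_Gam.ratG_stable hc' hV)
    by_contra h2
    exact h1 ((h.mem_hat_diff hB).2 ⟨RatG_supp hc' hV, h2⟩)
  have := (NR M i₀ B).sub_mem (Submodule.mem_sup_left (Submodule.mem_sup_right hc')) hd
  rwa [sub_sub_cancel] at this

omit [Finite ι] in
/-- The part of the Rees space where the second section vanishes. -/
lemma closed_part (hY : LC Y) (M : Set (T σ)) {i₀ : σ} (hs : ∀ x, pt (tr i₀) x ∈ Y ↔ x ∈ Y)
    (hF : ∀ x : σ → K, aeval (pt (tr i₀) x) F = aeval x F)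
    (hg : ∀ x : σ → K, aeval (pt (tr i₀) x) g = aeval x g)
    (h0 : ∀ P ∈ hat {z ∈ Y | aeval z g = 0}, Finsupp.single P 1 ∈
      RatG ∅ {z ∈ Y | aeval z g = 0} ⊔ InvT i₀ {z ∈ Y | aeval z g = 0}) {V : Pr K (T σ)}
    (hV : V ∈ hat {x ∈ Bs Y F g | eval x (X (Sum.inr 1)) = 0}) (hst : Stable (Gam K σ) V) :
    Finsupp.single V 1 ∈ NR M i₀ {x ∈ Bs Y F g | eval x (X (Sum.inr 1)) = 0} := by
  have hv : ∀ x ∈ {x ∈ Bs Y F g | eval x (X (Sum.inr 1)) = 0}, x (Sum.inr 1) = 0 :=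
    fun x hx => by simpa using hx.2
  have hu : ∀ x ∈ {x ∈ Bs Y F g | eval x (X (Sum.inr 1)) = 0}, x (Sum.inr 0) ≠ 0 :=
    fun x hx => hx.1.2.2.2.resolve_right (not_not.2 (hv x hx))
  have hW : ∀ x ∈ {x ∈ Bs Y F g | eval x (X (Sum.inr 1)) = 0},
      x ∘ j2 ∈ {z ∈ Y | aeval z g = 0} :=
    fun x hx => ⟨hx.1.1, by rw [hx.1.2.2.1, hv x hx, mul_zero]⟩
  have hz : ∀ z ∈ prodA {z ∈ Y | aeval z g = 0} Unit \
      {z ∈ prodA {z ∈ Y | aeval z g = 0} Unit | eval z (X (Sum.inr ())) = 0},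
      z (Sum.inr ()) ≠ 0 := fun z hz h => hz.2 ⟨hz.1, by rwa [eval_X]⟩
  have hx : ∀ x ∈ {x ∈ Bs Y F g | eval x (X (Sum.inr 1)) = 0},
      mk (x ∘ j2) (aeval (x ∘ j2) F / x (Sum.inr 0)) (x (Sum.inr 0)) 0 = x := fun x hx => by
    rw [hx.1.2.1, mul_div_cancel_right₀ _ (hu x hx), ← hv x hx, mk_eq]
  refine pull0 (π := fun x => x ∘ j2) (Θ := fun x _ => x (Sum.inr 0))
    (Ψ := fun z => mk (z ∘ Sum.inl) (aeval (z ∘ Sum.inl) F / z (Sum.inr ())) (z (Sum.inr ())) 0)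
    ((relCl_eval _ _).lc (lc_Bs hY)) ((RegF.poly g).lc_zero hY) ⟨?_, ?_, ?_, ?_, hx, ?_⟩ ?_ ?_ ?_
    ?_ (fun x _ => tr_j2 i₀ x) M h0 (P := cm (rename j2) V) ?_ hV fun x hx' => ⟨?_, ?_⟩
  · rintro (i | i)
    · exact RegF.coord (j2 i)
    · exact RegF.coord (Sum.inr 0)
  · exact reg_mk (fun i => RegF.coord (Sum.inl i))
      ((reg_aeval Sum.inl F).div (RegF.coord _) hz) (RegF.coord _) RegF.zero
  · exact fun x hx => ⟨hW x hx, fun h => hu x hx (by simpa using h.2)⟩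
  · exact fun z hz' => ⟨mk_mem.2 ⟨hz'.1.1, (div_mul_cancel₀ _ (hz z hz')).symm,
      hz'.1.2.trans (mul_zero _).symm, Or.inl (hz z hz')⟩, eval_X _⟩
  · intro z _
    funext i
    rcases i with i | i <;> rfl
  · rintro _ ⟨s, rfl⟩ x
    exact and_congr (st_Bs s x) (st_v s x)
  · rintro _ ⟨s, rfl⟩ x _
    exact pt_j2 s x
  · intro x
    refine and_congr (tr_Bs hs hF hg x) ?_
    rw [eval_X, eval_X, tr_u]
  · intro x
    exact and_congr (hs x) (by rw [hg])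
  · intro a ha
    refine hV _ fun x hx hxV => ?_
    show eval x (rename j2 a) = 0
    rw [eval_rename]
    refine ha _ (hW x hx) fun b hb => ?_
    rw [← eval_rename]
    exact hxV _ hb
  · intro h b hb
    rw [← eval_rename]
    exact h _ hb
  · intro h a ha
    let θ : T σ → MvPolynomial σ K := Sum.elim
      (Sum.elim X fun _ => up F * C (x (Sum.inr 0))⁻¹) ![C (x (Sum.inr 0)), 0]
    have hθ : ∀ z : σ → K, (fun j => eval z (θ j)) =
        mk z (aeval z F / x (Sum.inr 0)) (x (Sum.inr 0)) 0 := fun z => by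
      funext j
      rcases j with (j | j) | j
      · exact eval_X _
      · show eval z (up F * C (x (Sum.inr 0))⁻¹) = aeval z F / x (Sum.inr 0)
        rw [map_mul, eval_up, eval_C, div_eq_mul_inv]
      · fin_cases j
        · exact eval_C _
        · exact map_zero _
    have h1 : aeval θ a ∈ (cm (rename j2) V).asIdeal := by
      refine hV _ fun y hy hyV => ?_
      show eval y (rename j2 (aeval θ a)) = 0
      have hs0 : x (Sum.inr 0) / y (Sum.inr 0) ≠ 0 := div_ne_zero (hu x hx') (hu y hy)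
      have hy' := (pts_of_act_eq (hst _ ⟨Units.mk0 _ hs0, rfl⟩) y).2 hyV
      have e : pt (dg (wt σ (Units.mk0 _ hs0))) y =
          mk (y ∘ j2) (aeval (y ∘ j2) F / x (Sum.inr 0)) (x (Sum.inr 0)) 0 := by
        have h1 := hu x hx'
        have h2 := hu y hy
        rw [← mk_eq (pt _ y), pt_j2, pt_e, pt_u, pt_u, hv y hy, mul_zero, hy.1.2.1, Units.val_mk0]
        congr 1 <;> field_simp
      rw [eval_rename, eval_aeval, hθ, ← e]
      exact hy' a ha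
    have := h _ h1
    rwa [eval_aeval, hθ, hx x hx'] at this

omit [Finite ι] in
/-- The part of the Rees space where the second section does not vanish. -/
lemma open_part (hY : LC Y) {M : Set σ} (hM : ∀ x ∈ Y, ∀ y ∈ Y, mix M x y ∈ Y)
    (hF' : ∀ x y : σ → K, aeval (mix M x y) F = aeval x F)
    (hg' : ∀ x y : σ → K, aeval (mix M x y) g = aeval x g)
    {i₀ : σ} (hs : ∀ x, pt (tr i₀) x ∈ Y ↔ x ∈ Y)
    (hF : ∀ x : σ → K, aeval (pt (tr i₀) x) F = aeval x F)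
    (hg : ∀ x : σ → K, aeval (pt (tr i₀) x) g = aeval x g) {c : Cy K σ}
    (hc : c ∈ Finsupp.supported ℚ ℚ (hat {z ∈ {z ∈ Y | aeval z F = 0} | aeval z g = 0}))
    (h1 : Finsupp.mapDomain (extZ Unit ∅) c ∈ SmR (mL M Unit) ∅ {w ∈ prodA Y Unit |
        aeval (w ∘ Sum.inl) F - w (Sum.inr ()) * aeval (w ∘ Sum.inl) g = 0} ⊔
      RatG ∅ {w ∈ prodA Y Unit |
        aeval (w ∘ Sum.inl) F - w (Sum.inr ()) * aeval (w ∘ Sum.inl) g = 0} ⊔
      InvT (Sum.inl i₀) {w ∈ prodA Y Unit |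
        aeval (w ∘ Sum.inl) F - w (Sum.inr ()) * aeval (w ∘ Sum.inl) g = 0}) :
    Finsupp.mapDomain (fun α => extZ (Fin 2) ∅ (extZ Unit Set.univ α)) c ∈
      NR (mL (mL M Unit) (Fin 2)) i₀
        (Bs Y F g \ {x ∈ Bs Y F g | eval x (X (Sum.inr 1)) = 0}) := by
  have hZ : LC {z ∈ {z ∈ Y | aeval z F = 0} | aeval z g = 0} :=
    (RegF.poly g).lc_zero ((RegF.poly F).lc_zero hY)
  have hv : ∀ x ∈ Bs Y F g \ {x ∈ Bs Y F g | eval x (X (Sum.inr 1)) = 0}, x (Sum.inr 1) ≠ 0 :=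
    fun x hx h => hx.2 ⟨hx.1, by rwa [eval_X]⟩
  set W := {w ∈ prodA Y Unit |
    aeval (w ∘ Sum.inl) F - w (Sum.inr ()) * aeval (w ∘ Sum.inl) g = 0} with hWdef
  have hz : ∀ z ∈ prodA W Unit \ {z ∈ prodA W Unit | eval z (X (Sum.inr ())) = 0},
      z (Sum.inr ()) ≠ 0 := fun z hz h => hz.2 ⟨hz.1, by rwa [eval_X]⟩
  have t1 : ∀ w : σ ⊕ Unit → K, pt (tr (Sum.inl i₀)) w ∘ Sum.inl = pt (tr i₀) (w ∘ Sum.inl) :=
    pt_tr_comp Sum.inl_injective i₀
  have t2 : ∀ w : σ ⊕ Unit → K, pt (tr (Sum.inl i₀)) w (Sum.inr ()) = w (Sum.inr ()) :=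
    fun w => pt_tr_ne (by simp) w
  refine pull1 (π := fun x => Sum.elim (x ∘ j2) fun _ => x (Sum.inr 0) / x (Sum.inr 1))
    (Θ := fun x _ => x (Sum.inr 1))
    (Ψ := fun z => mk (z ∘ Sum.inl ∘ Sum.inl) (aeval (z ∘ Sum.inl ∘ Sum.inl) g / z (Sum.inr ()))
      (z (Sum.inl (Sum.inr ())) * z (Sum.inr ())) (z (Sum.inr ())))
    ((relCl_eval _ _).lc_diff (lc_Bs hY))
    (((reg_aeval Sum.inl F).sub ((RegF.coord _).mul (reg_aeval Sum.inl g))).lc_zero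
      (hY.prodA Unit)) ⟨?_, ?_, ?_, ?_, ?_, ?_⟩ ?_ ?_ ?_ ?_ ?_ (fun x hx y hy => ?_)
    (fun x hx y hy => ?_) (fun α hα => ?_) (fun α hα => ?_) (fun α hα => ?_) hc h1
  · rintro ((i | i) | i)
    · exact RegF.coord (j2 i)
    · exact (RegF.coord (Sum.inr 0)).div (RegF.coord (Sum.inr 1)) hv
    · exact RegF.coord (Sum.inr 1)
  · exact reg_mk (fun i => RegF.coord (Sum.inl (Sum.inl i)))
      ((reg_aeval (Sum.inl ∘ Sum.inl) g).div (RegF.coord _) hz)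
      ((RegF.coord _).mul (RegF.coord _)) (RegF.coord _)
  · intro x hx
    refine ⟨⟨hx.1.1, ?_⟩, fun h => hv x hx (by simpa using h.2)⟩
    show aeval (x ∘ j2) F - x (Sum.inr 0) / x (Sum.inr 1) * aeval (x ∘ j2) g = 0
    have := hv x hx
    rw [hx.1.2.1, hx.1.2.2.1]
    field_simp
    ring
  · intro z hz'
    have h2 := hz z hz'
    have h3 : aeval (z ∘ Sum.inl ∘ Sum.inl) F =
        z (Sum.inl (Sum.inr ())) * aeval (z ∘ Sum.inl ∘ Sum.inl) g := sub_eq_zero.1 hz'.1.2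
    refine ⟨mk_mem.2 ⟨hz'.1.1, ?_, (div_mul_cancel₀ _ h2).symm, Or.inr h2⟩,
      fun h => h2 ((eval_X (Sum.inr 1)).symm.trans h.2 :)⟩
    rw [h3]
    field_simp
  · intro x hx
    have h2 := hv x hx
    show mk (x ∘ j2) (aeval (x ∘ j2) g / x (Sum.inr 1))
      (x (Sum.inr 0) / x (Sum.inr 1) * x (Sum.inr 1)) (x (Sum.inr 1)) = x
    rw [hx.1.2.2.1, mul_div_cancel_right₀ _ h2, div_mul_cancel₀ _ h2, mk_eq]
  · intro z hz'
    funext i
    rcases i with (i | i) | i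
    · rfl
    · exact mul_div_cancel_right₀ _ (hz z hz')
    · rfl
  · rintro _ ⟨s, rfl⟩ x
    exact and_congr (st_Bs s x) (not_congr (and_congr (st_Bs s x) (st_v s x)))
  · rintro _ ⟨s, rfl⟩ x _
    simp only [pt_j2, pt_u, mul_div_mul_left _ _ s.ne_zero]
  · intro x
    refine and_congr (tr_Bs hs hF hg x) (not_congr (and_congr (tr_Bs hs hF hg x) ?_))
    rw [eval_X, eval_X, tr_u]
  · intro w
    simp only [prodA, Set.mem_ofPred_eq, t1, t2, hs, hF, hg]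
  · intro x _
    simp only [tr_j2, tr_u]
    funext j
    rcases j with j | ⟨⟨⟩⟩
    · exact (congrFun (t1 (Sum.elim (x ∘ j2) fun _ => x (Sum.inr 0) / x (Sum.inr 1))) j).symm
    · rw [t2]
      rfl
  · refine ⟨mix_Bs hM hF' hg' hx.1 hy.1, fun h => hv x hx ?_⟩
    have h2 := h.2
    rwa [eval_X, mix_of_not_mem inr_not_mem_mL] at h2
  · funext j
    rcases j with j | j
    · exact (congrFun (mix_j2 x y) j).trans (congrFun (mix_inl
        (Sum.elim (x ∘ j2) fun _ : Unit => x (Sum.inr 0) / x (Sum.inr 1))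
        (Sum.elim (y ∘ j2) fun _ : Unit => y (Sum.inr 0) / y (Sum.inr 1))) j).symm
    · simp only [mix_of_not_mem inr_not_mem_mL, Sum.elim_inr]
  · refine hat_mono (Y := prodA {z ∈ {z ∈ Y | aeval z F = 0} | aeval z g = 0} Unit)
      (fun w hw => ?_) (by rwa [mem_hat_prodA hZ, down_extZ])
    exact ⟨hw.1.1, by rw [hw.1.2, hw.2, mul_zero, sub_zero]⟩
  · rw [(relCl_eval _ _).mem_hat_diff (lc_Bs hY), mem_hat_zero (lc_Bs hY), X_mem_extZ]
    refine ⟨hat_mono (Y := cone {w ∈ prodA {z ∈ {z ∈ Y | aeval z F = 0} | aeval z g = 0} Unit |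
      eval w (X (Sum.inr ())) = 0} (Fin 2)) (fun x hx => ?_) ?_, fun h => h.2⟩
    · have h2 : x eI = 0 := ((eval_X (Sum.inr ())).symm.trans hx.1.2 :)
      exact ⟨hx.1.1.1.1, by rw [h2, zero_mul]; exact hx.1.1.1.2,
        by rw [h2, zero_mul]; exact hx.1.1.2, (ne_iff x).1 hx.2⟩
    · rw [mem_hat_cone ((relCl_eval _ _).lc (hZ.prodA Unit)), down_extZ,
        mem_hat_zero (hZ.prodA Unit), mem_hat_prodA hZ, down_extZ, X_mem_extZ]
      exact ⟨⟨hα, Set.mem_univ _⟩, 0, by rw [X_mem_extZ]; exact Set.notMem_empty _⟩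
  · intro x hx
    simp only [mem_Vp_extZ, Set.mem_empty_iff_false, false_imp_iff, implies_true, and_true,
      Set.mem_univ, true_imp_iff]
    refine ⟨fun h => h.1, fun h => ⟨h, fun _ => ?_⟩⟩
    have h2 : aeval (x ∘ j2) g = 0 := by
      rw [← eval_up]
      exact h _ (hα _ fun z hz _ => by rw [eval_up, hz.2])
    rw [hx.1.2.2.1] at h2
    exact (mul_eq_zero.1 h2).resolve_right (hv x hx)

end PS5

end Pool.Agent.Lib.MP_60ec62_ag.DL
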