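import Pool.Agent.Lib.MP_60ec62_ag.DF.MIso
import Pool.Agent.Lib.MP_60ec62_ag.DF.FExt
import Pool.Agent.Lib.MP_60ec62_ag.DL.Up

/-!
Affine space bundles.
-/

noncomputable section

namespace Pool.Agent.Lib.MP_60ec62_ag.DL

open MvPolynomial

variable {K : Type} [Field K] [IsAlgClosed K] {p q : ℕ} [Fact p.Prime] [CharP K p]
  {ι κ ι' τ : Type} [Finite ι] [Finite κ] [Finite ι'] [Finite τ]

variable {E : Set (ι' → K)} {Y : Set (ι → K)} {π : (ι' → K) → ι → K}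

theorem sharp_of_fibre (hE : LC E) (hY : LC Y) (hπ : RegMap E π) (hm : Set.MapsTo π E Y)
    (h : LocTriv E Y π κ) {j₀ : ι'} (hs' : ∀ x, pt (tr j₀) x ∈ E ↔ x ∈ E)
    (hc : ∀ x ∈ E, π (pt (tr j₀) x) = π x) :
    ∀ Q ∈ hat E, Finsupp.single Q 1 ∈ RatG ∅ E ⊔ InvT j₀ E := by
  obtain ⟨e, he⟩ := upCore hE hY hπ hm h
  intro Q hQ
  refine (sup_le (Submodule.span_le.2 ?_) le_sup_left :
    _ ≤ RatG ∅ E ⊔ InvT j₀ E) (he.surj Q hQ)
  rintro _ ⟨P, hP, rfl⟩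
  have ha : act (tr j₀) (e P) = e P := act_eq_of_pts hs' (he.mem P hP) fun x hx => by
    rw [he.pts P hP _ ((hs' x).2 hx), he.pts P hP x hx, hc x hx]
  refine Submodule.mem_sup_right ⟨fun Q' hQ' => ?_, fun Q' => ?_⟩
  · rw [(Finsupp.single_apply_ne_zero.1 hQ').1]
    exact he.mem P hP
  · by_cases hQ' : Q' = e P
    · rw [hQ', ha]
    · rw [Finsupp.single_eq_of_ne hQ', Finsupp.single_eq_of_ne]
      exact fun hh => hQ' ((act_bijective (tr j₀)).1 (hh.trans ha.symm))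

namespace PUp

/-- The product of a map with the identity. -/
def pr (π : (ι' → K) → ι → K) (τ : Type) : (ι' ⊕ τ → K) → ι ⊕ τ → K :=
  fun z => Sum.elim (π (z ∘ Sum.inl)) (z ∘ Sum.inr)

/-- The inverse chart of the product bundle. -/
def ps (Ψ : (ι ⊕ κ → K) → ι' → K) (τ : Type) : ((ι ⊕ τ) ⊕ κ → K) → ι' ⊕ τ → K :=
  fun w => Sum.elim (Ψ (Sum.elim (w ∘ Sum.inl ∘ Sum.inl) (w ∘ Sum.inr))) (w ∘ Sum.inl ∘ Sum.inr)

section Basic

variable {K : Type} [Field K] {ι κ ι' τ : Type}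
  {E : Set (ι' → K)} {Y : Set (ι → K)} {π : (ι' → K) → ι → K} {T : Set (τ → K)}

lemma regMap (hπ : RegMap E π) (T : Set (τ → K)) : RegMap (prodT E T) (pr π τ) := by
  rintro (i | t)
  · exact RegF.comp (hπ i) (Φ := fun z : ι' ⊕ τ → K => z ∘ Sum.inl)
      (fun j => RegF.coord (Sum.inl j)) fun _ hz => hz.1
  · exact RegF.coord (Sum.inr t)

omit [Field K] in
lemma mapsTo (hm : Set.MapsTo π E Y) (T : Set (τ → K)) :
    Set.MapsTo (pr π τ) (prodT E T) (prodT Y T) := fun _ hz => ⟨hm hz.1, hz.2⟩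

lemma chart {f : MvPolynomial ι K} {Θ : (ι' → K) → κ → K} {Ψ : (ι ⊕ κ → K) → ι' → K}
    (hi : RegIso {x ∈ E | eval (π x) f ≠ 0} (prodA {y ∈ Y | eval y f ≠ 0} κ)
      (fun x => Sum.elim (π x) (Θ x)) Ψ) (T : Set (τ → K)) :
    RegIso {z ∈ prodT E T | eval (pr π τ z) (rename Sum.inl f) ≠ 0}
      (prodA {y ∈ prodT Y T | eval y (rename Sum.inl f) ≠ 0} κ)
      (fun z => Sum.elim (pr π τ z) (Θ (z ∘ Sum.inl))) (ps Ψ τ) := by
  have m1 : ∀ z ∈ {z ∈ prodT E T | eval (pr π τ z) (rename Sum.inl f) ≠ 0},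
      z ∘ Sum.inl ∈ {x ∈ E | eval (π x) f ≠ 0} := by
    intro z hz
    have := hz.2
    rw [Up.eval_inl] at this
    exact ⟨hz.1.1, this⟩
  have m2 : ∀ w ∈ prodA {y ∈ prodT Y T | eval y (rename Sum.inl f) ≠ 0} κ,
      Sum.elim (w ∘ Sum.inl ∘ Sum.inl) (w ∘ Sum.inr) ∈ prodA {y ∈ Y | eval y f ≠ 0} κ := by
    intro w hw
    have := hw.2
    rw [Up.eval_inl] at this
    exact ⟨hw.1.1, this⟩
  refine ⟨?_, ?_, fun z hz => ?_, fun w hw => ?_, fun z hz => ?_, fun w hw => ?_⟩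
  · rintro ((i | t) | k)
    · exact RegF.comp (hi.reg (Sum.inl i)) (Φ := fun z : ι' ⊕ τ → K => z ∘ Sum.inl)
        (fun j => RegF.coord (Sum.inl j)) m1
    · exact RegF.coord (Sum.inr t)
    · exact RegF.comp (hi.reg (Sum.inr k)) (Φ := fun z : ι' ⊕ τ → K => z ∘ Sum.inl)
        (fun j => RegF.coord (Sum.inl j)) m1
  · rintro (i | t)
    · refine RegF.comp (hi.reg' i) (Φ := fun w : (ι ⊕ τ) ⊕ κ → K =>
        Sum.elim (w ∘ Sum.inl ∘ Sum.inl) (w ∘ Sum.inr)) ?_ m2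
      rintro (j | j)
      · exact RegF.coord (Sum.inl (Sum.inl j))
      · exact RegF.coord (Sum.inr j)
    · exact RegF.coord (Sum.inl (Sum.inr t))
  · exact ⟨⟨(hi.maps (m1 z hz)).1, hz.1.2⟩, hz.2⟩
  · have h1 := hi.maps' (m2 w hw)
    refine ⟨⟨h1.1, hw.1.2⟩, ?_⟩
    rw [Up.eval_inl]
    exact h1.2
  · have h1 := hi.left _ (m1 z hz)
    funext j
    rcases j with j | j
    · exact congrFun h1 j
    · rfl
  · have h1 := hi.right _ (m2 w hw)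
    funext j
    rcases j with (j | j) | j
    · exact congrFun h1 (Sum.inl j)
    · rfl
    · exact congrFun h1 (Sum.inr j)

lemma locTriv (h : LocTriv E Y π κ) (T : Set (τ → K)) :
    LocTriv (prodT E T) (prodT Y T) (pr π τ) κ := by
  intro y hy
  obtain ⟨f, Θ, Ψ, hf, hi⟩ := h _ hy.1
  exact ⟨rename Sum.inl f, fun z => Θ (z ∘ Sum.inl), ps Ψ τ, by rwa [Up.eval_inl], chart hi T⟩

lemma pfx_inl {p : ℕ} (z : ι ⊕ τ → K) : pfx p (mR ι τ) z ∘ Sum.inl = z ∘ Sum.inl := by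
  funext i
  exact pfx_of_not_mem inl_not_mem_mR z

lemma pr_pfx {p : ℕ} (z : ι' ⊕ τ → K) :
    pr π τ (pfx p (mR ι' τ) z) = pfx p (mR ι τ) (pr π τ z) := by
  funext j
  rcases j with j | j
  · rw [pfx_of_not_mem inl_not_mem_mR]
    show π (pfx p (mR ι' τ) z ∘ Sum.inl) j = π (z ∘ Sum.inl) j
    rw [pfx_inl]
  · rw [pfx_of_mem inr_mem_mR]
    exact pfx_of_mem inr_mem_mR z

lemma pr_mix (x y : ι' ⊕ τ → K) :
    pr π τ (mix (mR ι' τ) x y) = mix (mR ι τ) (pr π τ x) (pr π τ y) := by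
  have e1 : mix (mR ι' τ) x y ∘ Sum.inl = x ∘ Sum.inl := by
    funext i
    exact mix_of_not_mem inl_not_mem_mR x y
  funext j
  rcases j with j | j
  · rw [mix_of_not_mem inl_not_mem_mR]
    show π (mix (mR ι' τ) x y ∘ Sum.inl) j = π (x ∘ Sum.inl) j
    rw [e1]
  · rw [mix_of_mem inr_mem_mR]
    exact mix_of_mem inr_mem_mR x y

lemma pfx_mL {p : ℕ} (M : Set ι) (w : ι ⊕ κ → K) :
    pfx p (mL M κ) w ∘ Sum.inl = pfx p M (w ∘ Sum.inl) := by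
  funext i
  by_cases h : i ∈ M
  · rw [pfx_of_mem h]
    exact pfx_of_mem (inl_mem_mL.2 h) w
  · rw [pfx_of_not_mem h]
    exact pfx_of_not_mem (fun hh => h (inl_mem_mL.1 hh)) w

lemma ps_pfx {p : ℕ} (Ψ : (ι ⊕ κ → K) → ι' → K) (w : (ι ⊕ τ) ⊕ κ → K) :
    ps Ψ τ (pfx p (mL (mR ι τ) κ) w) = pfx p (mR ι' τ) (ps Ψ τ w) := by
  have e1 : Sum.elim (pfx p (mL (mR ι τ) κ) w ∘ Sum.inl ∘ Sum.inl)
      (pfx p (mL (mR ι τ) κ) w ∘ Sum.inr) = Sum.elim (w ∘ Sum.inl ∘ Sum.inl) (w ∘ Sum.inr) := by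
    funext i
    rcases i with i | i
    · exact pfx_of_not_mem (fun hh => inl_not_mem_mR (inl_mem_mL.1 hh)) w
    · exact pfx_of_not_mem inr_not_mem_mL w
  funext j
  rcases j with j | j
  · rw [pfx_of_not_mem inl_not_mem_mR]
    show Ψ (Sum.elim (pfx p (mL (mR ι τ) κ) w ∘ Sum.inl ∘ Sum.inl)
      (pfx p (mL (mR ι τ) κ) w ∘ Sum.inr)) j = Ψ (Sum.elim (w ∘ Sum.inl ∘ Sum.inl) (w ∘ Sum.inr)) j
    rw [e1]
  · rw [pfx_of_mem inr_mem_mR]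
    exact pfx_of_mem (inl_mem_mL.2 inr_mem_mR) w

end Basic

variable {T : Set (τ → K)}

lemma tr_mem {j₀ : ι'} (hs' : ∀ x, pt (tr j₀) x ∈ E ↔ x ∈ E) (T : Set (τ → K))
    (z : ι' ⊕ τ → K) : pt (tr (Sum.inl j₀)) z ∈ prodT E T ↔ z ∈ prodT E T := by
  rw [pt_tr_inl]
  exact and_congr (hs' _) Iff.rfl

lemma comm (hE : LC E) (hY : LC Y) (hπ : RegMap E π) (hm : Set.MapsTo π E Y)
    (h : LocTriv E Y π κ) (hT : Pas p T) {e : Pr K (ι ⊕ τ) → Pr K (ι' ⊕ τ)}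
    (he : UpData (prodT E T) (prodT Y T) (pr π τ) e) {P : Pr K (ι ⊕ τ)}
    (hP : P ∈ hat (prodT Y T)) :
    Finsupp.mapDomain e (FF p (mR ι τ) (Finsupp.single P 1)) =
      FF p (mR ι' τ) (Finsupp.mapDomain e (Finsupp.single P 1)) := by
  have hE' := LC.prodT hE hT.lc
  have hY' := LC.prodT hY hT.lc
  have hπ' := regMap hπ T
  obtain ⟨y, hy, hyP⟩ := hat_nonempty hP
  obtain ⟨f, Θ, Ψ, hf, hi⟩ := h _ hy.1
  have hi' := chart hi T
  have l1 := (Up.lc_open hY' (rename Sum.inl f)).prodA κ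
  have l2 := (Up.reg_eval hπ' (rename Sum.inl f)).lc_ne hE'
  obtain ⟨g, hg⟩ := isoCore l1 l2 hi'.symm
  have hc : Up.Ch (prodT E T) (prodT Y T) (pr π τ) (rename Sum.inl f)
      (fun z => Θ (z ∘ Sum.inl)) (ps Ψ τ) g := ⟨hi'.symm, hg⟩
  have hfP : rename Sum.inl f ∉ P.asIdeal := fun hh => hf (by
    have := hyP _ hh
    rwa [Up.eval_inl] at this)
  have hP' : cm (pf p (mR ι τ)) P ∈ hat (prodT Y T) := (cm_pf_mem_hat (hT.mset Y).frob).2 hP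
  have hfP' : rename Sum.inl f ∉ (cm (pf p (mR ι τ)) P).asIdeal := by
    rw [mem_cm, (unm_rename_inl f).pf_eq]
    exact hfP
  have e1 := hc.eq hE' hY' hπ' (mapsTo hm T) (locTriv h T) he.mem he.pts hP hfP
  have e2 := hc.eq hE' hY' hπ' (mapsTo hm T) (locTriv h T) he.mem he.pts hP' hfP'
  have s1 : ∀ x, pfx p (mL (mR ι τ) κ) x ∈
      prodA {y ∈ prodT Y T | eval y (rename Sum.inl f) ≠ 0} κ ↔
      x ∈ prodA {y ∈ prodT Y T | eval y (rename Sum.inl f) ≠ 0} κ := by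
    intro x
    show pfx p (mL (mR ι τ) κ) x ∘ Sum.inl ∈ {y ∈ prodT Y T | eval y (rename Sum.inl f) ≠ 0} ↔
      x ∘ Sum.inl ∈ {y ∈ prodT Y T | eval y (rename Sum.inl f) ≠ 0}
    rw [pfx_mL]
    refine and_congr ((hT.mset Y).frob _) ?_
    rw [Up.eval_inl, Up.eval_inl, pfx_inl]
  have s2 : ∀ x, pfx p (mR ι' τ) x ∈ {z ∈ prodT E T | eval (pr π τ z) (rename Sum.inl f) ≠ 0} ↔
      x ∈ {z ∈ prodT E T | eval (pr π τ z) (rename Sum.inl f) ≠ 0} := by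
    intro x
    refine and_congr ((hT.mset E).frob _) ?_
    rw [pr_pfx, Up.eval_inl, Up.eval_inl, pfx_inl]
  have key := hg.FF_comm hi'.symm l1 l2 s1 s2 (fun x _ => ps_pfx Ψ x)
    (c := Finsupp.single (extZ κ ∅ P) 1)
    (Finsupp.single_mem_supported ℚ _ (Up.ext_mem hY' hP hfP))
  have k2 := FF_extZ (p := p) (mR ι τ) (∅ : Set κ) (Finsupp.single P (1 : ℚ))
  rw [Finsupp.mapDomain_single] at k2
  rw [← k2, Finsupp.mapDomain_single, e1, FF_single P, Finsupp.mapDomain_smul,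
    Finsupp.mapDomain_smul, Finsupp.mapDomain_single, Finsupp.mapDomain_single, e2] at key
  rw [Finsupp.mapDomain_single, ← key, FF_single P, Finsupp.mapDomain_smul,
    Finsupp.mapDomain_single]

end PUp

theorem FGoodT.up (hE : LC E) (hY : LC Y) (hπ : RegMap E π) (hm : Set.MapsTo π E Y)
    (h : LocTriv E Y π κ) {i₀ : ι} {j₀ : ι'} (hs : ∀ x, pt (tr i₀) x ∈ Y ↔ x ∈ Y)
    (hs' : ∀ x, pt (tr j₀) x ∈ E ↔ x ∈ E)
    (hc : ∀ x ∈ E, π (pt (tr j₀) x) = pt (tr i₀) (π x)) (hg : FGoodT p i₀ Y) : FGoodT p j₀ E := by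
  intro τ _ T hT
  have hE' := LC.prodT hE hT.lc
  have hY' := LC.prodT hY hT.lc
  obtain ⟨e, he⟩ := upCore hE' hY' (PUp.regMap hπ T) (PUp.mapsTo hm T) (PUp.locTriv h T)
  have hc' : ∀ x ∈ prodT E T, PUp.pr π τ (pt (tr (Sum.inl j₀)) x) =
      pt (tr (Sum.inl i₀)) (PUp.pr π τ x) := by
    intro x hx
    rw [pt_tr_inl, pt_tr_inl]
    show Sum.elim (π (pt (tr j₀) (x ∘ Sum.inl))) (x ∘ Sum.inr) =
      Sum.elim (pt (tr i₀) (π (x ∘ Sum.inl))) (x ∘ Sum.inr)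
    rw [hc _ hx.1]
  have hle : SmR (mR ι τ) ∅ (prodT Y T) ⊔ RatG ∅ (prodT Y T) ⊔ InvT (Sum.inl i₀) (prodT Y T) ≤
      (SmR (mR ι' τ) ∅ (prodT E T) ⊔ RatG ∅ (prodT E T) ⊔ InvT (Sum.inl j₀) (prodT E T)).comap
        (Finsupp.lmapDomain ℚ ℚ e) := by
    refine sup_le (sup_le (fun c hc₁ => ?_) fun c hc₁ => ?_) fun c hc₁ => ?_
    · refine Submodule.mem_sup_left (Submodule.mem_sup_left (map_SmR (fun P hP _ hr => ?_) hc₁))
      exact ⟨he.mem P hP, fun _ hγ => absurd hγ (Set.notMem_empty _),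
        rect_of_pts (he.mem P hP) (hT.mset E).mix (fun x _ y _ => PUp.pr_mix x y)
          (he.pts P hP) hr⟩
    · exact Submodule.mem_sup_left (Submodule.mem_sup_right (he.rat c hc₁))
    · exact Submodule.mem_sup_right (map_InvT_of_pts (PUp.mapsTo hm T) he.mem he.pts he.inj
        (PUp.tr_mem hs T) (PUp.tr_mem hs' T) hc' hc₁)
  have hcomm : ∀ c ∈ Finsupp.supported ℚ ℚ (hat (prodT Y T)),
      Finsupp.lmapDomain ℚ ℚ e (FF p (mR ι τ) c) =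
        FF p (mR ι' τ) (Finsupp.lmapDomain ℚ ℚ e c) := by
    intro c hc₁
    refine mem_of_singles (N := LinearMap.eqLocus (Finsupp.lmapDomain ℚ ℚ e ∘ₗ FF p (mR ι τ))
      (FF p (mR ι' τ) ∘ₗ Finsupp.lmapDomain ℚ ℚ e)) fun P hP => ?_
    exact PUp.comm hE hY hπ hm h hT he (hc₁ (Finsupp.mem_support_iff.2 hP))
  intro Q hQ
  refine (sup_le (Submodule.span_le.2 ?_) ((le_sup_of_le_left le_sup_right).trans
    (le_nilT (hT.mset E).frob inl_not_mem_mR)) : _ ≤ Nil (Sp p) (FF p (mR ι' τ))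
      (SmR (mR ι' τ) ∅ (prodT E T) ⊔ RatG ∅ (prodT E T) ⊔ InvT (Sum.inl j₀) (prodT E T)))
    (he.surj Q hQ)
  rintro _ ⟨P, hP, rfl⟩
  have := Nil.map' (g := Finsupp.lmapDomain ℚ ℚ e) (fun c hc₁ => FF_hat (hT.mset Y).frob hc₁)
    hcomm (fun c _ hc₁ => Submodule.mem_comap.1 (hle hc₁)) (Finsupp.single_mem_supported ℚ _ hP) (hg τ T hT P hP)
  rwa [Finsupp.lmapDomain_apply, Finsupp.mapDomain_single] at this

theorem fgoodT_of_fibre (hE : LC E) (hY : LC Y) (hπ : RegMap E π) (hm : Set.MapsTo π E Y)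
    (h : LocTriv E Y π κ) {j₀ : ι'} (hs' : ∀ x, pt (tr j₀) x ∈ E ↔ x ∈ E)
    (hc : ∀ x ∈ E, π (pt (tr j₀) x) = π x) : FGoodT p j₀ E := by
  intro τ _ T hT Q hQ
  have hc' : ∀ x ∈ prodT E T, PUp.pr π τ (pt (tr (Sum.inl j₀)) x) = PUp.pr π τ x := by
    intro x hx
    rw [pt_tr_inl]
    show Sum.elim (π (pt (tr j₀) (x ∘ Sum.inl))) (x ∘ Sum.inr) =
      Sum.elim (π (x ∘ Sum.inl)) (x ∘ Sum.inr)
    rw [hc _ hx.1]
  have := sharp_of_fibre (LC.prodT hE hT.lc) (LC.prodT hY hT.lc) (PUp.regMap hπ T)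
    (PUp.mapsTo hm T) (PUp.locTriv h T) (PUp.tr_mem hs' T) hc' Q hQ
  exact le_nilT (hT.mset E).frob inl_not_mem_mR
    ((sup_le (le_sup_of_le_left le_sup_right) le_sup_right :
      RatG ∅ (prodT E T) ⊔ InvT (Sum.inl j₀) (prodT E T) ≤ _) this)

end Pool.Agent.Lib.MP_60ec62_ag.DL
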