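import Pool.Agent.Lib.MP_60ec62_ag.DF.Real
import Pool.Agent.Lib.MP_60ec62_ag.DF.Stm3

/-!
Generalised eigenvectors, and descent of the cycles to the finite field.
-/

noncomputable section

namespace Pool.Agent.Lib.MP_60ec62_ag.DL

open Polynomial

namespace Real2

variable {α E V : Type} [Field E] [AddCommGroup V] [Module E V] {p : ℕ} {S : Set α} {τ : α → α}
  {Fr : Module.End E V} {cl : α → V} {cd : α → ℕ}

lemma iter (hS : ∀ P ∈ S, τ P ∈ S) (h : Stm.Compat p S τ Fr cl cd) (j : ℕ) {P : α} (hP : P ∈ S) :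
    τ^[j] P ∈ S ∧ cd (τ^[j] P) = cd P ∧ (Fr ^ j) (cl (τ^[j] P)) = (p : E) ^ (j * cd P) • cl P := by
  induction j with
  | zero => simpa using hP
  | succ j ih =>
    obtain ⟨h1, h2, h3⟩ := ih
    rw [Function.iterate_succ_apply']
    refine ⟨hS _ h1, (h _ h1).1.trans h2, ?_⟩
    rw [pow_succ, Module.End.mul_apply, (h _ h1).2, map_smul, h3, h2, smul_smul, ← pow_add]
    congr 2
    ring

lemma eigen (hS : ∀ P ∈ S, τ P ∈ S) (h : Stm.Compat p S τ Fr cl cd) (m i : ℕ) {v : V}
    (hv : v ∈ Submodule.span E (Stm.InvCl {P ∈ S | cd P = i} τ^[m] cl)) :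
    (Fr ^ m) v = (p : E) ^ (m * i) • v := by
  induction hv using Submodule.span_induction with
  | mem v hv =>
    obtain ⟨c, h1, h2, rfl⟩ := hv
    conv_lhs => rw [← h2, Finsupp.sum_mapDomain_index (h := fun P (r : ℤ) => r • cl P)
      (fun _ => zero_smul _ _) fun _ _ _ => add_smul _ _ _]
    rw [Finsupp.sum, Finsupp.sum, map_sum, Finset.smul_sum]
    refine Finset.sum_congr rfl fun P hP => ?_
    rw [map_zsmul, (iter hS h m (h1 hP).1).2.2, (h1 hP).2, smul_comm]
  | zero => simp
  | add u v _ _ hu hv => rw [map_add, hu, hv, smul_add]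
  | smul a v _ hv => rw [map_smul, hv, smul_comm]

lemma aeval_eigen {G : Module.End E V} {a : E} {v : V} (h : G v = a • v) (f : E[X]) :
    aeval G f v = f.eval a • v := by
  induction f using Polynomial.induction_on' with
  | add f g hf hg => rw [map_add, LinearMap.add_apply, hf, hg, eval_add, add_smul]
  | monomial n c =>
    have : (G ^ n) v = a ^ n • v := by
      induction n with
      | zero => simp
      | succ n ih => rw [pow_succ', Module.End.mul_apply, ih, map_smul, h, smul_smul, pow_succ]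
    rw [aeval_monomial, Module.End.mul_apply, Module.algebraMap_end_apply, this, eval_monomial,
      smul_smul]

variable [CharZero E]

/-- Every class is carried into the span of the invariant classes by a polynomial that does not
vanish at the eigenvalue. -/
lemma carry (hp : 1 < p) (hS : ∀ P ∈ S, τ P ∈ S) (hper : ∀ P, ∃ N, 0 < N ∧ τ^[N] P = P)
    (h : Stm.Compat p S τ Fr cl cd) {m : ℕ} (hm : 0 < m) (i : ℕ) {v : V}
    (hv : v ∈ Submodule.span E (cl '' S)) : ∃ u : E[X], u.eval ((p : E) ^ (m * i)) ≠ 0 ∧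
      aeval (Fr ^ m) u v ∈ Submodule.span E (Stm.InvCl {P ∈ S | cd P = i} τ^[m] cl) := by
  have hp0 : (p : E) ≠ 0 := Nat.cast_ne_zero.2 (by omega)
  have st : ∀ (u : E[X]), ∀ w ∈ Submodule.span E (Stm.InvCl {P ∈ S | cd P = i} τ^[m] cl),
      aeval (Fr ^ m) u w ∈ Submodule.span E (Stm.InvCl {P ∈ S | cd P = i} τ^[m] cl) :=
    fun u w hw => by rw [aeval_eigen (eigen hS h m i hw)]; exact Submodule.smul_mem _ _ hw
  induction hv using Submodule.span_induction with
  | mem v hv =>
    obtain ⟨P, hP, rfl⟩ := hv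
    obtain ⟨N, hN, hNP⟩ := hper P
    have h1 : ∀ j, τ^[N * j] P = P := fun j => by
      rw [Function.iterate_mul]; exact Function.iterate_fixed hNP j
    by_cases hc : cd P = i
    · refine ⟨∑ j ∈ Finset.range N, C (((p : E) ^ (m * i))⁻¹ ^ (j + 1)) * X ^ (j + 1), ?_, ?_⟩
      · simp only [eval_finsetSum, eval_mul, eval_C, eval_pow, eval_X, ← mul_pow,
          inv_mul_cancel₀ (pow_ne_zero _ hp0), one_pow, Finset.sum_const, Finset.card_range,
          nsmul_eq_mul, mul_one]
        exact Nat.cast_ne_zero.2 hN.ne'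
      · refine Submodule.subset_span ⟨∑ j ∈ Finset.range N, Finsupp.single (τ^[m * j] P) 1,
          fun Q hQ => ?_, ?_, ?_⟩
        · classical
          obtain ⟨j, -, hj⟩ := Finset.mem_biUnion.1 (Finsupp.support_finsetSum hQ)
          rw [Finset.mem_singleton.1 (Finsupp.support_single_subset hj)]
          exact ⟨(iter hS h _ hP).1, (iter hS h _ hP).2.1.trans hc⟩
        · have e := Finset.sum_range_succ (fun j => Finsupp.single (τ^[m * j] P) (1 : ℤ)) N
          rw [Finset.sum_range_succ', mul_comm m N, h1] at e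
          rw [Finsupp.mapDomain_finsetSum]
          refine Eq.trans (Finset.sum_congr rfl fun j _ => ?_) (add_right_cancel e)
          rw [Finsupp.mapDomain_single, ← Function.iterate_add_apply, mul_add, mul_one, add_comm]
        · rw [← Finsupp.sum_finsetSum_index (h := fun P (r : ℤ) => r • cl P)
            (fun _ => zero_smul _ _) fun _ _ _ => add_smul _ _ _, map_sum, LinearMap.sum_apply, ← Finset.sum_range_reflect]
          refine Finset.sum_congr rfl fun j hj => ?_
          have hj' := Finset.mem_range.1 hj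
          have e : P = τ^[m * (N - 1 - j + 1)] (τ^[m * j] P) := by
            rw [← Function.iterate_add_apply, ← mul_add, show N - 1 - j + 1 + j = N by omega,
              mul_comm, h1]
          have h2 := iter hS h (m * j) hP
          have h3 := (iter hS h (m * (N - 1 - j + 1)) h2.1).2.2
          rw [← e, h2.2.1, hc] at h3
          rw [Finsupp.sum_single_index (h := fun P (r : ℤ) => r • cl P) (zero_smul _ _), one_smul,
            map_mul, aeval_C, aeval_X_pow,
            Module.End.mul_apply, Module.algebraMap_end_apply, ← pow_mul, h3, smul_smul,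
            mul_right_comm, pow_mul _ (m * i), ← mul_pow, inv_mul_cancel₀ (pow_ne_zero _ hp0),
            one_pow, one_smul]
    · refine ⟨X ^ N - C ((p : E) ^ (m * N * cd P)), ?_, ?_⟩
      · rw [eval_sub, eval_pow, eval_X, eval_C, sub_ne_zero, ← pow_mul]
        intro e
        have e1 : p ^ (m * i * N) = p ^ (m * N * cd P) := by exact_mod_cast e
        have e2 := Nat.pow_right_injective hp e1
        rw [mul_right_comm] at e2
        exact hc (Nat.eq_of_mul_eq_mul_left (Nat.mul_pos hm hN) e2).symm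
      · have h3 := (iter hS h (m * N) hP).2.2
        rw [mul_comm m N, h1, mul_comm N m] at h3
        rw [map_sub, aeval_X_pow, aeval_C, LinearMap.sub_apply, Module.algebraMap_end_apply,
          ← pow_mul, h3, sub_self]
        exact Submodule.zero_mem _
  | zero => exact ⟨1, by simp, by simp⟩
  | add v w _ _ hv hw =>
    obtain ⟨a, ha, hv⟩ := hv
    obtain ⟨b, hb, hw⟩ := hw
    refine ⟨a * b, by rw [eval_mul]; exact mul_ne_zero ha hb, ?_⟩
    rw [map_add]
    refine add_mem ?_ ?_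
    · rw [mul_comm, map_mul, Module.End.mul_apply]; exact st _ _ hv
    · rw [map_mul, Module.End.mul_apply]; exact st _ _ hw
  | smul c v _ hv =>
    obtain ⟨a, ha, hv⟩ := hv
    exact ⟨a, ha, by rw [map_smul]; exact Submodule.smul_mem _ _ hv⟩

lemma alg (hp : 1 < p) (hS : ∀ P ∈ S, τ P ∈ S) (hper : ∀ P, ∃ N, 0 < N ∧ τ^[N] P = P)
    (h : Stm.Compat p S τ Fr cl cd) (f : E[X])
    (hf : ∀ m, 0 < m → ∀ i, IsCoprime f (X ^ m - C ((p : E) ^ (m * i))))
    (hF : ∀ y, aeval Fr f y ∈ Submodule.span E (cl '' S)) : Stm.Alg p S τ Fr cl cd := by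
  intro m i k hm x hx
  have e : (Fr ^ m - (p : E) ^ (m * i) • 1) = aeval Fr (X ^ m - C ((p : E) ^ (m * i))) := by
    rw [map_sub, aeval_X_pow, aeval_C, Algebra.algebraMap_eq_smul_one]
  have e' : (Fr ^ m - (p : E) ^ (m * i) • 1) = aeval (Fr ^ m) (X - C ((p : E) ^ (m * i))) := by
    rw [map_sub, aeval_X, aeval_C, Algebra.algebraMap_eq_smul_one]
  have h1 : x ∈ Submodule.span E (cl '' S) := by
    obtain ⟨u, v, huv⟩ := (hf m hm i).pow_right (n := k)
    have h4 := congrArg (fun g => aeval Fr g x) huv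
    simp only [map_one, Module.End.one_apply] at h4
    rw [mul_comm u, map_add, map_mul, map_mul, LinearMap.add_apply, Module.End.mul_apply,
      Module.End.mul_apply, map_pow, ← e, hx, map_zero, add_zero] at h4
    rw [← h4]
    exact hF _
  obtain ⟨u, hu, hx'⟩ := carry hp hS hper h hm i h1
  have hc : IsCoprime u (X - C ((p : E) ^ (m * i))) :=
    ((irreducible_X_sub_C _).coprime_iff_not_dvd.2 fun hd => hu (dvd_iff_isRoot.1 hd)).symm
  obtain ⟨a, b, hab⟩ := hc.pow_right (n := k)
  have h4 := congrArg (fun g => aeval (Fr ^ m) g x) hab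
  simp only [map_one, Module.End.one_apply] at h4
  rw [map_add, map_mul, map_mul, LinearMap.add_apply, Module.End.mul_apply,
    Module.End.mul_apply, map_pow, ← e', hx, map_zero, add_zero,
    aeval_eigen (eigen hS h m i hx')] at h4
  rw [← h4]
  exact Submodule.smul_mem _ _ hx'

end Real2

open MvPolynomial

variable {K : Type} [Field K] [IsAlgClosed K] {p q : ℕ} [Fact p.Prime] [CharP K p] {n l : ℕ}
  {s : Fin l → ℕ} {ρ : ℕ → ℕ → ℕ}

omit [IsAlgClosed K] [Fact p.Prime] [CharP K p] in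
lemma tw_eq {ι : Type} : Stm.tw p = cm (pf (K := K) p (Set.univ : Set ι)) := by
  have e : pf (K := K) p (Set.univ : Set ι) = MvPolynomial.expand p :=
    MvPolynomial.algHom_ext fun i => by rw [Frob.pf_X_mem (Set.mem_univ i), MvPolynomial.expand_X]
  rw [e]
  rfl

lemma tw_per (hK : Per K p) {ι : Type} [Finite ι] (P : Pr K ι) :
    ∃ N, 0 < N ∧ (Stm.tw p)^[N] P = P := by
  obtain ⟨s, hs⟩ := IsNoetherian.noetherian P.asIdeal
  obtain ⟨L, h0, h⟩ := Tot.fix_set hK s
  refine ⟨L * 1, by omega, ?_⟩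
  rw [tw_eq]
  exact (eq_of_le_of_dm_le (K := K) (by
    refine hs.ge.trans (Submodule.span_le.2 fun g hg => ?_)
    rw [← Tot.fix_mul (h g hg) 1]
    exact Tot.mem_iter (hs.le (Submodule.subset_span hg)) _) (Tot.dm_iter P _).ge).symm

lemma tw_mem : ∀ P ∈ Stm.Sub K n q s ρ, Stm.tw p P ∈ Stm.Sub K n q s ρ := by
  intro P hP
  rw [StmB.mem_Sub] at hP ⊢
  rw [tw_eq]
  refine ⟨(cm_pf_mem_hat fun x => ?_).2 hP.1, ?_⟩
  · rw [← (pas_Dset (p := p) s ρ).frob x]
    exact iff_of_eq (congrArg (· ∈ _) (funext fun i => pfx_of_mem (Set.mem_univ i) x))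
  · have := fg_BsetS (K := K) (p := p) (n := n) (Set.univ : Set (Fin (l + 1))) Set.univ
    rw [BsetS_univ] at this
    exact FG.stable this hP.2

theorem real2 (hK : Per K p) (hp : IsPP p q) (H : MGoodG p (m2 (Fin (l + 1)) n)
    (BsetA (Fin (l + 1) ⊕ Fin (l + 1)) n) (sq2 (Dset (K := K) q n s ρ))) :
    Stm.Tate p (Stm.Sub K n q s ρ) (Stm.tw p) (Stm.Rat (Stm.Bor K n _) (Stm.Sub₂ K n q s ρ))
      {Q ∈ Stm.Sub₂ K n q s ρ | Stm.IsProd Q} Stm.fst fun j => Stm.graph (p ^ j) := by
  classical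
  intro E V _ _ _ _ Fr cl cd act h₁ h₂ h₃ h₄
  obtain ⟨f, hf, h⟩ := Real.diagF hp H
  let A : (PrimeSpectrum (Stm.Rg K n (Fin (l + 1) ⊕ Fin (l + 1))) →₀ ℚ) →+ Module.End E V :=
    Finsupp.liftAddHom fun Q => ((smulAddHom E _).flip (act Q)).comp (Rat.castHom E).toAddMonoidHom
  have hA : ∀ c, A c = c.sum fun Q r => (r : E) • act Q := fun c => rfl
  have hA1 : ∀ Q (r : ℚ), A (Finsupp.single Q r) = (r : E) • act Q := fun Q r => by
    rw [hA, Finsupp.sum_single_index (by simp)]
  have hW : ∀ c ∈ SmR (m2 (Fin (l + 1)) n) (BsetA (Fin (l + 1) ⊕ Fin (l + 1)) n)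
      (sq2 (Dset q n s ρ)) ⊔ RatG (BsetA (Fin (l + 1) ⊕ Fin (l + 1)) n)
        (sq2 (Dset (K := K) q n s ρ)), ∀ y, A c y ∈ Submodule.span E (cl '' Stm.Sub K n q s ρ) := by
    intro c hc y
    obtain ⟨c₁, h1, c₂, h2, rfl⟩ := Submodule.mem_sup.1 hc
    have h3 : A c₂ = 0 := h₁ c₂ (StmB.rat_map mem_Sub₂ (Submodule.mem_map_of_mem h2))
    rw [map_add, h3, add_zero, hA, Finsupp.sum, LinearMap.sum_apply]
    refine Submodule.sum_mem _ fun Q hQ => ?_
    obtain ⟨k1, k2, k3⟩ := h1 hQ
    have k4 := (mem_Sub₂ Q).2 ⟨k1, k2⟩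
    obtain ⟨d, hd⟩ := h₂ Q ⟨k4, (isProd_iff Q).2 k3⟩ y
    rw [LinearMap.smul_apply, hd]
    exact Submodule.smul_mem _ _ (Submodule.smul_mem _ _
      (Submodule.subset_span ⟨_, fst_mem_Sub k4, rfl⟩))
  have hfin := finite_minimal (K := K) (n := n) hp s ρ
  refine Real2.alg (Fact.out : p.Prime).one_lt tw_mem (tw_per hK) h₄ (f.map (Rat.castHom E))
    (fun m hm i => ?_) fun y => ?_
  · simpa using (Sp.coprime hf hm i).map (Polynomial.mapRingHom (Rat.castHom E))
  · have e : Polynomial.aeval Fr (f.map (Rat.castHom E)) = ∑ P ∈ hfin.toFinset,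
        A (f.sum fun j a => a • Finsupp.single (Stm.graph (p ^ j) P) (1 : ℚ)) := by
      simp only [Polynomial.sum, map_sum, Finsupp.smul_single, smul_eq_mul, mul_one, hA1]
      rw [Finset.sum_comm, Polynomial.aeval_def, Polynomial.eval₂_map, Polynomial.eval₂_eq_sum,
        Polynomial.sum]
      refine Finset.sum_congr rfl fun j _ => ?_
      rw [← Finset.smul_sum, ← finsum_mem_eq_finite_toFinset_sum _ hfin, h₃, Algebra.smul_def]
      rfl
    rw [e, LinearMap.sum_apply]
    exact Submodule.sum_mem _ fun P hP => hW _ (h P (hfin.mem_toFinset.1 hP)) y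

end Pool.Agent.Lib.MP_60ec62_ag.DL
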